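import Mathlib

/-!
Common definitions for MP_0d657e_an (isolated steady states of the 2D Euler equations).
Functions on the torus (R / 2 pi Z)^2 are functions `ℝ → ℝ → ℝ`, `2π`-periodic in both variables.
-/

open Real MeasureTheory

namespace Run7.h117

/-- `2π`-periodic in both variables. -/
def Per (f : ℝ → ℝ → ℝ) : Prop :=
  (∀ x y, f (x + 2 * π) y = f x y) ∧ (∀ x y, f x (y + 2 * π) = f x y)

/-- `C^k` on the plane. -/
def CD (k : WithTop ℕ∞) (f : ℝ → ℝ → ℝ) : Prop := ContDiff ℝ k (fun z : ℝ × ℝ => f z.1 z.2)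

/-- Partial derivative in the first variable. -/
noncomputable def dx (f : ℝ → ℝ → ℝ) : ℝ → ℝ → ℝ := fun x y => deriv (fun s => f s y) x

/-- Partial derivative in the second variable. -/
noncomputable def dy (f : ℝ → ℝ → ℝ) : ℝ → ℝ → ℝ := fun x y => deriv (fun s => f x s) y

/-- Mean over the second variable. -/
noncomputable def mY (f : ℝ → ℝ → ℝ) : ℝ → ℝ :=
  fun x => (2 * π)⁻¹ * ∫ y in (0 : ℝ)..(2 * π), f x y

/-- `ρ = v²`. -/
noncomputable def rho (b : ℝ) (x : ℝ) : ℝ := Real.exp (b * Real.cos x)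

/-- base speed `v = f'`. -/
noncomputable def vv (b : ℝ) (x : ℝ) : ℝ := Real.exp (b / 2 * Real.cos x)

/-- `w = v' / v`. -/
noncomputable def ww (b : ℝ) (x : ℝ) : ℝ := -(b / 2) * Real.sin x

/-- `w'`. -/
noncomputable def ww' (b : ℝ) (x : ℝ) : ℝ := -(b / 2) * Real.cos x

/-- the real trigonometric polynomial `A`. -/
noncomputable def AA (p t : ℝ) (x y : ℝ) : ℝ :=
  -Real.sin y - p * Real.cos (y + x) - p * t * Real.sin (y - x)

/-- a `y`-primitive of `A`. -/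
noncomputable def SS (p t : ℝ) (x y : ℝ) : ℝ :=
  Real.cos y - p * Real.sin (y + x) + p * t * Real.cos (y - x)

/-- first order metric perturbation `m₁ = A/ρ`. -/
noncomputable def m1 (b p t : ℝ) (x y : ℝ) : ℝ := AA p t x y / rho b x

/-- `N₁ = S/ρ`, a `y`-primitive of `m₁`. -/
noncomputable def N1 (b p t : ℝ) (x y : ℝ) : ℝ := SS p t x y / rho b x

/-- the constant-coefficient derivation `D = ∂ₓ + p ∂_y`. -/
noncomputable def DD (p : ℝ) (f : ℝ → ℝ → ℝ) : ℝ → ℝ → ℝ := fun x y => dx f x y + p * dy f x y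

/-- `β = p + w N`, `N = ε N₁`. -/
noncomputable def bet (b p ε t : ℝ) (x y : ℝ) : ℝ := p + ww b x * (ε * N1 b p t x y)

/-- the derivation `E = ∂ₓ + β ∂_y`. -/
noncomputable def EE (b p ε t : ℝ) (f : ℝ → ℝ → ℝ) : ℝ → ℝ → ℝ :=
  fun x y => dx f x y + bet b p ε t x y * dy f x y

/-- `θ = ⟨m̂ K⟩_y` with `m̂ = ε m₁`, `K = ε κ`. -/
noncomputable def th (b p ε t : ℝ) (κ : ℝ → ℝ → ℝ) : ℝ → ℝ :=
  mY (fun x y => (ε * m1 b p t x y) * (ε * κ x y))

/-- `k = λ₀ + ε κ`. -/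
def kk (ε : ℝ) (lam : ℝ → ℝ) (κ : ℝ → ℝ → ℝ) : ℝ → ℝ → ℝ := fun x y => lam x + ε * κ x y

/-- The first order equation: `D(ρ D κ) + n² ρ κ_yy = w' A`, `κ` smooth, periodic, of zero `y`-mean
and with only the first `y`-harmonic. -/
structure Lin (b p n t : ℝ) (κ : ℝ → ℝ → ℝ) : Prop where
  smooth : CD (⊤ : ℕ∞) κ
  per : Per κ
  harm : ∀ x y, κ x (y + π / 2) = dy κ x y
  eq : ∀ x y, DD p (fun x y => rho b x * DD p κ x y) x y + n ^ 2 * rho b x * dy (dy κ) x y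
      = ww' b x * AA p t x y

/-- The exact base data. -/
structure BaseData (b p n ε t : ℝ) (κ : ℝ → ℝ → ℝ) (lam M : ℝ → ℝ) : Prop where
  smooth : CD (⊤ : ℕ∞) κ
  per : Per κ
  mean : ∀ x, mY κ x = 0
  lsmooth : ContDiff ℝ (⊤ : ℕ∞) lam
  lper : ∀ x, lam (x + 2 * π) = lam x
  Msmooth : ContDiff ℝ (⊤ : ℕ∞) M
  Mper : ∀ x, M (x + 2 * π) = M x
  leq : ∀ x, deriv lam x = 2 * ww b x * th b p ε t κ x
  Meq : ∀ x, M x * (lam x + th b p ε t κ x) = 1
  keq : ∀ x y,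
    dx (fun x y => rho b x * EE b p ε t (kk ε lam κ) x y) x y
      + dy (fun x y => bet b p ε t x y * (rho b x * EE b p ε t (kk ε lam κ) x y)) x y
      + n ^ 2 * rho b x * dy (dy (kk ε lam κ)) x y
    = rho b x * ww' b x * (ε * m1 b p t x y) * kk ε lam κ x y
      + rho b x * ww b x * M x
          * (2 * ww b x * th b p ε t κ x + deriv (th b p ε t κ) x)
          * (1 + ε * m1 b p t x y) * kk ε lam κ x y

/-- `C²`-closeness. -/
def Close (η : ℝ) (f g : ℝ → ℝ → ℝ) : Prop :=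
  ∀ x y, |f x y - g x y| ≤ η ∧ |dx f x y - dx g x y| ≤ η ∧ |dy f x y - dy g x y| ≤ η ∧
    |dx (dx f) x y - dx (dx g) x y| ≤ η ∧ |dx (dy f) x y - dx (dy g) x y| ≤ η ∧
    |dy (dy f) x y - dy (dy g) x y| ≤ η

/-- the solvability function `C(t) = ∫∫ w m₁ κ`. -/
noncomputable def CC (b p t : ℝ) (κ : ℝ → ℝ → ℝ) : ℝ :=
  ∫ x in (0 : ℝ)..(2 * π), ww b x * mY (fun x y => m1 b p t x y * κ x y) x

end Run7.h117
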