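import Mathlib
import Pool.Agent.Run7.h117.Defs

/-!
Calculus on the torus: the ring `R = C(ℝ × ℝ, ℝ)`, partial derivatives, double integrals.
-/

open Real MeasureTheory intervalIntegral

namespace Run7.h117

/-- continuous functions on the plane -/
abbrev R := C(ℝ × ℝ, ℝ)

lemma cont_slice_y (f : R) (x : ℝ) : Continuous (fun y : ℝ => f (x, y)) := by fun_prop

lemma cont_slice_x (f : R) (y : ℝ) : Continuous (fun x : ℝ => f (x, y)) := by fun_prop

lemma cont_int_y (f : R) (a b : ℝ) : Continuous (fun x : ℝ => ∫ y in a..b, f (x, y)) := by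
  have h : Continuous (Function.uncurry fun x y : ℝ => f (x, y)) := by
    have : (Function.uncurry fun x y : ℝ => f (x, y)) = fun z : ℝ × ℝ => f z := by
      funext z; rfl
    rw [this]; fun_prop
  exact continuous_parametric_intervalIntegral_of_continuous' h a b

/-- double integral over the fundamental square -/
noncomputable def II : R →ₗ[ℝ] ℝ where
  toFun f := ∫ x in (0 : ℝ)..(2 * π), ∫ y in (0 : ℝ)..(2 * π), f (x, y)
  map_add' f g := by
    rw [← intervalIntegral.integral_add ((cont_int_y f _ _).intervalIntegrable _ _)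
      ((cont_int_y g _ _).intervalIntegrable _ _)]
    refine intervalIntegral.integral_congr fun x _ => ?_
    simp only [ContinuousMap.add_apply]
    rw [intervalIntegral.integral_add ((cont_slice_y f x).intervalIntegrable _ _)
      ((cont_slice_y g x).intervalIntegrable _ _)]
  map_smul' c f := by
    simp only [ContinuousMap.smul_apply, smul_eq_mul, RingHom.id_apply]
    rw [← intervalIntegral.integral_const_mul]
    refine intervalIntegral.integral_congr fun x _ => ?_
    exact intervalIntegral.integral_const_mul _ _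

lemma II_def (f : R) : II f = ∫ x in (0 : ℝ)..(2 * π), ∫ y in (0 : ℝ)..(2 * π), f (x, y) := rfl

lemma two_pi_nonneg' : (0 : ℝ) ≤ 2 * π := by positivity

lemma II_mono {f g : R} (h : ∀ x y, f (x, y) ≤ g (x, y)) : II f ≤ II g := by
  rw [II_def, II_def]
  refine intervalIntegral.integral_mono_on two_pi_nonneg'
    ((cont_int_y f _ _).intervalIntegrable _ _) ((cont_int_y g _ _).intervalIntegrable _ _) ?_
  intro x _
  exact intervalIntegral.integral_mono_on two_pi_nonneg'
    ((cont_slice_y f x).intervalIntegrable _ _) ((cont_slice_y g x).intervalIntegrable _ _)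
    (fun y _ => h x y)

lemma II_nonneg {f : R} (h : ∀ x y, 0 ≤ f (x, y)) : 0 ≤ II f := by
  have := II_mono (f := 0) (g := f) (by simpa using h)
  simpa using this

/-- if `f ≥ 0` continuous periodic has zero integral then `f = 0` on the square. -/
lemma II_eq_zero {f : R} (h : ∀ x y, 0 ≤ f (x, y)) (h0 : II f = 0) :
    ∀ x ∈ Set.Icc 0 (2 * π), ∀ y ∈ Set.Icc 0 (2 * π), f (x, y) = 0 := by
  have h2 : (0:ℝ) < 2 * π := by positivity
  have hin : ∀ x, 0 ≤ ∫ y in (0 : ℝ)..(2 * π), f (x, y) := fun x =>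
    intervalIntegral.integral_nonneg two_pi_nonneg' (fun y _ => h x y)
  have hx : ∀ x ∈ Set.Icc 0 (2 * π), ∫ y in (0 : ℝ)..(2 * π), f (x, y) = 0 := by
    intro x hx
    by_contra hne
    have hpos : 0 < ∫ y in (0 : ℝ)..(2 * π), f (x, y) := lt_of_le_of_ne (hin x) (Ne.symm hne)
    have := intervalIntegral.integral_pos h2 (cont_int_y f 0 (2 * π)).continuousOn
      (fun z _ => hin z) ⟨x, hx, hpos⟩
    rw [II_def] at h0
    linarith
  intro x hx' y hy'
  by_contra hne
  have hpos : 0 < f (x, y) := lt_of_le_of_ne (h x y) (Ne.symm hne)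
  have := intervalIntegral.integral_pos h2 (cont_slice_y f x).continuousOn
    (fun z _ => h x z) ⟨y, hy', hpos⟩
  rw [hx x hx'] at this
  linarith

lemma II_abs_le {f g : R} (h : ∀ x y, |f (x, y)| ≤ g (x, y)) : |II f| ≤ II g := by
  rw [abs_le]
  constructor
  · have := II_mono (f := -g) (g := f) (fun x y => by
      have := (abs_le.mp (h x y)).1; simpa using this)
    simpa using this
  · exact II_mono (fun x y => (abs_le.mp (h x y)).2)

/-- Cauchy-Schwarz. -/
lemma II_cs (f g : R) : (II (f * g)) ^ 2 ≤ II (f * f) * II (g * g) := by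
  have key : ∀ s : ℝ, 0 ≤ II (f * f) * (s * s) + 2 * II (f * g) * s + II (g * g) := by
    intro s
    have h : 0 ≤ II ((s • f + g) * (s • f + g)) := II_nonneg (fun x y => by
      simp only [ContinuousMap.mul_apply]; exact mul_self_nonneg _)
    have e : (s • f + g) * (s • f + g) = (s * s) • (f * f) + (2 * s) • (f * g) + g * g := by
      ext z; simp; ring
    rw [e, map_add, map_add, map_smul, map_smul] at h
    simp only [smul_eq_mul] at h
    linarith
  have := discrim_le_zero key
  unfold discrim at this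
  nlinarith

/-- the L² norm -/
noncomputable def nn (f : R) : ℝ := Real.sqrt (II (f * f))

lemma II_sq_nonneg (f : R) : 0 ≤ II (f * f) := II_nonneg (fun x y => by
  simp only [ContinuousMap.mul_apply]; exact mul_self_nonneg _)

lemma nn_nonneg (f : R) : 0 ≤ nn f := Real.sqrt_nonneg _

lemma nn_sq (f : R) : nn f ^ 2 = II (f * f) := Real.sq_sqrt (II_sq_nonneg f)

lemma II_le_nn (f g : R) : |II (f * g)| ≤ nn f * nn g := by
  refine abs_le_of_sq_le_sq ?_ (mul_nonneg (nn_nonneg f) (nn_nonneg g))
  rw [mul_pow, nn_sq, nn_sq]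
  exact II_cs f g

lemma nn_mono {f g : R} (h : ∀ x y, |f (x, y)| ≤ |g (x, y)|) : nn f ≤ nn g := by
  apply Real.sqrt_le_sqrt
  refine II_mono fun x y => ?_
  simp only [ContinuousMap.mul_apply]
  have := h x y
  nlinarith [abs_nonneg (f (x,y)), abs_nonneg (g (x,y)), sq_abs (f (x,y)), sq_abs (g (x,y))]

lemma nn_smul (c : ℝ) (f : R) : nn (c • f) = |c| * nn f := by
  unfold nn
  have : (c • f) * (c • f) = (c * c) • (f * f) := by ext z; simp; ring
  rw [this, map_smul, smul_eq_mul, Real.sqrt_mul (mul_self_nonneg c), Real.sqrt_mul_self_eq_abs]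

lemma nn_neg (f : R) : nn (-f) = nn f := by
  unfold nn
  congr 2
  ring

lemma nn_add_le (f g : R) : nn (f + g) ≤ nn f + nn g := by
  have h1 : nn (f + g) ^ 2 ≤ (nn f + nn g) ^ 2 := by
    rw [nn_sq]
    have e : (f + g) * (f + g) = f * f + (2:ℝ) • (f * g) + g * g := by
      ext z; simp; ring
    rw [e, map_add, map_add, map_smul, smul_eq_mul, ← nn_sq f, ← nn_sq g]
    have := (abs_le.mp (II_le_nn f g)).2
    nlinarith
  exact le_of_sq_le_sq h1 (add_nonneg (nn_nonneg f) (nn_nonneg g)) |> id

lemma nn_sub_le (f g : R) : nn (f - g) ≤ nn f + nn g := by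
  rw [sub_eq_add_neg]
  calc nn (f + -g) ≤ nn f + nn (-g) := nn_add_le _ _
    _ = _ := by rw [nn_neg]

/-- multiplication by a bounded coefficient -/
lemma nn_mul_le {c f : R} {K : ℝ} (h : ∀ x y, |c (x, y)| ≤ K) : nn (c * f) ≤ K * nn f := by
  have hK : 0 ≤ K := le_trans (abs_nonneg _) (h 0 0)
  have : nn (c * f) ≤ nn (K • f) := nn_mono fun x y => by
    simp only [ContinuousMap.mul_apply, ContinuousMap.smul_apply, smul_eq_mul, abs_mul,
      abs_of_nonneg hK]
    exact mul_le_mul_of_nonneg_right (h x y) (abs_nonneg _)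
  rwa [nn_smul, abs_of_nonneg hK] at this

lemma II_mul3 {c f g : R} {K : ℝ} (h : ∀ x y, |c (x, y)| ≤ K) :
    |II (c * f * g)| ≤ K * nn f * nn g :=
  (II_le_nn _ _).trans (mul_le_mul_of_nonneg_right (nn_mul_le h) (nn_nonneg _))

/-- Partial derivatives of a periodic function. -/
structure PD (f fx fy : R) : Prop where
  hx : ∀ x y, HasDerivAt (fun s => f (s, y)) (fx (x, y)) x
  hy : ∀ x y, HasDerivAt (fun s => f (x, s)) (fy (x, y)) y
  px : ∀ x y, f (x + 2 * π, y) = f (x, y)
  py : ∀ x y, f (x, y + 2 * π) = f (x, y)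

namespace PD

variable {f fx fy g gx gy : R}

lemma mul (hf : PD f fx fy) (hg : PD g gx gy) :
    PD (f * g) (fx * g + f * gx) (fy * g + f * gy) where
  hx x y := (hf.hx x y).mul (hg.hx x y)
  hy x y := (hf.hy x y).mul (hg.hy x y)
  px x y := by simp [hf.px, hg.px]
  py x y := by simp [hf.py, hg.py]

lemma add (hf : PD f fx fy) (hg : PD g gx gy) : PD (f + g) (fx + gx) (fy + gy) where
  hx x y := (hf.hx x y).add (hg.hx x y)
  hy x y := (hf.hy x y).add (hg.hy x y)
  px x y := by simp [hf.px, hg.px]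
  py x y := by simp [hf.py, hg.py]

lemma sub (hf : PD f fx fy) (hg : PD g gx gy) : PD (f - g) (fx - gx) (fy - gy) where
  hx x y := (hf.hx x y).sub (hg.hx x y)
  hy x y := (hf.hy x y).sub (hg.hy x y)
  px x y := by simp [hf.px, hg.px]
  py x y := by simp [hf.py, hg.py]

lemma smul (c : ℝ) (hf : PD f fx fy) : PD (c • f) (c • fx) (c • fy) where
  hx x y := (hf.hx x y).const_mul c
  hy x y := (hf.hy x y).const_mul c
  px x y := by simp [hf.px]
  py x y := by simp [hf.py]

lemma const (c : ℝ) : PD (ContinuousMap.const _ c) 0 0 where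
  hx x y := by simpa using hasDerivAt_const x c
  hy x y := by simpa using hasDerivAt_const y c
  px x y := by simp
  py x y := by simp

lemma one : PD (1 : R) 0 0 := const 1

lemma congr {f' fx' fy' : R} (hf : PD f fx fy) (h : f = f') (hx : fx = fx') (hy : fy = fy') :
    PD f' fx' fy' := by subst h; subst hx; subst hy; exact hf

lemma unique {fx' fy' : R} (hf : PD f fx fy) (hf' : PD f fx' fy') : fx = fx' ∧ fy = fy' :=
  ⟨by ext ⟨x, y⟩; exact (hf.hx x y).unique (hf'.hx x y),
   by ext ⟨x, y⟩; exact (hf.hy x y).unique (hf'.hy x y)⟩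

/-- integral of an `x` derivative vanishes -/
lemma intx (hf : PD f fx fy) : II fx = 0 := by
  have h1 : ∀ y, ∫ x in (0 : ℝ)..(2 * π), fx (x, y) = 0 := by
    intro y
    rw [intervalIntegral.integral_eq_sub_of_hasDerivAt (fun x _ => hf.hx x y)
      ((cont_slice_x fx y).intervalIntegrable _ _)]
    have := hf.px 0 y
    rw [zero_add] at this
    rw [this, sub_self]
  have hsw : ∫ x in (0 : ℝ)..(2 * π), ∫ y in (0 : ℝ)..(2 * π), fx (x, y)
      = ∫ y in (0 : ℝ)..(2 * π), ∫ x in (0 : ℝ)..(2 * π), fx (x, y) := by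
    apply MeasureTheory.intervalIntegral_intervalIntegral_swap
    have hc : Continuous (Function.uncurry fun x y : ℝ => fx (x, y)) := by
      have : (Function.uncurry fun x y : ℝ => fx (x, y)) = fun z : ℝ × ℝ => fx z := by
        funext z; rfl
      rw [this]; fun_prop
    have : IntegrableOn (Function.uncurry fun x y : ℝ => fx (x, y))
        (Set.uIcc 0 (2 * π) ×ˢ Set.uIcc 0 (2 * π)) :=
      hc.continuousOn.integrableOn_compact (isCompact_uIcc.prod isCompact_uIcc)
    exact this.mono_set (Set.prod_mono Set.uIoc_subset_uIcc Set.uIoc_subset_uIcc)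
  rw [II_def, hsw]
  simp [h1]

lemma inty (hf : PD f fx fy) : II fy = 0 := by
  have h1 : ∀ x, ∫ y in (0 : ℝ)..(2 * π), fy (x, y) = 0 := by
    intro x
    rw [intervalIntegral.integral_eq_sub_of_hasDerivAt (fun y _ => hf.hy x y)
      ((cont_slice_y fy x).intervalIntegrable _ _)]
    have := hf.py x 0
    rw [zero_add] at this
    rw [this, sub_self]
  rw [II_def]
  simp [h1]

end PD

end Run7.h117
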