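import Mathlib
import Pool.Agent.Run7.h117.Calc

/-!
Functions of `x` only, means over `y`, primitives in `y`, Poincare inequalities.
-/

open Real MeasureTheory intervalIntegral

namespace Run7.h117

/-- continuous functions on the line -/
abbrev R1 := C(ℝ, ℝ)

/-- a function of `x` only -/
def oX (f : R1) : R := f.comp ⟨Prod.fst, continuous_fst⟩

@[simp] lemma oX_apply (f : R1) (z : ℝ × ℝ) : oX f z = f z.1 := rfl

lemma oX_add (f g : R1) : oX (f + g) = oX f + oX g := rfl
lemma oX_sub (f g : R1) : oX (f - g) = oX f - oX g := rfl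
lemma oX_mul (f g : R1) : oX (f * g) = oX f * oX g := rfl
lemma oX_neg (f : R1) : oX (-f) = -oX f := rfl
lemma oX_smul (c : ℝ) (f : R1) : oX (c • f) = c • oX f := rfl
lemma oX_zero : oX 0 = 0 := rfl
lemma oX_one : oX 1 = 1 := rfl

/-- derivative of a periodic function of one variable -/
structure P1 (f f' : R1) : Prop where
  h : ∀ x, HasDerivAt f (f' x) x
  p : ∀ x, f (x + 2 * π) = f x

namespace P1
variable {f f' g g' : R1}

lemma toPD (hf : P1 f f') : PD (oX f) (oX f') 0 where
  hx x y := by simpa using hf.h x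
  hy x y := by simpa using hasDerivAt_const y (f x)
  px x y := by simpa using hf.p x
  py x y := by simp

lemma mul (hf : P1 f f') (hg : P1 g g') : P1 (f * g) (f' * g + f * g') where
  h x := (hf.h x).mul (hg.h x)
  p x := by simp [hf.p, hg.p]

lemma add (hf : P1 f f') (hg : P1 g g') : P1 (f + g) (f' + g') where
  h x := (hf.h x).add (hg.h x)
  p x := by simp [hf.p, hg.p]

lemma sub (hf : P1 f f') (hg : P1 g g') : P1 (f - g) (f' - g') where
  h x := (hf.h x).sub (hg.h x)
  p x := by simp [hf.p, hg.p]

lemma smul (c : ℝ) (hf : P1 f f') : P1 (c • f) (c • f') where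
  h x := (hf.h x).const_mul c
  p x := by simp [hf.p]

end P1

/-- single integral -/
noncomputable def I1 (f : R1) : ℝ := ∫ x in (0 : ℝ)..(2 * π), f x

/-- mean over `y` -/
noncomputable def mR (f : R) : R1 :=
  ⟨fun x => (2 * π)⁻¹ * ∫ y in (0 : ℝ)..(2 * π), f (x, y),
    continuous_const.mul (cont_int_y f _ _)⟩

lemma mR_apply (f : R) (x : ℝ) : mR f x = (2 * π)⁻¹ * ∫ y in (0 : ℝ)..(2 * π), f (x, y) := rfl

lemma two_pi_ne' : (2 * π : ℝ) ≠ 0 := by positivity

lemma mR_add (f g : R) : mR (f + g) = mR f + mR g := by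
  ext x
  simp only [mR_apply, ContinuousMap.add_apply]
  rw [intervalIntegral.integral_add ((cont_slice_y f x).intervalIntegrable _ _)
      ((cont_slice_y g x).intervalIntegrable _ _)]
  ring

lemma mR_smul (c : ℝ) (f : R) : mR (c • f) = c • mR f := by
  ext x
  simp only [mR_apply, ContinuousMap.smul_apply, smul_eq_mul]
  rw [intervalIntegral.integral_const_mul]
  ring

lemma mR_neg (f : R) : mR (-f) = -mR f := by
  have := mR_smul (-1) f
  simpa using this

lemma mR_sub (f g : R) : mR (f - g) = mR f - mR g := by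
  rw [sub_eq_add_neg, mR_add, mR_neg, sub_eq_add_neg]

lemma mR_oX_mul (a : R1) (f : R) : mR (oX a * f) = a * mR f := by
  ext x
  simp only [mR_apply, ContinuousMap.mul_apply, oX_apply]
  rw [intervalIntegral.integral_const_mul]
  ring

lemma mR_oX (a : R1) : mR (oX a) = a := by
  ext x
  simp only [mR_apply, oX_apply]
  rw [intervalIntegral.integral_const]
  simp
  field_simp

lemma II_eq_mR (f : R) : II f = 2 * π * I1 (mR f) := by
  rw [II_def, I1, ← intervalIntegral.integral_const_mul]
  refine intervalIntegral.integral_congr fun x _ => ?_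
  simp only [mR_apply]
  field_simp

lemma II_oX_mul (a : R1) (f : R) : II (oX a * f) = II (oX (a * mR f)) := by
  rw [II_eq_mR, II_eq_mR, mR_oX_mul, mR_oX]

lemma II_oX (a : R1) : II (oX a) = 2 * π * I1 a := by
  rw [II_eq_mR, mR_oX]

lemma nn_mR_le (f : R) : nn (oX (mR f)) ≤ nn f := by
  have h1 : nn (oX (mR f)) ^ 2 ≤ nn (oX (mR f)) * nn f := by
    rw [nn_sq, ← oX_mul, ← II_oX_mul]
    exact (le_abs_self _).trans (II_le_nn _ _)
  by_cases h0 : nn (oX (mR f)) = 0
  · rw [h0]; exact nn_nonneg f
  · have hpos : 0 < nn (oX (mR f)) := lt_of_le_of_ne (nn_nonneg _) (Ne.symm h0)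
    nlinarith

/-- derivative of the `y`-mean -/
lemma PD.mean {f fx fy : R} (hf : PD f fx fy) : P1 (mR f) (mR fx) where
  h x := by
    have key : HasDerivAt (fun x => ∫ y in (0 : ℝ)..(2 * π), f (x, y))
        (∫ y in (0 : ℝ)..(2 * π), fx (x, y)) x := by
      obtain ⟨K, hK⟩ := (((isCompact_Icc (a := x - 1) (b := x + 1)).prod
        (isCompact_uIcc (a := (0:ℝ)) (b := 2 * π))).image
          (show Continuous (fun z : ℝ × ℝ => |fx z|) by fun_prop)).bddAbove
      refine (intervalIntegral.hasDerivAt_integral_of_dominated_loc_of_deriv_le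
        (F := fun x y => f (x, y)) (F' := fun x y => fx (x, y)) (bound := fun _ => K)
        (s := Set.Icc (x - 1) (x + 1)) (Icc_mem_nhds (by linarith) (by linarith)) ?_ ?_ ?_ ?_ ?_ ?_).2
      · exact Filter.Eventually.of_forall fun z => (cont_slice_y f z).aestronglyMeasurable
      · exact (cont_slice_y f x).intervalIntegrable _ _
      · exact (cont_slice_y fx x).aestronglyMeasurable
      · refine Filter.Eventually.of_forall fun y hy z hz => ?_
        rw [Real.norm_eq_abs]
        exact hK ⟨(z, y), ⟨hz, Set.uIoc_subset_uIcc hy⟩, rfl⟩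
      · exact intervalIntegrable_const
      · refine Filter.Eventually.of_forall fun y _ z _ => hf.hx z y
    exact key.const_mul _
  p x := by
    simp only [mR_apply, hf.px]

/-- primitive in `y` -/
noncomputable def aR (f : R) : R :=
  ⟨fun z => ∫ s in (0 : ℝ)..z.2, f (z.1, s), by
    have h : Continuous (Function.uncurry fun (z : ℝ × ℝ) (s : ℝ) => f (z.1, s)) := by
      have : (Function.uncurry fun (z : ℝ × ℝ) (s : ℝ) => f (z.1, s))
        = fun q : (ℝ × ℝ) × ℝ => f (q.1.1, q.2) := by funext q; rfl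
      rw [this]; fun_prop
    exact intervalIntegral.continuous_parametric_intervalIntegral_of_continuous h continuous_snd⟩

lemma aR_apply (f : R) (x y : ℝ) : aR f (x, y) = ∫ s in (0 : ℝ)..y, f (x, s) := rfl

lemma PD.prim {f fx fy : R} (hf : PD f fx fy) (h0 : mR f = 0) : PD (aR f) (aR fx) f where
  hx x y := by
    obtain ⟨K, hK⟩ := (((isCompact_Icc (a := x - 1) (b := x + 1)).prod
        (isCompact_uIcc (a := (0:ℝ)) (b := y))).image
          (show Continuous (fun z : ℝ × ℝ => |fx z|) by fun_prop)).bddAbove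
    refine (intervalIntegral.hasDerivAt_integral_of_dominated_loc_of_deriv_le
        (F := fun x y => f (x, y)) (F' := fun x y => fx (x, y)) (bound := fun _ => K)
        (s := Set.Icc (x - 1) (x + 1)) (Icc_mem_nhds (by linarith) (by linarith)) ?_ ?_ ?_ ?_ ?_ ?_).2
    · exact Filter.Eventually.of_forall fun z => (cont_slice_y f z).aestronglyMeasurable
    · exact (cont_slice_y f x).intervalIntegrable _ _
    · exact (cont_slice_y fx x).aestronglyMeasurable
    · refine Filter.Eventually.of_forall fun y hy z hz => ?_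
      rw [Real.norm_eq_abs]
      exact hK ⟨(z, y), ⟨hz, Set.uIoc_subset_uIcc hy⟩, rfl⟩
    · exact intervalIntegrable_const
    · refine Filter.Eventually.of_forall fun y _ z _ => hf.hx z y
  hy x y := intervalIntegral.integral_hasDerivAt_right
      ((cont_slice_y f x).intervalIntegrable _ _)
      ((cont_slice_y f x).stronglyMeasurableAtFilter _ _) ((cont_slice_y f x).continuousAt)
  px x y := by
    simp only [aR_apply, hf.px]
  py x y := by
    have h1 : ∫ s in y..(y + 2 * π), f (x, s) = ∫ s in (0:ℝ)..(0 + 2 * π), f (x, s) :=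
      Function.Periodic.intervalIntegral_add_eq (fun s => hf.py x s) y 0
    have h2 : ∫ s in (0:ℝ)..(0 + 2 * π), f (x, s) = 0 := by
      have := congrArg (fun q : R1 => q x) h0
      rw [mR_apply, ContinuousMap.zero_apply] at this
      rw [zero_add]
      exact (mul_eq_zero.mp this).resolve_left (inv_ne_zero two_pi_ne')
    have h3 := intervalIntegral.integral_add_adjacent_intervals
      ((cont_slice_y f x).intervalIntegrable (μ := volume) 0 y)
      ((cont_slice_y f x).intervalIntegrable (μ := volume) y (y + 2 * π))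
    rw [aR_apply, aR_apply, ← h3, h1, h2, add_zero]

/-- crude bound for the primitive -/
lemma nn_aR_le (f : R) : nn (aR f) ≤ 2 * π * nn f := by
  have h2 : (0:ℝ) ≤ 2 * π := two_pi_nonneg'
  have hpt : ∀ x, ∀ y ∈ Set.Icc 0 (2 * π), (aR f (x, y)) ^ 2 ≤
      2 * π * ∫ s in (0 : ℝ)..(2 * π), f (x, s) ^ 2 := by
    intro x y hy
    have hcs : (∫ s in (0 : ℝ)..y, f (x, s)) ^ 2 ≤ y * ∫ s in (0 : ℝ)..y, f (x, s) ^ 2 := by
      have key : ∀ r : ℝ, 0 ≤ (∫ s in (0 : ℝ)..y, f (x, s) ^ 2)
          + 2 * (∫ s in (0 : ℝ)..y, f (x, s)) * r + y * (r * r) := by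
        intro r
        have h := intervalIntegral.integral_nonneg (μ := volume) (f := fun s => (f (x, s) + r) ^ 2)
          hy.1 (fun s _ => sq_nonneg _)
        have e : ∫ s in (0 : ℝ)..y, (f (x, s) + r) ^ 2 =
            (∫ s in (0 : ℝ)..y, f (x, s) ^ 2) + 2 * (∫ s in (0 : ℝ)..y, f (x, s)) * r
              + y * (r * r) := by
          have hi1 : IntervalIntegrable (fun s => f (x, s) ^ 2) volume 0 y :=
            ((cont_slice_y f x).pow 2).intervalIntegrable _ _
          have hi2 : IntervalIntegrable (fun s => 2 * r * f (x, s)) volume 0 y :=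
            (continuous_const.mul (cont_slice_y f x)).intervalIntegrable _ _
          have : (fun s => (f (x, s) + r) ^ 2) = fun s => f (x, s) ^ 2 + 2 * r * f (x, s) + r * r := by
            funext s; ring
          rw [this, intervalIntegral.integral_add (hi1.add hi2) intervalIntegrable_const,
            intervalIntegral.integral_add hi1 hi2, intervalIntegral.integral_const_mul,
            intervalIntegral.integral_const]
          simp only [smul_eq_mul, sub_zero]
          ring
        rw [e] at h; exact h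
      rcases eq_or_lt_of_le hy.1 with h0 | hpos
      · rw [← h0]; simp
      · have := key (-(∫ s in (0 : ℝ)..y, f (x, s)) / y)
        have hy0 : y ≠ 0 := hpos.ne'
        have e2 : (∫ s in (0 : ℝ)..y, f (x, s) ^ 2)
          + 2 * (∫ s in (0 : ℝ)..y, f (x, s)) * (-(∫ s in (0 : ℝ)..y, f (x, s)) / y)
          + y * ((-(∫ s in (0 : ℝ)..y, f (x, s)) / y) * (-(∫ s in (0 : ℝ)..y, f (x, s)) / y))
          = (∫ s in (0 : ℝ)..y, f (x, s) ^ 2) - (∫ s in (0 : ℝ)..y, f (x, s)) ^ 2 / y := by
          field_simp; ring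
        rw [e2] at this
        have h5 : (∫ s in (0 : ℝ)..y, f (x, s)) ^ 2 / y ≤ ∫ s in (0 : ℝ)..y, f (x, s) ^ 2 := by
          linarith
        rw [div_le_iff₀ hpos] at h5
        linarith
    rw [aR_apply]
    refine hcs.trans ?_
    have hmono : ∫ s in (0 : ℝ)..y, f (x, s) ^ 2 ≤ ∫ s in (0 : ℝ)..(2 * π), f (x, s) ^ 2 := by
      apply intervalIntegral.integral_mono_interval le_rfl hy.1 hy.2
      · exact Filter.Eventually.of_forall fun s => sq_nonneg _
      · exact ((cont_slice_y f x).pow 2).intervalIntegrable _ _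
    have hnn : 0 ≤ ∫ s in (0 : ℝ)..(2 * π), f (x, s) ^ 2 :=
      intervalIntegral.integral_nonneg h2 (fun s _ => sq_nonneg _)
    have hnn' : 0 ≤ ∫ s in (0 : ℝ)..y, f (x, s) ^ 2 :=
      intervalIntegral.integral_nonneg hy.1 (fun s _ => sq_nonneg _)
    exact mul_le_mul hy.2 hmono hnn' h2
  have h1 : II (aR f * aR f) ≤ (2 * π) ^ 2 * II (f * f) := by
    rw [II_def, II_def, ← intervalIntegral.integral_const_mul]
    refine intervalIntegral.integral_mono_on h2 ((cont_int_y _ _ _).intervalIntegrable _ _)
      ((continuous_const.mul (cont_int_y _ _ _)).intervalIntegrable _ _) ?_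
    intro x _
    calc ∫ y in (0 : ℝ)..(2 * π), (aR f * aR f) (x, y)
        ≤ ∫ _y in (0 : ℝ)..(2 * π), 2 * π * ∫ s in (0 : ℝ)..(2 * π), f (x, s) ^ 2 := by
          refine intervalIntegral.integral_mono_on h2 ((cont_slice_y _ x).intervalIntegrable _ _)
            intervalIntegrable_const ?_
          intro y hy
          have := hpt x y hy
          simp only [ContinuousMap.mul_apply]
          nlinarith
      _ = (2 * π) ^ 2 * ∫ y in (0 : ℝ)..(2 * π), (f * f) (x, y) := by
          rw [intervalIntegral.integral_const]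
          simp only [smul_eq_mul, sub_zero, ContinuousMap.mul_apply]
          have : ∀ s, f (x, s) * f (x, s) = f (x, s) ^ 2 := fun s => by ring
          simp only [this]
          ring
  unfold nn
  rw [show 2 * π * Real.sqrt (II (f * f)) = Real.sqrt ((2 * π) ^ 2 * II (f * f)) by
    rw [Real.sqrt_mul (sq_nonneg _), Real.sqrt_sq h2]]
  exact Real.sqrt_le_sqrt h1

lemma mR_fy {f fx fy : R} (hf : PD f fx fy) : mR fy = 0 := by
  ext x
  rw [mR_apply, intervalIntegral.integral_eq_sub_of_hasDerivAt (fun y _ => hf.hy x y)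
      ((cont_slice_y fy x).intervalIntegrable _ _)]
  have := hf.py x 0
  rw [zero_add] at this
  rw [this, sub_self]
  simp

/-- Poincare inequality in `y` -/
lemma poincareY {f fx fy : R} (hf : PD f fx fy) : nn (f - oX (mR f)) ≤ 4 * π * nn fy := by
  -- f(x,y) = f(x,0) + aR fy
  let f0 : R1 := ⟨fun x => f (x, 0), by fun_prop⟩
  have e : f = oX f0 + aR fy := by
    ext ⟨x, y⟩
    simp only [ContinuousMap.add_apply, oX_apply, aR_apply]
    rw [intervalIntegral.integral_eq_sub_of_hasDerivAt (fun s _ => hf.hy x s)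
      ((cont_slice_y fy x).intervalIntegrable _ _)]
    show f (x, y) = f (x, 0) + (f (x, y) - f (x, 0))
    ring
  have e2 : f - oX (mR f) = aR fy - oX (mR (aR fy)) := by
    have hm : mR f = f0 + mR (aR fy) := by
      conv_lhs => rw [e]
      rw [mR_add, mR_oX]
    rw [hm, oX_add]
    conv_lhs => rw [e]
    ring
  rw [e2]
  calc nn (aR fy - oX (mR (aR fy))) ≤ nn (aR fy) + nn (oX (mR (aR fy))) := nn_sub_le _ _
    _ ≤ nn (aR fy) + nn (aR fy) := by gcongr; exact nn_mR_le _
    _ ≤ 4 * π * nn fy := by
      have := nn_aR_le fy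
      linarith

end Run7.h117
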