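import Mathlib
import Pool.Agent.Run7.h117.Calc2

/-!
Exact identities for steady flows near the base flow.
-/

open Real MeasureTheory intervalIntegral

namespace Run7.h117

lemma II_c1 {t a b c : R} (h : t = a + b - c) (ha : II a = 0) (hb : II b = 0) :
    II t = - II c := by rw [h, map_sub, map_add, ha, hb]; ring

lemma II_sub_eq {t a : R} (h : II (t - a) = 0) : II t = II a := by
  rw [map_sub] at h; linarith

/-- exact geometric data (see the module description in `Defs`). -/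
structure Geo (n : ℝ) where
  v : R1
  w : R1
  Om : R1
  Om' : R1
  lam : R1
  mh : R
  mu : R
  bt : R
  btx : R
  k : R
  kx : R
  ky : R
  kxx : R
  kxy : R
  kyy : R
  Ev : R
  Evx : R
  Evy : R
  P : R
  Px : R
  Py : R
  Q : R
  Qx : R
  X2 : R
  X2x : R
  X2y : R
  hv : P1 v (w * v)
  hOm : P1 Om Om'
  hlam : P1 (lam * (v * v)) ((2 : ℝ) • (Om * v))
  hlamk : mR k = lam
  hbt : PD bt btx (oX w * mh)
  hk : PD k kx ky
  hkx : PD kx kxx kxy
  hky : PD ky kxy kyy
  hmu : oX Om * mu = oX w * oX v * (1 + mh)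
  M : R1
  hM : ∀ x, 0 < M x
  hmuM : mu = oX M * (1 + mh)
  hmh0 : mR mh = 0
  hP : P = mu * k
  hPD : PD P Px Py
  hmP : mR P = 1
  hQ : PD Q Qx (-Px)
  hX : mu * X2 = Q
  hXPD : PD X2 X2x X2y
  hEv : Ev = oX v * (oX w * k + kx + bt * ky)
  hEvPD : PD Ev Evx Evy
  hK : Evx + (oX w * mh * Ev + bt * Evy) + (n ^ 2) • (oX v * kyy) = oX Om' * P

namespace Geo

variable {n : ℝ} (G : Geo n)

/-- `𝓓 f = ∂ₓ(E f) + ∂_y(β E f) + n² f_yy` -/
def Df (fx fy fxx fxy fyy : R) : R :=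
  fxx + G.btx * fy + G.bt * fxy + (oX G.w * G.mh) * (fx + G.bt * fy)
    + G.bt * (fxy + (oX G.w * G.mh) * fy + G.bt * fyy) + (n ^ 2) • fyy

/-- `𝓓 y` -/
def DY : R := G.btx + (2 : ℝ) • (G.bt * (oX G.w * G.mh))

/-- `H` -/
def H : R := G.kx + (2 : ℝ) • (G.bt * G.ky) - G.X2y

variable {G}

/-- the derivative of `E f` and of `β E f + n² f_y`. -/
lemma PD_Ef {fx fy fxx fxy fyy : R} (hx : PD fx fxx fxy) (hy : PD fy fxy fyy) :
    PD (fx + G.bt * fy) (fxx + (G.btx * fy + G.bt * fxy))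
      (fxy + ((oX G.w * G.mh) * fy + G.bt * fyy)) :=
  hx.add (G.hbt.mul hy)

/-- integration by parts: `∫ T 𝓓f = - ∫ (E f E T + n² f_y T_y)`. -/
lemma ibpD {fx fy fxx fxy fyy T Tx Ty : R} (hx : PD fx fxx fxy) (hy : PD fy fxy fyy)
    (hT : PD T Tx Ty) :
    II (T * G.Df fx fy fxx fxy fyy)
      = - II ((fx + G.bt * fy) * (Tx + G.bt * Ty) + (n ^ 2) • (fy * Ty)) := by
  have hE : PD (fx + G.bt * fy) _ _ := PD_Ef (G := G) hx hy
  have h1 := (hT.mul hE).intx
  have h2 := (hT.mul ((G.hbt.mul hE).add (hy.smul (n ^ 2)))).inty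
  have e : T * G.Df fx fy fxx fxy fyy
      = (Tx * (fx + G.bt * fy) + T * (fxx + (G.btx * fy + G.bt * fxy)))
      + (Ty * (G.bt * (fx + G.bt * fy) + (n ^ 2) • fy)
        + T * (oX G.w * G.mh * (fx + G.bt * fy)
          + G.bt * (fxy + (oX G.w * G.mh * fy + G.bt * fyy)) + (n ^ 2) • fyy))
      - ((fx + G.bt * fy) * (Tx + G.bt * Ty) + (n ^ 2) • (fy * Ty)) := by
    ext z
    simp only [Df, ContinuousMap.mul_apply, ContinuousMap.add_apply, ContinuousMap.sub_apply,
      ContinuousMap.smul_apply, smul_eq_mul]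
    ring
  rw [e, map_sub, map_add, h1, h2]
  ring

/-- (S1) -/
lemma S1 : II (oX G.Om * G.P * oX G.v) = 0 := by
  have h1 : oX G.Om * G.P * oX G.v = oX (G.Om * G.v) * G.P := by rw [oX_mul]; ring
  have h2 := (G.hlam.toPD).intx
  rw [h1, II_oX_mul, G.hmP, mul_one]
  rw [oX_smul, map_smul, smul_eq_mul] at h2
  linarith

/-- the `g`-`g` term -/
lemma gg {g g' : R1} (hg : P1 g g') :
    II ((G.mu * oX G.Om * oX g + oX G.v * oX g') * (G.k * (oX G.v * oX g))) = 0 := by
  have h2 := ((G.hlam.mul (hg.mul hg)).toPD).intx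
  have e1 : (G.mu * oX G.Om * oX g + oX G.v * oX g') * (G.k * (oX G.v * oX g))
      = oX (G.Om * G.v * (g * g)) * G.P + oX (G.v * G.v * (g * g')) * G.k := by
    rw [G.hP]; simp only [oX_mul]; ring
  rw [e1, map_add, II_oX_mul, II_oX_mul, G.hmP, G.hlamk, mul_one]
  have e2 : oX ((2 : ℝ) • (G.Om * G.v) * (g * g) + G.lam * (G.v * G.v) * (g' * g + g * g'))
    = (2 : ℝ) • (oX (G.Om * G.v * (g * g)) + oX (G.v * G.v * (g * g') * G.lam)) := by
    ext z; simp; ring
  rw [e2, map_smul, map_add, smul_eq_mul] at h2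
  linarith

/-- linear terms in `g` -/
lemma lin_g {g g' : R1} (hg : P1 g g') :
    II (oX G.Om * (G.P * (oX G.v * oX g)))
      + II ((G.mu * oX G.Om * oX g + oX G.v * oX g') * (G.k * oX G.v)) = 0 := by
  have h2 := ((G.hlam.mul hg).toPD).intx
  have e0 : oX G.Om * (G.P * (oX G.v * oX g)) = oX (G.Om * G.v * g) * G.P := by
    simp only [oX_mul]; ring
  have e1 : (G.mu * oX G.Om * oX g + oX G.v * oX g') * (G.k * oX G.v)
      = oX (G.Om * G.v * g) * G.P + oX (G.v * G.v * g') * G.k := by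
    rw [G.hP]; simp only [oX_mul]; ring
  rw [e0, e1, map_add, II_oX_mul, II_oX_mul, G.hmP, G.hlamk, mul_one]
  have e2 : oX ((2 : ℝ) • (G.Om * G.v) * g + G.lam * (G.v * G.v) * g')
    = (2 : ℝ) • oX (G.Om * G.v * g) + oX (G.v * G.v * g' * G.lam) := by
    ext z; simp; ring
  rw [e2, map_add, map_smul, smul_eq_mul] at h2
  linarith

lemma PDv : PD (oX G.v) (oX G.w * oX G.v) 0 := by
  have := G.hv.toPD
  rwa [oX_mul] at this

/-- `k v` -/
lemma PDkv : PD (G.k * oX G.v) (oX G.v * (oX G.w * G.k + G.kx)) (oX G.v * G.ky) := by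
  refine (G.hk.mul PDv).congr rfl ?_ ?_
  · ring
  · ring

/-- `∫ kv 𝓓 f = ∫ f 𝓓(kv) = ∫ f Ω' P` -/
lemma lin_f {f fx fy fxx fxy fyy : R} (hf : PD f fx fy) (hx : PD fx fxx fxy)
    (hy : PD fy fxy fyy) :
    II (oX G.Om * (G.P * fx + G.Q * fy))
      + II (G.Df fx fy fxx fxy fyy * (G.k * oX G.v)) = 0 := by
  have h1 := ((G.hOm.toPD.mul G.hPD).mul hf).intx
  have h2 := ((G.hOm.toPD.mul G.hQ).mul hf).inty
  have h3 : II (G.Df fx fy fxx fxy fyy * (G.k * oX G.v)) = II (f * (oX G.Om' * G.P)) := by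
    rw [mul_comm, ibpD hx hy (PDkv (G := G))]
    have h4 := (hf.mul G.hEvPD).intx
    have h5 := (hf.mul ((G.hbt.mul G.hEvPD).add (((PDv (G := G)).mul G.hky).smul (n ^ 2)))).inty
    have e : f * (oX G.Om' * G.P)
        = (fx * G.Ev + f * G.Evx)
        + (fy * (G.bt * G.Ev + (n ^ 2) • (oX G.v * G.ky))
          + f * (oX G.w * G.mh * G.Ev + G.bt * G.Evy
            + (n ^ 2) • (0 * G.ky + oX G.v * G.kyy)))
        - ((fx + G.bt * fy) * (oX G.v * (oX G.w * G.k + G.kx) + G.bt * (oX G.v * G.ky))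
            + (n ^ 2) • (fy * (oX G.v * G.ky))) := by
      rw [← G.hK, G.hEv]
      ext z
      simp only [ContinuousMap.mul_apply, ContinuousMap.add_apply, ContinuousMap.sub_apply,
        ContinuousMap.smul_apply, smul_eq_mul, ContinuousMap.zero_apply]
      ring
    rw [II_c1 e h4 h5]
  rw [h3]
  have e : oX G.Om * (G.P * fx + G.Q * fy) + f * (oX G.Om' * G.P)
      = ((oX G.Om' * G.P + oX G.Om * G.Px) * f + oX G.Om * G.P * fx)
      + ((0 * G.Q + oX G.Om * -G.Px) * f + oX G.Om * G.Q * fy) := by ring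
  rw [← map_add, e, map_add, h1, h2, add_zero]

/-- the mixed term -/
lemma gf {g g' : R1} (hg : P1 g g') {f fx fy fxx fxy fyy : R} (hf : PD f fx fy)
    (hx : PD fx fxx fxy) (hy : PD fy fxy fyy) :
    II ((G.mu * oX G.Om * oX g + oX G.v * oX g') * (G.k * fx + G.X2 * fy))
      + II (G.Df fx fy fxx fxy fyy * (G.k * (oX G.v * oX g)))
      = II (oX G.v * oX g' * G.H * f) := by
  have hgo := hg.toPD
  -- b1
  have h1 := (((G.hOm.toPD.mul hgo).mul G.hPD).mul hf).intx
  have h2 := (((G.hOm.toPD.mul hgo).mul G.hQ).mul hf).inty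
  -- b3
  have hT : PD (G.k * oX G.v * oX g)
      ((oX G.v * (oX G.w * G.k + G.kx)) * oX g + G.k * oX G.v * oX g')
      ((oX G.v * G.ky) * oX g) := by
    refine ((PDkv (G := G)).mul hgo).congr rfl rfl ?_
    ring
  have h3 := ibpD (G := G) hx hy hT
  have h4 := ((hgo.mul hf).mul G.hEvPD).intx
  have h5 := ((hgo.mul hf).mul ((G.hbt.mul G.hEvPD).add
    (((PDv (G := G)).mul G.hky).smul (n ^ 2)))).inty
  -- b2 : the last one, only needs a `y`-derivative, `g'` merely continuous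
  have h6 : II (oX (G.v * g') * ((G.X2 - G.k * G.bt) * fy)) =
      - II (oX (G.v * g') * ((G.X2y - (G.ky * G.bt + G.k * (oX G.w * G.mh))) * f)) := by
    have hq := mR_fy ((G.hXPD.sub (G.hk.mul G.hbt)).mul hf)
    have e : (G.X2 - G.k * G.bt) * fy
        = ((G.X2y - (G.ky * G.bt + G.k * (oX G.w * G.mh))) * f + (G.X2 - G.k * G.bt) * fy)
          - (G.X2y - (G.ky * G.bt + G.k * (oX G.w * G.mh))) * f := by ring
    rw [II_oX_mul, e, mR_sub, hq, zero_sub, II_oX_mul, mul_neg, oX_neg, map_neg]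
  have e3 : G.Df fx fy fxx fxy fyy * (G.k * (oX G.v * oX g))
      = G.k * oX G.v * oX g * G.Df fx fy fxx fxy fyy := by ring
  rw [e3, h3]
  set A1 := ((oX G.Om' * oX g + oX G.Om * oX g') * G.P + oX G.Om * oX g * G.Px) * f
          + oX G.Om * oX g * G.P * fx with hA1
  set A2 := ((0 * oX g + oX G.Om * 0) * G.Q + oX G.Om * oX g * -G.Px) * f
          + oX G.Om * oX g * G.Q * fy with hA2
  set A4 := (oX g' * f + oX g * fx) * G.Ev + oX g * f * G.Evx with hA4
  set A5 := (0 * f + oX g * fy) * (G.bt * G.Ev + (n ^ 2) • (oX G.v * G.ky))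
          + oX g * f * (oX G.w * G.mh * G.Ev + G.bt * G.Evy
            + (n ^ 2) • (0 * G.ky + oX G.v * G.kyy)) with hA5
  set A6 := oX (G.v * g') * ((G.X2 - G.k * G.bt) * fy) with hA6
  set A7 := oX (G.v * g') * ((G.X2y - (G.ky * G.bt + G.k * (oX G.w * G.mh))) * f) with hA7
  set B1 := (G.mu * oX G.Om * oX g + oX G.v * oX g') * (G.k * fx + G.X2 * fy) with hB1
  set B2 := (fx + G.bt * fy) * ((oX G.v * (oX G.w * G.k + G.kx)) * oX g + G.k * oX G.v * oX g'
          + G.bt * ((oX G.v * G.ky) * oX g)) + (n ^ 2) • (fy * ((oX G.v * G.ky) * oX g)) with hB2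
  set B3 := oX G.v * oX g' * G.H * f with hB3
  have etarget : B1 - B2 - B3 = A1 + A2 - (A4 + A5) + (A6 + A7) := by
    rw [hA1, hA2, hA4, hA5, hA6, hA7, hB1, hB2, hB3]
    have hK := G.hK
    have hmu := G.hmu
    have hEv := G.hEv
    have hX := G.hX
    have hPk := G.hP
    have hsm : ∀ a : R, (n ^ 2) • a = ContinuousMap.const _ (n ^ 2) * a := by
      intro a; ext z; simp
    have h2s : ∀ a : R, (2 : ℝ) • a = a + a := fun a => two_smul ℝ a
    simp only [hsm, H, h2s, oX_mul] at hK ⊢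
    linear_combination (exp := 1) (oX g * f) * hK - (oX g' * G.k * f) * hmu
      + (oX g * (fx + G.bt * fy) + oX g' * f) * hEv
      + (oX G.Om * oX g * fy) * hX
      + (-(oX G.Om * oX g * fx) - oX G.Om * oX g' * f) * hPk
  have hfin := congrArg II etarget
  rw [map_sub II (B1 - B2) B3, map_sub II B1 B2, map_add II (A1 + A2 - (A4 + A5)) (A6 + A7),
    map_sub II (A1 + A2) (A4 + A5), map_add II A1 A2, map_add II A4 A5, map_add II A6 A7,
    h1, h2, h4, h5, h6] at hfin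
  linarith

/-- (S2) star identity -/
theorem star {g g' : R1} (hg : P1 g g') {f fx fy fxx fxy fyy : R} (hf : PD f fx fy)
    (hx : PD fx fxx fxy) (hy : PD fy fxy fyy) {c β : ℝ} {ζ : R}
    (hb2 : II (oX G.Om * G.Q) + II (G.DY * (G.k * oX G.v)) = 0)
    (hζ : G.mu * ζ = G.mu * oX G.Om * oX g + oX G.v * oX g' + G.Df fx fy fxx fxy fyy + β • G.DY)
    (hphys : II ((c • oX G.Om + ζ) * (G.P * (c • oX G.v + oX G.v * oX g + fx)
      + G.Q * (fy + β • (1 : R)))) = 0) :
    II (oX G.v * oX g' * G.H * f) + II (G.Df fx fy fxx fxy fyy * (G.k * fx + G.X2 * fy))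
      + β * (II (G.mu * ζ * G.X2) + II (G.DY * (G.k * (oX G.v * oX g + fx) + G.X2 * fy))) = 0 := by
  have hsm : ∀ (r : ℝ) (a : R), r • a = ContinuousMap.const _ r * a := by
    intro r a; ext z; simp
  have e1 : (c • oX G.Om + ζ) * (G.P * (c • oX G.v + oX G.v * oX g + fx)
      + G.Q * (fy + β • (1 : R)))
      = (c ^ 2) • (oX G.Om * G.P * oX G.v)
        + c • ((oX G.Om * (G.P * (oX G.v * oX g))
            + (G.mu * oX G.Om * oX g + oX G.v * oX g') * (G.k * oX G.v))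
          + (oX G.Om * (G.P * fx + G.Q * fy) + G.Df fx fy fxx fxy fyy * (G.k * oX G.v))
          + β • (oX G.Om * G.Q + G.DY * (G.k * oX G.v)))
        + ((G.mu * oX G.Om * oX g + oX G.v * oX g') * (G.k * (oX G.v * oX g))
          + (((G.mu * oX G.Om * oX g + oX G.v * oX g') * (G.k * fx + G.X2 * fy))
            + G.Df fx fy fxx fxy fyy * (G.k * (oX G.v * oX g)))
          + G.Df fx fy fxx fxy fyy * (G.k * fx + G.X2 * fy)
          + β • (G.mu * ζ * G.X2 + G.DY * (G.k * (oX G.v * oX g + fx) + G.X2 * fy))) := by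
    have hPk := G.hP
    have hX := G.hX
    have hc2 : ContinuousMap.const (ℝ × ℝ) (c ^ 2) = (ContinuousMap.const (ℝ × ℝ) c) ^ 2 := by
      ext z; simp
    simp only [hsm, hc2] at hζ ⊢
    linear_combination (exp := 1) (G.k * (ContinuousMap.const _ c * oX G.v + oX G.v * oX g + fx)
        + G.X2 * fy) * hζ
      + (ζ * (ContinuousMap.const _ c * oX G.v + oX G.v * oX g + fx)) * hPk
      - (ζ * (fy + ContinuousMap.const _ β * 1)) * hX
  rw [e1] at hphys
  simp only [map_add, map_smul, smul_eq_mul] at hphys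
  have s1 := S1 (G := G)
  have s2 := lin_g (G := G) hg
  have s3 := lin_f (G := G) hf hx hy
  have s4 := gg (G := G) hg
  have s5 := gf (G := G) hg hf hx hy
  linear_combination (exp := 1) hphys - c ^ 2 * s1 - c * s2 - c * s3 - c * β * hb2 - s4 - s5

/-- (S3) weak equation -/
theorem weak {g g' : R1} {f fx fy fxx fxy fyy : R} (hf : PD f fx fy)
    (hx : PD fx fxx fxy) (hy : PD fy fxy fyy) {c β : ℝ} {ζ : R}
    (hζ : G.mu * ζ = G.mu * oX G.Om * oX g + oX G.v * oX g' + G.Df fx fy fxx fxy fyy + β • G.DY)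
    {Θ Θx Θy T : R} (hΘ : PD Θ Θx Θy) (hT : G.mu * T = oX G.v * Θy)
    (hphys : II ((c • oX G.Om + ζ) * (Θx * (fy + β • (1 : R))
      - Θy * (c • oX G.v + oX G.v * oX g + fx))) = 0) :
    c * (II (oX G.Om' * Θy * f) + II (G.mh * T * (oX G.v * oX g'))
        - II (T * G.Df fx fy fxx fxy fyy)
        - β * (II (oX G.Om' * Θ) + II (T * G.DY)))
      + II (ζ * (Θx * (fy + β • (1 : R)) - Θy * (oX G.v * oX g + fx))) = 0 := by
  have hsm : ∀ (r : ℝ) (a : R), r • a = ContinuousMap.const _ r * a := by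
    intro r a; ext z; simp
  have e1 : (c • oX G.Om + ζ) * (Θx * (fy + β • (1 : R))
      - Θy * (c • oX G.v + oX G.v * oX g + fx))
      = - ((c ^ 2) • (oX (G.Om * G.v) * Θy)) - c • (oX (G.Om * G.v * g) * Θy)
        + c • (oX G.Om * (Θx * fy - Θy * fx)) + (c * β) • (oX G.Om * Θx)
        - c • (oX (G.Om * G.v * g) * Θy + T * (oX G.v * oX g') + T * G.Df fx fy fxx fxy fyy
            + β • (T * G.DY))
        + ζ * (Θx * (fy + β • (1 : R)) - Θy * (oX G.v * oX g + fx)) := by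
    have hc2 : ContinuousMap.const (ℝ × ℝ) (c ^ 2) = (ContinuousMap.const (ℝ × ℝ) c) ^ 2 := by
      ext z; simp
    have hc3 : ContinuousMap.const (ℝ × ℝ) (c * β)
        = (ContinuousMap.const (ℝ × ℝ) c) * (ContinuousMap.const (ℝ × ℝ) β) := by
      ext z; simp
    simp only [hsm, hc2, hc3, oX_mul] at hζ ⊢
    linear_combination (exp := 1) (-(ContinuousMap.const _ c * T)) * hζ
      + (ContinuousMap.const _ c * ζ + ContinuousMap.const _ c * oX G.Om * oX g * (-1) * 1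
          - 0) * hT
  have hm : mR Θy = 0 := mR_fy hΘ
  have z1 : II (oX (G.Om * G.v) * Θy) = 0 := by
    rw [II_oX_mul, hm, mul_zero, oX_zero, map_zero]
  have z2 : II (oX (G.Om * G.v * g) * Θy) = 0 := by
    rw [II_oX_mul, hm, mul_zero, oX_zero, map_zero]
  -- `∫ Om (Θx fy - Θy fx) = ∫ Om' Θy f`
  have z3 : II (oX G.Om * (Θx * fy - Θy * fx)) = II (oX G.Om' * Θy * f) := by
    have h1 := ((G.hOm.toPD.mul hΘ).mul hy).intx
    have h2 := ((G.hOm.toPD.mul hΘ).mul hx).inty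
    have h3 : II (oX G.Om' * (Θy * f + Θ * fy)) = 0 := by
      rw [II_oX_mul, mR_fy (hΘ.mul hf), mul_zero, oX_zero, map_zero]
    have e : oX G.Om * (Θx * fy - Θy * fx) = oX G.Om' * Θy * f
        + ((oX G.Om' * Θ + oX G.Om * Θx) * fy + oX G.Om * Θ * fxy)
        - ((0 * Θ + oX G.Om * Θy) * fx + oX G.Om * Θ * fxy)
        - oX G.Om' * (Θy * f + Θ * fy) := by ring
    rw [e, map_sub, map_sub, map_add, h1, h2, h3]
    ring
  have z4 : II (oX G.Om * Θx) = - II (oX G.Om' * Θ) := by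
    have := ((G.hOm.toPD).mul hΘ).intx
    rw [map_add] at this
    linarith
  have z5 : II (T * (oX G.v * oX g')) = - II (G.mh * T * (oX G.v * oX g')) := by
    have h1 : mR ((1 + G.mh) * T) = 0 := by
      have h2 : oX G.M * ((1 + G.mh) * T) = oX G.v * Θy := by
        rw [← mul_assoc, ← G.hmuM]; exact hT
      have h3 := congrArg mR h2
      rw [mR_oX_mul, mR_oX_mul, hm, mul_zero] at h3
      ext x
      have h4 := congrArg (fun q : R1 => q x) h3
      simp only [ContinuousMap.mul_apply, ContinuousMap.zero_apply, mul_eq_zero] at h4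
      rcases h4 with h4 | h4
      · exact absurd h4 (G.hM x).ne'
      · simpa using h4
    have h5 : T * (oX G.v * oX g') + G.mh * T * (oX G.v * oX g')
        = oX (G.v * g') * ((1 + G.mh) * T) := by rw [oX_mul]; ring
    have h6 := congrArg II h5
    rw [II_oX_mul, h1, mul_zero, oX_zero, map_zero, map_add] at h6
    linarith
  have hfin := congrArg II e1
  rw [hphys] at hfin
  simp only [map_add, map_sub, map_neg, map_smul, smul_eq_mul] at hfin z1 z2 z3 z4 z5 ⊢
  linear_combination (exp := 1) - hfin + c ^ 2 * z1 + 2 * c * z2 - c * z3 - c * β * z4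
    + c * z5

end Geo

end Run7.h117
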