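import Mathlib
import Pool.Agent.Run7.h117.Star

/-!
Energy estimates.
-/

open Real MeasureTheory intervalIntegral

namespace Run7.h117

/-- pointwise bound -/
def Bd (c : R) (a : ℝ) : Prop := ∀ x y, |c (x, y)| ≤ a

namespace Bd
variable {c d : R} {a b : ℝ}

lemma nonneg (h : Bd c a) : 0 ≤ a := (abs_nonneg _).trans (h 0 0)

lemma add (h : Bd c a) (h' : Bd d b) : Bd (c + d) (a + b) := fun x y => by
  rw [ContinuousMap.add_apply]
  exact (abs_add_le _ _).trans (add_le_add (h x y) (h' x y))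

lemma sub (h : Bd c a) (h' : Bd d b) : Bd (c - d) (a + b) := fun x y => by
  rw [ContinuousMap.sub_apply]
  exact (abs_sub _ _).trans (add_le_add (h x y) (h' x y))

lemma mul (h : Bd c a) (h' : Bd d b) : Bd (c * d) (a * b) := fun x y => by
  rw [ContinuousMap.mul_apply, abs_mul]
  exact mul_le_mul (h x y) (h' x y) (abs_nonneg _) h.nonneg

lemma smul (r : ℝ) (h : Bd c a) : Bd (r • c) (|r| * a) := fun x y => by
  rw [ContinuousMap.smul_apply, smul_eq_mul, abs_mul]
  exact mul_le_mul_of_nonneg_left (h x y) (abs_nonneg _)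

lemma neg (h : Bd c a) : Bd (-c) a := fun x y => by
  rw [ContinuousMap.neg_apply, abs_neg]; exact h x y

lemma mono (h : Bd c a) (hab : a ≤ b) : Bd c b := fun x y => (h x y).trans hab

lemma one : Bd (1 : R) 1 := fun _ _ => by simp

lemma const (r : ℝ) : Bd (ContinuousMap.const _ r) |r| := fun x y => by simp

lemma oX {f : R1} (h : ∀ x, |f x| ≤ a) : Bd (oX f) a := fun x y => h x

lemma II (h : Bd c a) (f g : R) : |II (c * f * g)| ≤ a * nn f * nn g := II_mul3 h

lemma nn (h : Bd c a) (f : R) : nn (c * f) ≤ a * nn f := nn_mul_le h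

end Bd

lemma nn_one : nn (1 : R) = 2 * π := by
  unfold nn
  have : II ((1 : R) * 1) = (2 * π) ^ 2 := by
    rw [II_def]
    simp
    ring
  rw [this, Real.sqrt_sq two_pi_nonneg']

lemma nn_one_le : nn (1 : R) ≤ 7 := by
  rw [nn_one]; linarith [Real.pi_lt_d2]

/-- integral of an `x` derivative, only one derivative needed. -/
lemma intx' {F Fx : R} (h : ∀ x y, HasDerivAt (fun s => F (s, y)) (Fx (x, y)) x)
    (hp : ∀ x y, F (x + 2 * π, y) = F (x, y)) : II Fx = 0 := by
  have h1 : ∀ y, ∫ x in (0 : ℝ)..(2 * π), Fx (x, y) = 0 := by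
    intro y
    rw [intervalIntegral.integral_eq_sub_of_hasDerivAt (fun x _ => h x y)
      ((cont_slice_x Fx y).intervalIntegrable _ _)]
    have := hp 0 y
    rw [zero_add] at this
    rw [this, sub_self]
  have hsw : ∫ x in (0 : ℝ)..(2 * π), ∫ y in (0 : ℝ)..(2 * π), Fx (x, y)
      = ∫ y in (0 : ℝ)..(2 * π), ∫ x in (0 : ℝ)..(2 * π), Fx (x, y) := by
    apply MeasureTheory.intervalIntegral_intervalIntegral_swap
    have hc : Continuous (Function.uncurry fun x y : ℝ => Fx (x, y)) := by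
      have : (Function.uncurry fun x y : ℝ => Fx (x, y)) = fun z : ℝ × ℝ => Fx z := by
        funext z; rfl
      rw [this]; fun_prop
    have : IntegrableOn (Function.uncurry fun x y : ℝ => Fx (x, y))
        (Set.uIcc 0 (2 * π) ×ˢ Set.uIcc 0 (2 * π)) :=
      hc.continuousOn.integrableOn_compact (isCompact_uIcc.prod isCompact_uIcc)
    exact this.mono_set (Set.prod_mono Set.uIoc_subset_uIcc Set.uIoc_subset_uIcc)
  rw [II_def, hsw]
  simp [h1]

lemma inty' {F Fy : R} (h : ∀ x y, HasDerivAt (fun s => F (x, s)) (Fy (x, y)) y)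
    (hp : ∀ x y, F (x, y + 2 * π) = F (x, y)) : II Fy = 0 := by
  have h1 : ∀ x, ∫ y in (0 : ℝ)..(2 * π), Fy (x, y) = 0 := by
    intro x
    rw [intervalIntegral.integral_eq_sub_of_hasDerivAt (fun y _ => h x y)
      ((cont_slice_y Fy x).intervalIntegrable _ _)]
    have := hp x 0
    rw [zero_add] at this
    rw [this, sub_self]
  rw [II_def]
  simp [h1]

/-- `∫ Θx By - Θy Bx = 0` when `Θ` is a `y`-primitive of `F`. -/
lemma curl_zero {F Fx Fy B Bx By : R} (hF : PD F Fx Fy) (hB : PD B Bx By) (h0 : mR F = 0) :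
    II (aR Fx * By - F * Bx) = 0 := by
  have hmx : mR Fx = 0 := by
    have h1 := hF.mean
    rw [h0] at h1
    ext x
    exact (h1.h x).unique (hasDerivAt_const x (0 : ℝ))
  have hper : ∀ x y, aR Fx (x, y + 2 * π) = aR Fx (x, y) := by
    intro x y
    have hpy : ∀ x y, Fx (x, y + 2 * π) = Fx (x, y) := by
      intro x y
      have e : (fun s => F (s, y + 2 * π)) = fun s => F (s, y) := by
        funext s; exact hF.py s y
      have h1 := hF.hx x (y + 2 * π)
      rw [e] at h1
      exact h1.unique (hF.hx x y)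
    have h1 : ∫ s in y..(y + 2 * π), Fx (x, s) = ∫ s in (0:ℝ)..(0 + 2 * π), Fx (x, s) :=
      Function.Periodic.intervalIntegral_add_eq (fun s => hpy x s) y 0
    have h2 : ∫ s in (0:ℝ)..(0 + 2 * π), Fx (x, s) = 0 := by
      have := congrArg (fun q : R1 => q x) hmx
      rw [mR_apply, ContinuousMap.zero_apply] at this
      rw [zero_add]
      exact (mul_eq_zero.mp this).resolve_left (inv_ne_zero two_pi_ne')
    have h3 := intervalIntegral.integral_add_adjacent_intervals
      ((cont_slice_y Fx x).intervalIntegrable (μ := volume) 0 y)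
      ((cont_slice_y Fx x).intervalIntegrable (μ := volume) y (y + 2 * π))
    rw [aR_apply, aR_apply, ← h3, h1, h2, add_zero]
  have hy : II (Fx * B + aR Fx * By) = 0 := by
    refine inty' (F := aR Fx * B) (fun x y => ?_) (fun x y => ?_)
    · have h1 : HasDerivAt (fun s => aR Fx (x, s)) (Fx (x, y)) y :=
        intervalIntegral.integral_hasDerivAt_right
          ((cont_slice_y Fx x).intervalIntegrable _ _)
          ((cont_slice_y Fx x).stronglyMeasurableAtFilter _ _) ((cont_slice_y Fx x).continuousAt)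
      exact h1.mul (hB.hy x y)
    · simp only [ContinuousMap.mul_apply, hper, hB.py]
  have hx := (hF.mul hB).intx
  have e : aR Fx * By - F * Bx = (Fx * B + aR Fx * By) - (Fx * B + F * Bx) := by ring
  rw [e, map_sub, hy, hx, sub_zero]

/-- the elementary positivity identity -/
lemma coerc0 {w wp : R1} (hw : P1 w wp) {f fx fy : R} (hf : PD f fx fy) (p : ℝ) :
    II ((fx + p • fy) * (fx + p • fy)) + II (oX (wp + w * w) * f * f)
      = II ((fx + p • fy - oX w * f) * (fx + p • fy - oX w * f)) := by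
  have h1 := (hw.toPD.mul (hf.mul hf)).intx
  have h2 := ((hw.toPD.mul (hf.mul hf)).smul p).inty
  have e : (fx + p • fy - oX w * f) * (fx + p • fy - oX w * f)
      = (fx + p • fy) * (fx + p • fy) + oX (wp + w * w) * f * f
        - (oX wp * (f * f) + oX w * (fx * f + f * fx))
        - (p • (0 * (f * f) + oX w * (fy * f + f * fy))) := by
    ext z; simp; ring
  rw [e, map_sub, map_sub, map_add, h1, h2]
  ring

/-- sum of the three norms -/
noncomputable def SS3 (f fx fy : R) : ℝ := nn f + nn fx + nn fy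

/-- reference energy -/
noncomputable def E0 (n p : ℝ) (V : R1) (f fx fy : R) : ℝ :=
  II ((fx + p • fy) * (fx + p • fy)) + n ^ 2 * II (fy * fy) + II (oX V * f * f)

lemma num_coerc {n p K r A F X Y : ℝ} (hn : 0 < n) (hK : 10 ≤ K) (hp : p ≤ 1) (hr0 : 0 ≤ r)
    (hy0 : 0 ≤ Y) (h1 : A ≤ r) (h3 : F ≤ 26 * Y) (h7 : X ≤ A + p * Y + K * F)
    (hfy : Y ≤ r / n) (hrn : r ≤ r / n) : F + X + Y ≤ 30 * K ^ 2 / n * r := by
  have hK0 : 0 ≤ K := by linarith
  have a1 : p * Y ≤ Y := mul_le_of_le_one_left hy0 hp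
  have a2 : K * F ≤ K * (26 * Y) := by gcongr
  have a3 : F + X + Y ≤ (28 + 26 * K) * Y + r := by linarith
  have a4 : (28 + 26 * K) * Y ≤ (28 + 26 * K) * (r / n) := by gcongr
  have hrn0 : 0 ≤ r / n := div_nonneg hr0 hn.le
  have a5 : 30 * K ^ 2 / n * r = 30 * K ^ 2 * (r / n) := by ring
  rw [a5]
  have a6 : 29 + 26 * K ≤ 30 * K ^ 2 := by clear * - hK; nlinarith
  have a7 : (29 + 26 * K) * (r / n) ≤ 30 * K ^ 2 * (r / n) := by gcongr
  linarith

lemma coerc {n p K : ℝ} {w wp : R1} {mh : R} (hn : 0 < n) (hn1 : n ≤ 1) (hK : 10 ≤ K)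
    (hp0 : 0 ≤ p) (hp : p ≤ 1)
    (hw : P1 w wp) (bw : ∀ x, |w x| ≤ K) (bm : Bd mh (1 / 2)) {f fx fy : R} (hf : PD f fx fy)
    (hm : mR ((1 + mh) * f) = 0) :
    SS3 f fx fy ^ 2 ≤ (30 * K ^ 2 / n) ^ 2 * E0 n p (wp + w * w) f fx fy := by
  set E := E0 n p (wp + w * w) f fx fy with hE
  have hpi : π ≤ 3.15 := by linarith [Real.pi_lt_d2]
  have h0 := coerc0 hw hf p
  have hE1 : E = nn (fx + p • fy - oX w * f) ^ 2 + n ^ 2 * nn fy ^ 2 := by
    rw [hE, E0, nn_sq, nn_sq]; linarith
  have hEn : 0 ≤ E := by rw [hE1]; positivity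
  set r := Real.sqrt E with hr
  have hr0 : 0 ≤ r := Real.sqrt_nonneg _
  have hr2 : r ^ 2 = E := Real.sq_sqrt hEn
  have h1 : nn (fx + p • fy - oX w * f) ≤ r := by
    apply Real.le_sqrt_of_sq_le
    rw [hE1]; nlinarith [sq_nonneg (n * nn fy)]
  have h2 : n * nn fy ≤ r := by
    apply Real.le_sqrt_of_sq_le
    rw [hE1]; nlinarith [sq_nonneg (nn (fx + p • fy - oX w * f))]
  have h3 : nn f ≤ 26 * nn fy := by
    have hmm : mR f = - mR (mh * f) := by
      have : (1 + mh) * f = f + mh * f := by ring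
      rw [this, mR_add] at hm
      exact eq_neg_of_add_eq_zero_left hm
    have h4 : nn (oX (mR f)) ≤ 1 / 2 * nn f := by
      rw [hmm, oX_neg, nn_neg]
      exact (nn_mR_le _).trans (bm.nn f)
    have h5 := poincareY hf
    have h6 : nn f ≤ nn (f - oX (mR f)) + nn (oX (mR f)) := by
      have := nn_add_le (f - oX (mR f)) (oX (mR f))
      rwa [sub_add_cancel] at this
    have := nn_nonneg fy
    nlinarith
  have h7 : nn fx ≤ nn (fx + p • fy - oX w * f) + p * nn fy + K * nn f := by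
    have e : fx = (fx + p • fy - oX w * f) - p • fy + oX w * f := by ext z; simp; ring
    have a1 := nn_add_le ((fx + p • fy - oX w * f) - p • fy) (oX w * f)
    have a2 := nn_sub_le (fx + p • fy - oX w * f) (p • fy)
    have a3 := (Bd.oX bw).nn f
    rw [nn_smul, abs_of_nonneg hp0] at a2
    rw [← e] at a1
    linarith
  have hfy : nn fy ≤ r / n := by rw [le_div_iff₀ hn]; linarith
  have hrn : r ≤ r / n := by
    rw [le_div_iff₀ hn]; nlinarith
  have hfin : SS3 f fx fy ≤ 30 * K ^ 2 / n * r :=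
    num_coerc hn hK hp hr0 (nn_nonneg fy) h1 h3 h7 hfy hrn
  have hS0 : 0 ≤ SS3 f fx fy := by
    unfold SS3; have := nn_nonneg f; have := nn_nonneg fx; have := nn_nonneg fy; linarith
  calc SS3 f fx fy ^ 2 ≤ (30 * K ^ 2 / n * r) ^ 2 := by gcongr
    _ = _ := by rw [mul_pow, hr2]

end Run7.h117
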