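import Mathlib

/-!
Numeric lemmas for the energy estimates, kept apart for speed.
-/

namespace Run7.h117

lemma num_a {K : ℝ} (hK : 10 ≤ K) : K * K * K + K * K ≤ 2 * K ^ 3 ∧ K * K ≤ 2 * K ^ 3 ∧
    K ≤ K ^ 3 ∧ K ^ 2 ≤ K ^ 3 ∧ 100 * K ^ 3 ≤ K ^ 5 ∧ 100 ≤ K ^ 5 ∧ 28 * K ^ 2 ≤ K ^ 4 ∧
    49 * 4 * K ^ 2 ≤ K ^ 5 := by
  have h1 : 0 < K := by linarith
  have h2 : 10 * K ≤ K ^ 2 := by nlinarith
  have h3 : 10 * K ^ 2 ≤ K ^ 3 := by nlinarith [sq_nonneg K]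
  have h4 : 10 * K ^ 3 ≤ K ^ 4 := by nlinarith [pow_pos h1 3]
  have h5 : 10 * K ^ 4 ≤ K ^ 5 := by nlinarith [pow_pos h1 4]
  have e1 : K * K * K + K * K = K ^ 3 + K ^ 2 := by ring
  have e2 : K * K = K ^ 2 := by ring
  rw [e1, e2]
  have := pow_pos h1 2
  have := pow_pos h1 3
  have := pow_pos h1 4
  refine ⟨?_, ?_, ?_, ?_, ?_, ?_, ?_, ?_⟩ <;> linarith

lemma num_b {K δ b n O c : ℝ} (h5 : 1 / 2 * b * 1 ≤ c * b * (K * O))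
    (h6 : c * b * (K * O) ≤ K * (7 * (K * δ) * n + b * (49 * (K * δ)))) :
    1 / 2 * b ≤ 7 * K ^ 2 * δ * n + b * (49 * K ^ 2 * δ) := by
  have := h5.trans h6
  linarith [this]

lemma num_c {K δ : ℝ} (hK : 10 ≤ K) (hδ0 : 0 ≤ δ) (hδ : K ^ 5 * δ ≤ 1) :
    49 * K ^ 2 * δ ≤ 1 / 4 := by
  have h := (num_a hK).2.2.2.2.2.2.2
  have := mul_le_mul_of_nonneg_right h hδ0
  linarith

lemma num_d {K δ b n : ℝ} (hb : 0 ≤ b) (a4 : 1 / 2 * b ≤ 7 * K ^ 2 * δ * n + b * (49 * K ^ 2 * δ))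
    (a5 : 49 * K ^ 2 * δ ≤ 1 / 4) (a7 : 28 * K ^ 2 * (δ * n) ≤ K ^ 4 * (δ * n)) :
    b ≤ K ^ 4 * δ * n := by
  have := mul_le_mul_of_nonneg_left a5 hb
  linarith

lemma num_e {K a b w u v : ℝ} (hK : 10 ≤ K) (hu : 0 ≤ u) (hv : 0 ≤ v)
    (h1 : a ≤ (K * K * K + K * K) * u) (h2 : b ≤ K * K * v) (h3 : w ≤ a + b) :
    w ≤ 2 * K ^ 3 * (u + v) := by
  have h4 := mul_le_mul_of_nonneg_right (num_a hK).1 hu
  have h5 := mul_le_mul_of_nonneg_right (num_a hK).2.1 hv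
  linarith

lemma num_f {K X Y A N : ℝ} (hK : 10 ≤ K) (hN : 0 ≤ N) (h1 : X ≤ K * (7 * K ^ 2 * N) * 7)
    (h2 : Y ≤ 3 * K * N * 7) (h3 : A ≤ X + Y) : A ≤ 70 * K ^ 3 * N := by
  have h4 := mul_le_mul_of_nonneg_right (num_a hK).2.2.1 hN
  linarith

lemma num_g {K a b : ℝ} (hK : 10 ≤ K) (ha : 0 ≤ a) (hb : 0 ≤ b) :
    K ^ 2 * (K * a + b) ≤ 14 * K ^ 3 * (a + b) := by
  have h4 := mul_le_mul_of_nonneg_right (num_a hK).2.2.2.1 hb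
  have h5 : 0 ≤ K ^ 3 * a := mul_nonneg (pow_nonneg (by linarith) 3) ha
  have h6 : 0 ≤ K ^ 3 * b := mul_nonneg (pow_nonneg (by linarith) 3) hb
  linarith

lemma num_h {c X Y Z : ℝ} (hc : 1 / 2 ≤ c) (hZ : 0 ≤ Z) (h : c * X ≤ c * Y + Z) :
    X ≤ Y + 2 * Z := by
  have hc0 : 0 < c := by linarith
  have : c * X ≤ c * (Y + 2 * Z) := by nlinarith
  exact le_of_mul_le_mul_left this hc0

lemma num_j {K ε : ℝ} (hK : 10 ≤ K) (hKε : K * ε ≤ 1 / 2) :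
    K * ε + 2 * (2 * (K * (K * ε))) ≤ 3 * K := by
  have := mul_le_mul_of_nonneg_left hKε (show 0 ≤ K by linarith)
  linarith

lemma num_i {K N b δ g S : ℝ} (hK : 10 ≤ K) (hN : 0 ≤ N) (hb : 0 ≤ b) (hδ0 : 0 ≤ δ)
    (hδ : K ^ 5 * δ ≤ 1) (hg : 0 ≤ g) (hS : 0 ≤ S) :
    b * (70 * K ^ 3 * N) + 2 * (14 * K ^ 3 * N * (δ * (g + S + 7 * b)))
      ≤ K ^ 5 * (b + δ * (g + S)) * N := by
  have h0 := (num_a hK).2.2.2.2.2.1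
  have h4 : δ ≤ 1 / 100 := by nlinarith
  have hW : δ * b ≤ 1 / 100 * b := by gcongr
  have hY : 0 ≤ δ * (g + S) := by positivity
  have h1 : b * 70 + 2 * (14 * (δ * (g + S + 7 * b))) ≤ 100 * (b + δ * (g + S)) := by
    have e : 2 * (14 * (δ * (g + S + 7 * b))) = 28 * (δ * (g + S)) + 196 * (δ * b) := by ring
    rw [e]; linarith
  have hX : 0 ≤ K ^ 3 * N := by positivity
  have h2 := mul_le_mul_of_nonneg_right h1 hX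
  have h3 := (num_a hK).2.2.2.2.1
  have h5 : 0 ≤ (b + δ * (g + S)) * N := by positivity
  have h6 := mul_le_mul_of_nonneg_right h3 h5
  linarith

lemma num_k {K : ℝ} (hK : 10 ≤ K) : K + K * K ≤ 2 * K ^ 2 := by nlinarith

lemma num_l {K ε S T : ℝ} (hK : 10 ≤ K) (hε : 0 ≤ ε) (hS : 0 ≤ S) (hT : 0 ≤ T) :
    3 * (K * ε) * S * T + (2 * (K * ε) + 2 * K ^ 3 * ε) * S * T ≤ 3 * K ^ 3 * ε * S * T := by
  have h1 : 5 * K ≤ K ^ 3 := by nlinarith [sq_nonneg K]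
  have h2 : 0 ≤ ε * (S * T) := by positivity
  have h3 := mul_le_mul_of_nonneg_right h1 h2
  linarith

lemma num_m {K : ℝ} (hK : 10 ≤ K) : K ≤ K ^ 2 := by nlinarith

lemma num_o {K ε : ℝ} (hK : 10 ≤ K) (hε : 0 ≤ ε) : K * ε + 2 * (K * ε) ≤ 3 * K ^ 2 * ε := by
  have := mul_le_mul_of_nonneg_right (num_m hK) hε
  linarith

lemma num_p {K ε : ℝ} (hK : 10 ≤ K) (hε : 0 ≤ ε) :
    K * ε + 2 * (K * ε) + 2 * (K * ε) + 2 * (K * (K * ε)) ≤ 3 * K ^ 2 * ε := by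
  have h : 5 * K ≤ K ^ 2 := by nlinarith
  have := mul_le_mul_of_nonneg_right h hε
  linarith

lemma num_q {K ε Q a1 a2 a3 : ℝ} (hK : 10 ≤ K) (hε : 0 ≤ ε) (hQ : 0 ≤ Q)
    (t1 : |a1| ≤ 10 * (K * ε) * Q) (t2 : |a2| ≤ 6 * K ^ 2 * ε * Q) (t3 : |a3| ≤ K * ε * Q) :
    |1 / 2 * a1 - a2 - a3| ≤ K ^ 3 * ε * Q := by
  have h1 : 6 * K + 6 * K ^ 2 ≤ K ^ 3 := by nlinarith
  have h2 : 0 ≤ ε * Q := mul_nonneg hε hQ
  have h3 := mul_le_mul_of_nonneg_right h1 h2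
  rw [abs_le] at t1 t2 t3 ⊢
  constructor <;> linarith [t1.1, t1.2, t2.1, t2.2, t3.1, t3.2]

end Run7.h117
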