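import Mathlib
import Pool.Agent.Run7.h117.Energy
import Pool.Agent.Run7.h117.Num

/-!
Energy estimates, second part.
-/

open Real MeasureTheory intervalIntegral

namespace Run7.h117

/-- quantitative bounds for the geometric data -/
structure Bds {n : ℝ} (G : Geo n) (p K ε : ℝ) (wp vi : R1) (q mux muy mhx mhy : R) : Prop where
  hn : 0 < n
  hn1 : n ≤ 1
  hnK : 1 ≤ K * n
  hp0 : 0 ≤ p
  hp1 : p ≤ 1
  hK : 10 ≤ K
  hε : 0 < ε
  hKε : K * ε ≤ 1 / 2
  hw : P1 G.w wp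
  hvi : vi * G.v = 1
  bv : ∀ x, |G.v x| ≤ K
  bvi : ∀ x, |vi x| ≤ K
  bw : ∀ x, |G.w x| ≤ K
  bwp : ∀ x, |wp x| ≤ K
  bOm : ∀ x, |G.Om x| ≤ K
  bOm' : ∀ x, |G.Om' x| ≤ K
  OmPos : 1 ≤ K * II (oX G.Om * oX G.Om)
  bmu : Bd G.mu K
  hmuPD : PD G.mu mux muy
  bmux : Bd mux K
  hmh : PD G.mh mhx mhy
  bmh : Bd G.mh (K * ε)
  bmhx : Bd mhx (K * ε)
  bbt : Bd (G.bt - ContinuousMap.const _ p) (K * ε)
  bbtx : Bd G.btx (K * ε)
  bk : Bd (G.k - 1) (K * ε)
  bkx : Bd G.kx (K * ε)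
  bky : Bd G.ky (K * ε)
  bX : Bd (G.X2 - ContinuousMap.const _ p) (K * ε)
  bXx : Bd G.X2x (K * ε)
  bXy : Bd G.X2y (K * ε)
  hq : q * oX G.v = oX G.Om' * G.mu
  bq : Bd (q - oX (wp + G.w * G.w)) (K * ε)

/-- a steady flow near the base flow, decomposed -/
structure Sol {n : ℝ} (G : Geo n) (c β : ℝ) (g g' : R1) (f fx fy fxx fxy fyy ζ B : R) :
    Prop where
  hg : P1 g g'
  hf : PD f fx fy
  hx : PD fx fxx fxy
  hy : PD fy fxy fyy
  hζ : G.mu * ζ = G.mu * oX G.Om * oX g + oX G.v * oX g' + G.Df fx fy fxx fxy fyy + β • G.DY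
  hB : PD B ((c • oX G.Om + ζ) * (c • oX G.v + oX G.v * oX g + fx))
    ((c • oX G.Om + ζ) * (fy + β • (1 : R)))
  hm : mR ((1 + G.mh) * f) = 0

section geom
variable {n : ℝ} {G : Geo n}

lemma Geo.pohozaev {fx fy fxx fxy fyy : R} (hx : PD fx fxx fxy) (hy : PD fy fxy fyy) :
    II (G.Df fx fy fxx fxy fyy * (G.k * fx + G.X2 * fy))
      = 1 / 2 * II ((G.kx + G.X2y) * ((fx + G.bt * fy) * (fx + G.bt * fy) + (n ^ 2) • (fy * fy)))
        - II ((fx + G.bt * fy) * ((G.kx + G.bt * G.ky) * fx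
            + (G.X2x + G.bt * G.X2y - G.k * G.btx - G.X2 * (oX G.w * G.mh)) * fy))
        - n ^ 2 * II (fy * (G.ky * fx + G.X2y * fy)) := by
  have he : PD (fx + G.bt * fy) _ _ := Geo.PD_Ef (G := G) hx hy
  have hX : PD (G.k * fx + G.X2 * fy) _ _ := (G.hk.mul hx).add (G.hXPD.mul hy)
  have h1 := (he.mul hX).intx
  have h2 := (((G.hbt.mul he).add (hy.smul (n ^ 2))).mul hX).inty
  have h3 := (G.hk.mul ((he.mul he).add ((hy.mul hy).smul (n ^ 2)))).intx
  have h4 := (G.hXPD.mul ((he.mul he).add ((hy.mul hy).smul (n ^ 2)))).inty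
  set e := fx + G.bt * fy with hedef
  have key : G.Df fx fy fxx fxy fyy * (G.k * fx + G.X2 * fy)
      = ((fxx + (G.btx * fy + G.bt * fxy)) * (G.k * fx + G.X2 * fy)
          + e * (G.kx * fx + G.k * fxx + (G.X2x * fy + G.X2 * fxy)))
        + ((oX G.w * G.mh * e + G.bt * (fxy + (oX G.w * G.mh * fy + G.bt * fyy))
              + (n ^ 2) • fyy) * (G.k * fx + G.X2 * fy)
          + (G.bt * e + (n ^ 2) • fy) * (G.ky * fx + G.k * fxy + (G.X2y * fy + G.X2 * fyy)))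
        - (1 / 2 : ℝ) • (G.kx * (e * e + (n ^ 2) • (fy * fy))
          + G.k * ((fxx + (G.btx * fy + G.bt * fxy)) * e + e * (fxx + (G.btx * fy + G.bt * fxy))
            + (n ^ 2) • (fxy * fy + fy * fxy)))
        - (1 / 2 : ℝ) • (G.X2y * (e * e + (n ^ 2) • (fy * fy))
          + G.X2 * ((fxy + (oX G.w * G.mh * fy + G.bt * fyy)) * e
              + e * (fxy + (oX G.w * G.mh * fy + G.bt * fyy))
            + (n ^ 2) • (fyy * fy + fy * fyy)))
        + (1 / 2 : ℝ) • ((G.kx + G.X2y) * (e * e + (n ^ 2) • (fy * fy)))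
        - e * ((G.kx + G.bt * G.ky) * fx
            + (G.X2x + G.bt * G.X2y - G.k * G.btx - G.X2 * (oX G.w * G.mh)) * fy)
        - (n ^ 2) • (fy * (G.ky * fx + G.X2y * fy)) := by
    rw [hedef]
    ext z
    simp only [Geo.Df, ContinuousMap.mul_apply, ContinuousMap.add_apply,
      ContinuousMap.sub_apply, ContinuousMap.smul_apply, smul_eq_mul, oX_apply]
    ring
  have := congrArg II key
  simp only [map_add II, map_sub II, map_smul, smul_eq_mul] at this h1 h2 h3 h4 ⊢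
  linear_combination (exp := 1) this + h1 + h2 - 1 / 2 * h3 - 1 / 2 * h4

end geom

section est

variable {n : ℝ} {G : Geo n} {p K ε : ℝ} {wp vi : R1} {q mux muy mhx mhy : R}

lemma SS3_nonneg (f fx fy : R) : 0 ≤ SS3 f fx fy := by
  unfold SS3; have := nn_nonneg f; have := nn_nonneg fx; have := nn_nonneg fy; linarith

lemma le_SS3_1 (f fx fy : R) : nn f ≤ SS3 f fx fy := by
  unfold SS3; have := nn_nonneg f; have := nn_nonneg fx; have := nn_nonneg fy; linarith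

lemma le_SS3_2 (f fx fy : R) : nn fx ≤ SS3 f fx fy := by
  unfold SS3; have := nn_nonneg f; have := nn_nonneg fx; have := nn_nonneg fy; linarith

lemma le_SS3_3 (f fx fy : R) : nn fy ≤ SS3 f fx fy := by
  unfold SS3; have := nn_nonneg f; have := nn_nonneg fx; have := nn_nonneg fy; linarith

namespace Bds

variable (hb : Bds G p K ε wp vi q mux muy mhx mhy)
include hb

lemma bbt' : Bd G.bt 2 := by
  have h := hb.bbt.add (Bd.const p)
  have e : G.bt - ContinuousMap.const _ p + ContinuousMap.const _ p = G.bt := by ring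
  rw [e] at h
  refine h.mono ?_
  have := hb.hKε
  have := hb.hp1
  rw [abs_of_nonneg hb.hp0]; linarith

lemma bX' : Bd G.X2 2 := by
  have h := hb.bX.add (Bd.const p)
  have e : G.X2 - ContinuousMap.const _ p + ContinuousMap.const _ p = G.X2 := by ring
  rw [e] at h
  refine h.mono ?_
  have := hb.hKε
  have := hb.hp1
  rw [abs_of_nonneg hb.hp0]; linarith

lemma bk' : Bd G.k 2 := by
  have h := hb.bk.add Bd.one
  have e : G.k - 1 + 1 = G.k := by ring
  rw [e] at h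
  refine h.mono ?_
  have := hb.hKε
  linarith

lemma K0 : 0 < K := by have := hb.hK; linarith

lemma Kε0 : 0 ≤ K * ε := mul_nonneg hb.K0.le hb.hε.le

lemma nn_Ef {fx fy : R} : nn (fx + G.bt * fy) ≤ nn fx + 2 * nn fy :=
  (nn_add_le _ _).trans (by have := hb.bbt'.nn fy; linarith)

lemma bwm : Bd (oX G.w * G.mh) (K * (K * ε)) := (Bd.oX hb.bw).mul hb.bmh

/-- the Pohozaev term is small -/
lemma poh {f fx fy fxx fxy fyy : R} (hx : PD fx fxx fxy) (hy : PD fy fxy fyy) :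
    |II (G.Df fx fy fxx fxy fyy * (G.k * fx + G.X2 * fy))| ≤ K ^ 3 * ε * SS3 f fx fy ^ 2 := by
  rw [Geo.pohozaev hx hy]
  set S := SS3 f fx fy with hS
  have hS0 : 0 ≤ S := SS3_nonneg f fx fy
  have s2 : nn fx ≤ S := le_SS3_2 f fx fy
  have s3 : nn fy ≤ S := le_SS3_3 f fx fy
  have s23 : nn fx + nn fy ≤ S := by rw [hS, SS3]; have := nn_nonneg f; linarith
  have n2 := nn_nonneg fx
  have n3 := nn_nonneg fy
  have hK := hb.hK
  have hε := hb.hε
  have hn2 : n ^ 2 ≤ 1 := pow_le_one₀ hb.hn.le hb.hn1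
  have hn0 : 0 ≤ n ^ 2 := sq_nonneg n
  have ke := hb.Kε0
  have hKε := hb.hKε
  set e := fx + G.bt * fy with he
  have hen : nn e ≤ 2 * S := hb.nn_Ef.trans (by linarith)
  have hen0 := nn_nonneg e
  have t1 : |II ((G.kx + G.X2y) * (e * e + (n ^ 2) • (fy * fy)))| ≤ 10 * (K * ε) * S ^ 2 := by
    have e1 : (G.kx + G.X2y) * (e * e + (n ^ 2) • (fy * fy))
        = (G.kx + G.X2y) * e * e + (n ^ 2) • ((G.kx + G.X2y) * fy * fy) := by
      ext z; simp; ring
    rw [e1, map_add, map_smul, smul_eq_mul]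
    have b := hb.bkx.add hb.bXy
    have a1 := b.II e e
    have a2 := b.II fy fy
    have a3 : |n ^ 2 * II ((G.kx + G.X2y) * fy * fy)| ≤ (K * ε + K * ε) * nn fy * nn fy := by
      rw [abs_mul, abs_of_nonneg hn0]
      exact (mul_le_of_le_one_left (abs_nonneg _) hn2).trans a2
    refine (abs_add_le _ _).trans ?_
    have a4 : (K * ε + K * ε) * nn e * nn e ≤ (K * ε + K * ε) * (2 * S) * (2 * S) := by gcongr
    have a5 : (K * ε + K * ε) * nn fy * nn fy ≤ (K * ε + K * ε) * S * S := by gcongr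
    refine (add_le_add (a1.trans a4) (a3.trans a5)).trans (le_of_eq ?_)
    ring
  have t2 : |II (e * ((G.kx + G.bt * G.ky) * fx
            + (G.X2x + G.bt * G.X2y - G.k * G.btx - G.X2 * (oX G.w * G.mh)) * fy))|
      ≤ 6 * K ^ 2 * ε * S ^ 2 := by
    refine (II_le_nn _ _).trans ?_
    have b1 := (hb.bkx.add (hb.bbt'.mul hb.bky)).nn fx
    have b2 := (((hb.bXx.add (hb.bbt'.mul hb.bXy)).sub (hb.bk'.mul hb.bbtx)).sub
      (hb.bX'.mul hb.bwm)).nn fy
    have b3 := nn_add_le ((G.kx + G.bt * G.ky) * fx)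
      ((G.X2x + G.bt * G.X2y - G.k * G.btx - G.X2 * (oX G.w * G.mh)) * fy)
    have b4 : nn ((G.kx + G.bt * G.ky) * fx
            + (G.X2x + G.bt * G.X2y - G.k * G.btx - G.X2 * (oX G.w * G.mh)) * fy)
        ≤ 3 * K ^ 2 * ε * S := by
      have c1 : (K * ε + 2 * (K * ε)) * nn fx ≤ 3 * K ^ 2 * ε * nn fx := by
        have : K * ε + 2 * (K * ε) ≤ 3 * K ^ 2 * ε := num_o hK hε.le
        gcongr
      have c2 : (K * ε + 2 * (K * ε) + 2 * (K * ε) + 2 * (K * (K * ε))) * nn fy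
          ≤ 3 * K ^ 2 * ε * nn fy := by
        have : K * ε + 2 * (K * ε) + 2 * (K * ε) + 2 * (K * (K * ε)) ≤ 3 * K ^ 2 * ε :=
          num_p hK hε.le
        gcongr
      have c3 : 3 * K ^ 2 * ε * nn fx + 3 * K ^ 2 * ε * nn fy ≤ 3 * K ^ 2 * ε * S := by
        have : 3 * K ^ 2 * ε * (nn fx + nn fy) ≤ 3 * K ^ 2 * ε * S := by gcongr
        linarith
      linarith
    calc nn e * _ ≤ (2 * S) * (3 * K ^ 2 * ε * S) := by
          exact mul_le_mul hen b4 (nn_nonneg _) (by positivity)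
      _ = _ := by ring
  have t3 : |n ^ 2 * II (fy * (G.ky * fx + G.X2y * fy))| ≤ K * ε * S ^ 2 := by
    rw [abs_mul, abs_of_nonneg hn0]
    have c1 := II_le_nn fy (G.ky * fx + G.X2y * fy)
    have c2 := nn_add_le (G.ky * fx) (G.X2y * fy)
    have c3 := hb.bky.nn fx
    have c4 := hb.bXy.nn fy
    have c5 : nn (G.ky * fx + G.X2y * fy) ≤ K * ε * S := by
      calc nn (G.ky * fx + G.X2y * fy) ≤ K * ε * nn fx + K * ε * nn fy :=
            c2.trans (add_le_add c3 c4)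
        _ = K * ε * (nn fx + nn fy) := by ring
        _ ≤ K * ε * S := mul_le_mul_of_nonneg_left s23 ke
    have c6 : nn fy * nn (G.ky * fx + G.X2y * fy) ≤ S * (K * ε * S) :=
      mul_le_mul s3 c5 (nn_nonneg _) hS0
    have c7 : |II (fy * (G.ky * fx + G.X2y * fy))| ≤ K * ε * S ^ 2 := by linarith
    calc n ^ 2 * |II (fy * (G.ky * fx + G.X2y * fy))|
        ≤ 1 * |II (fy * (G.ky * fx + G.X2y * fy))| := by gcongr
      _ ≤ _ := by linarith
  have hS2 : 0 ≤ S ^ 2 := sq_nonneg S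
  exact num_q hK hε.le hS2 t1 t2 t3

end Bds

end est

end Run7.h117
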