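import Mathlib
import Pool.Agent.Run7.h117.Energy2

/-!
A priori estimates for steady flows whose vorticity is close to the base vorticity.
-/

open Real MeasureTheory intervalIntegral

namespace Run7.h117

/-- the `x` derivative of a `y` primitive -/
lemma aR_hasDeriv {f fx fy : R} (hf : PD f fx fy) (x y : ℝ) :
    HasDerivAt (fun s => aR f (s, y)) (aR fx (x, y)) x := by
  obtain ⟨K, hK⟩ := (((isCompact_Icc (a := x - 1) (b := x + 1)).prod
        (isCompact_uIcc (a := (0:ℝ)) (b := y))).image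
          (show Continuous (fun z : ℝ × ℝ => |fx z|) by fun_prop)).bddAbove
  refine (intervalIntegral.hasDerivAt_integral_of_dominated_loc_of_deriv_le
        (F := fun x y => f (x, y)) (F' := fun x y => fx (x, y)) (bound := fun _ => K)
        (s := Set.Icc (x - 1) (x + 1)) (Icc_mem_nhds (by linarith) (by linarith)) ?_ ?_ ?_ ?_ ?_ ?_).2
  · exact Filter.Eventually.of_forall fun z => (cont_slice_y f z).aestronglyMeasurable
  · exact (cont_slice_y f x).intervalIntegrable _ _
  · exact (cont_slice_y fx x).aestronglyMeasurable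
  · refine Filter.Eventually.of_forall fun y hy z hz => ?_
    rw [Real.norm_eq_abs]
    exact hK ⟨(z, y), ⟨hz, Set.uIoc_subset_uIcc hy⟩, rfl⟩
  · exact intervalIntegrable_const
  · refine Filter.Eventually.of_forall fun y _ z _ => hf.hx z y

lemma aR_hasDeriv_y (f : R) (x y : ℝ) : HasDerivAt (fun s => aR f (x, s)) (f (x, y)) y :=
  intervalIntegral.integral_hasDerivAt_right
      ((cont_slice_y f x).intervalIntegrable _ _)
      ((cont_slice_y f x).stronglyMeasurableAtFilter _ _) ((cont_slice_y f x).continuousAt)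

/-- restriction to `y = 0` -/
def r0 (f : R) : R1 := ⟨fun x => f (x, 0), by fun_prop⟩

@[simp] lemma r0_apply (f : R) (x : ℝ) : r0 f x = f (x, 0) := rfl

lemma prim_eq {f fx fy : R} (hf : PD f fx fy) : f = oX (r0 f) + aR fy := by
  ext ⟨x, y⟩
  simp only [ContinuousMap.add_apply, oX_apply, aR_apply, r0_apply]
  rw [intervalIntegral.integral_eq_sub_of_hasDerivAt (fun s _ => hf.hy x s)
      ((cont_slice_y fy x).intervalIntegrable _ _)]
  show f (x, y) = f (x, 0) + (f (x, y) - f (x, 0))
  ring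

/-- symmetry of second derivatives -/
lemma PD.symm {B Bx By Bxx Bxy Byx Byy : R} (hB : PD B Bx By) (h1 : PD Bx Bxx Bxy)
    (h2 : PD By Byx Byy) : Bxy = Byx := by
  -- `Bx (x, y) - Bx (x, 0) = aR Byx`
  have e1 : ∀ x y, Bx (x, y) = Bx (x, 0) + aR Byx (x, y) := by
    intro x y
    have h3 : HasDerivAt (fun s => B (s, y)) (Bx (x, 0) + aR Byx (x, y)) x := by
      have h4 := (hB.hx x 0).add (aR_hasDeriv h2 x y)
      have h5 : (fun s => B (s, y)) = fun s => B (s, 0) + aR By (s, y) := by
        funext s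
        have := congrArg (fun q : R => q (s, y)) (prim_eq hB)
        simpa using this
      rw [h5]; exact h4
    exact (hB.hx x y).unique h3
  ext ⟨x, y⟩
  have h3 : HasDerivAt (fun s => Bx (x, s)) (Byx (x, y)) y := by
    have h4 := (aR_hasDeriv_y Byx x y).const_add (Bx (x, 0))
    have h5 : (fun s => Bx (x, s)) = fun s => Bx (x, 0) + aR Byx (x, s) := by
      funext s; exact e1 x s
    rw [h5]; exact h4
  exact (h1.hy x y).unique h3

/-- a steady flow: `a = ψ_x`, `cc = ψ_y`, vorticity `om`, Bernoulli function `B`. -/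
structure Steady {n : ℝ} (G : Geo n) (a cc ax ay cy om omx omy B : R) : Prop where
  ha : PD a ax ay
  hc : PD cc ay cy
  hom : PD om omx omy
  hmu : G.mu * om = G.Df a cc ax ay cy
  hB : PD B (om * a) (om * cc)

/-- auxiliary data for the a priori estimate -/
structure Aux {n : ℝ} (G : Geo n) (N Nx Nxx mhx mhy : R) (wp χ0 χ1 χ2 : R1) : Prop where
  hw : P1 G.w wp
  hN : PD N Nx G.mh
  hNx : PD Nx Nxx mhx
  hmh : PD G.mh mhx mhy
  hχ : P1 (G.Om' * χ0) (G.Om' * χ1)
  hχ1 : P1 (G.Om' * χ1) (G.Om' * χ2)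
  pos1 : 0 < II (oX (G.w * (G.Om' * χ0) * mR (G.mh * G.mh)))
  pos2 : 0 < II (oX (G.Om' * G.Om'))

section

variable {n : ℝ} {G : Geo n} {a cc ax ay cy om omx omy B : R}

lemma Steady.trans (hs : Steady G a cc ax ay cy om omx omy B) : omy * a = omx * cc := by
  have h := PD.symm hs.hB (hs.hom.mul hs.ha) (hs.hom.mul hs.hc)
  linear_combination (exp := 1) h

/-- the perturbation `A = a - v` -/
lemma Steady.hA (hs : Steady G a cc ax ay cy om omx omy B) :
    PD (a - oX G.v) (ax - oX G.w * oX G.v) ay := by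
  have := hs.ha.sub (Geo.PDv (G := G))
  rwa [sub_zero] at this

lemma Steady.DfA (hs : Steady G a cc ax ay cy om omx omy B) :
    G.Df (a - oX G.v) cc (ax - oX G.w * oX G.v) ay cy = G.mu * (om - oX G.Om) := by
  have h1 := hs.hmu
  have h2 := G.hmu
  simp only [Geo.Df] at h1 ⊢
  linear_combination (exp := 1) -h1 + h2

/-- `nn (Om' c) ≤ δ (...)` -/
lemma Steady.small (hs : Steady G a cc ax ay cy om omx omy B) {δ : ℝ}
    (h1 : Bd (omx - oX G.Om') δ) (h2 : Bd omy δ) :
    nn (oX G.Om' * cc) ≤ δ * (nn (a - oX G.v) + nn cc + nn (oX G.v)) := by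
  have e : oX G.Om' * cc = omy * (a - oX G.v) + omy * oX G.v - (omx - oX G.Om') * cc := by
    linear_combination (exp := 1) -hs.trans
  rw [e]
  have a1 := nn_sub_le (omy * (a - oX G.v) + omy * oX G.v) ((omx - oX G.Om') * cc)
  have a2 := nn_add_le (omy * (a - oX G.v)) (omy * oX G.v)
  have a3 := h2.nn (a - oX G.v)
  have a4 := h2.nn (oX G.v)
  have a5 := h1.nn cc
  linarith

/-- the mean of `c` is constant -/
lemma Steady.meanc (hs : Steady G a cc ax ay cy om omx omy B) :
    ∃ β : ℝ, mR cc = ContinuousMap.const _ β := by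
  have h := hs.hc.mean
  rw [mR_fy hs.ha] at h
  refine ⟨mR cc 0, ?_⟩
  ext x
  exact is_const_of_deriv_eq_zero (fun s => (h.h s).differentiableAt)
    (fun s => (h.h s).deriv) x 0

/-- flux -/
noncomputable def Fl (G : Geo n) (a cc : R) : R1 := mR (a - oX G.v + G.bt * cc)

lemma Steady.flux (hs : Steady G a cc ax ay cy om omx omy B) :
    P1 (Fl G a cc) (mR (G.mu * (om - oX G.Om))) := by
  have h1 : PD (a - oX G.v + G.bt * cc) _ _ := Geo.PD_Ef (G := G) hs.hA hs.hc
  have h2 := h1.mean
  have h3 : PD (G.bt * (a - oX G.v + G.bt * cc) + (n ^ 2) • cc) _ _ :=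
    (G.hbt.mul h1).add (hs.hc.smul (n ^ 2))
  have h4 := mR_fy h3
  -- the y-derivative of cc
  have e : G.mu * (om - oX G.Om) = (ax - oX G.w * oX G.v + (G.btx * cc + G.bt * ay))
      + (oX G.w * G.mh * (a - oX G.v + G.bt * cc)
        + G.bt * (ay + (oX G.w * G.mh * cc + G.bt * cy)) + (n ^ 2) • cy) := by
    rw [← hs.DfA]
    simp only [Geo.Df]
    ring
  rw [e, mR_add, h4, add_zero]
  exact h2

end

end Run7.h117
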