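import Mathlib
import Pool.Agent.Run7.h117.Defs

/-!
The steady incompressible Euler equations on a Riemannian torus.

The torus is `M = (ℝ / 2πℤ)²`; functions on `M` are functions `ℝ → ℝ → ℝ` that are `2π`-periodic in
both variables (`Per`).  `CD k f` says that `f` is of class `C^k`, `dx f` and `dy f` are the two
partial derivatives.
-/

open Real MeasureTheory

namespace Run7.h117

/-- A smooth Riemannian metric on the torus `(ℝ / 2πℤ)²`: `g i j` are the coefficients `g_{ij}` in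
the periodic coordinates `(x, y)`. -/
structure Metric where
  g : Fin 2 → Fin 2 → ℝ → ℝ → ℝ
  smooth : ∀ i j, CD (⊤ : ℕ∞) (g i j)
  per : ∀ i j, Per (g i j)
  symm : ∀ i j, g i j = g j i
  pos : ∀ x y (ξ : Fin 2 → ℝ), ξ ≠ 0 → 0 < ∑ i, ∑ j, g i j x y * ξ i * ξ j

/-- The `i`-th partial derivative. -/
noncomputable def pd (i : Fin 2) (f : ℝ → ℝ → ℝ) : ℝ → ℝ → ℝ := if i = 0 then dx f else dy f

namespace Metric

variable (G : Metric)

/-- the matrix `(g_{ij})` at a point -/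
def mat (x y : ℝ) : Matrix (Fin 2) (Fin 2) ℝ := Matrix.of fun i j => G.g i j x y

/-- the inverse metric `g^{ij}` -/
noncomputable def gi (i j : Fin 2) (x y : ℝ) : ℝ := (G.mat x y)⁻¹ i j

/-- the Riemannian density `√det g` -/
noncomputable def vol (x y : ℝ) : ℝ := Real.sqrt (G.mat x y).det

/-- the Christoffel symbols `Γ^k_{ij}` of the Levi-Civita connection -/
noncomputable def chris (k i j : Fin 2) (x y : ℝ) : ℝ :=
  1 / 2 * ∑ l, G.gi k l x y *
    (pd i (G.g j l) x y + pd j (G.g i l) x y - pd l (G.g i j) x y)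

/-- the covariant derivative `(∇_u u)^k` -/
noncomputable def conv (u : Fin 2 → ℝ → ℝ → ℝ) (k : Fin 2) (x y : ℝ) : ℝ :=
  (∑ i, u i x y * pd i (u k) x y) + ∑ i, ∑ j, G.chris k i j x y * u i x y * u j x y

/-- the gradient `(∇p)^k = g^{kl} ∂_l p` -/
noncomputable def grad (p : ℝ → ℝ → ℝ) (k : Fin 2) (x y : ℝ) : ℝ :=
  ∑ l, G.gi k l x y * pd l p x y

/-- the divergence `div u = (√g)⁻¹ ∂_i (√g u^i)` -/
noncomputable def div (u : Fin 2 → ℝ → ℝ → ℝ) (x y : ℝ) : ℝ :=
  (G.vol x y)⁻¹ * ∑ i, pd i (fun x y => G.vol x y * u i x y) x y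

/-- the covector field `u_i = g_{ij} u^j` -/
def low (u : Fin 2 → ℝ → ℝ → ℝ) (i : Fin 2) (x y : ℝ) : ℝ := ∑ j, G.g i j x y * u j x y

/-- the vorticity `curl u = (√g)⁻¹ (∂_x u_y - ∂_y u_x)` -/
noncomputable def curl (u : Fin 2 → ℝ → ℝ → ℝ) (x y : ℝ) : ℝ :=
  (G.vol x y)⁻¹ * (pd 0 (G.low u 1) x y - pd 1 (G.low u 0) x y)

/-- `(u, p)` is a (classical, `C¹`) solution of the steady incompressible Euler equations
`∇_u u + ∇p = 0`, `div u = 0` on the Riemannian torus. -/
structure SteadyEuler (u : Fin 2 → ℝ → ℝ → ℝ) (p : ℝ → ℝ → ℝ) : Prop where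
  u_C1 : ∀ i, CD 1 (u i)
  u_per : ∀ i, Per (u i)
  p_C1 : CD 1 p
  p_per : Per p
  div_free : ∀ x y, G.div u x y = 0
  euler : ∀ k x y, G.conv u k x y + G.grad p k x y = 0

/-- `ω` is the vorticity of a steady Euler solution. -/
def IsSteadyVorticity (ω : ℝ → ℝ → ℝ) : Prop :=
  ∃ (u : Fin 2 → ℝ → ℝ → ℝ) (p : ℝ → ℝ → ℝ), G.SteadyEuler u p ∧ ω = G.curl u

end Metric

/-! ### Calculus -/

lemma CD.hx {f : ℝ → ℝ → ℝ} (hf : CD 1 f) (x y : ℝ) :
    HasDerivAt (fun s => f s y) (dx f x y) x := by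
  have h1 : Differentiable ℝ (fun z : ℝ × ℝ => f z.1 z.2) := hf.differentiable one_ne_zero
  have h2 : DifferentiableAt ℝ (fun s : ℝ => f s y) x := by
    have : (fun s : ℝ => f s y) = (fun z : ℝ × ℝ => f z.1 z.2) ∘ fun s : ℝ => (s, y) := rfl
    rw [this]
    exact (h1 _).comp x (by fun_prop)
  exact h2.hasDerivAt

lemma CD.hy {f : ℝ → ℝ → ℝ} (hf : CD 1 f) (x y : ℝ) :
    HasDerivAt (fun s => f x s) (dy f x y) y := by
  have h1 : Differentiable ℝ (fun z : ℝ × ℝ => f z.1 z.2) := hf.differentiable one_ne_zero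
  have h2 : DifferentiableAt ℝ (fun s : ℝ => f x s) y := by
    have : (fun s : ℝ => f x s) = (fun z : ℝ × ℝ => f z.1 z.2) ∘ fun s : ℝ => (x, s) := rfl
    rw [this]
    exact (h1 _).comp y (by fun_prop)
  exact h2.hasDerivAt

lemma CD.add {k : WithTop ℕ∞} {f g : ℝ → ℝ → ℝ} (hf : CD k f) (hg : CD k g) :
    CD k (fun x y => f x y + g x y) := ContDiff.add hf hg

lemma CD.sub {k : WithTop ℕ∞} {f g : ℝ → ℝ → ℝ} (hf : CD k f) (hg : CD k g) :
    CD k (fun x y => f x y - g x y) := ContDiff.sub hf hg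

lemma CD.mul {k : WithTop ℕ∞} {f g : ℝ → ℝ → ℝ} (hf : CD k f) (hg : CD k g) :
    CD k (fun x y => f x y * g x y) := ContDiff.mul hf hg

lemma CD.const (k : WithTop ℕ∞) (c : ℝ) : CD k (fun _ _ => c) := contDiff_const

lemma CD.neg {k : WithTop ℕ∞} {f : ℝ → ℝ → ℝ} (hf : CD k f) :
    CD k (fun x y => - f x y) := ContDiff.neg hf

lemma CD.mono {k l : WithTop ℕ∞} {f : ℝ → ℝ → ℝ} (hf : CD k f) (h : l ≤ k) : CD l f :=
  ContDiff.of_le hf h

lemma CD.one {f : ℝ → ℝ → ℝ} (hf : CD (⊤ : ℕ∞) f) : CD 1 f :=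
  hf.mono (by exact_mod_cast le_top)

namespace Metric

variable (G : Metric)

lemma det_eq (x y : ℝ) : (G.mat x y).det = G.g 0 0 x y * G.g 1 1 x y - G.g 0 1 x y ^ 2 := by
  rw [Matrix.det_fin_two]
  simp only [mat, Matrix.of_apply]
  rw [G.symm 1 0]; ring

lemma det_pos (x y : ℝ) : 0 < (G.mat x y).det := by
  rw [det_eq]
  have h1 : 0 < G.g 0 0 x y := by
    have := G.pos x y ![1, 0] (by intro h; have := congrFun h 0; simp at this)
    simpa [Fin.sum_univ_two] using this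
  have h2 := G.pos x y ![-(G.g 0 1 x y), G.g 0 0 x y] (by
    intro h; have := congrFun h 1; simp at this; linarith)
  simp only [Fin.sum_univ_two, Matrix.cons_val_zero, Matrix.cons_val_one] at h2
  rw [G.symm 1 0] at h2
  have h3 : 0 < G.g 0 0 x y * (G.g 0 0 x y * G.g 1 1 x y - G.g 0 1 x y ^ 2) := by
    nlinarith
  exact (mul_pos_iff_of_pos_left h1).mp h3

lemma vol_pos (x y : ℝ) : 0 < G.vol x y := Real.sqrt_pos.mpr (G.det_pos x y)

lemma vol_sq (x y : ℝ) : G.vol x y ^ 2 = (G.mat x y).det := Real.sq_sqrt (G.det_pos x y).le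

/-- the kinetic energy density -/
noncomputable def en (u : Fin 2 → ℝ → ℝ → ℝ) (x y : ℝ) : ℝ :=
  1 / 2 * (G.g 0 0 x y * u 0 x y * u 0 x y + 2 * (G.g 0 1 x y * u 0 x y * u 1 x y)
    + G.g 1 1 x y * u 1 x y * u 1 x y)

lemma gi_mul (x y : ℝ) (a : Fin 2 → ℝ) (k : Fin 2) :
    ∑ l, G.g k l x y * (∑ m, G.gi l m x y * a m) = a k := by
  have hdet : IsUnit (G.mat x y).det := (G.det_pos x y).ne'.isUnit
  have h : (G.mat x y) * (G.mat x y)⁻¹ = 1 := Matrix.mul_nonsing_inv _ hdet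
  have h1 : ∀ m, ∑ l, G.g k l x y * G.gi l m x y = (1 : Matrix (Fin 2) (Fin 2) ℝ) k m := by
    intro m
    rw [← h, Matrix.mul_apply]
    rfl
  calc ∑ l, G.g k l x y * (∑ m, G.gi l m x y * a m)
      = ∑ m, (∑ l, G.g k l x y * G.gi l m x y) * a m := by
        simp only [Finset.mul_sum, Finset.sum_mul]
        rw [Finset.sum_comm]
        refine Finset.sum_congr rfl fun m _ => Finset.sum_congr rfl fun l _ => by ring
    _ = a k := by
        simp only [h1, Matrix.one_apply]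
        simp

/-- lowered Euler equation, first component -/
lemma lower_conv (u : Fin 2 → ℝ → ℝ → ℝ) (hu : ∀ i, CD 1 (u i)) (x y : ℝ) :
    (∑ l, G.g 0 l x y * G.conv u l x y) = pd 0 (G.en u) x y - G.vol x y * G.curl u x y * u 1 x y ∧
    (∑ l, G.g 1 l x y * G.conv u l x y) = pd 1 (G.en u) x y + G.vol x y * G.curl u x y * u 0 x y := by
  have hg : ∀ i j, CD 1 (G.g i j) := fun i j => (G.smooth i j).one
  have g10 : G.g 1 0 = G.g 0 1 := G.symm 1 0
  -- curl
  have hc : G.vol x y * G.curl u x y = pd 0 (G.low u 1) x y - pd 1 (G.low u 0) x y := by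
    unfold curl
    rw [← mul_assoc, mul_inv_cancel₀ (G.vol_pos x y).ne', one_mul]
  have hl1 : pd 0 (G.low u 1) x y = dx (G.g 0 1) x y * u 0 x y + G.g 0 1 x y * dx (u 0) x y
      + (dx (G.g 1 1) x y * u 1 x y + G.g 1 1 x y * dx (u 1) x y) := by
    have h1 := (((hg 0 1).hx x y).mul ((hu 0).hx x y)).add (((hg 1 1).hx x y).mul ((hu 1).hx x y))
    have e : (fun s => G.low u 1 s y) = fun s => G.g 0 1 s y * u 0 s y + G.g 1 1 s y * u 1 s y := by
      funext s; simp [low, Fin.sum_univ_two, g10]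
    show deriv (fun s => G.low u 1 s y) x = _
    rw [e]; exact h1.deriv
  have hl0 : pd 1 (G.low u 0) x y = dy (G.g 0 0) x y * u 0 x y + G.g 0 0 x y * dy (u 0) x y
      + (dy (G.g 0 1) x y * u 1 x y + G.g 0 1 x y * dy (u 1) x y) := by
    have h1 := (((hg 0 0).hy x y).mul ((hu 0).hy x y)).add (((hg 0 1).hy x y).mul ((hu 1).hy x y))
    have e : (fun s => G.low u 0 x s) = fun s => G.g 0 0 x s * u 0 x s + G.g 0 1 x s * u 1 x s := by
      funext s; simp [low, Fin.sum_univ_two]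
    show deriv (fun s => G.low u 0 x s) y = _
    rw [e]; exact h1.deriv
  have he0 : pd 0 (G.en u) x y = 1 / 2 * ((dx (G.g 0 0) x y * u 0 x y + G.g 0 0 x y * dx (u 0) x y) * u 0 x y
      + G.g 0 0 x y * u 0 x y * dx (u 0) x y
      + 2 * ((dx (G.g 0 1) x y * u 0 x y + G.g 0 1 x y * dx (u 0) x y) * u 1 x y
        + G.g 0 1 x y * u 0 x y * dx (u 1) x y)
      + ((dx (G.g 1 1) x y * u 1 x y + G.g 1 1 x y * dx (u 1) x y) * u 1 x y
        + G.g 1 1 x y * u 1 x y * dx (u 1) x y)) := by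
    have h0 := (((hg 0 0).hx x y).mul ((hu 0).hx x y)).mul ((hu 0).hx x y)
    have h1 := ((((hg 0 1).hx x y).mul ((hu 0).hx x y)).mul ((hu 1).hx x y)).const_mul 2
    have h2 := (((hg 1 1).hx x y).mul ((hu 1).hx x y)).mul ((hu 1).hx x y)
    exact (((h0.add h1).add h2).const_mul (1 / 2)).deriv
  have he1 : pd 1 (G.en u) x y = 1 / 2 * ((dy (G.g 0 0) x y * u 0 x y + G.g 0 0 x y * dy (u 0) x y) * u 0 x y
      + G.g 0 0 x y * u 0 x y * dy (u 0) x y
      + 2 * ((dy (G.g 0 1) x y * u 0 x y + G.g 0 1 x y * dy (u 0) x y) * u 1 x y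
        + G.g 0 1 x y * u 0 x y * dy (u 1) x y)
      + ((dy (G.g 1 1) x y * u 1 x y + G.g 1 1 x y * dy (u 1) x y) * u 1 x y
        + G.g 1 1 x y * u 1 x y * dy (u 1) x y)) := by
    have h0 := (((hg 0 0).hy x y).mul ((hu 0).hy x y)).mul ((hu 0).hy x y)
    have h1 := ((((hg 0 1).hy x y).mul ((hu 0).hy x y)).mul ((hu 1).hy x y)).const_mul 2
    have h2 := (((hg 1 1).hy x y).mul ((hu 1).hy x y)).mul ((hu 1).hy x y)
    exact (((h0.add h1).add h2).const_mul (1 / 2)).deriv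
  -- Christoffel part
  have hch : ∀ k : Fin 2, (∑ l, G.g k l x y * ∑ i, ∑ j, G.chris l i j x y * u i x y * u j x y)
      = 1 / 2 * ∑ i, ∑ j, (pd i (G.g j k) x y + pd j (G.g i k) x y - pd k (G.g i j) x y)
        * u i x y * u j x y := by
    intro k
    have h1 : ∀ i j : Fin 2, ∑ l, G.g k l x y * G.chris l i j x y
        = 1 / 2 * (pd i (G.g j k) x y + pd j (G.g i k) x y - pd k (G.g i j) x y) := by
      intro i j
      have h2 := G.gi_mul x y (fun m => pd i (G.g j m) x y + pd j (G.g i m) x y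
        - pd m (G.g i j) x y) k
      rw [← h2]
      simp only [chris, Finset.mul_sum]
      refine Finset.sum_congr rfl fun l _ => Finset.sum_congr rfl fun m _ => by ring
    calc (∑ l, G.g k l x y * ∑ i, ∑ j, G.chris l i j x y * u i x y * u j x y)
        = ∑ i, ∑ j, (∑ l, G.g k l x y * G.chris l i j x y) * u i x y * u j x y := by
          simp only [Finset.mul_sum, Finset.sum_mul]
          rw [Finset.sum_comm]
          refine Finset.sum_congr rfl fun i _ => ?_
          rw [Finset.sum_comm]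
          refine Finset.sum_congr rfl fun j _ => Finset.sum_congr rfl fun l _ => by ring
      _ = _ := by
          simp only [h1, Finset.mul_sum]
          refine Finset.sum_congr rfl fun i _ => Finset.sum_congr rfl fun j _ => by ring
  have hsplit : ∀ k : Fin 2, (∑ l, G.g k l x y * G.conv u l x y)
      = (∑ l, G.g k l x y * ∑ i, u i x y * pd i (u l) x y)
        + ∑ l, G.g k l x y * ∑ i, ∑ j, G.chris l i j x y * u i x y * u j x y := by
    intro k
    rw [← Finset.sum_add_distrib]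
    refine Finset.sum_congr rfl fun l _ => ?_
    unfold conv
    ring
  have p0 : ∀ f : ℝ → ℝ → ℝ, pd 0 f = dx f := fun f => rfl
  have p1 : ∀ f : ℝ → ℝ → ℝ, pd 1 f = dy f := fun f => rfl
  constructor
  · rw [hc, hl1, hl0, he0, hsplit, hch]
    simp only [Fin.sum_univ_two, p0, p1, g10]
    ring
  · rw [hc, hl1, hl0, he1, hsplit, hch]
    simp only [Fin.sum_univ_two, p0, p1, g10]
    ring

/-- Bernoulli form of the Euler equation -/
lemma bernoulli (u : Fin 2 → ℝ → ℝ → ℝ) (hu : ∀ i, CD 1 (u i)) (p : ℝ → ℝ → ℝ) (x y : ℝ) :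
    (∀ k, G.conv u k x y + G.grad p k x y = 0) ↔
      (pd 0 p x y + pd 0 (G.en u) x y = G.vol x y * G.curl u x y * u 1 x y ∧
       pd 1 p x y + pd 1 (G.en u) x y = - (G.vol x y * G.curl u x y * u 0 x y)) := by
  obtain ⟨h0, h1⟩ := G.lower_conv u hu x y
  have hg0 := G.gi_mul x y (fun l => pd l p x y) 0
  have hg1 := G.gi_mul x y (fun l => pd l p x y) 1
  have s0 : ∑ l, G.g 0 l x y * (G.conv u l x y + G.grad p l x y)
      = pd 0 (G.en u) x y - G.vol x y * G.curl u x y * u 1 x y + pd 0 p x y := by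
    rw [← h0, ← hg0, ← Finset.sum_add_distrib]
    refine Finset.sum_congr rfl fun l _ => ?_
    unfold grad
    ring
  have s1 : ∑ l, G.g 1 l x y * (G.conv u l x y + G.grad p l x y)
      = pd 1 (G.en u) x y + G.vol x y * G.curl u x y * u 0 x y + pd 1 p x y := by
    rw [← h1, ← hg1, ← Finset.sum_add_distrib]
    refine Finset.sum_congr rfl fun l _ => ?_
    unfold grad
    ring
  constructor
  · intro h
    simp only [h, mul_zero, Finset.sum_const_zero] at s0 s1
    exact ⟨by linarith, by linarith⟩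
  · rintro ⟨e0, e1⟩
    set X0 := G.conv u 0 x y + G.grad p 0 x y
    set X1 := G.conv u 1 x y + G.grad p 1 x y
    have t0 : G.g 0 0 x y * X0 + G.g 0 1 x y * X1 = 0 := by
      rw [Fin.sum_univ_two] at s0
      show G.g 0 0 x y * (G.conv u 0 x y + G.grad p 0 x y)
        + G.g 0 1 x y * (G.conv u 1 x y + G.grad p 1 x y) = 0
      rw [s0]; linarith
    have t1 : G.g 0 1 x y * X0 + G.g 1 1 x y * X1 = 0 := by
      rw [Fin.sum_univ_two, G.symm 1 0] at s1
      show G.g 0 1 x y * (G.conv u 0 x y + G.grad p 0 x y)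
        + G.g 1 1 x y * (G.conv u 1 x y + G.grad p 1 x y) = 0
      rw [s1]; linarith
    have hd := (G.det_pos x y).ne'
    rw [det_eq] at hd
    have z0 : X0 = 0 := by
      have : (G.g 0 0 x y * G.g 1 1 x y - G.g 0 1 x y ^ 2) * X0 = 0 := by
        linear_combination G.g 1 1 x y * t0 - G.g 0 1 x y * t1
      exact (mul_eq_zero.mp this).resolve_left hd
    have z1 : X1 = 0 := by
      have : (G.g 0 0 x y * G.g 1 1 x y - G.g 0 1 x y ^ 2) * X1 = 0 := by
        linear_combination G.g 0 0 x y * t1 - G.g 0 1 x y * t0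
      exact (mul_eq_zero.mp this).resolve_left hd
    intro k
    fin_cases k
    · exact z0
    · exact z1

end Metric

end Run7.h117
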