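import Mathlib
import Pool.Agent.Run7.h117.Euler
import Pool.Agent.Run7.h117.Energy

/-!
Passing from functions `ℝ → ℝ → ℝ` to `R = C(ℝ × ℝ, ℝ)`.
-/

open Real MeasureTheory intervalIntegral

namespace Run7.h117

open Classical in
/-- the continuous map attached to a function of two variables -/
noncomputable def toR (f : ℝ → ℝ → ℝ) : R :=
  if h : Continuous (fun z : ℝ × ℝ => f z.1 z.2) then ⟨_, h⟩ else 0

lemma toR_apply {f : ℝ → ℝ → ℝ} (h : Continuous (fun z : ℝ × ℝ => f z.1 z.2)) (z : ℝ × ℝ) :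
    toR f z = f z.1 z.2 := by
  unfold toR
  rw [dif_pos h]
  rfl

open Classical in
/-- the continuous map attached to a function of one variable -/
noncomputable def toR1 (f : ℝ → ℝ) : R1 := if h : Continuous f then ⟨_, h⟩ else 0

lemma toR1_apply {f : ℝ → ℝ} (h : Continuous f) (x : ℝ) : toR1 f x = f x := by
  unfold toR1
  rw [dif_pos h]
  rfl

lemma CD.cont {k : WithTop ℕ∞} {f : ℝ → ℝ → ℝ} (hf : CD k f) :
    Continuous (fun z : ℝ × ℝ => f z.1 z.2) := ContDiff.continuous hf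

lemma dx_eq_fderiv {f : ℝ → ℝ → ℝ} (hf : CD 1 f) (z : ℝ × ℝ) :
    dx f z.1 z.2 = fderiv ℝ (fun z : ℝ × ℝ => f z.1 z.2) z (1, 0) := by
  have h1 : DifferentiableAt ℝ (fun z : ℝ × ℝ => f z.1 z.2) z :=
    (hf.differentiable one_ne_zero) z
  have h2 : HasDerivAt (fun s : ℝ => (s, z.2)) ((1 : ℝ), (0 : ℝ)) z.1 :=
    (hasDerivAt_id z.1).prodMk (hasDerivAt_const z.1 z.2)
  have h3 : HasFDerivAt (fun z : ℝ × ℝ => f z.1 z.2)
      (fderiv ℝ (fun z : ℝ × ℝ => f z.1 z.2) z) (z.1, z.2) := h1.hasFDerivAt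
  exact (h3.comp_hasDerivAt z.1 h2).deriv

lemma dy_eq_fderiv {f : ℝ → ℝ → ℝ} (hf : CD 1 f) (z : ℝ × ℝ) :
    dy f z.1 z.2 = fderiv ℝ (fun z : ℝ × ℝ => f z.1 z.2) z (0, 1) := by
  have h1 : DifferentiableAt ℝ (fun z : ℝ × ℝ => f z.1 z.2) z :=
    (hf.differentiable one_ne_zero) z
  have h2 : HasDerivAt (fun s : ℝ => (z.1, s)) ((0 : ℝ), (1 : ℝ)) z.2 :=
    (hasDerivAt_const z.2 z.1).prodMk (hasDerivAt_id z.2)
  have h3 : HasFDerivAt (fun z : ℝ × ℝ => f z.1 z.2)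
      (fderiv ℝ (fun z : ℝ × ℝ => f z.1 z.2) z) (z.1, z.2) := h1.hasFDerivAt
  exact (h3.comp_hasDerivAt z.2 h2).deriv

lemma CD.dx {k l : WithTop ℕ∞} {f : ℝ → ℝ → ℝ} (hf : CD k f) (h : l + 1 ≤ k) : CD l (dx f) := by
  have h1 : CD 1 f := hf.mono ((by simp : (1 : WithTop ℕ∞) ≤ l + 1).trans h)
  have h2 : ContDiff ℝ l (fun z : ℝ × ℝ => fderiv ℝ (fun z : ℝ × ℝ => f z.1 z.2) z) :=
    ContDiff.fderiv_right hf h
  have h3 : (fun z : ℝ × ℝ => Run7.h117.dx f z.1 z.2)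
      = fun z : ℝ × ℝ => fderiv ℝ (fun z : ℝ × ℝ => f z.1 z.2) z (1, 0) := by
    funext z; exact dx_eq_fderiv h1 z
  show ContDiff ℝ l (fun z : ℝ × ℝ => Run7.h117.dx f z.1 z.2)
  rw [h3]
  exact h2.clm_apply contDiff_const

lemma CD.dy {k l : WithTop ℕ∞} {f : ℝ → ℝ → ℝ} (hf : CD k f) (h : l + 1 ≤ k) : CD l (dy f) := by
  have h1 : CD 1 f := hf.mono ((by simp : (1 : WithTop ℕ∞) ≤ l + 1).trans h)
  have h2 : ContDiff ℝ l (fun z : ℝ × ℝ => fderiv ℝ (fun z : ℝ × ℝ => f z.1 z.2) z) :=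
    ContDiff.fderiv_right hf h
  have h3 : (fun z : ℝ × ℝ => Run7.h117.dy f z.1 z.2)
      = fun z : ℝ × ℝ => fderiv ℝ (fun z : ℝ × ℝ => f z.1 z.2) z (0, 1) := by
    funext z; exact dy_eq_fderiv h1 z
  show ContDiff ℝ l (fun z : ℝ × ℝ => Run7.h117.dy f z.1 z.2)
  rw [h3]
  exact h2.clm_apply contDiff_const

lemma Per.dx {f : ℝ → ℝ → ℝ} (hf : Per f) : Per (dx f) := by
  constructor
  · intro x y
    show deriv (fun s => f s y) (x + 2 * π) = deriv (fun s => f s y) x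
    have : (fun s => f s y) = fun s => f (s + 2 * π) y := by funext s; rw [hf.1]
    conv_rhs => rw [this]
    rw [deriv_comp_add_const (fun s => f s y) (2 * π) x]
  · intro x y
    show deriv (fun s => f s (y + 2 * π)) x = deriv (fun s => f s y) x
    simp only [hf.2]

lemma Per.dy {f : ℝ → ℝ → ℝ} (hf : Per f) : Per (dy f) := by
  constructor
  · intro x y
    show deriv (fun s => f (x + 2 * π) s) y = deriv (fun s => f x s) y
    simp only [hf.1]
  · intro x y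
    show deriv (fun s => f x s) (y + 2 * π) = deriv (fun s => f x s) y
    have : (fun s => f x s) = fun s => f x (s + 2 * π) := by funext s; rw [hf.2]
    conv_rhs => rw [this]
    rw [deriv_comp_add_const (fun s => f x s) (2 * π) y]

/-- `C¹` periodic functions -/
lemma CD.toPD {f : ℝ → ℝ → ℝ} (hf : CD 1 f) (hp : Per f) :
    PD (toR f) (toR (Run7.h117.dx f)) (toR (Run7.h117.dy f)) where
  hx x y := by
    have c0 := hf.cont
    have c1 : CD 0 (Run7.h117.dx f) := hf.dx (by simp)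
    have e : (fun s => toR f (s, y)) = fun s => f s y := by
      funext s; exact toR_apply c0 _
    rw [e, toR_apply c1.cont]
    exact hf.hx x y
  hy x y := by
    have c0 := hf.cont
    have c1 : CD 0 (Run7.h117.dy f) := hf.dy (by simp)
    have e : (fun s => toR f (x, s)) = fun s => f x s := by
      funext s; exact toR_apply c0 _
    rw [e, toR_apply c1.cont]
    exact hf.hy x y
  px x y := by rw [toR_apply hf.cont, toR_apply hf.cont]; exact hp.1 x y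
  py x y := by rw [toR_apply hf.cont, toR_apply hf.cont]; exact hp.2 x y

lemma Per.add {f g : ℝ → ℝ → ℝ} (hf : Per f) (hg : Per g) : Per (fun x y => f x y + g x y) :=
  ⟨fun x y => by simp only [hf.1, hg.1], fun x y => by simp only [hf.2, hg.2]⟩
lemma Per.sub {f g : ℝ → ℝ → ℝ} (hf : Per f) (hg : Per g) : Per (fun x y => f x y - g x y) :=
  ⟨fun x y => by simp only [hf.1, hg.1], fun x y => by simp only [hf.2, hg.2]⟩
lemma Per.mul {f g : ℝ → ℝ → ℝ} (hf : Per f) (hg : Per g) : Per (fun x y => f x y * g x y) :=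
  ⟨fun x y => by simp only [hf.1, hg.1], fun x y => by simp only [hf.2, hg.2]⟩
lemma Per.div {f g : ℝ → ℝ → ℝ} (hf : Per f) (hg : Per g) : Per (fun x y => f x y / g x y) :=
  ⟨fun x y => by simp only [hf.1, hg.1], fun x y => by simp only [hf.2, hg.2]⟩
lemma Per.const (c : ℝ) : Per (fun _ _ => c) := ⟨fun _ _ => rfl, fun _ _ => rfl⟩
lemma Per.neg {f : ℝ → ℝ → ℝ} (hf : Per f) : Per (fun x y => - f x y) :=
  ⟨fun x y => by simp only [hf.1], fun x y => by simp only [hf.2]⟩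
lemma Per.oX {f : ℝ → ℝ} (hf : ∀ x, f (x + 2 * π) = f x) : Per (fun x _ => f x) :=
  ⟨fun x _ => by simp only [hf], fun _ _ => rfl⟩

lemma CD.div {k : WithTop ℕ∞} {f g : ℝ → ℝ → ℝ} (hf : CD k f) (hg : CD k g)
    (h0 : ∀ x y, g x y ≠ 0) : CD k (fun x y => f x y / g x y) :=
  ContDiff.div hf hg (fun z => h0 z.1 z.2)

lemma CD.oX {k : WithTop ℕ∞} {f : ℝ → ℝ} (hf : ContDiff ℝ k f) : CD k (fun x _ => f x) :=
  ContDiff.comp hf contDiff_fst

lemma top_add : ((⊤ : ℕ∞) : WithTop ℕ∞) + 1 ≤ ((⊤ : ℕ∞) : WithTop ℕ∞) := by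
  exact_mod_cast le_top

/-- smooth periodic functions -/
structure Sp (f : ℝ → ℝ → ℝ) : Prop where
  cd : CD (⊤ : ℕ∞) f
  per : Per f

namespace Sp
variable {f g : ℝ → ℝ → ℝ}

lemma dx (hf : Sp f) : Sp (dx f) := ⟨hf.cd.dx top_add, hf.per.dx⟩
lemma dy (hf : Sp f) : Sp (dy f) := ⟨hf.cd.dy top_add, hf.per.dy⟩
lemma add (hf : Sp f) (hg : Sp g) : Sp (fun x y => f x y + g x y) :=
  ⟨hf.cd.add hg.cd, hf.per.add hg.per⟩
lemma sub (hf : Sp f) (hg : Sp g) : Sp (fun x y => f x y - g x y) :=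
  ⟨hf.cd.sub hg.cd, hf.per.sub hg.per⟩
lemma mul (hf : Sp f) (hg : Sp g) : Sp (fun x y => f x y * g x y) :=
  ⟨hf.cd.mul hg.cd, hf.per.mul hg.per⟩
lemma neg (hf : Sp f) : Sp (fun x y => - f x y) := ⟨hf.cd.neg, hf.per.neg⟩
lemma const (c : ℝ) : Sp (fun _ _ => c) := ⟨CD.const _ c, Per.const c⟩
lemma div (hf : Sp f) (hg : Sp g) (h0 : ∀ x y, g x y ≠ 0) : Sp (fun x y => f x y / g x y) :=
  ⟨hf.cd.div hg.cd h0, hf.per.div hg.per⟩
lemma toPD (hf : Sp f) : PD (toR f) (toR (Run7.h117.dx f)) (toR (Run7.h117.dy f)) :=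
  hf.cd.one.toPD hf.per
lemma ap (hf : Sp f) (z : ℝ × ℝ) : toR f z = f z.1 z.2 := toR_apply hf.cd.cont z
end Sp

/-- smooth periodic functions of one variable -/
structure Sp1 (f : ℝ → ℝ) : Prop where
  cd : ContDiff ℝ (⊤ : ℕ∞) f
  per : ∀ x, f (x + 2 * π) = f x

namespace Sp1
variable {f g : ℝ → ℝ}

lemma ap (hf : Sp1 f) (x : ℝ) : toR1 f x = f x := toR1_apply hf.cd.continuous x

lemma toSp (hf : Sp1 f) : Sp (fun x _ => f x) := ⟨CD.oX hf.cd, Per.oX hf.per⟩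

lemma oX (hf : Sp1 f) : toR (fun x _ => f x) = oX (toR1 f) := by
  ext z
  rw [hf.toSp.ap, oX_apply, hf.ap]

lemma deriv (hf : Sp1 f) : Sp1 (deriv f) where
  cd := by
    have h := hf.cd
    have : ContDiff ℝ (((⊤ : ℕ∞) : WithTop ℕ∞) + 1) f := h.of_le top_add
    exact ((contDiff_succ_iff_deriv).mp this).2.2
  per x := by
    have : f = fun s => f (s + 2 * π) := by funext s; rw [hf.per]
    conv_rhs => rw [this]
    rw [deriv_comp_add_const f (2 * π) x]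

lemma hd (hf : Sp1 f) (x : ℝ) : HasDerivAt f (_root_.deriv f x) x :=
  ((hf.cd.differentiable (by simp)) x).hasDerivAt

lemma toP1 (hf : Sp1 f) : P1 (toR1 f) (toR1 (_root_.deriv f)) where
  h x := by
    have e : (toR1 f : ℝ → ℝ) = f := by funext s; exact hf.ap s
    rw [e, hf.deriv.ap]
    exact hf.hd x
  p x := by rw [hf.ap, hf.ap]; exact hf.per x

lemma add (hf : Sp1 f) (hg : Sp1 g) : Sp1 (fun x => f x + g x) :=
  ⟨hf.cd.add hg.cd, fun x => by simp only [hf.per, hg.per]⟩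
lemma mul (hf : Sp1 f) (hg : Sp1 g) : Sp1 (fun x => f x * g x) :=
  ⟨hf.cd.mul hg.cd, fun x => by simp only [hf.per, hg.per]⟩
lemma div (hf : Sp1 f) (hg : Sp1 g) (h0 : ∀ x, g x ≠ 0) : Sp1 (fun x => f x / g x) :=
  ⟨hf.cd.div hg.cd h0, fun x => by simp only [hf.per, hg.per]⟩
lemma const (c : ℝ) : Sp1 (fun _ => c) := ⟨contDiff_const, fun _ => rfl⟩
lemma pow (hf : Sp1 f) (m : ℕ) : Sp1 (fun x => f x ^ m) :=
  ⟨hf.cd.pow m, fun x => by simp only [hf.per]⟩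
end Sp1

end Run7.h117
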