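import Mathlib
import Pool.Agent.Run7.h117.Smooth
import Pool.Agent.Run7.h117.Apriori

/-!
The metric `g = μ (dx² + n⁻² (dy - β dx)²)` and the reduction of the Euler equations.
-/

open Real MeasureTheory intervalIntegral

namespace Run7.h117

/-- data of the metric -/
structure MD (n : ℝ) (μ β : ℝ → ℝ → ℝ) : Prop where
  hn : 0 < n
  hμ : Sp μ
  hβ : Sp β
  pos : ∀ x y, 0 < μ x y

variable {n : ℝ} {μ β : ℝ → ℝ → ℝ}

/-- the metric -/
noncomputable def MD.met (h : MD n μ β) : Metric where
  g := fun i j x y => !![μ x y * (1 + β x y ^ 2 / n ^ 2), -(μ x y * β x y / n ^ 2);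
    -(μ x y * β x y / n ^ 2), μ x y / n ^ 2] i j
  smooth i j := by
    have h1 : CD (⊤ : ℕ∞) (fun x y => μ x y * (1 + β x y ^ 2 / n ^ 2)) := by
      have a := h.hμ.cd; have b := h.hβ.cd
      unfold CD at *
      fun_prop
    have h2 : CD (⊤ : ℕ∞) (fun x y => -(μ x y * β x y / n ^ 2)) := by
      have a := h.hμ.cd; have b := h.hβ.cd
      unfold CD at *
      fun_prop
    have h3 : CD (⊤ : ℕ∞) (fun x y => μ x y / n ^ 2) := by
      have a := h.hμ.cd
      unfold CD at *
      fun_prop
    fin_cases i <;> fin_cases j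
    · exact h1
    · exact h2
    · exact h2
    · exact h3
  per i j := by
    have p1 := h.hμ.per.1
    have p2 := h.hμ.per.2
    have q1 := h.hβ.per.1
    have q2 := h.hβ.per.2
    constructor <;> intro x y <;> simp only [p1, p2, q1, q2]
  symm i j := by
    fin_cases i <;> fin_cases j <;> rfl
  pos x y ξ hξ := by
    have hn := h.hn
    have hp := h.pos x y
    simp only [Fin.sum_univ_two, Matrix.of_apply, Matrix.cons_val_zero, Matrix.cons_val_one,
      Matrix.cons_val', Matrix.cons_val_fin_one]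
    have e : μ x y * (1 + β x y ^ 2 / n ^ 2) * ξ 0 * ξ 0 + -(μ x y * β x y / n ^ 2) * ξ 0 * ξ 1
        + (-(μ x y * β x y / n ^ 2) * ξ 1 * ξ 0 + μ x y / n ^ 2 * ξ 1 * ξ 1)
        = μ x y * (ξ 0 ^ 2 + (ξ 1 - β x y * ξ 0) ^ 2 / n ^ 2) := by
      field_simp
      ring
    rw [e]
    apply mul_pos hp
    by_cases h0 : ξ 0 = 0
    · have h1 : ξ 1 ≠ 0 := by
        intro h1
        apply hξ
        funext i
        fin_cases i
        · exact h0
        · exact h1
      rw [h0]
      have : 0 < (ξ 1 - β x y * 0) ^ 2 / n ^ 2 := by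
        rw [mul_zero, sub_zero]
        positivity
      linarith
    · have : 0 < ξ 0 ^ 2 := by positivity
      have : 0 ≤ (ξ 1 - β x y * ξ 0) ^ 2 / n ^ 2 := by positivity
      linarith

namespace MD

variable (h : MD n μ β)

lemma g00 (x y : ℝ) : h.met.g 0 0 x y = μ x y * (1 + β x y ^ 2 / n ^ 2) := rfl
lemma g01 (x y : ℝ) : h.met.g 0 1 x y = -(μ x y * β x y / n ^ 2) := rfl
lemma g10 (x y : ℝ) : h.met.g 1 0 x y = -(μ x y * β x y / n ^ 2) := rfl
lemma g11 (x y : ℝ) : h.met.g 1 1 x y = μ x y / n ^ 2 := rfl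

lemma vol (x y : ℝ) : h.met.vol x y = μ x y / n := by
  have h1 : (h.met.mat x y).det = (μ x y / n) ^ 2 := by
    rw [Metric.det_eq, g00, g11, g01]
    have := h.hn.ne'
    field_simp
    ring
  unfold Metric.vol
  rw [h1, Real.sqrt_sq (div_pos (h.pos x y) h.hn).le]

lemma low0 (u : Fin 2 → ℝ → ℝ → ℝ) (x y : ℝ) :
    h.met.low u 0 x y = - (1 / n) * (β x y * (μ x y / n * u 1 x y + β x y * (-(μ x y / n * u 0 x y)))
      + n ^ 2 * (-(μ x y / n * u 0 x y))) := by
  unfold Metric.low
  rw [Fin.sum_univ_two, g00, g01]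
  have := h.hn.ne'
  field_simp
  ring

lemma low1 (u : Fin 2 → ℝ → ℝ → ℝ) (x y : ℝ) :
    h.met.low u 1 x y = (1 / n) * (μ x y / n * u 1 x y + β x y * (-(μ x y / n * u 0 x y))) := by
  unfold Metric.low
  rw [Fin.sum_univ_two, g10, g11]
  have := h.hn.ne'
  field_simp
  ring

end MD

/-- the compatibility of `Geo` data with the metric data -/
structure Compat {n : ℝ} (G : Geo n) (μ β : ℝ → ℝ → ℝ) : Prop where
  md : MD n μ β
  hmu : G.mu = toR μ
  hbt : G.bt = toR β

/-- every steady Euler flow with `C¹` vorticity gives `Steady` data -/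
lemma Compat.steady {G : Geo n} (hC : Compat G μ β) {u : Fin 2 → ℝ → ℝ → ℝ} {p ω : ℝ → ℝ → ℝ}
    (hu : hC.md.met.SteadyEuler u p) (hω : ω = hC.md.met.curl u) (hω1 : CD 1 ω) :
    ∃ a cc ax ay cy B : R, Steady G a cc ax ay cy (toR ω) (toR (dx ω)) (toR (dy ω)) B := by
  have h := hC.md
  have hn := h.hn
  have hn' := h.hn.ne'
  -- smoothness
  have hv : Sp (fun x y => μ x y / n) := h.hμ.div (Sp.const n) (fun _ _ => hn')
  have hu0 := hu.u_C1 0
  have hu1 := hu.u_C1 1
  have ha : CD 1 (fun x y => μ x y / n * u 1 x y) := hv.cd.one.mul hu1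
  have hpa : Per (fun x y => μ x y / n * u 1 x y) := hv.per.mul (hu.u_per 1)
  have hc : CD 1 (fun x y => -(μ x y / n * u 0 x y)) := (hv.cd.one.mul hu0).neg
  have hpc : Per (fun x y => -(μ x y / n * u 0 x y)) := (hv.per.mul (hu.u_per 0)).neg
  obtain ⟨a, hadef⟩ : ∃ a : ℝ → ℝ → ℝ, a = fun x y => μ x y / n * u 1 x y := ⟨_, rfl⟩
  obtain ⟨c, hcdef⟩ : ∃ c : ℝ → ℝ → ℝ, c = fun x y => -(μ x y / n * u 0 x y) := ⟨_, rfl⟩
  rw [← hadef] at ha hpa
  rw [← hcdef] at hc hpc
  -- divergence
  have hvol : h.met.vol = fun x y => μ x y / n := by funext x y; exact h.vol x y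
  have hdiv : ∀ x y, dx c x y = dy a x y := by
    intro x y
    have h1 := hu.div_free x y
    unfold Metric.div at h1
    have h2 := (mul_eq_zero.mp h1).resolve_left (inv_ne_zero (h.met.vol_pos x y).ne')
    rw [Fin.sum_univ_two] at h2
    have e0 : pd 0 (fun x y => h.met.vol x y * u 0 x y) x y = - dx c x y := by
      have : (fun x y => h.met.vol x y * u 0 x y) = fun x y => - c x y := by
        funext x y; rw [hvol, hcdef]; ring
      rw [this]
      show deriv (fun s => - c s y) x = - deriv (fun s => c s y) x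
      exact deriv.fun_neg
    have e1 : pd 1 (fun x y => h.met.vol x y * u 1 x y) x y = dy a x y := by
      have : (fun x y => h.met.vol x y * u 1 x y) = a := by
        funext x y; rw [hvol, hadef]
      rw [this]; rfl
    rw [e0, e1] at h2
    linarith
  have hPa := ha.toPD hpa
  have hPc := hc.toPD hpc
  have hcx : toR (dx c) = toR (dy a) := by
    congr 1
    funext x y; exact hdiv x y
  rw [hcx] at hPc
  -- vorticity
  have hωp : Per ω := by
    have hl : ∀ i, Per (h.met.low u i) := by
      intro i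
      constructor
      · intro x y
        unfold Metric.low
        simp only [(h.met.per _ _).1, (hu.u_per _).1]
      · intro x y
        unfold Metric.low
        simp only [(h.met.per _ _).2, (hu.u_per _).2]
    rw [hω]
    have h1 := (hl 1).dx
    have h2 := (hl 0).dy
    constructor
    · intro x y
      show (h.met.vol (x + 2 * π) y)⁻¹ * (dx (h.met.low u 1) (x + 2 * π) y
        - dy (h.met.low u 0) (x + 2 * π) y) = (h.met.vol x y)⁻¹ * (dx (h.met.low u 1) x y
        - dy (h.met.low u 0) x y)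
      rw [h1.1, h2.1, h.vol, h.vol, h.hμ.per.1]
    · intro x y
      show (h.met.vol x (y + 2 * π))⁻¹ * (dx (h.met.low u 1) x (y + 2 * π)
        - dy (h.met.low u 0) x (y + 2 * π)) = (h.met.vol x y)⁻¹ * (dx (h.met.low u 1) x y
        - dy (h.met.low u 0) x y)
      rw [h1.2, h2.2, h.vol, h.vol, h.hμ.per.2]
  have hPω := hω1.toPD hωp
  -- pointwise form of the vorticity
  have hβ1 := h.hβ.cd.one
  have hvortpt : ∀ x y, μ x y * ω x y =
      (dx a x y + (dx β x y * c x y + β x y * dx c x y))
      + (dy β x y * (a x y + β x y * c x y)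
        + β x y * (dy a x y + (dy β x y * c x y + β x y * dy c x y)) + n ^ 2 * dy c x y) := by
    intro x y
    have e1 : pd 0 (h.met.low u 1) x y = 1 / n * (dx a x y + (dx β x y * c x y + β x y * dx c x y)) := by
      have e : (fun s => h.met.low u 1 s y) = fun s => (1 / n) * (a s y + β s y * c s y) := by
        funext s; rw [h.low1, hadef, hcdef]
      show deriv (fun s => h.met.low u 1 s y) x = _
      rw [e]
      exact (((ha.hx x y).add ((hβ1.hx x y).mul (hc.hx x y))).const_mul (1 / n)).deriv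
    have e2 : pd 1 (h.met.low u 0) x y = - (1 / n) * (dy β x y * (a x y + β x y * c x y)
        + β x y * (dy a x y + (dy β x y * c x y + β x y * dy c x y)) + n ^ 2 * dy c x y) := by
      have e : (fun s => h.met.low u 0 x s)
          = fun s => -(1 / n) * (β x s * (a x s + β x s * c x s) + n ^ 2 * c x s) := by
        funext s; rw [h.low0, hadef, hcdef]
      show deriv (fun s => h.met.low u 0 x s) y = _
      rw [e]
      exact (((((hβ1.hy x y).mul ((ha.hy x y).add ((hβ1.hy x y).mul (hc.hy x y))))).add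
        ((hc.hy x y).const_mul (n ^ 2))).const_mul (-(1 / n))).deriv
    rw [hω]
    unfold Metric.curl
    rw [e1, e2, h.vol]
    have := (h.pos x y).ne'
    field_simp
    ring
  -- Bernoulli function
  have hen : CD 1 (h.met.en u) := by
    have g0 := (h.met.smooth 0 0).one
    have g1 := (h.met.smooth 0 1).one
    have g2 := (h.met.smooth 1 1).one
    have k1 := (g0.mul hu0).mul hu0
    have k2 := (CD.const 1 2).mul ((g1.mul hu0).mul hu1)
    have k3 := (g2.mul hu1).mul hu1
    exact (CD.const 1 (1 / 2)).mul ((k1.add k2).add k3)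
  have hBC : CD 1 (fun x y => p x y + h.met.en u x y) := hu.p_C1.add hen
  have hBper : Per (fun x y => p x y + h.met.en u x y) := by
    refine hu.p_per.add ?_
    constructor
    · intro x y
      unfold Metric.en
      simp only [(h.met.per _ _).1, (hu.u_per _).1]
    · intro x y
      unfold Metric.en
      simp only [(h.met.per _ _).2, (hu.u_per _).2]
  have hPB := hBC.toPD hBper
  have hbx : ∀ x y, dx (fun x y => p x y + h.met.en u x y) x y = ω x y * a x y := by
    intro x y
    have h1 := ((h.met.bernoulli u hu.u_C1 p x y).mp (fun k => hu.euler k x y)).1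
    have h2 : dx (fun x y => p x y + h.met.en u x y) x y = dx p x y + dx (h.met.en u) x y :=
      ((hu.p_C1.hx x y).add (hen.hx x y)).deriv
    rw [h2]
    have h3 : dx p x y + dx (h.met.en u) x y = h.met.vol x y * h.met.curl u x y * u 1 x y := h1
    rw [h3, hω, hadef, h.vol]; ring
  have hby : ∀ x y, dy (fun x y => p x y + h.met.en u x y) x y = ω x y * c x y := by
    intro x y
    have h1 := ((h.met.bernoulli u hu.u_C1 p x y).mp (fun k => hu.euler k x y)).2
    have h2 : dy (fun x y => p x y + h.met.en u x y) x y = dy p x y + dy (h.met.en u) x y :=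
      ((hu.p_C1.hy x y).add (hen.hy x y)).deriv
    rw [h2]
    have h3 : dy p x y + dy (h.met.en u) x y = -(h.met.vol x y * h.met.curl u x y * u 0 x y) := h1
    rw [h3, hω, hcdef, h.vol]; ring
  have cont0 : ∀ {f : ℝ → ℝ → ℝ}, CD 1 f → Continuous (fun z : ℝ × ℝ => dx f z.1 z.2) :=
    fun hf => (hf.dx (by simp : (0 : WithTop ℕ∞) + 1 ≤ 1)).cont
  have cont1 : ∀ {f : ℝ → ℝ → ℝ}, CD 1 f → Continuous (fun z : ℝ × ℝ => dy f z.1 z.2) :=
    fun hf => (hf.dy (by simp : (0 : WithTop ℕ∞) + 1 ≤ 1)).cont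
  refine ⟨toR a, toR c, toR (dx a), toR (dy a), toR (dy c),
    toR (fun x y => p x y + h.met.en u x y), ⟨hPa, hPc, hPω, ?_, ?_⟩⟩
  · -- hmu
    have hbtx : toR (dx β) = G.btx := by
      have := h.hβ.toPD
      rw [← hC.hbt] at this
      exact (this.unique G.hbt).1
    have hbty : toR (dy β) = oX G.w * G.mh := by
      have := h.hβ.toPD
      rw [← hC.hbt] at this
      exact (this.unique G.hbt).2
    ext z
    unfold Geo.Df
    rw [← hbtx, ← hbty, hC.hmu, hC.hbt]
    simp only [ContinuousMap.mul_apply, ContinuousMap.add_apply, ContinuousMap.smul_apply,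
      smul_eq_mul, h.hμ.ap, h.hβ.ap, h.hβ.dx.ap, h.hβ.dy.ap, toR_apply ha.cont,
      toR_apply hc.cont, toR_apply hω1.cont, toR_apply (cont0 ha), toR_apply (cont1 ha),
      toR_apply (cont1 hc)]
    rw [hvortpt, hdiv]
    ring
  · refine hPB.congr rfl ?_ ?_
    · ext z
      rw [toR_apply (cont0 hBC), ContinuousMap.mul_apply, toR_apply hω1.cont, toR_apply ha.cont]
      exact hbx z.1 z.2
    · ext z
      rw [toR_apply (cont1 hBC), ContinuousMap.mul_apply, toR_apply hω1.cont, toR_apply hc.cont]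
      exact hby z.1 z.2

end Run7.h117
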