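import Mathlib
import Pool.Agent.Run7.h117.Torus
import Pool.Agent.Run7.h117.Star

/-!
Construction of the geometric data from the base data.
-/

open Real MeasureTheory intervalIntegral

namespace Run7.h117

/-! ### explicit functions -/

lemma sp1_vv (b : ℝ) : Sp1 (vv b) where
  cd := by unfold vv; fun_prop
  per x := by simp [vv]
lemma sp1_ww (b : ℝ) : Sp1 (ww b) where
  cd := by unfold ww; fun_prop
  per x := by simp [ww]
lemma sp1_ww' (b : ℝ) : Sp1 (ww' b) where
  cd := by unfold ww'; fun_prop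
  per x := by simp [ww']
lemma sp1_rho (b : ℝ) : Sp1 (rho b) where
  cd := by unfold rho; fun_prop
  per x := by simp [rho]

lemma vv_pos (b x : ℝ) : 0 < vv b x := Real.exp_pos _
lemma rho_pos (b x : ℝ) : 0 < rho b x := Real.exp_pos _
lemma rho_eq (b x : ℝ) : rho b x = vv b x * vv b x := by
  unfold rho vv; rw [← Real.exp_add]; congr 1; ring

lemma hd_vv (b x : ℝ) : HasDerivAt (vv b) (ww b x * vv b x) x := by
  have h := ((Real.hasDerivAt_cos x).const_mul (b / 2)).exp
  refine h.congr_deriv ?_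
  unfold ww vv; ring
lemma hd_ww (b x : ℝ) : HasDerivAt (ww b) (ww' b x) x := by
  have h := (Real.hasDerivAt_sin x).const_mul (-(b / 2))
  refine h.congr_deriv ?_
  unfold ww'; ring
lemma hd_rho (b x : ℝ) : HasDerivAt (rho b) (2 * ww b x * rho b x) x := by
  have h := ((Real.hasDerivAt_cos x).const_mul b).exp
  refine h.congr_deriv ?_
  unfold ww rho; ring

lemma sp_AA (p t : ℝ) : Sp (AA p t) where
  cd := by unfold AA CD; fun_prop
  per := by
    constructor
    · intro x y
      have e1 : y + (x + 2 * π) = (y + x) + 2 * π := by ring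
      have e2 : y - (x + 2 * π) = (y - x) - 2 * π := by ring
      simp only [AA, e1, e2, Real.cos_add_two_pi, Real.sin_sub_two_pi]
    · intro x y
      have e1 : (y + 2 * π) + x = (y + x) + 2 * π := by ring
      have e2 : (y + 2 * π) - x = (y - x) + 2 * π := by ring
      simp only [AA, e1, e2, Real.cos_add_two_pi, Real.sin_add_two_pi]

lemma sp_SS (p t : ℝ) : Sp (SS p t) where
  cd := by unfold SS CD; fun_prop
  per := by
    constructor
    · intro x y
      have e1 : y + (x + 2 * π) = (y + x) + 2 * π := by ring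
      have e2 : y - (x + 2 * π) = (y - x) - 2 * π := by ring
      simp only [SS, e1, e2, Real.sin_add_two_pi, Real.cos_sub_two_pi]
    · intro x y
      have e1 : (y + 2 * π) + x = (y + x) + 2 * π := by ring
      have e2 : (y + 2 * π) - x = (y - x) + 2 * π := by ring
      simp only [SS, e1, e2, Real.cos_add_two_pi, Real.sin_add_two_pi]

lemma sp_m1 (b p t : ℝ) : Sp (m1 b p t) :=
  (sp_AA p t).div (sp1_rho b).toSp (fun x _ => (rho_pos b x).ne')
lemma sp_N1 (b p t : ℝ) : Sp (N1 b p t) :=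
  (sp_SS p t).div (sp1_rho b).toSp (fun x _ => (rho_pos b x).ne')
lemma sp_bet (b p ε t : ℝ) : Sp (bet b p ε t) :=
  (Sp.const p).add ((sp1_ww b).toSp.mul ((Sp.const ε).mul (sp_N1 b p t)))

lemma dy_SS (p t x y : ℝ) : HasDerivAt (fun s => SS p t x s) (AA p t x y) y := by
  have h1 := Real.hasDerivAt_cos y
  have h2 : HasDerivAt (fun s : ℝ => Real.sin (s + x)) (Real.cos (y + x) * 1) y :=
    ((hasDerivAt_id y).add_const x).sin
  have h3 : HasDerivAt (fun s : ℝ => Real.cos (s - x)) (-Real.sin (y - x) * 1) y :=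
    ((hasDerivAt_id y).sub_const x).cos
  have h4 := (h1.sub (h2.const_mul p)).add (h3.const_mul (p * t))
  refine h4.congr_deriv ?_
  unfold AA; ring

lemma dy_N1 (b p t x y : ℝ) : dy (N1 b p t) x y = m1 b p t x y :=
  ((dy_SS p t x y).div_const (rho b x)).deriv

lemma dy_bet (b p ε t x y : ℝ) :
    dy (bet b p ε t) x y = ww b x * (ε * m1 b p t x y) := by
  have h1 : HasDerivAt (fun s => N1 b p t x s) (m1 b p t x y) y :=
    (dy_SS p t x y).div_const (rho b x)
  exact (((h1.const_mul ε).const_mul (ww b x)).const_add p).deriv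

/-- mean of `m₁` -/
lemma mean_AA (p t x : ℝ) : ∫ y in (0 : ℝ)..(2 * π), AA p t x y = 0 := by
  rw [intervalIntegral.integral_eq_sub_of_hasDerivAt (f := fun s => SS p t x s)
    (fun y _ => dy_SS p t x y)
    ((show Continuous (fun y => AA p t x y) by unfold AA; fun_prop).intervalIntegrable _ _)]
  have := (sp_SS p t).per.2 x 0
  rw [zero_add] at this
  rw [this, sub_self]

/-- base data with positivity -/
structure BP (b p n ε t : ℝ) (κ : ℝ → ℝ → ℝ) (lam M : ℝ → ℝ) : Prop where
  bd : BaseData b p n ε t κ lam M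
  hn : 0 < n
  hM : ∀ x, 0 < M x
  hmh : ∀ x y, |ε * m1 b p t x y| ≤ 1 / 2

variable {b p n ε t : ℝ} {κ : ℝ → ℝ → ℝ} {lam M : ℝ → ℝ}

/-- the conformal factor -/
noncomputable def fmu (b p ε t : ℝ) (M : ℝ → ℝ) (x y : ℝ) : ℝ := M x * (1 + ε * m1 b p t x y)

/-- the base vorticity -/
noncomputable def fOm (b : ℝ) (M : ℝ → ℝ) (x : ℝ) : ℝ := ww b x * vv b x / M x

lemma toR_mul {f g : ℝ → ℝ → ℝ} (hf : Sp f) (hg : Sp g) :
    toR (fun x y => f x y * g x y) = toR f * toR g := by
  ext z; rw [(hf.mul hg).ap, ContinuousMap.mul_apply, hf.ap, hg.ap]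

lemma mR_toR {f : ℝ → ℝ → ℝ} (hf : Sp f) (x : ℝ) : mR (toR f) x = mY f x := by
  rw [mR_apply]
  unfold mY
  congr 1
  refine intervalIntegral.integral_congr fun y _ => ?_
  exact hf.ap (x, y)

lemma Sp.symm {f : ℝ → ℝ → ℝ} (hf : Sp f) (x y : ℝ) : Run7.h117.dy (Run7.h117.dx f) x y = Run7.h117.dx (Run7.h117.dy f) x y := by
  have h := PD.symm hf.toPD hf.dx.toPD hf.dy.toPD
  have := congrArg (fun r : R => r (x, y)) h
  simpa only [hf.dx.dy.ap, hf.dy.dx.ap] using this

namespace BP

variable (h : BP b p n ε t κ lam M)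
include h

lemma sκ : Sp κ := ⟨h.bd.smooth, h.bd.per⟩
lemma slam : Sp1 lam := ⟨h.bd.lsmooth, h.bd.lper⟩
lemma sM : Sp1 M := ⟨h.bd.Msmooth, h.bd.Mper⟩
omit h in
lemma smh' : Sp (fun x y => ε * m1 b p t x y) := (Sp.const ε).mul (sp_m1 b p t)
lemma smh : Sp (fun x y => ε * m1 b p t x y) := by
  have := h.hn
  exact smh'
lemma smu : Sp (fmu b p ε t M) := h.sM.toSp.mul ((Sp.const 1).add h.smh)
lemma mh_pos (x y : ℝ) : 0 < 1 + ε * m1 b p t x y := by
  have := (abs_le.mp (h.hmh x y)).1; linarith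
lemma mu_pos (x y : ℝ) : 0 < fmu b p ε t M x y := mul_pos (h.hM x) (h.mh_pos x y)
lemma sk : Sp (kk ε lam κ) := h.slam.toSp.add ((Sp.const ε).mul h.sκ)
lemma sOm : Sp1 (fOm b M) := ((sp1_ww b).mul (sp1_vv b)).div h.sM (fun x => (h.hM x).ne')
lemma sP : Sp (fun x y => fmu b p ε t M x y * kk ε lam κ x y) := h.smu.mul h.sk
lemma smui : Sp (fun x y => 1 / fmu b p ε t M x y) :=
  (Sp.const 1).div h.smu (fun x y => (h.mu_pos x y).ne')

lemma th_eq (x : ℝ) : th b p ε t κ x = 1 / M x - lam x := by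
  have h1 := h.bd.Meq x
  have := (h.hM x).ne'
  field_simp
  linarith

lemma sth : Sp1 (th b p ε t κ) := by
  have h1 : Sp1 (fun x => 1 / M x + (-1) * lam x) :=
    ((Sp1.const 1).div h.sM (fun x => (h.hM x).ne')).add ((Sp1.const (-1)).mul h.slam)
  have e : th b p ε t κ = fun x => 1 / M x + (-1) * lam x := by
    funext x; rw [h.th_eq]; ring
  rw [e]; exact h1

/-- derivative of `Ω` -/
lemma hOm (x : ℝ) : deriv (fOm b M) x = (ww' b x + ww b x ^ 2) * vv b x / M x
    + ww b x * vv b x * (2 * ww b x * th b p ε t κ x + deriv (th b p ε t κ) x) := by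
  have e : fOm b M = fun x => ww b x * vv b x * (lam x + th b p ε t κ x) := by
    funext x
    unfold fOm
    rw [h.th_eq]; ring
  have h1 := ((hd_ww b x).mul (hd_vv b x)).mul ((h.slam.hd x).add (h.sth.hd x))
  rw [e]
  refine h1.deriv.trans ?_
  rw [h.bd.leq x]
  have h2 : lam x + th b p ε t κ x = 1 / M x := by rw [h.th_eq]; ring
  simp only [Pi.mul_apply, Pi.add_apply]
  rw [h2]
  ring

lemma mean_mh : mR (toR fun x y => ε * m1 b p t x y) = 0 := by
  ext x
  rw [mR_toR h.smh, ContinuousMap.zero_apply]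
  unfold mY m1
  have : ∀ y, ε * (AA p t x y / rho b x) = (ε / rho b x) * AA p t x y := fun y => by ring
  simp only [this]
  rw [intervalIntegral.integral_const_mul, mean_AA]
  simp

lemma mR_k : mR (toR (kk ε lam κ)) = toR1 lam := by
  have e : toR (kk ε lam κ) = oX (toR1 lam) + ε • toR κ := by
    ext z
    rw [h.sk.ap]
    simp only [ContinuousMap.add_apply, oX_apply, ContinuousMap.smul_apply, smul_eq_mul,
      h.slam.ap, h.sκ.ap]
    rfl
  have e2 : mR (toR κ) = 0 := by
    ext x; rw [mR_toR h.sκ, h.bd.mean]; rfl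
  rw [e, mR_add, mR_oX, mR_smul, e2, smul_zero, add_zero]

lemma mR_P : mR (toR fun x y => fmu b p ε t M x y * kk ε lam κ x y) = 1 := by
  have e : (toR fun x y => fmu b p ε t M x y * kk ε lam κ x y)
      = oX (toR1 M) * (toR (kk ε lam κ) + oX (toR1 lam) * toR (fun x y => ε * m1 b p t x y)
        + toR (fun x y => (ε * m1 b p t x y) * (ε * κ x y))) := by
    ext z
    rw [h.sP.ap]
    simp only [ContinuousMap.add_apply, ContinuousMap.mul_apply, oX_apply,
      h.slam.ap, h.sM.ap, h.sk.ap, h.smh.ap, (h.smh.mul ((Sp.const ε).mul h.sκ)).ap]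
    unfold fmu kk
    ring
  rw [e, mR_oX_mul, mR_add, mR_add, mR_oX_mul, h.mean_mh, h.mR_k, mul_zero, add_zero]
  ext x
  simp only [ContinuousMap.mul_apply, ContinuousMap.add_apply, h.sM.ap, h.slam.ap,
    ContinuousMap.one_apply]
  rw [mR_toR (h.smh.mul ((Sp.const ε).mul h.sκ))]
  exact h.bd.Meq x

lemma lam_rho (x : ℝ) : HasDerivAt (fun x => lam x * (vv b x * vv b x))
    (2 * (fOm b M x * vv b x)) x := by
  have h1 := (h.slam.hd x).mul ((hd_vv b x).mul (hd_vv b x))
  refine h1.congr_deriv ?_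
  rw [h.bd.leq x]
  have h2 : fOm b M x = ww b x * vv b x * (lam x + th b p ε t κ x) := by
    unfold fOm; rw [h.th_eq]; ring
  rw [h2]
  simp only [Pi.mul_apply]
  ring

/-- the pointwise form of the equation (K) -/
lemma keq' (x y : ℝ) (kx ky kxx kxy kyy btx : ℝ)
    (e1 : kx = dx (kk ε lam κ) x y) (e2 : ky = dy (kk ε lam κ) x y)
    (e3 : kxx = dx (dx (kk ε lam κ)) x y) (e4 : kxy = dx (dy (kk ε lam κ)) x y)
    (e5 : kyy = dy (dy (kk ε lam κ)) x y) (e6 : btx = dx (bet b p ε t) x y) :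
    (ww b x * vv b x * (ww b x * kk ε lam κ x y + kx + bet b p ε t x y * ky)
      + vv b x * (ww' b x * kk ε lam κ x y + ww b x * kx + kxx
          + (btx * ky + bet b p ε t x y * kxy)))
    + (ww b x * (ε * m1 b p t x y)
        * (vv b x * (ww b x * kk ε lam κ x y + kx + bet b p ε t x y * ky))
      + bet b p ε t x y * (vv b x * (ww b x * ky + kxy
          + (ww b x * (ε * m1 b p t x y) * ky + bet b p ε t x y * kyy))))
    + n ^ 2 * (vv b x * kyy)
    = deriv (fOm b M) x * (fmu b p ε t M x y * kk ε lam κ x y) := by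
  subst e1 e2 e3 e4 e5 e6
  have hk := h.sk
  have hb := sp_bet b p ε t
  have h1 := h.bd.keq x y
  have d1 : dx (fun x y => rho b x * EE b p ε t (kk ε lam κ) x y) x y
      = 2 * ww b x * rho b x * (dx (kk ε lam κ) x y + bet b p ε t x y * dy (kk ε lam κ) x y)
        + rho b x * (dx (dx (kk ε lam κ)) x y + (dx (bet b p ε t) x y * dy (kk ε lam κ) x y
          + bet b p ε t x y * dx (dy (kk ε lam κ)) x y)) := by
    have a1 := hk.dx.cd.one.hx x y
    have a2 := hk.dy.cd.one.hx x y
    have a3 := hb.cd.one.hx x y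
    exact ((hd_rho b x).mul (a1.add (a3.mul a2))).deriv
  have d2 : dy (fun x y => bet b p ε t x y * (rho b x * EE b p ε t (kk ε lam κ) x y)) x y
      = ww b x * (ε * m1 b p t x y) * (rho b x * (dx (kk ε lam κ) x y
          + bet b p ε t x y * dy (kk ε lam κ) x y))
        + bet b p ε t x y * (rho b x * (dx (dy (kk ε lam κ)) x y
          + (ww b x * (ε * m1 b p t x y) * dy (kk ε lam κ) x y
            + bet b p ε t x y * dy (dy (kk ε lam κ)) x y))) := by
    have a1 := hk.dx.cd.one.hy x y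
    have a2 := hk.dy.cd.one.hy x y
    have a3 := hb.cd.one.hy x y
    rw [dy_bet] at a3
    rw [hk.symm] at a1
    exact (a3.mul ((a1.add (a3.mul a2)).const_mul (rho b x))).deriv
  rw [d1, d2] at h1
  have hv := (vv_pos b x).ne'
  have hMx := (h.hM x).ne'
  rw [h.hOm x]
  unfold fmu
  apply mul_left_cancel₀ hv
  rw [rho_eq] at h1
  have key : M x * (1 / M x) = 1 := by field_simp
  have e7 : (ww' b x + ww b x ^ 2) * vv b x / M x = (ww' b x + ww b x ^ 2) * vv b x * (1 / M x) := by
    ring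
  rw [e7]
  linear_combination h1 - (vv b x * (ww' b x + ww b x ^ 2) * vv b x
    * (1 + ε * m1 b p t x y) * kk ε lam κ x y) * key

end BP

end Run7.h117
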