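import Mathlib
import Pool.Agent.Run7.h117.Build

/-!
Construction of the geometric data from the base data, part 2.
-/

open Real MeasureTheory intervalIntegral

namespace Run7.h117

variable {b p n ε t : ℝ} {κ : ℝ → ℝ → ℝ} {lam M : ℝ → ℝ}

lemma P1.one_deriv {f' : R1} (h1 : P1 1 f') : f' = 0 := by
  ext x
  exact (h1.h x).unique (hasDerivAt_const x (1:ℝ))

namespace BP

/-- `P = μ k` -/
noncomputable def fP (b p ε t : ℝ) (κ : ℝ → ℝ → ℝ) (lam M : ℝ → ℝ) (x y : ℝ) : ℝ :=
  fmu b p ε t M x y * kk ε lam κ x y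

/-- `1 / μ` -/
noncomputable def fmui (b p ε t : ℝ) (M : ℝ → ℝ) (x y : ℝ) : ℝ := 1 / fmu b p ε t M x y

variable (h : BP b p n ε t κ lam M)
include h

lemma sP' : Sp (fP b p ε t κ lam M) := h.sP
lemma smui' : Sp (fmui b p ε t M) := h.smui

lemma mP : mR (toR (fP b p ε t κ lam M)) = 1 := h.mR_P

lemma mPx : mR (toR (dx (fP b p ε t κ lam M))) = 0 := by
  have h1 := h.sP'.toPD.mean
  rw [h.mP] at h1
  exact h1.one_deriv

/-- the second component `Q` -/
noncomputable def Qr (_ : BP b p n ε t κ lam M) (s : ℝ) : R :=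
  oX (ContinuousMap.const _ p + s • toR1 (fOm b M)) - aR (toR (dx (fP b p ε t κ lam M)))

lemma QPD (s : ℝ) : PD (h.Qr s)
    (oX (s • toR1 (deriv (fOm b M))) - aR (toR (dx (dx (fP b p ε t κ lam M)))))
    (-(toR (dx (fP b p ε t κ lam M)))) := by
  have h1 : P1 (ContinuousMap.const ℝ p + s • toR1 (fOm b M))
      (0 + s • toR1 (deriv (fOm b M))) :=
    P1.add ⟨fun x => hasDerivAt_const x p, fun x => rfl⟩ (h.sOm.toP1.smul s)
  have h2 := h.sP'.dx.toPD.prim h.mPx
  refine (h1.toPD.sub h2).congr rfl ?_ ?_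
  · rw [zero_add]
  · rw [zero_sub]

/-- the geometric data -/
noncomputable def geo (s : ℝ) : Geo n where
  v := toR1 (vv b)
  w := toR1 (ww b)
  Om := toR1 (fOm b M)
  Om' := toR1 (deriv (fOm b M))
  lam := toR1 lam
  mh := toR (fun x y => ε * m1 b p t x y)
  mu := toR (fmu b p ε t M)
  bt := toR (bet b p ε t)
  btx := toR (dx (bet b p ε t))
  k := toR (kk ε lam κ)
  kx := toR (dx (kk ε lam κ))
  ky := toR (dy (kk ε lam κ))
  kxx := toR (dx (dx (kk ε lam κ)))
  kxy := toR (dx (dy (kk ε lam κ)))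
  kyy := toR (dy (dy (kk ε lam κ)))
  Ev := oX (toR1 (vv b)) * (oX (toR1 (ww b)) * toR (kk ε lam κ) + toR (dx (kk ε lam κ))
    + toR (bet b p ε t) * toR (dy (kk ε lam κ)))
  Evx := oX (toR1 (ww b)) * oX (toR1 (vv b)) * (oX (toR1 (ww b)) * toR (kk ε lam κ)
      + toR (dx (kk ε lam κ)) + toR (bet b p ε t) * toR (dy (kk ε lam κ)))
    + oX (toR1 (vv b)) * (oX (toR1 (ww' b)) * toR (kk ε lam κ)
      + oX (toR1 (ww b)) * toR (dx (kk ε lam κ)) + toR (dx (dx (kk ε lam κ)))
      + (toR (dx (bet b p ε t)) * toR (dy (kk ε lam κ))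
        + toR (bet b p ε t) * toR (dx (dy (kk ε lam κ)))))
  Evy := oX (toR1 (vv b)) * (oX (toR1 (ww b)) * toR (dy (kk ε lam κ))
      + toR (dx (dy (kk ε lam κ)))
      + (oX (toR1 (ww b)) * toR (fun x y => ε * m1 b p t x y) * toR (dy (kk ε lam κ))
        + toR (bet b p ε t) * toR (dy (dy (kk ε lam κ)))))
  P := toR (fP b p ε t κ lam M)
  Px := toR (dx (fP b p ε t κ lam M))
  Py := toR (dy (fP b p ε t κ lam M))
  Q := h.Qr s
  Qx := oX (s • toR1 (deriv (fOm b M))) - aR (toR (dx (dx (fP b p ε t κ lam M))))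
  X2 := toR (fmui b p ε t M) * h.Qr s
  X2x := toR (dx (fmui b p ε t M)) * h.Qr s + toR (fmui b p ε t M)
    * (oX (s • toR1 (deriv (fOm b M))) - aR (toR (dx (dx (fP b p ε t κ lam M)))))
  X2y := toR (dy (fmui b p ε t M)) * h.Qr s + toR (fmui b p ε t M)
    * (-(toR (dx (fP b p ε t κ lam M))))
  hv := by
    refine ⟨fun x => ?_, (sp1_vv b).toP1.p⟩
    have e : (toR1 (vv b) : ℝ → ℝ) = vv b := by funext s; exact (sp1_vv b).ap s
    rw [ContinuousMap.mul_apply, (sp1_ww b).ap, (sp1_vv b).ap, e]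
    exact hd_vv b x
  hOm := h.sOm.toP1
  hlam := by
    refine ⟨fun x => ?_, fun x => ?_⟩
    · have e : ((toR1 lam * (toR1 (vv b) * toR1 (vv b)) : R1) : ℝ → ℝ)
          = fun x => lam x * (vv b x * vv b x) := by
        funext s
        simp only [ContinuousMap.mul_apply, h.slam.ap, (sp1_vv b).ap]
      rw [e]
      simp only [ContinuousMap.smul_apply, ContinuousMap.mul_apply, h.sOm.ap, (sp1_vv b).ap,
        smul_eq_mul]
      exact h.lam_rho x
    · simp only [ContinuousMap.mul_apply, h.slam.ap, (sp1_vv b).ap, h.slam.per, (sp1_vv b).per]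
  hlamk := h.mR_k
  hbt := by
    refine (sp_bet b p ε t).toPD.congr rfl rfl ?_
    ext z
    rw [(sp_bet b p ε t).dy.ap, ContinuousMap.mul_apply, oX_apply, (sp1_ww b).ap, h.smh.ap,
      dy_bet]
  hk := h.sk.toPD
  hkx := by
    refine h.sk.dx.toPD.congr rfl rfl ?_
    ext z
    rw [h.sk.dx.dy.ap, h.sk.dy.dx.ap, h.sk.symm]
  hky := h.sk.dy.toPD
  hmu := by
    ext z
    simp only [ContinuousMap.mul_apply, ContinuousMap.add_apply, ContinuousMap.one_apply,
      oX_apply, h.sOm.ap, (sp1_ww b).ap, (sp1_vv b).ap, h.smu.ap, h.smh.ap]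
    unfold fOm fmu
    have := (h.hM z.1).ne'
    field_simp
  M := toR1 M
  hM x := by rw [h.sM.ap]; exact h.hM x
  hmuM := by
    ext z
    simp only [ContinuousMap.mul_apply, ContinuousMap.add_apply, ContinuousMap.one_apply,
      oX_apply, h.sM.ap, h.smu.ap, h.smh.ap]
    rfl
  hmh0 := h.mean_mh
  hP := toR_mul h.smu h.sk
  hPD := h.sP'.toPD
  hmP := h.mP
  hQ := h.QPD s
  hX := by
    ext z
    simp only [ContinuousMap.mul_apply, h.smu.ap, h.smui'.ap]
    unfold fmui
    have := (h.mu_pos z.1 z.2).ne'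
    field_simp
  hXPD := h.smui'.toPD.mul (h.QPD s)
  hEv := rfl
  hEvPD := by
    have hbt : PD (toR (bet b p ε t)) (toR (dx (bet b p ε t)))
        (oX (toR1 (ww b)) * toR (fun x y => ε * m1 b p t x y)) := by
      refine (sp_bet b p ε t).toPD.congr rfl rfl ?_
      ext z
      rw [(sp_bet b p ε t).dy.ap, ContinuousMap.mul_apply, oX_apply, (sp1_ww b).ap, h.smh.ap,
        dy_bet]
    have hkx : PD (toR (dx (kk ε lam κ))) (toR (dx (dx (kk ε lam κ))))
        (toR (dx (dy (kk ε lam κ)))) := by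
      refine h.sk.dx.toPD.congr rfl rfl ?_
      ext z
      rw [h.sk.dx.dy.ap, h.sk.dy.dx.ap, h.sk.symm]
    have hv : P1 (toR1 (vv b)) (toR1 (ww b) * toR1 (vv b)) := by
      refine ⟨fun x => ?_, (sp1_vv b).toP1.p⟩
      have e : (toR1 (vv b) : ℝ → ℝ) = vv b := by funext s; exact (sp1_vv b).ap s
      rw [ContinuousMap.mul_apply, (sp1_ww b).ap, (sp1_vv b).ap, e]
      exact hd_vv b x
    have hw : P1 (toR1 (ww b)) (toR1 (ww' b)) := by
      refine ⟨fun x => ?_, (sp1_ww b).toP1.p⟩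
      have e : (toR1 (ww b) : ℝ → ℝ) = ww b := by funext s; exact (sp1_ww b).ap s
      rw [(sp1_ww' b).ap, e]
      exact hd_ww b x
    refine (hv.toPD.mul (((hw.toPD.mul h.sk.toPD).add hkx).add (hbt.mul h.sk.dy.toPD))).congr
      rfl ?_ ?_
    · rw [oX_mul]
    · rw [zero_mul, zero_mul, zero_add, zero_add]
  hK := by
    ext z
    have h1 := h.keq' z.1 z.2 _ _ _ _ _ _ rfl rfl rfl rfl rfl rfl
    simp only [ContinuousMap.mul_apply, ContinuousMap.add_apply, ContinuousMap.smul_apply,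
      smul_eq_mul, oX_apply, (sp1_ww b).ap, (sp1_ww' b).ap, (sp1_vv b).ap, h.sk.ap, h.sk.dx.ap,
      h.sk.dy.ap, h.sk.dx.dx.ap, h.sk.dy.dx.ap, h.sk.dy.dy.ap, (sp_bet b p ε t).ap,
      (sp_bet b p ε t).dx.ap, h.smh.ap, h.sOm.deriv.ap, h.sP'.ap]
    exact h1

lemma compat (s : ℝ) : Compat (h.geo s) (fmu b p ε t M) (bet b p ε t) where
  md := ⟨h.hn, h.smu, sp_bet b p ε t, h.mu_pos⟩
  hmu := rfl
  hbt := rfl

/-- the base flow is a steady Euler flow with vorticity `Ω` -/
lemma base_steady (hmd : MD n (fmu b p ε t M) (bet b p ε t)) :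
    ∃ u q, hmd.met.SteadyEuler u q ∧ (fun x _ => fOm b M x) = hmd.met.curl u := by
  have hn' := h.hn.ne'
  have smu := h.smu
  have hmu := h.mu_pos
  -- velocity
  obtain ⟨u, hu0, hu1⟩ : ∃ u : Fin 2 → ℝ → ℝ → ℝ, (u 0 = fun _ _ => 0) ∧
      (u 1 = fun x y => n * vv b x / fmu b p ε t M x y) :=
    ⟨fun i => if i = 0 then (fun _ _ => 0) else fun x y => n * vv b x / fmu b p ε t M x y,
      by simp, by simp⟩
  have su1 : Sp (fun x y => n * vv b x / fmu b p ε t M x y) :=
    ((Sp.const n).mul (sp1_vv b).toSp).div smu (fun x y => (hmu x y).ne')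
  have hu : ∀ i, Sp (u i) := by
    intro i
    fin_cases i
    · show Sp (u 0); rw [hu0]; exact Sp.const 0
    · show Sp (u 1); rw [hu1]; exact su1
  have slr : Sp (fun x y => lam x * (vv b x * vv b x)) :=
    (h.slam.mul ((sp1_vv b).mul (sp1_vv b))).toSp
  -- curl
  have hcurl : hmd.met.curl u = fun x _ => fOm b M x := by
    funext x y
    unfold Metric.curl
    have l0 : hmd.met.low u 0 = fun x y => -(1 / n) * (bet b p ε t x y * vv b x) := by
      funext x y
      rw [hmd.low0, hu0, hu1]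
      have := (hmu x y).ne'
      field_simp
      ring
    have l1 : hmd.met.low u 1 = fun x y => (1 / n) * vv b x := by
      funext x y
      rw [hmd.low1, hu0, hu1]
      have := (hmu x y).ne'
      field_simp
      ring
    have e1 : pd 0 (hmd.met.low u 1) x y = (1 / n) * (ww b x * vv b x) := by
      rw [l1]
      exact ((hd_vv b x).const_mul (1 / n)).deriv
    have e0 : pd 1 (hmd.met.low u 0) x y = -(1 / n) * (ww b x * (ε * m1 b p t x y) * vv b x) := by
      rw [l0]
      have h1 : HasDerivAt (fun s => bet b p ε t x s) (ww b x * (ε * m1 b p t x y)) y := by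
        have := (sp_bet b p ε t).cd.one.hy x y
        rwa [dy_bet] at this
      exact ((h1.mul_const (vv b x)).const_mul (-(1 / n))).deriv
    rw [e0, e1, hmd.vol]
    unfold fOm fmu
    have h1 := (h.hM x).ne'
    have h2 := (h.mh_pos x y).ne'
    field_simp
    ring
  -- pressure
  obtain ⟨q, hq⟩ : ∃ q : ℝ → ℝ → ℝ, q = fun x y => 1 / 2 * (lam x * (vv b x * vv b x))
    - hmd.met.en u x y := ⟨_, rfl⟩
  have sen : Sp (hmd.met.en u) := by
    have g0 : Sp (hmd.met.g 0 0) := ⟨hmd.met.smooth 0 0, hmd.met.per 0 0⟩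
    have g1 : Sp (hmd.met.g 0 1) := ⟨hmd.met.smooth 0 1, hmd.met.per 0 1⟩
    have g2 : Sp (hmd.met.g 1 1) := ⟨hmd.met.smooth 1 1, hmd.met.per 1 1⟩
    exact (Sp.const (1 / 2)).mul ((((g0.mul (hu 0)).mul (hu 0)).add
      ((Sp.const 2).mul ((g1.mul (hu 0)).mul (hu 1)))).add ((g2.mul (hu 1)).mul (hu 1)))
  have sq : Sp q := by rw [hq]; exact ((Sp.const (1 / 2)).mul slr).sub sen
  refine ⟨u, q, ⟨fun i => (hu i).cd.one, fun i => (hu i).per, sq.cd.one, sq.per, ?_, ?_⟩,
    hcurl.symm⟩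
  · intro x y
    unfold Metric.div
    rw [Fin.sum_univ_two]
    have e0 : pd 0 (fun x y => hmd.met.vol x y * u 0 x y) x y = 0 := by
      have : (fun x y => hmd.met.vol x y * u 0 x y) = fun _ _ => 0 := by
        funext x y; rw [hu0, mul_zero]
      rw [this]
      exact deriv_const x 0
    have e1 : pd 1 (fun x y => hmd.met.vol x y * u 1 x y) x y = 0 := by
      have : (fun x y => hmd.met.vol x y * u 1 x y) = fun x _ => vv b x := by
        funext x y
        rw [hu1, hmd.vol]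
        have := (hmu x y).ne'
        field_simp
      rw [this]
      exact deriv_const y (vv b x)
    rw [e0, e1]; ring
  · intro k x y
    revert k
    rw [hmd.met.bernoulli u (fun i => (hu i).cd.one) q x y]
    have hqx : pd 0 q x y = fOm b M x * vv b x - pd 0 (hmd.met.en u) x y := by
      have h1 := (h.lam_rho x).const_mul (1 / 2)
      have h2 := sen.cd.one.hx x y
      rw [hq]
      refine (h1.sub h2).deriv.trans ?_
      show 1 / 2 * (2 * (fOm b M x * vv b x)) - dx (hmd.met.en u) x y = _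
      rw [show pd 0 (hmd.met.en u) = dx (hmd.met.en u) from rfl]
      ring
    have hqy : pd 1 q x y = - pd 1 (hmd.met.en u) x y := by
      have h2 := sen.cd.one.hy x y
      rw [hq]
      refine (h2.const_sub (1 / 2 * (lam x * (vv b x * vv b x)))).deriv.trans ?_
      rfl
    rw [hqx, hqy, hcurl, hu0, hu1, hmd.vol]
    have := (hmu x y).ne'
    constructor
    · field_simp
      ring
    · ring

end BP

end Run7.h117
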