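import Mathlib
import Pool.Agent.Run7.h117.Build2
import Pool.Agent.Run7.h117.Apriori

/-!
Auxiliary data for the a priori estimate.
-/

open Real MeasureTheory intervalIntegral

namespace Run7.h117

namespace BP

variable {b p n ε t : ℝ} {κ : ℝ → ℝ → ℝ} {lam M : ℝ → ℝ}
variable (h : BP b p n ε t κ lam M)
include h

/-- `Ω'` is not identically zero on `(0, π / 2)` -/
lemma exists_Om' (hb : 0 < b) : ∃ x ∈ Set.Ioo (0 : ℝ) (π / 2), deriv (fOm b M) x ≠ 0 := by
  have hpi : 0 < π / 2 := by positivity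
  obtain ⟨c, hc, hc2⟩ := exists_deriv_eq_slope (fOm b M) hpi
    (h.sOm.cd.continuous.continuousOn) (h.sOm.cd.differentiable (by simp)).differentiableOn
  refine ⟨c, hc, ?_⟩
  rw [hc2]
  have h0 : fOm b M 0 = 0 := by unfold fOm ww; simp
  have h1 : fOm b M (π / 2) ≠ 0 := by
    unfold fOm ww
    rw [Real.sin_pi_div_two]
    have h3 := (vv_pos b (π / 2)).ne'
    have h4 := (h.hM (π / 2)).ne'
    have hb' : b / 2 ≠ 0 := by linarith
    exact div_ne_zero (mul_ne_zero (mul_ne_zero (neg_ne_zero.mpr hb') one_ne_zero) h3) h4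
  rw [h0, sub_zero]
  exact div_ne_zero h1 (by linarith [hpi] : π / 2 - 0 ≠ 0)

lemma mh_sq_pos (hε : 0 < ε) (hp : 0 < p) (hp4 : p ≤ 1 / 4) (ht : |t| ≤ 2) (x : ℝ) :
    0 < mR (toR (fun x y => ε * m1 b p t x y) * toR (fun x y => ε * m1 b p t x y)) x := by
  rw [mR_apply]
  have h2 : (0:ℝ) < 2 * π := by positivity
  apply mul_pos (inv_pos.mpr h2)
  have hc : Continuous (fun y => (toR (fun x y => ε * m1 b p t x y)
      * toR (fun x y => ε * m1 b p t x y)) (x, y)) := by fun_prop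
  refine intervalIntegral.integral_pos h2 hc.continuousOn (fun y _ => ?_)
    ⟨π / 2, ⟨by positivity, by linarith [Real.pi_pos]⟩, ?_⟩
  · simp only [ContinuousMap.mul_apply]; exact mul_self_nonneg _
  · simp only [ContinuousMap.mul_apply, h.smh.ap]
    apply mul_self_pos.mpr
    have hA : AA p t x (π / 2) ≠ 0 := by
      unfold AA
      rw [Real.sin_pi_div_two]
      have e1 : |Real.cos (π / 2 + x)| ≤ 1 := Real.abs_cos_le_one _
      have e2 : |Real.sin (π / 2 - x)| ≤ 1 := Real.abs_sin_le_one _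
      have e3 : |p * Real.cos (π / 2 + x)| ≤ 1 / 4 := by
        rw [abs_mul, abs_of_pos hp]
        nlinarith [abs_nonneg (Real.cos (π / 2 + x))]
      have e4 : |p * t * Real.sin (π / 2 - x)| ≤ 1 / 2 := by
        rw [abs_mul, abs_mul, abs_of_pos hp]
        have h5 : p * |t| ≤ 1 / 4 * 2 := mul_le_mul hp4 ht (abs_nonneg _) (by norm_num)
        have h6 : p * |t| * |Real.sin (π / 2 - x)| ≤ (1 / 4 * 2) * 1 :=
          mul_le_mul h5 e2 (abs_nonneg _) (by norm_num)
        linarith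
      have h7 := (abs_le.mp e3).1
      have h8 := (abs_le.mp e4).1
      intro h9
      linarith
    unfold m1
    exact mul_ne_zero hε.ne' (div_ne_zero hA (rho_pos b x).ne')

/-- positivity of integrals of squares of functions of `x` with a nonzero value -/
lemma pos_aux {f : R1} (hf : ∀ x, 0 ≤ f x) {x₀ : ℝ} (hx : x₀ ∈ Set.Ioo (0 : ℝ) (π / 2))
    (h0 : f x₀ ≠ 0) : 0 < II (oX f) := by
  have := h.hn
  have h1 : 0 ≤ II (oX f) := II_nonneg fun x y => hf x
  rcases eq_or_lt_of_le h1 with h2 | h2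
  · exfalso
    have h3 := II_eq_zero (f := oX f) (fun x y => hf x) h2.symm x₀
      ⟨hx.1.le, by linarith [hx.2, Real.pi_pos]⟩ 0 ⟨le_rfl, by positivity⟩
    exact h0 h3
  · exact h2

theorem aux (hb : 0 < b) (hε : 0 < ε) (hp : 0 < p) (hp4 : p ≤ 1 / 4) (ht : |t| ≤ 2) (s : ℝ) :
    ∃ (N Nx Nxx : R) (χ0 χ1 χ2 : R1), Aux (h.geo s) N Nx Nxx
      (toR (dx (fun x y => ε * m1 b p t x y))) (toR (dy (fun x y => ε * m1 b p t x y)))
      (toR1 (ww' b)) χ0 χ1 χ2 := by
  have sf := h.sOm.deriv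
  have sf1 := sf.deriv
  have sf2 := sf1.deriv
  have P0 := sf.toP1
  have P1' := sf1.toP1
  obtain ⟨f, hf⟩ : ∃ f : R1, f = toR1 (deriv (fOm b M)) := ⟨_, rfl⟩
  obtain ⟨f1, hf1⟩ : ∃ f : R1, f = toR1 (deriv (deriv (fOm b M))) := ⟨_, rfl⟩
  obtain ⟨f2, hf2⟩ : ∃ f : R1, f = toR1 (deriv (deriv (deriv (fOm b M)))) := ⟨_, rfl⟩
  obtain ⟨w, hw⟩ : ∃ f : R1, f = toR1 (ww b) := ⟨_, rfl⟩
  obtain ⟨w1, hw1⟩ : ∃ f : R1, f = toR1 (ww' b) := ⟨_, rfl⟩
  obtain ⟨w2, hw2⟩ : ∃ f : R1, f = toR1 (deriv (ww' b)) := ⟨_, rfl⟩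
  rw [← hf, ← hf1] at P0
  rw [← hf1, ← hf2] at P1'
  have W0 : P1 w w1 := by
    refine ⟨fun x => ?_, by rw [hw]; exact (sp1_ww b).toP1.p⟩
    have e : (w : ℝ → ℝ) = ww b := by funext s; rw [hw]; exact (sp1_ww b).ap s
    rw [hw1, (sp1_ww' b).ap, e]
    exact hd_ww b x
  have W1 : P1 w1 w2 := by rw [hw1, hw2]; exact (sp1_ww' b).toP1
  have sN : Sp (fun x y => ε * N1 b p t x y) := (Sp.const ε).mul (sp_N1 b p t)
  have hdy : dy (fun x y => ε * N1 b p t x y) = fun x y => ε * m1 b p t x y := by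
    funext x y
    have h1 : HasDerivAt (fun s => N1 b p t x s) (m1 b p t x y) y :=
      (dy_SS p t x y).div_const (rho b x)
    exact (h1.const_mul ε).deriv
  obtain ⟨x₀, hx₀, hx₁⟩ := h.exists_Om' hb
  have hw0 : ww b x₀ ≠ 0 := by
    unfold ww
    have : 0 < Real.sin x₀ := Real.sin_pos_of_pos_of_lt_pi hx₀.1 (by linarith [hx₀.2, Real.pi_pos])
    have hb2 : b / 2 ≠ 0 := by linarith
    exact mul_ne_zero (neg_ne_zero.mpr hb2) this.ne'
  refine ⟨toR (fun x y => ε * N1 b p t x y), toR (dx (fun x y => ε * N1 b p t x y)),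
    toR (dx (dx (fun x y => ε * N1 b p t x y))), f * f * f * w,
    f * f * f1 * w + f * f * f1 * w + f * f * f1 * w + f * f * f1 * w + f * f * f * w1,
    (f * f1 * f1 * w + f * f1 * f1 * w + f * f1 * f1 * w
      + f * f1 * f1 * w + f * f1 * f1 * w + f * f1 * f1 * w + f * f1 * f1 * w + f * f1 * f1 * w
      + f * f1 * f1 * w + f * f1 * f1 * w + f * f1 * f1 * w + f * f1 * f1 * w)
      + (f * f * f2 * w + f * f * f2 * w + f * f * f2 * w + f * f * f2 * w)
      + (f * f * f1 * w1 + f * f * f1 * w1 + f * f * f1 * w1 + f * f * f1 * w1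
        + f * f * f1 * w1 + f * f * f1 * w1 + f * f * f1 * w1 + f * f * f1 * w1)
      + f * f * f * w2, ?_⟩
  refine { hw := ?_, hN := ?_, hNx := ?_, hmh := h.smh.toPD, hχ := ?_, hχ1 := ?_,
           pos1 := ?_, pos2 := ?_ }
  · show P1 (toR1 (ww b)) (toR1 (ww' b))
    rw [← hw, ← hw1]; exact W0
  · have := sN.toPD
    rw [hdy] at this
    exact this
  · have h1 := sN.dx.toPD
    refine h1.congr rfl rfl ?_
    ext z
    rw [sN.dx.dy.ap, sN.symm, hdy, h.smh.dx.ap]
  · show P1 (toR1 (deriv (fOm b M)) * (f * f * f * w)) (toR1 (deriv (fOm b M)) * _)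
    rw [← hf]
    have h1 := P0.mul (((P0.mul P0).mul P0).mul W0)
    refine ⟨fun x => ?_, h1.p⟩
    have h2 := h1.h x
    refine h2.congr_deriv ?_
    simp only [ContinuousMap.mul_apply, ContinuousMap.add_apply]
    ring
  · show P1 (toR1 (deriv (fOm b M)) * (f * f * f1 * w + f * f * f1 * w + f * f * f1 * w
      + f * f * f1 * w + f * f * f * w1)) (toR1 (deriv (fOm b M)) * _)
    rw [← hf]
    have a := ((P0.mul P0).mul P1').mul W0
    have h1 := P0.mul ((((a.add a).add a).add a).add (((P0.mul P0).mul P0).mul W1))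
    refine ⟨fun x => ?_, h1.p⟩
    have h2 := h1.h x
    refine h2.congr_deriv ?_
    simp only [ContinuousMap.mul_apply, ContinuousMap.add_apply]
    ring
  · show 0 < II (oX (toR1 (ww b) * (toR1 (deriv (fOm b M)) * (f * f * f * w))
      * mR (toR (fun x y => ε * m1 b p t x y) * toR (fun x y => ε * m1 b p t x y))))
    rw [← hf, ← hw]
    have hm := h.mh_sq_pos hε hp hp4 ht
    refine h.pos_aux (fun x => ?_) hx₀ ?_
    · have e : (w * (f * (f * f * f * w)) * mR (toR (fun x y => ε * m1 b p t x y)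
          * toR (fun x y => ε * m1 b p t x y))) x
          = (w x * f x ^ 2) ^ 2 * mR (toR (fun x y => ε * m1 b p t x y)
          * toR (fun x y => ε * m1 b p t x y)) x := by
        simp only [ContinuousMap.mul_apply]; ring
      rw [e]
      exact mul_nonneg (sq_nonneg _) (hm x).le
    · have e : (w * (f * (f * f * f * w)) * mR (toR (fun x y => ε * m1 b p t x y)
          * toR (fun x y => ε * m1 b p t x y))) x₀
          = (w x₀ * f x₀ ^ 2) ^ 2 * mR (toR (fun x y => ε * m1 b p t x y)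
          * toR (fun x y => ε * m1 b p t x y)) x₀ := by
        simp only [ContinuousMap.mul_apply]; ring
      rw [e]
      have e1 : w x₀ ≠ 0 := by rw [hw, (sp1_ww b).ap]; exact hw0
      have e2 : f x₀ ≠ 0 := by rw [hf, sf.ap]; exact hx₁
      exact mul_ne_zero (pow_ne_zero 2 (mul_ne_zero e1 (pow_ne_zero 2 e2))) (hm x₀).ne'
  · show 0 < II (oX (toR1 (deriv (fOm b M)) * toR1 (deriv (fOm b M))))
    rw [← hf]
    refine h.pos_aux (fun x => ?_) hx₀ ?_
    · simp only [ContinuousMap.mul_apply]; exact mul_self_nonneg _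
    · have e2 : f x₀ ≠ 0 := by rw [hf, sf.ap]; exact hx₁
      simp only [ContinuousMap.mul_apply]
      exact mul_ne_zero e2 e2

end BP

end Run7.h117
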