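import Mathlib
import Pool.Agent.Run7.h117.Smooth

/-!
Bounds on derivatives up to order two.
-/

open Real MeasureTheory intervalIntegral

namespace Run7.h117

lemma dx_add' {f g : ℝ → ℝ → ℝ} (hf : CD 1 f) (hg : CD 1 g) :
    dx (fun x y => f x y + g x y) = fun x y => dx f x y + dx g x y := by
  funext x y; exact ((hf.hx x y).add (hg.hx x y)).deriv
lemma dy_add' {f g : ℝ → ℝ → ℝ} (hf : CD 1 f) (hg : CD 1 g) :
    dy (fun x y => f x y + g x y) = fun x y => dy f x y + dy g x y := by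
  funext x y; exact ((hf.hy x y).add (hg.hy x y)).deriv
lemma dx_mul' {f g : ℝ → ℝ → ℝ} (hf : CD 1 f) (hg : CD 1 g) :
    dx (fun x y => f x y * g x y) = fun x y => dx f x y * g x y + f x y * dx g x y := by
  funext x y; exact ((hf.hx x y).mul (hg.hx x y)).deriv
lemma dy_mul' {f g : ℝ → ℝ → ℝ} (hf : CD 1 f) (hg : CD 1 g) :
    dy (fun x y => f x y * g x y) = fun x y => dy f x y * g x y + f x y * dy g x y := by
  funext x y; exact ((hf.hy x y).mul (hg.hy x y)).deriv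
lemma dx_const' (c : ℝ) : dx (fun _ _ => c) = fun _ _ => 0 := by
  funext x y; exact deriv_const x c
lemma dy_const' (c : ℝ) : dy (fun _ _ => c) = fun _ _ => 0 := by
  funext x y; exact deriv_const y c

/-- all derivatives up to order two (except `∂_y²`) are bounded by `a` -/
structure Z2 (f : ℝ → ℝ → ℝ) (a : ℝ) : Prop where
  sp : Sp f
  b0 : ∀ x y, |f x y| ≤ a
  bx : ∀ x y, |dx f x y| ≤ a
  by' : ∀ x y, |dy f x y| ≤ a
  bxx : ∀ x y, |dx (dx f) x y| ≤ a
  bxy : ∀ x y, |dx (dy f) x y| ≤ a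

lemma abs_add2 {x y a b : ℝ} (hx : |x| ≤ a) (hy : |y| ≤ b) : |x + y| ≤ a + b :=
  (abs_add_le _ _).trans (add_le_add hx hy)
lemma abs_mul2 {x y a b : ℝ} (hx : |x| ≤ a) (hy : |y| ≤ b) : |x * y| ≤ a * b := by
  rw [abs_mul]; exact mul_le_mul hx hy (abs_nonneg _) ((abs_nonneg _).trans hx)

namespace Z2
variable {f g : ℝ → ℝ → ℝ} {a b : ℝ}

lemma nonneg (h : Z2 f a) : 0 ≤ a := (abs_nonneg _).trans (h.b0 0 0)

lemma mono (h : Z2 f a) (hab : a ≤ b) : Z2 f b :=
  ⟨h.sp, fun x y => (h.b0 x y).trans hab, fun x y => (h.bx x y).trans hab,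
    fun x y => (h.by' x y).trans hab, fun x y => (h.bxx x y).trans hab,
    fun x y => (h.bxy x y).trans hab⟩

lemma add (hf : Z2 f a) (hg : Z2 g b) : Z2 (fun x y => f x y + g x y) (a + b) := by
  refine ⟨hf.sp.add hg.sp, fun x y => abs_add2 (hf.b0 x y) (hg.b0 x y), ?_, ?_, ?_, ?_⟩
  · rw [dx_add' hf.sp.cd.one hg.sp.cd.one]
    exact fun x y => abs_add2 (hf.bx x y) (hg.bx x y)
  · rw [dy_add' hf.sp.cd.one hg.sp.cd.one]
    exact fun x y => abs_add2 (hf.by' x y) (hg.by' x y)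
  · rw [dx_add' hf.sp.cd.one hg.sp.cd.one, dx_add' hf.sp.dx.cd.one hg.sp.dx.cd.one]
    exact fun x y => abs_add2 (hf.bxx x y) (hg.bxx x y)
  · rw [dy_add' hf.sp.cd.one hg.sp.cd.one, dx_add' hf.sp.dy.cd.one hg.sp.dy.cd.one]
    exact fun x y => abs_add2 (hf.bxy x y) (hg.bxy x y)

lemma mul (hf : Z2 f a) (hg : Z2 g b) : Z2 (fun x y => f x y * g x y) (4 * a * b) := by
  have ha := hf.nonneg
  have hb := hg.nonneg
  have hab : 0 ≤ a * b := mul_nonneg ha hb
  refine ⟨hf.sp.mul hg.sp, fun x y => (abs_mul2 (hf.b0 x y) (hg.b0 x y)).trans (by linarith),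
    ?_, ?_, ?_, ?_⟩
  · rw [dx_mul' hf.sp.cd.one hg.sp.cd.one]
    exact fun x y => (abs_add2 (abs_mul2 (hf.bx x y) (hg.b0 x y))
      (abs_mul2 (hf.b0 x y) (hg.bx x y))).trans (by linarith)
  · rw [dy_mul' hf.sp.cd.one hg.sp.cd.one]
    exact fun x y => (abs_add2 (abs_mul2 (hf.by' x y) (hg.b0 x y))
      (abs_mul2 (hf.b0 x y) (hg.by' x y))).trans (by linarith)
  · rw [dx_mul' hf.sp.cd.one hg.sp.cd.one,
      dx_add' (hf.sp.dx.mul hg.sp).cd.one (hf.sp.mul hg.sp.dx).cd.one,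
      dx_mul' hf.sp.dx.cd.one hg.sp.cd.one, dx_mul' hf.sp.cd.one hg.sp.dx.cd.one]
    exact fun x y => (abs_add2 (abs_add2 (abs_mul2 (hf.bxx x y) (hg.b0 x y))
      (abs_mul2 (hf.bx x y) (hg.bx x y))) (abs_add2 (abs_mul2 (hf.bx x y) (hg.bx x y))
      (abs_mul2 (hf.b0 x y) (hg.bxx x y)))).trans (by linarith)
  · rw [dy_mul' hf.sp.cd.one hg.sp.cd.one,
      dx_add' (hf.sp.dy.mul hg.sp).cd.one (hf.sp.mul hg.sp.dy).cd.one,
      dx_mul' hf.sp.dy.cd.one hg.sp.cd.one, dx_mul' hf.sp.cd.one hg.sp.dy.cd.one]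
    exact fun x y => (abs_add2 (abs_add2 (abs_mul2 (hf.bxy x y) (hg.b0 x y))
      (abs_mul2 (hf.by' x y) (hg.bx x y))) (abs_add2 (abs_mul2 (hf.bx x y) (hg.by' x y))
      (abs_mul2 (hf.b0 x y) (hg.bxy x y)))).trans (by linarith)

lemma const (c : ℝ) : Z2 (fun _ _ => c) |c| := by
  refine ⟨Sp.const c, fun _ _ => le_rfl, ?_, ?_, ?_, ?_⟩
  · rw [dx_const']; simp
  · rw [dy_const']; simp
  · rw [dx_const', dx_const']; simp
  · rw [dy_const', dx_const']; simp

lemma cmul (c : ℝ) (hf : Z2 f a) : Z2 (fun x y => c * f x y) (|c| * a) := by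
  have e1 : dx (fun x y => c * f x y) = fun x y => c * dx f x y := by
    funext x y; exact ((hf.sp.cd.one.hx x y).const_mul c).deriv
  have e2 : dy (fun x y => c * f x y) = fun x y => c * dy f x y := by
    funext x y; exact ((hf.sp.cd.one.hy x y).const_mul c).deriv
  have e3 : dx (fun x y => c * dx f x y) = fun x y => c * dx (dx f) x y := by
    funext x y; exact ((hf.sp.dx.cd.one.hx x y).const_mul c).deriv
  have e4 : dx (fun x y => c * dy f x y) = fun x y => c * dx (dy f) x y := by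
    funext x y; exact ((hf.sp.dy.cd.one.hx x y).const_mul c).deriv
  refine ⟨(Sp.const c).mul hf.sp, fun x y => abs_mul2 le_rfl (hf.b0 x y), ?_, ?_, ?_, ?_⟩
  · rw [e1]; exact fun x y => abs_mul2 le_rfl (hf.bx x y)
  · rw [e2]; exact fun x y => abs_mul2 le_rfl (hf.by' x y)
  · rw [e1, e3]; exact fun x y => abs_mul2 le_rfl (hf.bxx x y)
  · rw [e2, e4]; exact fun x y => abs_mul2 le_rfl (hf.bxy x y)

lemma congr (hf : Z2 f a) (h : ∀ x y, f x y = g x y) : Z2 g a := by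
  have : f = g := by funext x y; exact h x y
  rwa [← this]

/-- inverse of a function close to one -/
lemma inv (hf : Z2 f a) (ha : a ≤ 1 / 8) (h : ∀ x y, (1 + f x y) * g x y = 1) :
    Z2 (fun x y => g x y - 1) (4 * a) := by
  have ha0 := hf.nonneg
  have hpos : ∀ x y, 7 / 8 ≤ 1 + f x y := fun x y => by
    have := (abs_le.mp (hf.b0 x y)).1; linarith
  have hne : ∀ x y, 1 + f x y ≠ 0 := fun x y h => by have := hpos x y; linarith
  have hg : g = fun x y => 1 / (1 + f x y) := by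
    funext x y
    rw [eq_div_iff (hne x y)]
    have := h x y
    linarith
  have hgs : Sp g := by
    rw [hg]; exact (Sp.const 1).div ((Sp.const 1).add hf.sp) hne
  have hg0 : ∀ x y, |g x y| ≤ 8 / 7 := fun x y => by
    have h1 := hpos x y
    have h2 := h x y
    have h3 : 0 < g x y := by
      by_contra hneg
      push Not at hneg
      have : (1 + f x y) * g x y ≤ 0 := mul_nonpos_of_nonneg_of_nonpos (by linarith) hneg
      linarith
    rw [abs_of_pos h3]
    nlinarith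
  have gx : ∀ x y, dx g x y = - (dx f x y * (g x y * g x y)) := fun x y => by
    have h1 := ((hf.sp.cd.one.hx x y).const_add 1).inv (hne x y)
    have e : (fun s => g s y) = fun s => (1 + f s y)⁻¹ := by
      funext s; rw [hg]; simp
    show deriv (fun s => g s y) x = _
    rw [e]
    refine h1.deriv.trans ?_
    rw [hg]
    have := hne x y
    field_simp
  have gy : ∀ x y, dy g x y = - (dy f x y * (g x y * g x y)) := fun x y => by
    have h1 := ((hf.sp.cd.one.hy x y).const_add 1).inv (hne x y)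
    have e : (fun s => g x s) = fun s => (1 + f x s)⁻¹ := by
      funext s; rw [hg]; simp
    show deriv (fun s => g x s) y = _
    rw [e]
    refine h1.deriv.trans ?_
    rw [hg]
    have := hne x y
    field_simp
  have gxx : ∀ x y, dx (dx g) x y = - (dx (dx f) x y * (g x y * g x y)
      + dx f x y * (dx g x y * g x y + g x y * dx g x y)) := fun x y => by
    have e : dx g = fun x y => - (dx f x y * (g x y * g x y)) := by
      funext x y; exact gx x y
    have h1 := ((hf.sp.dx.cd.one.hx x y).mul ((hgs.cd.one.hx x y).mul (hgs.cd.one.hx x y))).neg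
    conv_lhs => rw [e]
    exact h1.deriv
  have gxy : ∀ x y, dx (dy g) x y = - (dx (dy f) x y * (g x y * g x y)
      + dy f x y * (dx g x y * g x y + g x y * dx g x y)) := fun x y => by
    have e : dy g = fun x y => - (dy f x y * (g x y * g x y)) := by
      funext x y; exact gy x y
    have h1 := ((hf.sp.dy.cd.one.hx x y).mul ((hgs.cd.one.hx x y).mul (hgs.cd.one.hx x y))).neg
    conv_lhs => rw [e]
    exact h1.deriv
  have hgg : ∀ x y, |g x y * g x y| ≤ 4 / 3 := fun x y =>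
    (abs_mul2 (hg0 x y) (hg0 x y)).trans (by norm_num)
  have bgx : ∀ x y, |dx g x y| ≤ 4 / 3 * a := fun x y => by
    rw [gx, abs_neg]
    exact (abs_mul2 (hf.bx x y) (hgg x y)).trans (by linarith)
  have bgx' : ∀ x y, |dx g x y * g x y + g x y * dx g x y| ≤ 4 * a := fun x y => by
    have h1 := abs_add2 (abs_mul2 (bgx x y) (hg0 x y)) (abs_mul2 (hg0 x y) (bgx x y))
    linarith
  have e1 : dx (fun x y => g x y - 1) = dx g := by
    funext x y; exact ((hgs.cd.one.hx x y).sub_const 1).deriv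
  have e2 : dy (fun x y => g x y - 1) = dy g := by
    funext x y; exact ((hgs.cd.one.hy x y).sub_const 1).deriv
  refine ⟨hgs.sub (Sp.const 1), fun x y => ?_, ?_, ?_, ?_, ?_⟩
  · have h1 : g x y - 1 = - (f x y * g x y) := by linarith [h x y]
    rw [h1, abs_neg]
    exact (abs_mul2 (hf.b0 x y) (hg0 x y)).trans (by linarith)
  · rw [e1]; exact fun x y => (bgx x y).trans (by linarith)
  · rw [e2]
    intro x y
    rw [gy, abs_neg]
    exact (abs_mul2 (hf.by' x y) (hgg x y)).trans (by linarith)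
  · rw [e1]
    intro x y
    rw [gxx, abs_neg]
    refine (abs_add2 (abs_mul2 (hf.bxx x y) (hgg x y)) (abs_mul2 (hf.bx x y) (bgx' x y))).trans ?_
    nlinarith
  · rw [e2]
    intro x y
    rw [gxy, abs_neg]
    refine (abs_add2 (abs_mul2 (hf.bxy x y) (hgg x y)) (abs_mul2 (hf.by' x y) (bgx' x y))).trans ?_
    nlinarith

end Z2

/-- compactness: smooth periodic functions are `Z2` -/
lemma Per.bdd {f : ℝ → ℝ → ℝ} (hf : Continuous (fun z : ℝ × ℝ => f z.1 z.2)) (hp : Per f) :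
    ∃ C, ∀ x y, |f x y| ≤ C := by
  obtain ⟨C, hC⟩ := (((isCompact_Icc (a := (0:ℝ)) (b := 2 * π)).prod
    (isCompact_Icc (a := (0:ℝ)) (b := 2 * π))).image
      (show Continuous (fun z : ℝ × ℝ => |f z.1 z.2|) from hf.abs)).bddAbove
  refine ⟨C, fun x y => ?_⟩
  obtain ⟨x', hx', hxx⟩ := Function.Periodic.exists_mem_Ico₀ (f := fun x => f x y)
    (c := 2 * π) (fun x => hp.1 x y) (by positivity) x
  obtain ⟨y', hy', hyy⟩ := Function.Periodic.exists_mem_Ico₀ (f := fun y => f x' y)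
    (c := 2 * π) (fun y => hp.2 x' y) (by positivity) y
  have hxx' : f x y = f x' y := hxx
  have hyy' : f x' y = f x' y' := hyy
  rw [hxx', hyy']
  exact hC ⟨(x', y'), ⟨⟨hx'.1, hx'.2.le⟩, ⟨hy'.1, hy'.2.le⟩⟩, rfl⟩

lemma Sp.z2 {f : ℝ → ℝ → ℝ} (hf : Sp f) : ∃ C, Z2 f C := by
  obtain ⟨C1, h1⟩ := hf.per.bdd hf.cd.cont
  obtain ⟨C2, h2⟩ := hf.dx.per.bdd hf.dx.cd.cont
  obtain ⟨C3, h3⟩ := hf.dy.per.bdd hf.dy.cd.cont
  obtain ⟨C4, h4⟩ := hf.dx.dx.per.bdd hf.dx.dx.cd.cont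
  obtain ⟨C5, h5⟩ := hf.dy.dx.per.bdd hf.dy.dx.cd.cont
  refine ⟨max C1 (max C2 (max C3 (max C4 C5))), hf, fun x y => (h1 x y).trans ?_,
    fun x y => (h2 x y).trans ?_, fun x y => (h3 x y).trans ?_, fun x y => (h4 x y).trans ?_,
    fun x y => (h5 x y).trans ?_⟩ <;> simp

/-- mean in `y` -/
lemma Z2.mean {f : ℝ → ℝ → ℝ} {a : ℝ} (hf : Z2 f a) (hs : Sp (fun x _ => mY f x)) :
    Z2 (fun x _ => mY f x) a := by
  have hm : ∀ {g : ℝ → ℝ → ℝ}, Sp g → (∀ x y, |g x y| ≤ a) → ∀ x, |mY g x| ≤ a := by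
    intro g hg hb x
    unfold mY
    rw [abs_mul]
    have h2 : (0:ℝ) < 2 * π := by positivity
    have h1 : |∫ y in (0 : ℝ)..(2 * π), g x y| ≤ a * |2 * π - 0| :=
      intervalIntegral.norm_integral_le_of_norm_le_const (fun y _ =>
        (Real.norm_eq_abs _).le.trans (hb x y))
    rw [sub_zero, abs_of_pos h2] at h1
    rw [abs_of_pos (inv_pos.mpr h2)]
    calc (2 * π)⁻¹ * |∫ y in (0 : ℝ)..(2 * π), g x y| ≤ (2 * π)⁻¹ * (a * (2 * π)) := by gcongr
      _ = a := by field_simp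
  have hd : ∀ {g : ℝ → ℝ → ℝ}, Sp g → ∀ x, HasDerivAt (mY g) (mY (dx g) x) x := by
    intro g hg x
    have h1 := (hg.toPD.mean).h x
    have e1 : (mR (toR g) : ℝ → ℝ) = mY g := by
      funext s
      rw [mR_apply]
      unfold mY
      congr 1
      refine intervalIntegral.integral_congr fun y _ => ?_
      exact hg.ap (s, y)
    have e2 : mR (toR (dx g)) x = mY (dx g) x := by
      rw [mR_apply]
      unfold mY
      congr 1
      refine intervalIntegral.integral_congr fun y _ => ?_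
      exact hg.dx.ap (x, y)
    rw [e1, e2] at h1
    exact h1
  have d1 : dx (fun x _ => mY f x) = fun x _ => mY (dx f) x := by
    funext x y; exact (hd hf.sp x).deriv
  have d2 : dx (fun x (_ : ℝ) => mY (dx f) x) = fun x _ => mY (dx (dx f)) x := by
    funext x y; exact (hd hf.sp.dx x).deriv
  have d3 : dy (fun x (_ : ℝ) => mY f x) = fun _ _ => 0 := by
    funext x y; exact deriv_const y (mY f x)
  have ha := hf.nonneg
  refine ⟨hs, fun x _ => hm hf.sp hf.b0 x, ?_, ?_, ?_, ?_⟩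
  · rw [d1]; exact fun x _ => hm hf.sp.dx hf.bx x
  · rw [d3]; intro x y; simpa using ha
  · rw [d1, d2]; exact fun x _ => hm hf.sp.dx.dx hf.bxx x
  · rw [d3, dx_const']; intro x y; simpa using ha

/-- `C^0` bound for the function and its `x` derivative -/
def Sm (F : R) (a : ℝ) : Prop := ∃ Fx Fy, PD F Fx Fy ∧ Bd F a ∧ Bd Fx a

namespace Sm
variable {F G : R} {a b : ℝ}

lemma nonneg (h : Sm F a) : 0 ≤ a := by
  obtain ⟨_, _, _, h1, _⟩ := h
  exact h1.nonneg

lemma add (hF : Sm F a) (hG : Sm G b) : Sm (F + G) (a + b) := by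
  obtain ⟨Fx, Fy, h1, h2, h3⟩ := hF
  obtain ⟨Gx, Gy, h4, h5, h6⟩ := hG
  exact ⟨_, _, h1.add h4, h2.add h5, h3.add h6⟩

lemma mul (hF : Sm F a) (hG : Sm G b) : Sm (F * G) (2 * a * b) := by
  have ha := hF.nonneg
  have hb := hG.nonneg
  have hab := mul_nonneg ha hb
  obtain ⟨Fx, Fy, h1, h2, h3⟩ := hF
  obtain ⟨Gx, Gy, h4, h5, h6⟩ := hG
  exact ⟨_, _, h1.mul h4, (h2.mul h5).mono (by linarith),
    ((h3.mul h5).add (h2.mul h6)).mono (by linarith)⟩

lemma smul (c : ℝ) (hF : Sm F a) : Sm (c • F) (|c| * a) := by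
  obtain ⟨Fx, Fy, h1, h2, h3⟩ := hF
  exact ⟨_, _, h1.smul c, h2.smul c, h3.smul c⟩

lemma mono (hF : Sm F a) (hab : a ≤ b) : Sm F b := by
  obtain ⟨Fx, Fy, h1, h2, h3⟩ := hF
  exact ⟨_, _, h1, h2.mono hab, h3.mono hab⟩

lemma one : Sm (1 : R) 1 := ⟨0, 0, PD.one, Bd.one, fun x y => by simp⟩

end Sm

lemma Z2.sm {f : ℝ → ℝ → ℝ} {a : ℝ} (h : Z2 f a) : Sm (toR f) a :=
  ⟨_, _, h.sp.toPD, fun x y => by rw [h.sp.ap]; exact h.b0 x y,
    fun x y => by rw [h.sp.dx.ap]; exact h.bx x y⟩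
lemma Z2.smx {f : ℝ → ℝ → ℝ} {a : ℝ} (h : Z2 f a) : Sm (toR (dx f)) a :=
  ⟨_, _, h.sp.dx.toPD, fun x y => by rw [h.sp.dx.ap]; exact h.bx x y,
    fun x y => by rw [h.sp.dx.dx.ap]; exact h.bxx x y⟩
lemma Z2.smy {f : ℝ → ℝ → ℝ} {a : ℝ} (h : Z2 f a) : Sm (toR (dy f)) a :=
  ⟨_, _, h.sp.dy.toPD, fun x y => by rw [h.sp.dy.ap]; exact h.by' x y,
    fun x y => by rw [h.sp.dy.dx.ap]; exact h.bxy x y⟩

end Run7.h117
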