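import Mathlib
import Pool.Agent.Run7.h117.Build2
import Pool.Agent.Run7.h117.Z2

/-!
Bounds for the data built from the base data.
-/

open Real MeasureTheory intervalIntegral

namespace Run7.h117

/-- fixed data with bounds -/
structure Fix (b p n t₀ C : ℝ) (κ₀ : ℝ → ℝ → ℝ) : Prop where
  hb : 0 < b
  hb1 : b ≤ 1 / 10
  hp : 0 < p
  hp1 : p ≤ 1
  hn : 0 < n
  hn1 : n ≤ 1
  hC : 10 ≤ C
  κz : Z2 κ₀ (C - 1)
  m1z : ∀ t, |t - t₀| ≤ 1 → Z2 (m1 b p t) C
  N1z : ∀ t, |t - t₀| ≤ 1 → Z2 (N1 b p t) C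
  m1d : ∀ t, Z2 (fun x y => m1 b p t x y - m1 b p t₀ x y) (C * |t - t₀|)

/-- perturbed data -/
structure Pert (b p n t₀ C : ℝ) (κ₀ : ℝ → ℝ → ℝ) (η ε t : ℝ) (κ : ℝ → ℝ → ℝ)
    (lam M : ℝ → ℝ) : Prop where
  fx : Fix b p n t₀ C κ₀
  bd : BaseData b p n ε t κ lam M
  hε : 0 < ε
  hεη : ε ≤ η
  ht : |t - t₀| ≤ η
  cl : Close η κ κ₀
  hlam : ∀ x, |lam x - 1| ≤ η * ε
  hη : 10000 * C ^ 2 * η ≤ 1

lemma exists_z2_affine {f : ℝ → ℝ → ℝ → ℝ} {f0 f1 : ℝ → ℝ → ℝ} (h0 : Sp f0) (h1 : Sp f1)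
    (h : ∀ t x y, f t x y = f0 x y + t * f1 x y) (t₀ : ℝ) :
    ∃ C, 0 ≤ C ∧ (∀ t, |t - t₀| ≤ 1 → Z2 (f t) C) ∧
      (∀ t, Z2 (fun x y => f t x y - f t₀ x y) (C * |t - t₀|)) := by
  obtain ⟨C0, z0⟩ := h0.z2
  obtain ⟨C1, z1⟩ := h1.z2
  have c0 := z0.nonneg
  have c1 := z1.nonneg
  refine ⟨C0 + (|t₀| + 1) * C1 + C1, by positivity, fun t ht => ?_, fun t => ?_⟩
  · have h2 : Z2 (f t) (C0 + |t| * C1) := (z0.add (z1.cmul t)).congr (fun x y => (h t x y).symm)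
    refine h2.mono ?_
    have h3 : |t| ≤ |t₀| + 1 := by
      have := abs_sub_abs_le_abs_sub t t₀; linarith
    have h4 : |t| * C1 ≤ (|t₀| + 1) * C1 := mul_le_mul_of_nonneg_right h3 c1
    linarith
  · have h2 : Z2 (fun x y => f t x y - f t₀ x y) (|t - t₀| * C1) :=
      (z1.cmul (t - t₀)).congr (fun x y => by rw [h, h]; ring)
    refine h2.mono ?_
    have h3 : C1 ≤ C0 + (|t₀| + 1) * C1 + C1 := by
      have := abs_nonneg t₀
      nlinarith
    have := mul_le_mul_of_nonneg_left h3 (abs_nonneg (t - t₀))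
    linarith

lemma exists_fix {b p n : ℝ} (hb : 0 < b) (hb1 : b ≤ 1 / 10) (hp : 0 < p) (hp1 : p ≤ 1)
    (hn : 0 < n) (hn1 : n ≤ 1) (t₀ : ℝ) {κ₀ : ℝ → ℝ → ℝ} (hκ : Sp κ₀) :
    ∃ C, Fix b p n t₀ C κ₀ := by
  obtain ⟨C0, z0⟩ := hκ.z2
  have hA0 : Sp (fun x y => AA p 0 x y / rho b x) := sp_m1 b p 0
  have hA1 : Sp (fun x y => m1 b p 1 x y - m1 b p 0 x y) := (sp_m1 b p 1).sub (sp_m1 b p 0)
  obtain ⟨C1, c1, m1z, m1d⟩ := exists_z2_affine (f := fun t => m1 b p t) (sp_m1 b p 0) hA1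
    (fun t x y => by simp only [m1, AA]; field_simp; ring) t₀
  have hN1 : Sp (fun x y => N1 b p 1 x y - N1 b p 0 x y) := (sp_N1 b p 1).sub (sp_N1 b p 0)
  obtain ⟨C2, c2, N1z, N1d⟩ := exists_z2_affine (f := fun t => N1 b p t) (sp_N1 b p 0) hN1
    (fun t x y => by simp only [N1, SS]; field_simp; ring) t₀
  have c0 := z0.nonneg
  refine ⟨10 + C0 + C1 + C2, hb, hb1, hp, hp1, hn, hn1, by linarith, z0.mono (by linarith),
    fun t ht => (m1z t ht).mono (by linarith), fun t ht => (N1z t ht).mono (by linarith),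
    fun t => (m1d t).mono ?_⟩
  have := abs_nonneg (t - t₀)
  nlinarith

namespace Pert

variable {b p n t₀ C η ε t : ℝ} {κ₀ κ : ℝ → ℝ → ℝ} {lam M : ℝ → ℝ}
variable (h : Pert b p n t₀ C κ₀ η ε t κ lam M)
include h

lemma C0 : 0 < C := by have := h.fx.hC; linarith
lemma η0 : 0 < η := lt_of_lt_of_le h.hε h.hεη
lemma η1 : η ≤ 1 := by
  have h1 := h.hη
  have h2 := h.fx.hC
  have h3 := h.η0
  have h4 : 1 ≤ 10000 * C ^ 2 := by nlinarith
  nlinarith

/-- `C² ε` is tiny -/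
lemma tiny : 10000 * C ^ 2 * ε ≤ 1 := by
  have h1 := h.hη
  have h2 : 10000 * C ^ 2 * ε ≤ 10000 * C ^ 2 * η :=
    mul_le_mul_of_nonneg_left h.hεη (by positivity)
  linarith

lemma tiny1 : 100000 * C * ε ≤ 1 := by
  have h1 := h.tiny
  have h2 := h.fx.hC
  have h3 := h.hε
  have h4 : 100000 * C ≤ 10000 * C ^ 2 := by nlinarith
  nlinarith

lemma ht1 : |t - t₀| ≤ 1 := h.ht.trans h.η1

lemma mz : Z2 (m1 b p t) C := h.fx.m1z t h.ht1
lemma Nz : Z2 (N1 b p t) C := h.fx.N1z t h.ht1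

lemma dκ : Z2 (fun x y => κ x y - κ₀ x y) η := by
  have s1 : Sp κ := ⟨h.bd.smooth, h.bd.per⟩
  have s2 := h.fx.κz.sp
  have e1 : dx (fun x y => κ x y - κ₀ x y) = fun x y => dx κ x y - dx κ₀ x y := by
    funext x y; exact ((s1.cd.one.hx x y).sub (s2.cd.one.hx x y)).deriv
  have e2 : dy (fun x y => κ x y - κ₀ x y) = fun x y => dy κ x y - dy κ₀ x y := by
    funext x y; exact ((s1.cd.one.hy x y).sub (s2.cd.one.hy x y)).deriv
  have e3 : dx (fun x y => dx κ x y - dx κ₀ x y) = fun x y => dx (dx κ) x y - dx (dx κ₀) x y := by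
    funext x y; exact ((s1.dx.cd.one.hx x y).sub (s2.dx.cd.one.hx x y)).deriv
  have e4 : dx (fun x y => dy κ x y - dy κ₀ x y) = fun x y => dx (dy κ) x y - dx (dy κ₀) x y := by
    funext x y; exact ((s1.dy.cd.one.hx x y).sub (s2.dy.cd.one.hx x y)).deriv
  refine ⟨s1.sub s2, fun x y => (h.cl x y).1, ?_, ?_, ?_, ?_⟩
  · rw [e1]; exact fun x y => (h.cl x y).2.1
  · rw [e2]; exact fun x y => (h.cl x y).2.2.1
  · rw [e1, e3]; exact fun x y => (h.cl x y).2.2.2.1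
  · rw [e2, e4]; exact fun x y => (h.cl x y).2.2.2.2.1

lemma κz : Z2 κ C := by
  have h1 := h.dκ.add h.fx.κz
  refine (h1.congr (fun x y => by ring)).mono ?_
  have := h.η1
  linarith

lemma wz : Z2 (fun x _ => ww b x) 1 := by
  have hb := h.fx.hb
  have hb1 := h.fx.hb1
  have e1 : dx (fun x (_ : ℝ) => ww b x) = fun x _ => ww' b x := by
    funext x y; exact (hd_ww b x).deriv
  have e2 : dx (fun x (_ : ℝ) => ww' b x) = fun x _ => (b / 2) * Real.sin x := by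
    funext x y
    have h := (Real.hasDerivAt_cos x).const_mul (-(b / 2))
    refine h.deriv.trans ?_
    ring
  have e3 : dy (fun x (_ : ℝ) => ww b x) = fun _ _ => 0 := by
    funext x y; exact deriv_const y (ww b x)
  have hs := fun x => Real.abs_sin_le_one x
  have hc := fun x => Real.abs_cos_le_one x
  have hb2 : |b / 2| ≤ 1 := by rw [abs_of_pos (by linarith)]; linarith
  refine ⟨(sp1_ww b).toSp, fun x y => ?_, ?_, ?_, ?_, ?_⟩
  · unfold ww
    exact (abs_mul2 ((abs_neg _).le.trans hb2) (hs x)).trans (by norm_num)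
  · rw [e1]; intro x y
    unfold ww'
    exact (abs_mul2 ((abs_neg _).le.trans hb2) (hc x)).trans (by norm_num)
  · rw [e3]; intro x y; simp
  · rw [e1, e2]; intro x y
    exact (abs_mul2 hb2 (hs x)).trans (by norm_num)
  · rw [e3, dx_const']; intro x y; simp

lemma mhz : Z2 (fun x y => ε * m1 b p t x y) (ε * C) := by
  have := h.mz.cmul ε
  rwa [abs_of_pos h.hε] at this

lemma εκz : Z2 (fun x y => ε * κ x y) (ε * C) := by
  have := h.κz.cmul ε
  rwa [abs_of_pos h.hε] at this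

lemma M_ne (x : ℝ) : M x ≠ 0 := fun h0 => by
  have := h.bd.Meq x
  rw [h0, zero_mul] at this
  norm_num at this

lemma th_eq' (x : ℝ) : th b p ε t κ x = 1 / M x - lam x := by
  have h1 := h.bd.Meq x
  have := h.M_ne x
  field_simp
  linarith

lemma sth : Sp1 (th b p ε t κ) := by
  have sM : Sp1 M := ⟨h.bd.Msmooth, h.bd.Mper⟩
  have slam : Sp1 lam := ⟨h.bd.lsmooth, h.bd.lper⟩
  have h1 : Sp1 (fun x => 1 / M x + (-1) * lam x) :=
    ((Sp1.const 1).div sM (fun x => h.M_ne x)).add ((Sp1.const (-1)).mul slam)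
  have e : th b p ε t κ = fun x => 1 / M x + (-1) * lam x := by
    funext x; rw [h.th_eq']; ring
  rw [e]; exact h1

lemma thz : Z2 (fun x _ => th b p ε t κ x) (4 * C ^ 2 * ε ^ 2) := by
  have h1 := (h.mhz.mul h.εκz).mean h.sth.toSp
  exact h1.mono (by nlinarith)

lemma dlam (x y : ℝ) : dx (fun x (_ : ℝ) => lam x) x y = 2 * (ww b x * th b p ε t κ x) := by
  show deriv (fun s => lam s) x = _
  rw [h.bd.leq x]; ring

lemma lamz : Z2 (fun x _ => lam x - 1) (η * ε + 32 * C ^ 2 * ε ^ 2) := by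
  have slam : Sp1 lam := ⟨h.bd.lsmooth, h.bd.lper⟩
  have hz := (h.wz.mul h.thz).cmul 2
  have e1 : dx (fun x (_ : ℝ) => lam x - 1) = fun x _ => 2 * (ww b x * th b p ε t κ x) := by
    funext x y
    show deriv (fun s => lam s - 1) x = _
    rw [deriv_sub_const, h.bd.leq x]; ring
  have e3 : dy (fun x (_ : ℝ) => lam x - 1) = fun _ _ => 0 := by
    funext x y; exact deriv_const y (lam x - 1)
  have hpos : 0 ≤ η * ε := mul_nonneg h.η0.le h.hε.le
  have hpos2 : 0 ≤ 32 * C ^ 2 * ε ^ 2 := by positivity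
  have h2 : |(2 : ℝ)| * (4 * 1 * (4 * C ^ 2 * ε ^ 2)) ≤ η * ε + 32 * C ^ 2 * ε ^ 2 := by
    rw [abs_of_pos (by norm_num)]; linarith
  refine ⟨slam.toSp.sub (Sp.const 1), fun x y => (h.hlam x).trans (by linarith), ?_, ?_, ?_, ?_⟩
  · rw [e1]; exact fun x y => (hz.b0 x y).trans h2
  · rw [e3]; intro x y; simp; linarith
  · rw [e1]; exact fun x y => (hz.bx x y).trans h2
  · rw [e3, dx_const']; intro x y; simp; linarith

/-- `e₁` -/
lemma rz : Z2 (fun x _ => (lam x - 1) + th b p ε t κ x) (37 * C ^ 2 * (η * ε)) := by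
  refine (h.lamz.add h.thz).mono ?_
  have h1 : ε ^ 2 ≤ η * ε := by have := h.hεη; have := h.hε; nlinarith
  have h2 : 0 ≤ η * ε := mul_nonneg h.η0.le h.hε.le
  have h3 : 1 ≤ C ^ 2 := by have := h.fx.hC; nlinarith
  have h4 : 36 * C ^ 2 * ε ^ 2 ≤ 36 * C ^ 2 * (η * ε) := mul_le_mul_of_nonneg_left h1 (by positivity)
  have h5 : 1 * (η * ε) ≤ C ^ 2 * (η * ε) := mul_le_mul_of_nonneg_right h3 h2
  linarith

/-- `e₁ ≤ C ε / 200` -/
lemma e1_le : 37 * C ^ 2 * (η * ε) ≤ C * ε / 20 := by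
  have h1 := h.hη
  have h2 := h.C0
  have h3 := h.hε
  have hC := h.fx.hC
  have h4 : 37 * C ^ 2 * η ≤ C / 20 := by
    have : 37 * C ^ 2 * η ≤ 1 / 100 := by linarith
    linarith
  have := mul_le_mul_of_nonneg_right h4 h3.le
  linarith

lemma e1_small : 37 * C ^ 2 * (η * ε) ≤ 1 / 1000 := by
  have h1 := h.e1_le
  have h2 := h.tiny1
  linarith

lemma Mz : Z2 (fun x _ => M x - 1) (148 * C ^ 2 * (η * ε)) := by
  have h1 := h.rz.inv (g := fun x _ => M x) (by have := h.e1_small; linarith) (fun x y => by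
    have := h.bd.Meq x; linarith)
  exact h1.mono (by linarith)

lemma r_pos (x : ℝ) : 7 / 8 ≤ lam x + th b p ε t κ x := by
  have h1 := (abs_le.mp (h.rz.b0 x 0)).1
  have h2 := h.e1_small
  linarith

lemma M_pos (x : ℝ) : 0 < M x := by
  have h1 := h.bd.Meq x
  have h2 := h.r_pos x
  by_contra hneg
  push Not at hneg
  have : M x * (lam x + th b p ε t κ x) ≤ 0 := mul_nonpos_of_nonpos_of_nonneg hneg (by linarith)
  linarith

lemma bp : BP b p n ε t κ lam M where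
  bd := h.bd
  hn := h.fx.hn
  hM := h.M_pos
  hmh x y := (h.mhz.b0 x y).trans (by
    have := h.tiny1
    have h1 : 0 ≤ C * ε := mul_nonneg h.C0.le h.hε.le
    linarith)

/-- `μ - 1 - ε m₁` -/
lemma mutz : Z2 (fun x y => fmu b p ε t M x y - 1 - ε * m1 b p t x y)
    (1184 * C ^ 2 * (η * ε)) := by
  have h1 := h.Mz.mul ((Z2.const 1).add h.mhz)
  refine (h1.congr (fun x y => by unfold fmu; ring)).mono ?_
  rw [abs_one]
  have h2 : ε * C ≤ 1 := by have := h.tiny1; linarith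
  have h3 : 0 ≤ C ^ 2 * (η * ε) := mul_nonneg (sq_nonneg _) (mul_nonneg h.η0.le h.hε.le)
  have h4 : 4 * (148 * C ^ 2 * (η * ε)) * (1 + ε * C) ≤ 4 * (148 * C ^ 2 * (η * ε)) * 2 :=
    mul_le_mul_of_nonneg_left (by linarith) (by linarith)
  linarith

lemma muz : Z2 (fun x y => fmu b p ε t M x y - 1) (3 * C * ε) := by
  have h1 := h.mutz.add h.mhz
  refine (h1.congr (fun x y => by ring)).mono ?_
  have := h.e1_le
  have h6 : 0 ≤ C * ε := mul_nonneg h.C0.le h.hε.le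
  linarith

lemma muiz : Z2 (fun x y => BP.fmui b p ε t M x y - 1) (12 * C * ε) := by
  have h1 := h.muz.inv (g := BP.fmui b p ε t M) (by have := h.tiny1; linarith) (fun x y => by
    unfold BP.fmui
    have := (h.bp.mu_pos x y).ne'
    field_simp
    ring)
  exact h1.mono (by linarith)

lemma kz : Z2 (fun x y => kk ε lam κ x y - 1) (2 * C * ε) := by
  have h1 := h.lamz.add h.εκz
  refine (h1.congr (fun x y => by unfold kk; ring)).mono ?_
  have h2 := h.e1_le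
  have h3 : ε ^ 2 ≤ η * ε := by have := h.hεη; have := h.hε; nlinarith
  have h4 : 32 * C ^ 2 * ε ^ 2 ≤ 32 * C ^ 2 * (η * ε) := mul_le_mul_of_nonneg_left h3 (by positivity)
  have h5 : 1 * (η * ε) ≤ C ^ 2 * (η * ε) := by
    have : 1 ≤ C ^ 2 := by have := h.fx.hC; nlinarith
    exact mul_le_mul_of_nonneg_right this (mul_nonneg h.η0.le h.hε.le)
  have h6 : 0 ≤ C * ε := mul_nonneg h.C0.le h.hε.le
  linarith

lemma Pz : Z2 (fun x y => BP.fP b p ε t κ lam M x y - 1) (6 * C * ε) := by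
  have h1 := (h.muz.mul h.kz).add (h.muz.add h.kz)
  refine (h1.congr (fun x y => by unfold BP.fP; ring)).mono ?_
  have h6 : 0 ≤ C * ε := mul_nonneg h.C0.le h.hε.le
  have h7 : C * ε ≤ 1 / 100 := by have := h.tiny1; linarith
  have h8 : (C * ε) * (C * ε) ≤ 1 / 100 * (C * ε) := mul_le_mul_of_nonneg_right h7 h6
  nlinarith

lemma btz : Z2 (fun x y => bet b p ε t x y - p) (4 * C * ε) := by
  have h1 := h.wz.mul (h.Nz.cmul ε)
  refine (h1.congr (fun x y => by unfold bet; ring)).mono ?_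
  rw [abs_of_pos h.hε]
  linarith

end Pert

end Run7.h117
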