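import Mathlib
import Pool.Agent.Run7.h117.Energy2

/-!
The first order data of the main inequality.
-/

open Real MeasureTheory intervalIntegral

namespace Run7.h117

/-- first order data and the leading order positivity -/
structure Lead {n : ℝ} (G : Geo n) (p K ε η c₁ : ℝ) (wp : R1)
    (m1 H1 RM RMx RMy RH RHx RHy : R) : Prop where
  hc₁ : 0 < c₁
  hc₁' : c₁ ≤ 1
  hη : K ^ 32 * η ≤ c₁
  hεη : ε ≤ η
  hRM : G.mh = ε • m1 + RM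
  hRMPD : PD RM RMx RMy
  bRM : Bd RM (η * ε)
  bRMx : Bd RMx (η * ε)
  hRH : G.H = ε • H1 + RH
  hRHPD : PD RH RHx RHy
  bRH : Bd RH (η * ε)
  bRHx : Bd RHx (η * ε)
  L1 : ∀ g g' : R1, P1 g g' → I1 g = 0 → ∃ T Tx Ty Txx Txy Tyy : R,
    PD T Tx Ty ∧ PD Tx Txx Txy ∧ PD Ty Txy Tyy ∧ mR T = 0 ∧
    Txx + (2 * p) • Txy + (p ^ 2 + n ^ 2) • Tyy - oX (wp + G.w * G.w) * T
      = oX G.v * oX g' * H1 ∧
    SS3 T Tx Ty ≤ K * nn (oX g) ∧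
    c₁ * nn (oX g) ^ 2 ≤ II (m1 * T * (oX G.v * oX g'))

end Run7.h117
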