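import Mathlib
import Pool.Agent.Run7.h117.Bounds1
import Pool.Agent.Run7.h117.Lead

/-!
Bounds for the data built from the base data, part 2.
-/

open Real MeasureTheory intervalIntegral

namespace Run7.h117

lemma aR_bd {F Fx Fy : R} {a : ℝ} (hF : PD F Fx Fy) (h0 : mR F = 0) (hb : Bd F a) :
    Bd (aR F) (7 * a) := by
  intro x y
  have ha := hb.nonneg
  have hP := hF.prim h0
  obtain ⟨y', hy', hyy⟩ := Function.Periodic.exists_mem_Ico₀ (f := fun y => aR F (x, y))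
    (c := 2 * π) (fun y => hP.py x y) (by positivity) y
  have hyy' : aR F (x, y) = aR F (x, y') := hyy
  rw [hyy', aR_apply]
  have h1 : |∫ s in (0 : ℝ)..y', F (x, s)| ≤ a * |y' - 0| :=
    intervalIntegral.norm_integral_le_of_norm_le_const (fun s _ =>
      (Real.norm_eq_abs _).le.trans (hb x s))
  rw [sub_zero, abs_of_nonneg hy'.1] at h1
  refine h1.trans ?_
  have h2 : y' ≤ 7 := by have := hy'.2; linarith [Real.pi_lt_d2]
  have := mul_le_mul_of_nonneg_left h2 ha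
  linarith

lemma Bd.II1 {F : R} {a : ℝ} (hb : Bd F a) : |Run7.h117.II F| ≤ 49 * a := by
  have h1 := Bd.II hb 1 1
  rw [mul_one, mul_one] at h1
  refine h1.trans ?_
  have n1 := nn_one_le
  have n10 := nn_nonneg (1 : R)
  have ha := hb.nonneg
  calc a * Run7.h117.nn (1:R) * Run7.h117.nn (1:R) ≤ a * 7 * 7 := by gcongr
    _ = 49 * a := by ring

/-- a function that is `Z2`-close to a constant -/
structure Zc (f : ℝ → ℝ → ℝ) (c a : ℝ) : Prop where
  z : Z2 (fun x y => f x y - c) a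

namespace Zc
variable {f : ℝ → ℝ → ℝ} {c a : ℝ}

lemma sp (h : Zc f c a) : Sp f := by
  have h1 := h.z.sp.add (Sp.const c)
  have : (fun x y => f x y - c + c) = f := by funext x y; ring
  rwa [this] at h1

lemma ex (h : Zc f c a) : dx (fun x y => f x y - c) = dx f := by
  funext x y; exact ((h.sp.cd.one.hx x y).sub_const c).deriv
lemma ey (h : Zc f c a) : dy (fun x y => f x y - c) = dy f := by
  funext x y; exact ((h.sp.cd.one.hy x y).sub_const c).deriv

lemma b0 (h : Zc f c a) : Bd (toR f - ContinuousMap.const _ c) a := fun x y => by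
  rw [ContinuousMap.sub_apply, h.sp.ap]; exact h.z.b0 x y
lemma bx (h : Zc f c a) : Bd (toR (dx f)) a := fun x y => by
  rw [h.sp.dx.ap, ← h.ex]; exact h.z.bx x y
lemma by' (h : Zc f c a) : Bd (toR (dy f)) a := fun x y => by
  rw [h.sp.dy.ap, ← h.ey]; exact h.z.by' x y
lemma bxx (h : Zc f c a) : Bd (toR (dx (dx f))) a := fun x y => by
  rw [h.sp.dx.dx.ap, ← h.ex]; exact h.z.bxx x y
lemma bxy (h : Zc f c a) : Bd (toR (dx (dy f))) a := fun x y => by
  rw [h.sp.dy.dx.ap, ← h.ey]; exact h.z.bxy x y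
lemma sm (h : Zc f c a) : Sm (toR f - ContinuousMap.const _ c) a :=
  ⟨_, _, h.sp.toPD.sub (PD.const c), h.b0, by rw [sub_zero]; exact h.bx⟩
lemma smx (h : Zc f c a) : Sm (toR (dx f)) a := ⟨_, _, h.sp.dx.toPD, h.bx, h.bxx⟩
lemma smy (h : Zc f c a) : Sm (toR (dy f)) a := ⟨_, _, h.sp.dy.toPD, h.by', h.bxy⟩

lemma B (h : Zc f c a) : Bd (toR f) (|c| + a) := by
  have h1 := (Bd.const c).add h.b0
  have e : ContinuousMap.const _ c + (toR f - ContinuousMap.const _ c) = toR f := by ring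
  rwa [e] at h1
end Zc

lemma vv_le {b : ℝ} (hb : 0 < b) (hb1 : b ≤ 1 / 10) (x : ℝ) : |vv b x| ≤ 2 := by
  rw [abs_of_pos (vv_pos b x)]
  unfold vv
  have h1 : b / 2 * Real.cos x ≤ Real.log 2 := by
    have h2 := Real.log_two_gt_d9
    have h3 := Real.cos_le_one x
    nlinarith [Real.neg_one_le_cos x]
  calc Real.exp (b / 2 * Real.cos x) ≤ Real.exp (Real.log 2) := Real.exp_le_exp.mpr h1
    _ = 2 := Real.exp_log (by norm_num)

lemma vvi_le {b : ℝ} (hb : 0 < b) (hb1 : b ≤ 1 / 10) (x : ℝ) : |1 / vv b x| ≤ 2 := by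
  rw [abs_of_pos (one_div_pos.mpr (vv_pos b x)), div_le_iff₀ (vv_pos b x)]
  have h1 : (1:ℝ) / 2 ≤ vv b x := by
    unfold vv
    have h2 : -(b / 2) ≤ b / 2 * Real.cos x := by nlinarith [Real.neg_one_le_cos x]
    have h3 := Real.add_one_le_exp (b / 2 * Real.cos x)
    linarith
  linarith

namespace Pert

variable {b p n t₀ C η ε t : ℝ} {κ₀ κ : ℝ → ℝ → ℝ} {lam M : ℝ → ℝ}
variable (h : Pert b p n t₀ C κ₀ η ε t κ lam M)

/-- the constant `O₀` -/
noncomputable def O0 (b : ℝ) : ℝ := II (oX (toR1 (ww b) * toR1 (vv b)) * oX (toR1 (ww b) * toR1 (vv b))) / 4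

lemma O0_pos {b : ℝ} (hb : 0 < b) : 0 < O0 b := by
  unfold O0
  have h1 : 0 ≤ II (oX (toR1 (ww b) * toR1 (vv b)) * oX (toR1 (ww b) * toR1 (vv b))) :=
    II_sq_nonneg _
  rcases eq_or_lt_of_le h1 with h2 | h2
  · exfalso
    have h3 := II_eq_zero (f := oX (toR1 (ww b) * toR1 (vv b)) * oX (toR1 (ww b) * toR1 (vv b)))
      (fun x y => by simp only [ContinuousMap.mul_apply]; exact mul_self_nonneg _) h2.symm
      (π / 2) ⟨by positivity, by linarith [Real.pi_pos]⟩ 0 ⟨le_rfl, by positivity⟩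
    simp only [ContinuousMap.mul_apply, oX_apply, (sp1_ww b).ap, (sp1_vv b).ap,
      mul_self_eq_zero, mul_eq_zero, (vv_pos b (π / 2)).ne', or_false] at h3
    unfold ww at h3
    rw [Real.sin_pi_div_two] at h3
    linarith
  · linarith

include h

lemma zmu : Zc (fmu b p ε t M) 1 (3 * C * ε) := ⟨h.muz⟩
lemma zmui : Zc (BP.fmui b p ε t M) 1 (12 * C * ε) := ⟨h.muiz⟩
lemma zk : Zc (kk ε lam κ) 1 (2 * C * ε) := ⟨h.kz⟩
lemma zP : Zc (BP.fP b p ε t κ lam M) 1 (6 * C * ε) := ⟨h.Pz⟩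
lemma zbt : Zc (bet b p ε t) p (4 * C * ε) := ⟨h.btz⟩

lemma Cε : 0 ≤ C * ε := mul_nonneg h.C0.le h.hε.le

/-- the second derivative mean -/
lemma mPxx : mR (toR (dx (dx (BP.fP b p ε t κ lam M)))) = 0 := by
  have h1 := h.bp.sP'.dx.toPD.mean
  rw [h.bp.mPx] at h1
  ext x
  exact (h1.h x).unique (hasDerivAt_const x (0:ℝ))

lemma bPx : Bd (aR (toR (dx (BP.fP b p ε t κ lam M)))) (42 * C * ε) :=
  (aR_bd h.bp.sP'.dx.toPD h.bp.mPx h.zP.bx).mono (by linarith)

lemma bPxx : Bd (aR (toR (dx (dx (BP.fP b p ε t κ lam M))))) (42 * C * ε) :=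
  (aR_bd h.bp.sP'.dx.dx.toPD h.mPxx h.zP.bxx).mono (by linarith)

lemma inv_M (x : ℝ) : |1 / M x| ≤ 9 / 8 := by
  have h1 := h.th_eq' x
  have h2 : 1 / M x = 1 + ((lam x - 1) + th b p ε t κ x) := by linarith
  rw [h2]
  have h3 := h.rz.b0 x 0
  have h4 := h.e1_small
  exact (abs_add2 (by norm_num : |(1:ℝ)| ≤ 1) h3).trans (by linarith)

lemma bOm (x : ℝ) : |fOm b M x| ≤ 3 := by
  have e : fOm b M x = ww b x * vv b x * (1 / M x) := by unfold fOm; ring
  rw [e]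
  exact (abs_mul2 (abs_mul2 (h.wz.b0 x 0) (vv_le h.fx.hb h.fx.hb1 x)) (h.inv_M x)).trans
    (by norm_num)

lemma th_small (x : ℝ) : |th b p ε t κ x| ≤ 4 * C ^ 2 * ε ^ 2 := h.thz.b0 x 0
lemma dth_small (x : ℝ) : |deriv (th b p ε t κ) x| ≤ 4 * C ^ 2 * ε ^ 2 := h.thz.bx x 0
lemma bww' (x : ℝ) : |ww' b x| ≤ 1 := by
  have h1 := h.wz.bx x 0
  have e : dx (fun x (_ : ℝ) => ww b x) x 0 = ww' b x := (hd_ww b x).deriv
  rwa [e] at h1

lemma C2ε2 : 4 * C ^ 2 * ε ^ 2 ≤ C * ε / 1000 := by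
  have h1 := h.tiny1
  have h2 := h.Cε
  have : (C * ε) * (C * ε) ≤ (1 / 100000) * (C * ε) :=
    mul_le_mul_of_nonneg_right (by linarith) h2
  nlinarith

lemma Cε1 : C * ε ≤ 1 / 100000 := by have := h.tiny1; linarith

lemma ww2 (x : ℝ) : |ww' b x + ww b x ^ 2| ≤ 2 := by
  have h1 := h.bww' x
  have h2 := h.wz.b0 x 0
  have h3 : |ww b x ^ 2| ≤ 1 := by
    rw [abs_pow]
    have := abs_nonneg (ww b x)
    nlinarith
  exact (abs_add2 h1 h3).trans (by norm_num)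

lemma th2 (x : ℝ) : |2 * ww b x * th b p ε t κ x + deriv (th b p ε t κ) x| ≤ 3 * (C * ε / 1000) := by
  have h1 := h.wz.b0 x 0
  have h2 := (h.th_small x).trans h.C2ε2
  have h3 := (h.dth_small x).trans h.C2ε2
  refine (abs_add2 (abs_mul2 (abs_mul2 (by norm_num : |(2:ℝ)| ≤ 2) h1) h2) h3).trans ?_
  linarith

lemma bOm' (x : ℝ) : |deriv (fOm b M) x| ≤ 10 := by
  rw [h.bp.hOm x]
  have e : (ww' b x + ww b x ^ 2) * vv b x / M x = (ww' b x + ww b x ^ 2) * vv b x * (1 / M x) := by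
    ring
  rw [e]
  have h5 := h.Cε1
  refine (abs_add2 (abs_mul2 (abs_mul2 (h.ww2 x) (vv_le h.fx.hb h.fx.hb1 x)) (h.inv_M x))
    (abs_mul2 (abs_mul2 (h.wz.b0 x 0) (vv_le h.fx.hb h.fx.hb1 x)) (h.th2 x))).trans ?_
  linarith

/-- lower bound for `∫ Ω²` -/
lemma O_ge : O0 b ≤ II (oX (toR1 (fOm b M)) * oX (toR1 (fOm b M))) := by
  have h1 : II ((1 / 4 : ℝ) • (oX (toR1 (ww b) * toR1 (vv b)) * oX (toR1 (ww b) * toR1 (vv b))))
      ≤ II (oX (toR1 (fOm b M)) * oX (toR1 (fOm b M))) := by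
    refine II_mono fun x y => ?_
    simp only [ContinuousMap.smul_apply, ContinuousMap.mul_apply, oX_apply, (sp1_ww b).ap,
      (sp1_vv b).ap, h.bp.sOm.ap, smul_eq_mul]
    have e : fOm b M x = ww b x * vv b x * (1 / M x) := by unfold fOm; ring
    have h2 : 1 / M x = lam x + th b p ε t κ x := by have := h.th_eq' x; linarith
    have h3 := h.r_pos x
    rw [← h2] at h3
    rw [e]
    have h4 : 1 / 4 ≤ (1 / M x) * (1 / M x) := by nlinarith
    have h5 := mul_le_mul_of_nonneg_right h4 (mul_self_nonneg (ww b x * vv b x))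
    nlinarith
  rw [map_smul, smul_eq_mul] at h1
  unfold O0
  linarith

/-- the numerator defining `s` -/
noncomputable def num (_ : Pert b p n t₀ C κ₀ η ε t κ lam M) : ℝ :=
  II (oX (toR1 (fOm b M)) * (ContinuousMap.const _ p - aR (toR (dx (BP.fP b p ε t κ lam M)))))
    + II ((toR (dx (bet b p ε t)) + (2 : ℝ) • (toR (bet b p ε t)
      * (oX (toR1 (ww b)) * toR (fun x y => ε * m1 b p t x y))))
      * (toR (kk ε lam κ) * oX (toR1 (vv b))))

/-- the parameter `s` -/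
noncomputable def s (h : Pert b p n t₀ C κ₀ η ε t κ lam M) : ℝ :=
  - h.num / II (oX (toR1 (fOm b M)) * oX (toR1 (fOm b M)))

lemma hQ0 : II (oX (h.bp.geo h.s).Om * (h.bp.geo h.s).Q)
    + II ((h.bp.geo h.s).DY * ((h.bp.geo h.s).k * oX (h.bp.geo h.s).v)) = 0 := by
  have hO : 0 < II (oX (toR1 (fOm b M)) * oX (toR1 (fOm b M))) :=
    lt_of_lt_of_le (O0_pos h.fx.hb) h.O_ge
  show II (oX (toR1 (fOm b M)) * (oX (ContinuousMap.const _ p + h.s • toR1 (fOm b M))
      - aR (toR (dx (BP.fP b p ε t κ lam M)))))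
    + II ((toR (dx (bet b p ε t)) + (2 : ℝ) • (toR (bet b p ε t)
      * (oX (toR1 (ww b)) * toR (fun x y => ε * m1 b p t x y))))
      * (toR (kk ε lam κ) * oX (toR1 (vv b)))) = 0
  have e : oX (toR1 (fOm b M)) * (oX (ContinuousMap.const _ p + h.s • toR1 (fOm b M))
      - aR (toR (dx (BP.fP b p ε t κ lam M))))
      = oX (toR1 (fOm b M)) * (ContinuousMap.const _ p - aR (toR (dx (BP.fP b p ε t κ lam M))))
        + h.s • (oX (toR1 (fOm b M)) * oX (toR1 (fOm b M))) := by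
    ext z; simp; ring
  rw [e, map_add, map_smul, smul_eq_mul]
  have e2 : h.s * II (oX (toR1 (fOm b M)) * oX (toR1 (fOm b M))) = - h.num := by
    unfold s; field_simp
  rw [e2]
  unfold num
  ring

lemma bmh : Bd (toR (fun x y => ε * m1 b p t x y)) (C * ε) := fun x y => by
  rw [h.bp.smh.ap]; exact (h.mhz.b0 x y).trans (by linarith)

lemma bW : Bd (oX (toR1 (ww b))) 1 := Bd.oX (fun x => by rw [(sp1_ww b).ap]; exact h.wz.b0 x 0)
lemma bV : Bd (oX (toR1 (vv b))) 2 :=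
  Bd.oX (fun x => by rw [(sp1_vv b).ap]; exact vv_le h.fx.hb h.fx.hb1 x)
lemma bK2 : Bd (toR (kk ε lam κ)) 2 :=
  h.zk.B.mono (by rw [abs_one]; have := h.Cε1; linarith)
lemma bB2 : Bd (toR (bet b p ε t)) 2 :=
  h.zbt.B.mono (by
    rw [abs_of_pos h.fx.hp]; have := h.Cε1; have := h.fx.hp1; linarith)
lemma bOmR : Bd (oX (toR1 (fOm b M))) 3 := Bd.oX (fun x => by rw [h.bp.sOm.ap]; exact h.bOm x)
lemma bOmR' : Bd (oX (toR1 (deriv (fOm b M)))) 10 :=
  Bd.oX (fun x => by rw [h.bp.sOm.deriv.ap]; exact h.bOm' x)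

lemma num_le : |h.num| ≤ 8000 * C * ε := by
  unfold num
  have c0 := h.Cε
  have hp := h.fx.hp
  have hp1 := h.fx.hp1
  -- first part
  have e : oX (toR1 (fOm b M)) * (ContinuousMap.const _ p - aR (toR (dx (BP.fP b p ε t κ lam M))))
      = p • oX (toR1 (fOm b M)) - oX (toR1 (fOm b M)) * aR (toR (dx (BP.fP b p ε t κ lam M))) := by
    ext z; simp; ring
  rw [e, map_sub, map_smul, smul_eq_mul]
  have a1 : |II (oX (toR1 (fOm b M)) * aR (toR (dx (BP.fP b p ε t κ lam M))))| ≤ 6174 * (C * ε) :=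
    ((h.bOmR.mul h.bPx).II1).trans (by linarith)
  have a2 : |II (oX (toR1 (fOm b M)))| ≤ 5 * (C * ε) := by
    have e2 : oX (toR1 (fOm b M)) = oX (toR1 (ww b) * toR1 (vv b))
        + toR (fun x y => (ww b x * vv b x) * ((lam x - 1) + th b p ε t κ x)) := by
      have hs : Sp (fun x y => (ww b x * vv b x) * ((lam x - 1) + th b p ε t κ x)) :=
        ((sp1_ww b).mul (sp1_vv b)).toSp.mul h.rz.sp
      ext z
      simp only [ContinuousMap.add_apply, ContinuousMap.mul_apply, oX_apply, (sp1_ww b).ap,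
        (sp1_vv b).ap, h.bp.sOm.ap, hs.ap]
      have h2 : 1 / M z.1 = lam z.1 + th b p ε t κ z.1 := by have := h.th_eq' z.1; linarith
      have e : fOm b M z.1 = ww b z.1 * vv b z.1 * (1 / M z.1) := by unfold fOm; ring
      rw [e, h2]; ring
    have z1 : II (oX (toR1 (ww b) * toR1 (vv b))) = 0 := (h.bp.geo 0).hv.toPD.intx
    rw [e2, map_add, z1, zero_add]
    have b3 : Bd (toR (fun x y => (ww b x * vv b x) * ((lam x - 1) + th b p ε t κ x)))
        (1 * 2 * (C * ε / 20)) := by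
      have hs : Sp (fun x y => (ww b x * vv b x) * ((lam x - 1) + th b p ε t κ x)) :=
        ((sp1_ww b).mul (sp1_vv b)).toSp.mul h.rz.sp
      intro x y
      rw [hs.ap]
      exact abs_mul2 (abs_mul2 (h.wz.b0 x 0) (vv_le h.fx.hb h.fx.hb1 x))
        ((h.rz.b0 x 0).trans h.e1_le)
    exact b3.II1.trans (by linarith)
  have a3 : |II ((toR (dx (bet b p ε t)) + (2 : ℝ) • (toR (bet b p ε t)
      * (oX (toR1 (ww b)) * toR (fun x y => ε * m1 b p t x y))))
      * (toR (kk ε lam κ) * oX (toR1 (vv b))))| ≤ 1568 * (C * ε) := by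
    refine (((h.zbt.bx.add ((h.bB2.mul (h.bW.mul h.bmh)).smul 2)).mul
      (h.bK2.mul h.bV)).II1).trans ?_
    rw [abs_of_pos (by norm_num : (0:ℝ) < 2)]
    linarith
  have a4 : |p * II (oX (toR1 (fOm b M)))| ≤ 5 * (C * ε) := by
    rw [abs_mul, abs_of_pos hp]
    have := abs_nonneg (II (oX (toR1 (fOm b M))))
    nlinarith
  refine (abs_add_le _ _).trans ?_
  have a5 := abs_sub (p * II (oX (toR1 (fOm b M))))
    (II (oX (toR1 (fOm b M)) * aR (toR (dx (BP.fP b p ε t κ lam M)))))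
  linarith

lemma s_le {D : ℝ} (hD : 8000 * C ≤ D * O0 b) : |h.s| ≤ D * ε := by
  have hO0 := O0_pos h.fx.hb
  have hO := h.O_ge
  have hOp : 0 < II (oX (toR1 (fOm b M)) * oX (toR1 (fOm b M))) := lt_of_lt_of_le hO0 hO
  unfold s
  rw [abs_div, abs_neg, abs_of_pos hOp, div_le_iff₀ hOp]
  have hC := h.C0
  have hD0 : 0 ≤ D := by
    by_contra hneg
    push Not at hneg
    have : D * O0 b < 0 := mul_neg_of_neg_of_pos hneg hO0
    linarith
  have h1 : D * ε * O0 b ≤ D * ε * II (oX (toR1 (fOm b M)) * oX (toR1 (fOm b M))) :=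
    mul_le_mul_of_nonneg_left hO (mul_nonneg hD0 h.hε.le)
  have h2 := mul_le_mul_of_nonneg_right hD h.hε.le
  have h3 := h.num_le
  linarith

end Pert

end Run7.h117
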