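import Mathlib
import Pool.Agent.Run7.h117.Bounds2

/-!
Bounds for the data built from the base data, part 3.
-/

open Real MeasureTheory intervalIntegral

namespace Run7.h117

namespace Pert

variable {b p n t₀ C η ε t D : ℝ} {κ₀ κ : ℝ → ℝ → ℝ} {lam M : ℝ → ℝ}
variable (h : Pert b p n t₀ C κ₀ η ε t κ lam M)

/-- conditions on the constant `D` -/
structure DC (b C η D : ℝ) : Prop where
  h1 : 8000 * C ≤ D * O0 b
  h2 : C ≤ D
  h3 : 1000 * D * η ≤ 1

include h

lemma Dε (hD : DC b C η D) : D * ε ≤ 1 / 1000 := by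
  have h1 := hD.h3
  have h2 : 0 ≤ D := h.C0.le.trans hD.h2
  have := mul_le_mul_of_nonneg_left h.hεη h2
  linarith

lemma D0 (hD : DC b C η D) : 0 < D := lt_of_lt_of_le h.C0 hD.h2

lemma CD (hD : DC b C η D) : C * ε ≤ D * ε := mul_le_mul_of_nonneg_right hD.h2 h.hε.le

lemma smQ (hD : DC b C η D) :
    Sm (h.bp.Qr h.s - ContinuousMap.const _ p) (60 * (D * ε)) := by
  have hs := h.s_le hD.h1
  have hcd := h.CD hD
  have h0 := h.Cε
  refine ⟨_, _, (h.bp.QPD h.s).sub (PD.const p), ?_, ?_⟩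
  · have e : h.bp.Qr h.s - ContinuousMap.const _ p
        = h.s • oX (toR1 (fOm b M)) - aR (toR (dx (BP.fP b p ε t κ lam M))) := by
      unfold BP.Qr
      ext z; simp; ring
    rw [e]
    refine ((h.bOmR.smul h.s).sub h.bPx).mono ?_
    linarith
  · rw [sub_zero, oX_smul]
    refine ((h.bOmR'.smul h.s).sub h.bPxx).mono ?_
    linarith

lemma smmui : Sm (toR (BP.fmui b p ε t M) - 1) (12 * (C * ε)) := (h.zmui.sm).mono (by linarith)

lemma smX (hD : DC b C η D) :
    Sm (toR (BP.fmui b p ε t M) * h.bp.Qr h.s - ContinuousMap.const _ p) (75 * (D * ε)) := by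
  have e : toR (BP.fmui b p ε t M) * h.bp.Qr h.s - ContinuousMap.const _ p
      = (toR (BP.fmui b p ε t M) - 1) * (h.bp.Qr h.s - ContinuousMap.const _ p)
        + (h.bp.Qr h.s - ContinuousMap.const _ p) + p • (toR (BP.fmui b p ε t M) - 1) := by
    ext z; simp; ring
  rw [e]
  refine (((h.smmui.mul (h.smQ hD)).add (h.smQ hD)).add (h.smmui.smul p)).mono ?_
  rw [abs_of_pos h.fx.hp]
  have hcd := h.CD hD
  have h0 := h.Cε
  have h1 := h.Cε1
  have h2 : (C * ε) * (D * ε) ≤ 1 / 100000 * (D * ε) :=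
    mul_le_mul_of_nonneg_right h1 (h0.trans hcd)
  have h3 : p * (12 * (C * ε)) ≤ 1 * (12 * (C * ε)) :=
    mul_le_mul_of_nonneg_right h.fx.hp1 (by linarith)
  nlinarith

lemma bmui2 : Bd (toR (BP.fmui b p ε t M)) 2 :=
  h.zmui.B.mono (by rw [abs_one]; have := h.Cε1; linarith)

lemma bQ2 (hD : DC b C η D) : Bd (h.bp.Qr h.s) 2 := by
  obtain ⟨_, _, _, h1, _⟩ := h.smQ hD
  have h2 := (Bd.const p).add h1
  have e : ContinuousMap.const _ p + (h.bp.Qr h.s - ContinuousMap.const _ p) = h.bp.Qr h.s := by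
    ring
  rw [e, abs_of_pos h.fx.hp] at h2
  refine h2.mono ?_
  have := h.Dε hD
  have := h.fx.hp1
  linarith

/-- the inverse of `v` -/
noncomputable def vi (b : ℝ) : R1 := toR1 (fun x => 1 / vv b x)

omit h in
lemma svi (b : ℝ) : Sp1 (fun x => 1 / vv b x) :=
  (Sp1.const 1).div (sp1_vv b) (fun x => (vv_pos b x).ne')

/-- the potential `q` -/
noncomputable def qq (b p ε t : ℝ) (M : ℝ → ℝ) : R :=
  oX (toR1 (deriv (fOm b M))) * toR (fmu b p ε t M) * oX (vi b)

lemma bq : Bd (qq b p ε t M - oX (toR1 (ww' b) + toR1 (ww b) * toR1 (ww b))) (3 * (C * ε)) := by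
  intro x y
  unfold qq vi
  simp only [ContinuousMap.sub_apply, ContinuousMap.mul_apply, oX_apply, h.bp.sOm.deriv.ap,
    h.bp.smu.ap, (svi b).ap, ContinuousMap.add_apply, (sp1_ww' b).ap, (sp1_ww b).ap]
  rw [h.bp.hOm x]
  have hv := (vv_pos b x).ne'
  have hM := h.M_ne x
  have e : ((ww' b x + ww b x ^ 2) * vv b x / M x
      + ww b x * vv b x * (2 * ww b x * th b p ε t κ x + deriv (th b p ε t κ) x))
      * fmu b p ε t M x y * (1 / vv b x) - (ww' b x + ww b x * ww b x)
      = (ww' b x + ww b x ^ 2) * (ε * m1 b p t x y)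
        + ww b x * (2 * ww b x * th b p ε t κ x + deriv (th b p ε t κ) x)
          * fmu b p ε t M x y := by
    unfold fmu
    field_simp
    ring
  rw [e]
  have h1 := h.mhz.b0 x y
  have h2 := h.muz.b0 x y
  have h3 : |fmu b p ε t M x y| ≤ 2 := by
    have e2 : fmu b p ε t M x y = 1 + (fmu b p ε t M x y - 1) := by ring
    rw [e2]
    refine (abs_add2 (by norm_num : |(1:ℝ)| ≤ 1) h2).trans ?_
    have := h.Cε1
    linarith
  refine (abs_add2 (abs_mul2 (h.ww2 x) h1) (abs_mul2 (abs_mul2 (h.wz.b0 x 0) (h.th2 x)) h3)).trans ?_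
  have := h.Cε
  linarith

theorem bds (hD : DC b C η D) {K : ℝ} (hK : 100 * D ≤ K) (hnK : 1 ≤ K * n)
    (hKε : K * ε ≤ 1 / 2) :
    Bds (h.bp.geo h.s) p K ε (toR1 (ww' b)) (vi b) (qq b p ε t M) (toR (dx (fmu b p ε t M)))
      (toR (dy (fmu b p ε t M))) (toR (dx (fun x y => ε * m1 b p t x y)))
      (toR (dy (fun x y => ε * m1 b p t x y))) := by
  have hC := h.fx.hC
  have hD2 := hD.h2
  have hcd := h.CD hD
  have h0 := h.Cε
  have hε := h.hε
  have hKD : 100 * (D * ε) ≤ K * ε := by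
    have := mul_le_mul_of_nonneg_right hK hε.le; linarith
  have hK1000 : 1000 ≤ K := by linarith
  obtain ⟨Fx, Fy, f1, f2, f3⟩ := h.smX hD
  refine
    { hn := h.fx.hn
      hn1 := h.fx.hn1
      hnK := hnK
      hp0 := h.fx.hp.le
      hp1 := h.fx.hp1
      hK := by linarith
      hε := hε
      hKε := hKε
      hw := ?_
      hvi := ?_
      bv := fun x => ?_
      bvi := fun x => ?_
      bw := fun x => ?_
      bwp := fun x => ?_
      bOm := fun x => ?_
      bOm' := fun x => ?_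
      OmPos := ?_
      bmu := ?_
      hmuPD := h.bp.smu.toPD
      bmux := ?_
      hmh := h.bp.smh.toPD
      bmh := ?_
      bmhx := ?_
      bbt := ?_
      bbtx := ?_
      bk := ?_
      bkx := ?_
      bky := ?_
      bX := ?_
      bXx := ?_
      bXy := ?_
      hq := ?_
      bq := ?_ }
  · refine ⟨fun x => ?_, (sp1_ww b).toP1.p⟩
    have e : ((h.bp.geo h.s).w : ℝ → ℝ) = ww b := by funext s; exact (sp1_ww b).ap s
    rw [(sp1_ww' b).ap, e]
    exact hd_ww b x
  · ext x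
    show vi b x * toR1 (vv b) x = 1
    unfold vi
    rw [(svi b).ap, (sp1_vv b).ap]
    have := (vv_pos b x).ne'
    field_simp
  · show |toR1 (vv b) x| ≤ K
    rw [(sp1_vv b).ap]; exact (vv_le h.fx.hb h.fx.hb1 x).trans (by linarith)
  · unfold vi
    rw [(svi b).ap]; exact (vvi_le h.fx.hb h.fx.hb1 x).trans (by linarith)
  · show |toR1 (ww b) x| ≤ K
    rw [(sp1_ww b).ap]; exact (h.wz.b0 x 0).trans (by linarith)
  · rw [(sp1_ww' b).ap]; exact (h.bww' x).trans (by linarith)
  · show |toR1 (fOm b M) x| ≤ K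
    rw [h.bp.sOm.ap]; exact (h.bOm x).trans (by linarith)
  · show |toR1 (deriv (fOm b M)) x| ≤ K
    rw [h.bp.sOm.deriv.ap]; exact (h.bOm' x).trans (by linarith)
  · have h1 := h.O_ge
    have h2 := hD.h1
    have h3 := O0_pos h.fx.hb
    have h4 : K * O0 b ≤ K * II (oX (toR1 (fOm b M)) * oX (toR1 (fOm b M))) :=
      mul_le_mul_of_nonneg_left h1 (by linarith)
    have h5 : 100 * D * O0 b ≤ K * O0 b := mul_le_mul_of_nonneg_right hK h3.le
    show 1 ≤ K * II (oX (toR1 (fOm b M)) * oX (toR1 (fOm b M)))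
    linarith
  · exact h.zmu.B.mono (by rw [abs_one]; have := h.Cε1; linarith)
  · exact h.zmu.bx.mono (by have := h.Cε1; linarith)
  · exact h.bmh.mono (by linarith)
  · intro x y
    rw [h.bp.smh.dx.ap]
    exact (h.mhz.bx x y).trans (by linarith)
  · exact h.zbt.b0.mono (by linarith)
  · exact h.zbt.bx.mono (by linarith)
  · exact h.zk.b0.mono (by linarith)
  · exact h.zk.bx.mono (by linarith)
  · exact h.zk.by'.mono (by linarith)
  · exact f2.mono (by linarith)
  · have h1 := (h.bp.geo h.s).hXPD.sub (PD.const p)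
    have h2 := (h1.unique f1).1
    rw [sub_zero] at h2
    rw [h2]
    exact f3.mono (by linarith)
  · refine ((h.zmui.by'.mul (h.bQ2 hD)).add (h.bmui2.mul (h.zP.bx.neg))).mono ?_
    linarith
  · show qq b p ε t M * oX (toR1 (vv b)) = oX (toR1 (deriv (fOm b M))) * toR (fmu b p ε t M)
    unfold qq
    have : oX (vi b) * oX (toR1 (vv b)) = 1 := by
      ext z
      simp only [ContinuousMap.mul_apply, oX_apply, ContinuousMap.one_apply]
      unfold vi
      rw [(svi b).ap, (sp1_vv b).ap]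
      have := (vv_pos b z.1).ne'
      field_simp
    linear_combination (exp := 1)
      (oX (toR1 (deriv (fOm b M))) * toR (fmu b p ε t M)) * this
  · exact h.bq.mono (by linarith)

end Pert

end Run7.h117
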