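import Mathlib
import Pool.Agent.Run7.h117.Build

/-!
The first order part of `H`.
-/

open Real

namespace Run7.h117

namespace Pert

/-- the first order part `H₁` -/
noncomputable def H1R (b p t₀ : ℝ) (κ₀ : ℝ → ℝ → ℝ) : R :=
  toR (fun x y => DD p (m1 b p t₀) x y + 2 * DD p κ₀ x y)

end Pert

end Run7.h117
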