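import Mathlib
import Pool.Agent.Run7.h117.Bounds3
import Pool.Agent.Run7.h117.H1R

/-!
The remainders `m̂ - ε m₁` and `H - ε H₁`.
-/

open Real MeasureTheory intervalIntegral

namespace Run7.h117

lemma toR_add {f g : ℝ → ℝ → ℝ} (hf : Sp f) (hg : Sp g) :
    toR (fun x y => f x y + g x y) = toR f + toR g := by
  ext z; rw [(hf.add hg).ap, ContinuousMap.add_apply, hf.ap, hg.ap]
lemma toR_sub {f g : ℝ → ℝ → ℝ} (hf : Sp f) (hg : Sp g) :
    toR (fun x y => f x y - g x y) = toR f - toR g := by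
  ext z; rw [(hf.sub hg).ap, ContinuousMap.sub_apply, hf.ap, hg.ap]

namespace Pert

variable {b p n t₀ C η ε t D : ℝ} {κ₀ κ : ℝ → ℝ → ℝ} {lam M : ℝ → ℝ}
variable (h : Pert b p n t₀ C κ₀ η ε t κ lam M)

include h

lemma H1_eq : H1R b p t₀ κ₀ = toR (dx (m1 b p t₀)) + p • toR (dy (m1 b p t₀))
    + (2 : ℝ) • (toR (dx κ₀) + p • toR (dy κ₀)) := by
  have sm := sp_m1 b p t₀
  have sκ := h.fx.κz.sp
  have s1 : Sp (fun x y => DD p (m1 b p t₀) x y + 2 * DD p κ₀ x y) :=
    (sm.dx.add ((Sp.const p).mul sm.dy)).add ((Sp.const 2).mul (sκ.dx.add ((Sp.const p).mul sκ.dy)))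
  ext z
  unfold H1R
  rw [s1.ap]
  simp only [ContinuousMap.add_apply, ContinuousMap.smul_apply, smul_eq_mul, sm.dx.ap, sm.dy.ap,
    sκ.dx.ap, sκ.dy.ap]
  rfl

lemma RM_PD : PD (toR (fun x y => ε * (m1 b p t x y - m1 b p t₀ x y)))
    (toR (dx (fun x y => ε * (m1 b p t x y - m1 b p t₀ x y))))
    (toR (dy (fun x y => ε * (m1 b p t x y - m1 b p t₀ x y)))) := by
  have := h.hε
  exact ((Sp.const ε).mul ((sp_m1 b p t).sub (sp_m1 b p t₀))).toPD

lemma RM_z : Z2 (fun x y => ε * (m1 b p t x y - m1 b p t₀ x y)) (C * (η * ε)) := by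
  refine ((h.fx.m1d t).cmul ε).mono ?_
  rw [abs_of_pos h.hε]
  have h1 := mul_le_mul_of_nonneg_left h.ht h.C0.le
  have := mul_le_mul_of_nonneg_left h1 h.hε.le
  linarith

lemma RM_eq : (h.bp.geo h.s).mh = ε • toR (m1 b p t₀)
    + toR (fun x y => ε * (m1 b p t x y - m1 b p t₀ x y)) := by
  have s1 : Sp (fun x y => ε * (m1 b p t x y - m1 b p t₀ x y)) :=
    (Sp.const ε).mul ((sp_m1 b p t).sub (sp_m1 b p t₀))
  ext z
  show toR (fun x y => ε * m1 b p t x y) z = _
  rw [h.bp.smh.ap, ContinuousMap.add_apply, s1.ap, ContinuousMap.smul_apply, (sp_m1 b p t₀).ap]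
  simp only [smul_eq_mul]
  ring

/-- `η ε` -/
lemma ηε0 : 0 ≤ η * ε := mul_nonneg h.η0.le h.hε.le

lemma εε : ε * ε ≤ η * ε := mul_le_mul_of_nonneg_right h.hεη h.hε.le

/-- the remainder `H - ε H₁` -/
lemma smRH (hD : DC b C η D) :
    Sm ((h.bp.geo h.s).H - ε • H1R b p t₀ κ₀) (20000 * C * D * (η * ε)) := by
  have hε := h.hε
  have sκ := h.κz.sp
  have sκ₀ := h.fx.κz.sp
  have sm := sp_m1 b p t
  have sm₀ := sp_m1 b p t₀
  have slam : Sp (fun x (_ : ℝ) => lam x - 1) := h.lamz.sp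
  -- mu tilde
  obtain ⟨μt, hμt⟩ : ∃ f : ℝ → ℝ → ℝ, f = fun x y => fmu b p ε t M x y - 1 - ε * m1 b p t x y :=
    ⟨_, rfl⟩
  have zμt : Z2 μt (1184 * C ^ 2 * (η * ε)) := by rw [hμt]; exact h.mutz
  -- identities
  have i1 : toR (dx (kk ε lam κ)) = toR (dx (fun x (_ : ℝ) => lam x - 1)) + ε • toR (dx κ) := by
    have e : dx (kk ε lam κ) = fun x y => dx (fun x (_ : ℝ) => lam x - 1) x y + ε * dx κ x y := by
      funext x y
      have h1 := (slam.cd.one.hx x y).add ((sκ.cd.one.hx x y).const_mul ε)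
      have h2 : HasDerivAt (fun s => kk ε lam κ s y) (dx (fun x (_ : ℝ) => lam x - 1) x y
          + ε * dx κ x y) x := by
        have e3 : (fun s => kk ε lam κ s y) = fun s => (lam s - 1) + ε * κ s y + 1 := by
          funext s; unfold kk; ring
        rw [e3]; exact h1.add_const 1
      exact h2.deriv
    rw [e]
    ext z
    rw [(slam.dx.add ((Sp.const ε).mul sκ.dx)).ap]
    simp only [ContinuousMap.add_apply, ContinuousMap.smul_apply, smul_eq_mul, slam.dx.ap,
      sκ.dx.ap]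
  have i2 : toR (dy (kk ε lam κ)) = ε • toR (dy κ) := by
    have e : dy (kk ε lam κ) = fun x y => ε * dy κ x y := by
      funext x y
      exact (((sκ.cd.one.hy x y).const_mul ε).const_add (lam x)).deriv
    rw [e]
    ext z
    rw [((Sp.const ε).mul sκ.dy).ap]
    simp only [ContinuousMap.smul_apply, smul_eq_mul, sκ.dy.ap]
  have hmueq : ∀ x y, fmu b p ε t M x y = μt x y + ε * m1 b p t x y + 1 := by
    intro x y; rw [hμt]; ring
  have i3 : toR (dx (fmu b p ε t M)) = ε • toR (dx (m1 b p t)) + toR (dx μt) := by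
    have e : dx (fmu b p ε t M) = fun x y => ε * dx (m1 b p t) x y + dx μt x y := by
      funext x y
      have h1 := ((zμt.sp.cd.one.hx x y).add ((sm.cd.one.hx x y).const_mul ε)).add_const 1
      have e3 : (fun s => fmu b p ε t M s y) = fun s => μt s y + ε * m1 b p t s y + 1 := by
        funext s; exact hmueq s y
      show deriv (fun s => fmu b p ε t M s y) x = _
      rw [e3]
      refine h1.deriv.trans ?_
      ring
    rw [e]
    ext z
    rw [(((Sp.const ε).mul sm.dx).add zμt.sp.dx).ap]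
    simp only [ContinuousMap.add_apply, ContinuousMap.smul_apply, smul_eq_mul, sm.dx.ap,
      zμt.sp.dx.ap]
  have i4 : toR (dy (fmu b p ε t M)) = ε • toR (dy (m1 b p t)) + toR (dy μt) := by
    have e : dy (fmu b p ε t M) = fun x y => ε * dy (m1 b p t) x y + dy μt x y := by
      funext x y
      have h1 := ((zμt.sp.cd.one.hy x y).add ((sm.cd.one.hy x y).const_mul ε)).add_const 1
      have e3 : (fun s => fmu b p ε t M x s) = fun s => μt x s + ε * m1 b p t x s + 1 := by
        funext s; exact hmueq x s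
      show deriv (fun s => fmu b p ε t M x s) y = _
      rw [e3]
      refine h1.deriv.trans ?_
      ring
    rw [e]
    ext z
    rw [(((Sp.const ε).mul sm.dy).add zμt.sp.dy).ap]
    simp only [ContinuousMap.add_apply, ContinuousMap.smul_apply, smul_eq_mul, sm.dy.ap,
      zμt.sp.dy.ap]
  have i5 : toR (fmu b p ε t M) * toR (BP.fmui b p ε t M) = 1 := by
    ext z
    rw [ContinuousMap.mul_apply, h.bp.smu.ap, h.bp.smui'.ap]
    unfold BP.fmui
    have := (h.bp.mu_pos z.1 z.2).ne'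
    rw [ContinuousMap.one_apply]
    field_simp
  have i6 : toR (dy (BP.fmui b p ε t M)) = - (toR (dy (fmu b p ε t M))
      * (toR (BP.fmui b p ε t M) * toR (BP.fmui b p ε t M))) := by
    have h1 := (h.bp.smu.toPD.mul h.bp.smui'.toPD)
    rw [i5] at h1
    have h2 := (h1.unique PD.one).2
    linear_combination (exp := 1) toR (BP.fmui b p ε t M) * h2
      - toR (dy (BP.fmui b p ε t M)) * i5
  have i7 : toR (dx (BP.fP b p ε t κ lam M)) = toR (dx (fmu b p ε t M)) * toR (kk ε lam κ)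
      + toR (fmu b p ε t M) * toR (dx (kk ε lam κ)) := by
    have h1 := h.bp.smu.toPD.mul h.bp.sk.toPD
    have h2 : toR (fmu b p ε t M) * toR (kk ε lam κ) = toR (BP.fP b p ε t κ lam M) :=
      (toR_mul h.bp.smu h.bp.sk).symm
    rw [h2] at h1
    exact (h.bp.sP'.toPD.unique h1).1
  -- abbreviations
  obtain ⟨X, hX⟩ : ∃ X : R, X = toR (BP.fmui b p ε t M) * h.bp.Qr h.s := ⟨_, rfl⟩
  obtain ⟨mi, hmi⟩ : ∃ mi : R, mi = toR (BP.fmui b p ε t M) := ⟨_, rfl⟩
  have key : (h.bp.geo h.s).H - ε • H1R b p t₀ κ₀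
      = (2 : ℝ) • toR (dx (fun x (_ : ℝ) => lam x - 1))
        + (2 * ε) • toR (dx (fun x y => κ x y - κ₀ x y))
        + (2 * p * ε) • toR (dy (fun x y => κ x y - κ₀ x y))
        + (2 * ε) • ((toR (bet b p ε t) - ContinuousMap.const _ p) * toR (dy κ))
        + ε • (toR (dy (m1 b p t)) * (mi * X - ContinuousMap.const _ p))
        + (ε * p) • toR (dy (fun x y => m1 b p t x y - m1 b p t₀ x y))
        + toR (dy μt) * (mi * X)
        + ε • (toR (dx (m1 b p t)) * (mi * toR (kk ε lam κ) - 1))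
        + ε • toR (dx (fun x y => m1 b p t x y - m1 b p t₀ x y))
        + toR (dx μt) * (mi * toR (kk ε lam κ)) := by
    have d1 : toR (dx (fun x y => κ x y - κ₀ x y)) = toR (dx κ) - toR (dx κ₀) := by
      have h1 := (sκ.sub sκ₀).toPD
      rw [toR_sub sκ sκ₀] at h1
      exact (h1.unique (sκ.toPD.sub sκ₀.toPD)).1
    have d2 : toR (dy (fun x y => κ x y - κ₀ x y)) = toR (dy κ) - toR (dy κ₀) := by
      have h1 := (sκ.sub sκ₀).toPD
      rw [toR_sub sκ sκ₀] at h1
      exact (h1.unique (sκ.toPD.sub sκ₀.toPD)).2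
    have d3 : toR (dx (fun x y => m1 b p t x y - m1 b p t₀ x y))
        = toR (dx (m1 b p t)) - toR (dx (m1 b p t₀)) := by
      have h1 := (sm.sub sm₀).toPD
      rw [toR_sub sm sm₀] at h1
      exact (h1.unique (sm.toPD.sub sm₀.toPD)).1
    have d4 : toR (dy (fun x y => m1 b p t x y - m1 b p t₀ x y))
        = toR (dy (m1 b p t)) - toR (dy (m1 b p t₀)) := by
      have h1 := (sm.sub sm₀).toPD
      rw [toR_sub sm sm₀] at h1
      exact (h1.unique (sm.toPD.sub sm₀.toPD)).2
    rw [d1, d2, d3, d4, h.H1_eq]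
    show toR (dx (kk ε lam κ)) + (2 : ℝ) • (toR (bet b p ε t) * toR (dy (kk ε lam κ)))
      - (toR (dy (BP.fmui b p ε t M)) * h.bp.Qr h.s + toR (BP.fmui b p ε t M)
        * (-(toR (dx (BP.fP b p ε t κ lam M))))) - _ = _
    rw [i6, i7, i4, i3, i2, i1]
    have hsm : ∀ (r : ℝ) (a : R), r • a = ContinuousMap.const _ r * a := by
      intro r a; ext z; simp
    have hc1 : (ContinuousMap.const (ℝ × ℝ) (2 * ε)) = (1 + 1) * ContinuousMap.const _ ε := by
      ext z; simp; norm_num
    have hc2 : (ContinuousMap.const (ℝ × ℝ) (2 * p * ε))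
        = (1 + 1) * ContinuousMap.const _ p * ContinuousMap.const _ ε := by
      ext z; simp; norm_num
    have hc3 : (ContinuousMap.const (ℝ × ℝ) (ε * p))
        = ContinuousMap.const _ ε * ContinuousMap.const _ p := by
      ext z; simp
    have hc4 : (ContinuousMap.const (ℝ × ℝ) (2 : ℝ)) = 1 + 1 := by
      ext z; simp; norm_num
    simp only [hsm, hc1, hc2, hc3, hc4]
    rw [hmi, hX]
    linear_combination (exp := 1) (toR (dx (fun x (_ : ℝ) => lam x - 1))
      + ContinuousMap.const _ ε * toR (dx κ)) * i5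
  rw [key]
  -- bounds
  have hC0 := h.C0
  have hC10 := h.fx.hC
  have hη0 := h.η0
  have hcd := h.CD hD
  have h0 := h.Cε
  have h1 := h.Cε1
  have hDε := h.Dε hD
  have hD0 := h.D0 hD
  have hp := h.fx.hp
  have hp1 := h.fx.hp1
  have hCD := hD.h2
  have smi : Sm (mi - 1) (12 * (C * ε)) := by rw [hmi]; exact h.smmui
  have smXp : Sm (X - ContinuousMap.const _ p) (75 * (D * ε)) := by rw [hX]; exact h.smX hD
  have smk : Sm (toR (kk ε lam κ) - 1) (2 * (C * ε)) := (h.zk.sm).mono (by linarith)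
  have hCεDε : (C * ε) * (D * ε) ≤ 1 / 100000 * (D * ε) :=
    mul_le_mul_of_nonneg_right h1 (h0.trans hcd)
  have hCεCε : (C * ε) * (C * ε) ≤ 1 / 100000 * (C * ε) := mul_le_mul_of_nonneg_right h1 h0
  have sA : Sm (mi * X - ContinuousMap.const _ p) (90 * (D * ε)) := by
    have e : mi * X - ContinuousMap.const _ p = (mi - 1) * (X - ContinuousMap.const _ p)
        + (X - ContinuousMap.const _ p) + p • (mi - 1) := by
      ext z; simp; ring
    rw [e]
    refine (((smi.mul smXp).add smXp).add (smi.smul p)).mono ?_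
    rw [abs_of_pos hp]
    have h3 : p * (12 * (C * ε)) ≤ 1 * (12 * (C * ε)) :=
      mul_le_mul_of_nonneg_right hp1 (by linarith)
    linarith
  have sA2 : Sm (mi * X) 2 := by
    have e : mi * X = (mi * X - ContinuousMap.const _ p) + p • (1 : R) := by
      ext z; simp
    rw [e]
    refine (sA.add (Sm.one.smul p)).mono ?_
    rw [abs_of_pos hp]
    linarith
  have sB : Sm (mi * toR (kk ε lam κ) - 1) (15 * (C * ε)) := by
    have e : mi * toR (kk ε lam κ) - 1 = (mi - 1) * (toR (kk ε lam κ) - 1)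
        + (mi - 1) + (toR (kk ε lam κ) - 1) := by ring
    rw [e]
    refine (((smi.mul smk).add smi).add smk).mono ?_
    linarith
  have sB2 : Sm (mi * toR (kk ε lam κ)) 2 := by
    have e : mi * toR (kk ε lam κ) = (mi * toR (kk ε lam κ) - 1) + 1 := by ring
    rw [e]
    exact (sB.add Sm.one).mono (by linarith)
  have hE := h.ηε0
  have hEE := h.εε
  have hCη : C * |t - t₀| ≤ C * η := mul_le_mul_of_nonneg_left h.ht hC0.le
  have t1 := (h.lamz.smx).smul 2
  have t2 := (h.dκ.smx).smul (2 * ε)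
  have t3 := (h.dκ.smy).smul (2 * p * ε)
  have t4 := (h.zbt.sm.mul h.κz.smy).smul (2 * ε)
  have t5 := (h.mz.smy.mul sA).smul ε
  have t6 := ((h.fx.m1d t).smy).smul (ε * p)
  have t7 := zμt.smy.mul sA2
  have t8 := (h.mz.smx.mul sB).smul ε
  have t9 := ((h.fx.m1d t).smx).smul ε
  have t10 := zμt.smx.mul sB2
  refine (((((((((t1.add t2).add t3).add t4).add t5).add t6).add t7).add t8).add t9).add t10).mono ?_
  rw [abs_of_pos (by norm_num : (0:ℝ) < 2), abs_of_pos (by positivity : 0 < 2 * ε),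
    abs_of_pos (by positivity : 0 < 2 * p * ε), abs_of_pos hε, abs_of_pos (by positivity : 0 < ε * p)]
  -- numeric
  have hC2 : C * C ≤ C * D := mul_le_mul_of_nonneg_left hCD hC0.le
  have hCD1 : 10 * C ≤ C * D := by nlinarith
  have hCD100 : 100 ≤ C * D := by nlinarith
  obtain ⟨E, hEdef⟩ : ∃ E, E = η * ε := ⟨_, rfl⟩
  rw [← hEdef] at hE hEE ⊢
  have m1' : 2 * (E + 32 * C ^ 2 * ε ^ 2) ≤ 66 * (C * D) * E := by
    have : 32 * C ^ 2 * ε ^ 2 ≤ 32 * (C * D) * E := by
      have a1 : 32 * (C * C) * (ε * ε) ≤ 32 * (C * D) * E := by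
        apply mul_le_mul (by linarith) hEE (by positivity) (by positivity)
      nlinarith
    have a2 : 1 * E ≤ (C * D) * E := mul_le_mul_of_nonneg_right (by linarith) hE
    linarith
  have m2' : 2 * ε * η ≤ 2 * (C * D) * E := by
    have a2 : 1 * E ≤ (C * D) * E := mul_le_mul_of_nonneg_right (by linarith) hE
    have : 2 * ε * η = 2 * E := by rw [hEdef]; ring
    linarith
  have m3' : 2 * p * ε * η ≤ 2 * (C * D) * E := by
    have a3 : 2 * p * ε * η ≤ 2 * ε * η := by
      have : p * (2 * ε * η) ≤ 1 * (2 * ε * η) := mul_le_mul_of_nonneg_right hp1 (by positivity)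
      linarith
    linarith
  have m4' : 2 * ε * (2 * (4 * C * ε) * C) ≤ 16 * (C * D) * E := by
    have a1 : 16 * (C * C) * (ε * ε) ≤ 16 * (C * D) * E := by
      apply mul_le_mul (by linarith) hEE (by positivity) (by positivity)
    linarith
  have m5' : ε * (2 * C * (90 * (D * ε))) ≤ 180 * (C * D) * E := by
    have a1 : 180 * (C * D) * (ε * ε) ≤ 180 * (C * D) * E :=
      mul_le_mul_of_nonneg_left hEE (by positivity)
    linarith
  have m9' : ε * (C * |t - t₀|) ≤ (C * D) * E := by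
    have a1 : ε * (C * |t - t₀|) ≤ ε * (C * η) := mul_le_mul_of_nonneg_left hCη hε.le
    have a2 : ε * (C * η) = C * E := by rw [hEdef]; ring
    have a3 : C * E ≤ (C * D) * E := mul_le_mul_of_nonneg_right (by linarith) hE
    linarith
  have m6' : ε * p * (C * |t - t₀|) ≤ (C * D) * E := by
    have a1 : p * (ε * (C * |t - t₀|)) ≤ 1 * (ε * (C * |t - t₀|)) :=
      mul_le_mul_of_nonneg_right hp1 (by positivity)
    linarith
  have m7' : 2 * (1184 * C ^ 2 * E) * 2 ≤ 4736 * (C * D) * E := by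
    have a1 : 4736 * (C * C) * E ≤ 4736 * (C * D) * E :=
      mul_le_mul_of_nonneg_right (by linarith) hE
    nlinarith
  have m8' : ε * (2 * C * (15 * (C * ε))) ≤ 30 * (C * D) * E := by
    have a1 : 30 * (C * C) * (ε * ε) ≤ 30 * (C * D) * E := by
      apply mul_le_mul (by linarith) hEE (by positivity) (by positivity)
    linarith
  have hfin : 0 ≤ (C * D) * E := by positivity
  linarith

end Pert

end Run7.h117
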