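import Mathlib
import Pool.Agent.Run7.h117.Build2
import Pool.Agent.Run7.h117.H1R
import Pool.Agent.Run7.h117.Energy2
import Pool.Agent.Run7.h117.Apriori

/-!
(L1) in the algebra `R`.
-/

open Real MeasureTheory intervalIntegral

namespace Run7.h117

lemma num_sq3 (a b c : ℝ) : (a + b + c) ^ 2 ≤ 3 * (a ^ 2 + b ^ 2 + c ^ 2) := by
  nlinarith [sq_nonneg (a - b), sq_nonneg (a - c), sq_nonneg (b - c)]

/-- conclusion of (L1) for fixed parameters -/
def L1C (b p n t c C : ℝ) (κ : ℝ → ℝ → ℝ) : Prop :=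
  ∀ g : ℝ → ℝ, ContDiff ℝ 1 g → (∀ x, g (x + 2 * π) = g x) →
    (∫ x in (0 : ℝ)..(2 * π), g x) = 0 →
    ∃ T : ℝ → ℝ → ℝ, CD 2 T ∧ Per T ∧ (∀ x y, T x (y + π / 2) = dy T x y) ∧
      (∀ x y, DD p (DD p T) x y + n ^ 2 * dy (dy T) x y - (ww' b x + ww b x ^ 2) * T x y
        = vv b x * deriv g x * (DD p (m1 b p t) x y + 2 * DD p κ x y)) ∧
      (∫ x in (0 : ℝ)..(2 * π), ∫ y in (0 : ℝ)..(2 * π),
          (T x y ^ 2 + dx T x y ^ 2 + dy T x y ^ 2)) ≤ C * ∫ x in (0 : ℝ)..(2 * π), g x ^ 2 ∧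
      c * (∫ x in (0 : ℝ)..(2 * π), g x ^ 2) ≤
        ∫ x in (0 : ℝ)..(2 * π), ∫ y in (0 : ℝ)..(2 * π),
          vv b x * deriv g x * m1 b p t x y * T x y

lemma mR_harm {T : ℝ → ℝ → ℝ} (hT : CD 1 T) (hp : Per T)
    (hh : ∀ x y, T x (y + π / 2) = dy T x y) : mR (toR T) = 0 := by
  have hPD := hT.toPD hp
  have h1 := mR_fy hPD
  have cy : Continuous (fun z : ℝ × ℝ => dy T z.1 z.2) :=
    (hT.dy (by simp : (0 : WithTop ℕ∞) + 1 ≤ 1)).cont
  ext x
  have h2 := congrArg (fun r : R1 => r x) h1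
  simp only [mR_apply, ContinuousMap.zero_apply] at h2 ⊢
  have e1 : ∫ y in (0:ℝ)..(2 * π), toR T (x, y) = ∫ y in (0:ℝ)..(2 * π), T x y :=
    intervalIntegral.integral_congr fun y _ => toR_apply hT.cont (x, y)
  have e2 : ∫ y in (0:ℝ)..(2 * π), toR (dy T) (x, y) = ∫ y in (0:ℝ)..(2 * π), T x (y + π / 2) :=
    intervalIntegral.integral_congr fun y _ => by
      show toR (dy T) (x, y) = T x (y + π / 2)
      rw [toR_apply cy (x, y), hh]
  have h3 : Function.Periodic (fun y => T x y) (2 * π) := fun y => hp.2 x y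
  have h4 := h3.intervalIntegral_add_eq 0 (0 + π / 2)
  have e3 : ∫ y in (0:ℝ)..(2 * π), toR T (x, y) = ∫ y in (0:ℝ)..(2 * π), toR (dy T) (x, y) := by
    rw [e1, e2, intervalIntegral.integral_comp_add_right (fun y => T x y) (π / 2)]
    have e4 : 0 + π / 2 + 2 * π = 2 * π + π / 2 := by ring
    rw [e4] at h4
    rw [← h4]
    congr 1
    ring
  rw [e3]
  exact h2

/-- (L1) in `R` -/
lemma L1_R {b p n t c C : ℝ} {κ : ℝ → ℝ → ℝ} (hκ : Sp κ) (hc : 0 < c) (hC : 0 < C)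
    (hL : L1C b p n t c C κ)
    {g g' : R1} (hg : P1 g g') (hg0 : I1 g = 0) :
    ∃ T Tx Ty Txx Txy Tyy : R,
    PD T Tx Ty ∧ PD Tx Txx Txy ∧ PD Ty Txy Tyy ∧ mR T = 0 ∧
    Txx + (2 * p) • Txy + (p ^ 2 + n ^ 2) • Tyy - oX (toR1 (ww' b) + toR1 (ww b) * toR1 (ww b)) * T
      = oX (toR1 (vv b)) * oX g' * Pert.H1R b p t κ ∧
    SS3 T Tx Ty ≤ (3 * C + 1) * nn (oX g) ∧
    min 1 (c / (2 * π)) * nn (oX g) ^ 2
      ≤ II (toR (m1 b p t) * T * (oX (toR1 (vv b)) * oX g')) := by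
  have hdg : deriv (g : ℝ → ℝ) = g' := by funext x; exact (hg.h x).deriv
  have hcd : ContDiff ℝ 1 (g : ℝ → ℝ) := by
    rw [contDiff_one_iff_deriv]
    exact ⟨fun x => (hg.h x).differentiableAt, by rw [hdg]; exact g'.continuous⟩
  obtain ⟨T, hT2, hTp, hTh, hTe, hTb, hTc⟩ := hL g hcd hg.p hg0
  have hT1 : CD 1 T := hT2.mono (by norm_num)
  have hTx1 : CD 1 (dx T) := hT2.dx (by norm_num)
  have hTy1 : CD 1 (dy T) := hT2.dy (by norm_num)
  have P0 := hT1.toPD hTp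
  have Px := hTx1.toPD hTp.dx
  have Py := hTy1.toPD hTp.dy
  have hsym : toR (dy (dx T)) = toR (dx (dy T)) := PD.symm P0 Px Py
  have c0 : ∀ {f : ℝ → ℝ → ℝ}, CD 1 f → Continuous (fun z : ℝ × ℝ => dx f z.1 z.2) :=
    fun hf => (hf.dx (by simp : (0 : WithTop ℕ∞) + 1 ≤ 1)).cont
  have c1 : ∀ {f : ℝ → ℝ → ℝ}, CD 1 f → Continuous (fun z : ℝ × ℝ => dy f z.1 z.2) :=
    fun hf => (hf.dy (by simp : (0 : WithTop ℕ∞) + 1 ≤ 1)).cont
  have hsympt : ∀ x y, dy (dx T) x y = dx (dy T) x y := by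
    intro x y
    have h1 := congrArg (fun r : R => r (x, y)) hsym
    simpa only [toR_apply (c1 hTx1), toR_apply (c0 hTy1)] using h1
  -- norms
  have hg2 : nn (oX g) ^ 2 = 2 * π * ∫ x in (0 : ℝ)..(2 * π), g x ^ 2 := by
    rw [nn_sq, ← oX_mul, II_oX]
    unfold I1
    congr 1
    refine intervalIntegral.integral_congr fun x _ => ?_
    simp only [ContinuousMap.mul_apply]; ring
  have hgn : 0 ≤ ∫ x in (0 : ℝ)..(2 * π), g x ^ 2 :=
    intervalIntegral.integral_nonneg (by positivity) (fun x _ => sq_nonneg _)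
  have hpi3 : 3 < π := Real.pi_gt_three
  have hTn : nn (toR T) ^ 2 + nn (toR (dx T)) ^ 2 + nn (toR (dy T)) ^ 2
      = ∫ x in (0 : ℝ)..(2 * π), ∫ y in (0 : ℝ)..(2 * π),
          (T x y ^ 2 + dx T x y ^ 2 + dy T x y ^ 2) := by
    rw [nn_sq, nn_sq, nn_sq, ← map_add, ← map_add, II_def]
    refine intervalIntegral.integral_congr fun x _ => intervalIntegral.integral_congr fun y _ => ?_
    simp only [ContinuousMap.add_apply, ContinuousMap.mul_apply, toR_apply hT1.cont,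
      toR_apply (c0 hT1), toR_apply (c1 hT1)]
    ring
  refine ⟨toR T, toR (dx T), toR (dy T), toR (dx (dx T)), toR (dx (dy T)), toR (dy (dy T)),
    P0, Px.congr rfl rfl hsym, Py, mR_harm hT1 hTp hTh, ?_, ?_, ?_⟩
  · ext z
    have e := hTe z.1 z.2
    have d1 : DD p (DD p T) z.1 z.2 = dx (dx T) z.1 z.2 + p * dx (dy T) z.1 z.2
        + p * (dy (dx T) z.1 z.2 + p * dy (dy T) z.1 z.2) := by
      have a1 : dx (DD p T) z.1 z.2 = dx (dx T) z.1 z.2 + p * dx (dy T) z.1 z.2 :=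
        ((hTx1.hx z.1 z.2).add ((hTy1.hx z.1 z.2).const_mul p)).deriv
      have a2 : dy (DD p T) z.1 z.2 = dy (dx T) z.1 z.2 + p * dy (dy T) z.1 z.2 :=
        ((hTx1.hy z.1 z.2).add ((hTy1.hy z.1 z.2).const_mul p)).deriv
      show dx (DD p T) z.1 z.2 + p * dy (DD p T) z.1 z.2 = _
      rw [a1, a2]
    have s1 : Sp (fun x y => DD p (m1 b p t) x y + 2 * DD p κ x y) :=
      ((sp_m1 b p t).dx.add ((Sp.const p).mul (sp_m1 b p t).dy)).add
        ((Sp.const 2).mul (hκ.dx.add ((Sp.const p).mul hκ.dy)))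
    unfold Pert.H1R
    simp only [ContinuousMap.add_apply, ContinuousMap.sub_apply, ContinuousMap.mul_apply,
      ContinuousMap.smul_apply, smul_eq_mul, oX_apply, s1.ap, (sp1_ww b).ap, (sp1_ww' b).ap,
      (sp1_vv b).ap, toR_apply hT1.cont, toR_apply (c0 hTx1), toR_apply (c0 hTy1),
      toR_apply (c1 hTy1)]
    rw [d1, hsympt, hdg] at e
    linear_combination e
  · have hS : SS3 (toR T) (toR (dx T)) (toR (dy T)) ^ 2 ≤ ((3 * C + 1) * nn (oX g)) ^ 2 := by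
      have h1 : SS3 (toR T) (toR (dx T)) (toR (dy T)) ^ 2
          ≤ 3 * (nn (toR T) ^ 2 + nn (toR (dx T)) ^ 2 + nn (toR (dy T)) ^ 2) := by
        exact num_sq3 _ _ _
      rw [hTn] at h1
      have h2 : (∫ x in (0 : ℝ)..(2 * π), g x ^ 2) ≤ nn (oX g) ^ 2 := by
        rw [hg2]; exact le_mul_of_one_le_left hgn (by linarith)
      have h3 : C * (∫ x in (0 : ℝ)..(2 * π), g x ^ 2) ≤ C * nn (oX g) ^ 2 :=
        mul_le_mul_of_nonneg_left h2 hC.le
      have h4 : 3 * C ≤ (3 * C + 1) ^ 2 := by clear * - hC; nlinarith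
      have h5 := mul_le_mul_of_nonneg_right h4 (sq_nonneg (nn (oX g)))
      rw [mul_pow]
      linarith
    have hr : 0 ≤ (3 * C + 1) * nn (oX g) := mul_nonneg (by positivity) (nn_nonneg _)
    exact (abs_le_of_sq_le_sq' hS hr).2
  · have e1 : II (toR (m1 b p t) * toR T * (oX (toR1 (vv b)) * oX g'))
        = ∫ x in (0 : ℝ)..(2 * π), ∫ y in (0 : ℝ)..(2 * π),
          vv b x * deriv g x * m1 b p t x y * T x y := by
      rw [II_def]
      refine intervalIntegral.integral_congr fun x _ => intervalIntegral.integral_congr fun y _ => ?_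
      simp only [ContinuousMap.mul_apply, toR_apply hT1.cont, (sp_m1 b p t).ap, oX_apply,
        (sp1_vv b).ap, hdg]
      ring
    rw [e1, hg2]
    refine le_trans ?_ hTc
    have h1 : min 1 (c / (2 * π)) * (2 * π) ≤ c := by
      have : min 1 (c / (2 * π)) ≤ c / (2 * π) := min_le_right _ _
      have h2 := mul_le_mul_of_nonneg_right this (show (0:ℝ) ≤ 2 * π by positivity)
      rwa [div_mul_cancel₀ c two_pi_ne'] at h2
    have := mul_le_mul_of_nonneg_right h1 hgn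
    linarith

end Run7.h117
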