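import Mathlib
import Pool.Agent.Run7.h117.Apriori

/-!
A priori estimates: the flux.
-/

open Real MeasureTheory intervalIntegral

namespace Run7.h117

section

variable {n : ℝ} {G : Geo n} {a cc ax ay cy om omx omy B : R}
variable {N Nx Nxx mhx mhy : R} {wp χ0 χ1 χ2 : R1}

lemma mR_abs_le {F : R} {D : ℝ} (h : Bd F D) (x : ℝ) : |mR F x| ≤ D := by
  rw [mR_apply, abs_mul]
  have h2 : (0:ℝ) < 2 * π := by positivity
  have h1 : |∫ y in (0 : ℝ)..(2 * π), F (x, y)| ≤ D * |2 * π - 0| :=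
    intervalIntegral.norm_integral_le_of_norm_le_const (fun y _ =>
      (Real.norm_eq_abs _).le.trans (h x y))
  rw [sub_zero, abs_of_pos h2] at h1
  rw [abs_of_pos (inv_pos.mpr h2)]
  calc (2 * π)⁻¹ * |∫ y in (0 : ℝ)..(2 * π), F (x, y)| ≤ (2 * π)⁻¹ * (D * (2 * π)) := by gcongr
    _ = D := by field_simp

lemma P1.osc {h h' : R1} (hh : P1 h h') {D : ℝ} (hD : ∀ x, |h' x| ≤ D) (x : ℝ) :
    |h x - h 0| ≤ 7 * D := by
  have hD0 : 0 ≤ D := (abs_nonneg _).trans (hD 0)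
  obtain ⟨y, hy, hxy⟩ := Function.Periodic.exists_mem_Ico₀ (f := h) (c := 2 * π) hh.p
    (by positivity) x
  rw [hxy]
  have := Convex.norm_image_sub_le_of_norm_hasDerivWithin_le (f := h) (f' := h') (C := D)
    (s := Set.univ) (x := 0) (y := y) (fun z _ => (hh.h z).hasDerivWithinAt)
    (fun z _ => by rw [Real.norm_eq_abs]; exact hD z) convex_univ trivial trivial
  rw [Real.norm_eq_abs, Real.norm_eq_abs, sub_zero, abs_of_nonneg hy.1] at this
  have hpi : 2 * π ≤ 7 := by linarith [Real.pi_lt_d2]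
  calc |h y - h 0| ≤ D * y := this
    _ ≤ D * 7 := by
        have := hy.2
        gcongr
        linarith
    _ = 7 * D := by ring

/-- pairing `A = a - v` with a `y` derivative -/
lemma Steady.AWy (hs : Steady G a cc ax ay cy om omx omy B) {W Wx Wy : R} (hW : PD W Wx Wy) :
    II ((a - oX G.v) * Wy) = II (cc * Wx) := by
  have h1 := (hs.hA.mul hW).inty
  have h2 := (hs.hc.mul hW).intx
  rw [map_add] at h1 h2
  linarith

/-- the flux identity -/
lemma Steady.fluxid (hx : Aux G N Nx Nxx mhx mhy wp χ0 χ1 χ2) : ∃ φ ψ : R,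
    ∀ a cc ax ay cy om omx omy B : R, Steady G a cc ax ay cy om omx omy B →
      II (oX (G.w * (G.Om' * χ0) * mR (G.mh * G.mh)) * oX (Fl G a cc))
        = II (ψ * (om - oX G.Om)) + II (φ * (oX G.Om' * cc)) := by
  set z : R1 := G.w * (G.Om' * χ0) * mR (G.mh * G.mh) with hz
  -- objects
  have hT : PD (oX (G.Om' * χ0) * G.mh) _ _ := hx.hχ.toPD.mul hx.hmh
  set T := oX (G.Om' * χ0) * G.mh with hTdef
  have hW1 : PD (oX (G.Om' * χ1) * N + oX (G.Om' * χ0) * Nx) _ _ :=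
    (hx.hχ1.toPD.mul hx.hN).add (hx.hχ.toPD.mul hx.hNx)
  have hW2 : PD (G.bt * T) _ _ := G.hbt.mul hT
  have hmm : PD (G.mh * G.mh) _ _ := hx.hmh.mul hx.hmh
  have hF : PD (G.mh * G.mh - oX (mR (G.mh * G.mh))) _ _ := hmm.sub hmm.mean.toPD
  have hF0 : mR (G.mh * G.mh - oX (mR (G.mh * G.mh))) = 0 := by
    rw [mR_sub, mR_oX, sub_self]
  have hR2 := hF.prim hF0
  set Fm := G.mh * G.mh - oX (mR (G.mh * G.mh)) with hFm
  set Fmx := mhx * G.mh + G.mh * mhx - oX (mR (mhx * G.mh + G.mh * mhx)) with hFmx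
  have hW3 : PD (oX (G.w * (G.Om' * χ0)) * aR Fm) _ _ :=
    ((hx.hw.mul hx.hχ).toPD).mul hR2
  refine ⟨(oX χ2 * N + oX χ1 * Nx + (oX χ1 * Nx + oX χ0 * Nxx))
      + (G.btx * (oX χ0 * G.mh) + G.bt * (oX χ1 * G.mh + oX χ0 * mhx))
      - ((oX (wp * χ0 + G.w * χ1)) * aR Fm + oX (G.w * χ0) * aR Fmx)
      + G.bt * ((oX χ1 * G.mh + oX χ0 * mhx) + G.bt * (oX χ0 * mhy))
      + (n ^ 2) • (oX χ0 * mhy)
      + oX (G.w * χ0 * mR (G.mh * G.mh)) * G.bt, T * G.mu, ?_⟩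
  intro a cc ax ay cy om omx omy B hs
  have i1 := hs.AWy hW1
  have i2 := hs.AWy hW2
  have i3 := hs.AWy hW3
  have i4 := Geo.ibpD (G := G) hs.hA hs.hc hT
  rw [hs.DfA] at i4
  have i5 : II (oX z * oX (Fl G a cc)) = II (oX z * (a - oX G.v + G.bt * cc)) := by
    rw [II_oX_mul z (a - oX G.v + G.bt * cc), ← oX_mul]
    rfl
  rw [i5]
  have e1 : II (T * G.mu * (om - oX G.Om)) = II (T * (G.mu * (om - oX G.Om))) := by
    congr 1; ring
  rw [e1, i4]
  set A := a - oX G.v with hA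
  have key : oX z * (A + G.bt * cc)
      = - ((A + G.bt * cc) * (oX (G.Om' * χ1) * G.mh + oX (G.Om' * χ0) * mhx
            + G.bt * (0 * G.mh + oX (G.Om' * χ0) * mhy))
          + (n ^ 2) • (cc * (0 * G.mh + oX (G.Om' * χ0) * mhy)))
        + ((oX χ2 * N + oX χ1 * Nx + (oX χ1 * Nx + oX χ0 * Nxx))
      + (G.btx * (oX χ0 * G.mh) + G.bt * (oX χ1 * G.mh + oX χ0 * mhx))
      - ((oX (wp * χ0 + G.w * χ1)) * aR Fm + oX (G.w * χ0) * aR Fmx)
      + G.bt * ((oX χ1 * G.mh + oX χ0 * mhx) + G.bt * (oX χ0 * mhy))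
      + (n ^ 2) • (oX χ0 * mhy)
      + oX (G.w * χ0 * mR (G.mh * G.mh)) * G.bt) * (oX G.Om' * cc)
        + (A * (0 * N + oX (G.Om' * χ1) * G.mh + (0 * Nx + oX (G.Om' * χ0) * mhx))
          - cc * (oX (G.Om' * χ2) * N + oX (G.Om' * χ1) * Nx
            + (oX (G.Om' * χ1) * Nx + oX (G.Om' * χ0) * Nxx)))
        + (A * (oX G.w * G.mh * T + G.bt * (0 * G.mh + oX (G.Om' * χ0) * mhy))
          - cc * (G.btx * T + G.bt * (oX (G.Om' * χ1) * G.mh + oX (G.Om' * χ0) * mhx)))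
        - (A * (0 * aR Fm + oX (G.w * (G.Om' * χ0)) * Fm)
          - cc * (oX (wp * (G.Om' * χ0) + G.w * (G.Om' * χ1)) * aR Fm
            + oX (G.w * (G.Om' * χ0)) * aR Fmx)) := by
    rw [hz, hTdef]
    ext ⟨x, y⟩
    simp only [hFm, ContinuousMap.mul_apply, ContinuousMap.add_apply, ContinuousMap.neg_apply,
      ContinuousMap.sub_apply, ContinuousMap.smul_apply, smul_eq_mul, oX_apply,
      ContinuousMap.zero_apply]
    ring
  rw [key]
  simp only [map_add II, map_sub II, map_neg II] at i1 i2 i3 ⊢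
  linarith

end

end Run7.h117
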