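import Mathlib
import Pool.Agent.Run7.h117.Apriori2

/-!
A priori estimates: potential, Poincare inequality, energy identity.
-/

open Real MeasureTheory intervalIntegral

namespace Run7.h117

lemma II_const (r : ℝ) : II (ContinuousMap.const _ r) = (2 * π) ^ 2 * r := by
  rw [II_def]
  simp
  ring

lemma nn_const (r : ℝ) : nn (ContinuousMap.const _ r) = 2 * π * |r| := by
  have e : (ContinuousMap.const _ r : R) = r • (1 : R) := by ext z; simp
  rw [e, nn_smul, nn_one]; ring

/-- primitive in one variable -/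
noncomputable def pr (f : R1) : R1 :=
  ⟨fun x => ∫ s in (0 : ℝ)..x, f s, intervalIntegral.continuous_primitive
    (fun a b => f.continuous.intervalIntegrable a b) 0⟩

lemma pr_P1 {f : R1} (hp : ∀ x, f (x + 2 * π) = f x) (h0 : I1 f = 0) : P1 (pr f) f where
  h x := intervalIntegral.integral_hasDerivAt_right (f.continuous.intervalIntegrable _ _)
      (f.continuous.stronglyMeasurableAtFilter _ _) f.continuous.continuousAt
  p x := by
    show ∫ s in (0 : ℝ)..(x + 2 * π), f s = ∫ s in (0 : ℝ)..x, f s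
    have h1 : ∫ s in x..(x + 2 * π), f s = ∫ s in (0:ℝ)..(0 + 2 * π), f s :=
      Function.Periodic.intervalIntegral_add_eq hp x 0
    have h3 := intervalIntegral.integral_add_adjacent_intervals
      (f.continuous.intervalIntegrable (μ := volume) 0 x)
      (f.continuous.intervalIntegrable (μ := volume) x (x + 2 * π))
    rw [← h3, h1, zero_add]
    have : ∫ s in (0:ℝ)..(2 * π), f s = 0 := h0
    rw [this, add_zero]

lemma I1_sub_const (f : R1) (r : ℝ) :
    I1 (f - ContinuousMap.const _ r) = I1 f - 2 * π * r := by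
  unfold I1
  simp only [ContinuousMap.sub_apply, ContinuousMap.const_apply]
  rw [intervalIntegral.integral_sub (f.continuous.intervalIntegrable _ _)
    intervalIntegrable_const, intervalIntegral.integral_const]
  simp

/-- one dimensional Poincare inequality -/
lemma poincare1 {h h' : R1} (hh : P1 h h') (h0 : I1 h = 0) :
    nn (oX h) ≤ 4 * π * nn (oX h') := by
  let oY : R1 → R := fun f => f.comp ⟨Prod.snd, continuous_snd⟩
  have hoY : ∀ f : R1, nn (oY f) = nn (oX f) := by
    intro f
    unfold nn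
    congr 1
    rw [II_def, II_def]
    simp only [ContinuousMap.mul_apply, oX_apply]
    rw [intervalIntegral.integral_congr (g := fun x : ℝ => 2 * π * (f x * f x))
      (f := fun x : ℝ => ∫ y in (0:ℝ)..(2 * π), f (x, y).1 * f (x, y).1)]
    · show ∫ x in (0:ℝ)..(2 * π), ∫ y in (0:ℝ)..(2 * π), f y * f y = _
      rw [intervalIntegral.integral_const, intervalIntegral.integral_const_mul]
      simp
    · intro x _
      simp
      ring
  have hPD : PD (oY h) 0 (oY h') :=
    ⟨fun x y => by simpa [oY] using hasDerivAt_const x (h y), fun x y => hh.h y,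
      fun x y => rfl, fun x y => hh.p y⟩
  have h1 := poincareY hPD
  have h2 : mR (oY h) = 0 := by
    ext x
    rw [mR_apply]
    have : ∫ y in (0:ℝ)..(2 * π), oY h (x, y) = 0 := h0
    rw [this]; simp
  rw [h2, oX_zero, sub_zero, hoY, hoY] at h1
  exact h1

lemma poincare2 {f fx fy : R} (hf : PD f fx fy) (h0 : II f = 0) :
    nn f ≤ 4 * π * (nn fx + nn fy) := by
  have h1 := poincareY hf
  have h2 : I1 (mR f) = 0 := by
    rw [II_eq_mR] at h0
    exact (mul_eq_zero.mp h0).resolve_left two_pi_ne'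
  have h3 := poincare1 hf.mean h2
  have h4 := nn_mR_le fx
  have h5 : nn f ≤ nn (f - oX (mR f)) + nn (oX (mR f)) := by
    have := nn_add_le (f - oX (mR f)) (oX (mR f))
    rwa [sub_add_cancel] at this
  have hpi : 0 < 4 * π := by positivity
  nlinarith

section

variable {n : ℝ} {G : Geo n} {a cc ax ay cy om omx omy B : R}

/-- potential of the perturbation -/
lemma Steady.pot (hs : Steady G a cc ax ay cy om omx omy B) :
    ∃ (Ψ : R) (β₁ β₂ : ℝ), PD Ψ (a - oX G.v - ContinuousMap.const _ β₁)
      (cc - ContinuousMap.const _ β₂) ∧ II Ψ = 0 ∧ mR cc = ContinuousMap.const _ β₂ := by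
  obtain ⟨β₂, hβ₂⟩ := hs.meanc
  set A := a - oX G.v with hA
  set β₁ := (2 * π)⁻¹ * I1 (r0 A) with hβ₁
  have hAPD : PD A (ax - oX G.w * oX G.v) ay := hs.hA
  have h1 : PD (cc - ContinuousMap.const _ β₂) (ay - 0) (cy - 0) := hs.hc.sub (PD.const β₂)
  rw [sub_zero, sub_zero] at h1
  have h2 : mR (cc - ContinuousMap.const _ β₂) = 0 := by
    rw [mR_sub, hβ₂]
    have : mR (ContinuousMap.const _ β₂ : R) = ContinuousMap.const _ β₂ := by
      have h0 : (ContinuousMap.const _ β₂ : R) = oX (ContinuousMap.const _ β₂) := rfl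
      rw [h0, mR_oX]
    rw [this, sub_self]
  have h3 := h1.prim h2
  have h4 : P1 (pr (r0 A - ContinuousMap.const _ β₁)) (r0 A - ContinuousMap.const _ β₁) := by
    apply pr_P1
    · intro x
      simp [hAPD.px]
    · rw [I1_sub_const, hβ₁]
      field_simp
      ring
  have h5 := h4.toPD.add h3
  set Ψ₀ := oX (pr (r0 A - ContinuousMap.const _ β₁)) + aR (cc - ContinuousMap.const _ β₂)
  refine ⟨Ψ₀ - ContinuousMap.const _ ((2 * π)⁻¹ ^ 2 * II Ψ₀), β₁, β₂, ?_, ?_, hβ₂⟩
  · refine (h5.sub (PD.const _)).congr rfl ?_ ?_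
    · have := prim_eq hAPD
      rw [sub_zero]
      conv_rhs => rw [this]
      ext z
      simp
      ring
    · simp
  · rw [map_sub, II_const]
    field_simp
    ring

/-- the energy identity -/
lemma Steady.energy (hs : Steady G a cc ax ay cy om omx omy B) {Ψ : R} {β₁ β₂ : ℝ}
    (hΨ : PD Ψ (a - oX G.v - ContinuousMap.const _ β₁) (cc - ContinuousMap.const _ β₂)) :
    II ((a - oX G.v + G.bt * cc) * (a - oX G.v + G.bt * cc)) + n ^ 2 * II (cc * cc)
      = β₁ * II (a - oX G.v + G.bt * cc)
        + β₂ * II (G.bt * (a - oX G.v + G.bt * cc) + (n ^ 2) • cc)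
        - II (Ψ * (G.mu * (om - oX G.Om))) := by
  have h1 := Geo.ibpD (G := G) hs.hA hs.hc hΨ
  rw [hs.DfA] at h1
  rw [h1]
  have e : (a - oX G.v + G.bt * cc) * (a - oX G.v + G.bt * cc) + (n ^ 2) • (cc * cc)
      = β₁ • (a - oX G.v + G.bt * cc)
        + β₂ • (G.bt * (a - oX G.v + G.bt * cc) + (n ^ 2) • cc)
        + ((a - oX G.v + G.bt * cc) * (a - oX G.v - ContinuousMap.const _ β₁
            + G.bt * (cc - ContinuousMap.const _ β₂))
          + (n ^ 2) • (cc * (cc - ContinuousMap.const _ β₂))) := by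
    ext z; simp; ring
  have := congrArg II e
  rw [map_add II (_ + _) (_ + _), map_add II (β₁ • _) (β₂ • _), map_smul, map_smul, smul_eq_mul,
    smul_eq_mul, map_add II (_ * _) ((n ^ 2) • (cc * cc)), map_smul, smul_eq_mul] at this
  linarith

end

end Run7.h117
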