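import Mathlib
import Pool.Agent.Run7.h117.Apriori3

/-!
A priori estimates: conclusion.
-/

open Real MeasureTheory intervalIntegral

namespace Run7.h117

section

variable {n K : ℝ} {G : Geo n}
variable {N Nx Nxx mhx mhy : R} {wp χ0 χ1 χ2 : R1}
variable {a cc ax ay cy om omx omy B : R} {δ : ℝ}

lemma Bd.nn1 {c : R} {a : ℝ} (h : Bd c a) : Run7.h117.nn c ≤ 7 * a := by
  have h1 := Bd.nn h 1
  rw [mul_one] at h1
  have h2 := nn_one_le
  have h3 := h.nonneg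
  calc Run7.h117.nn c ≤ a * Run7.h117.nn 1 := h1
    _ ≤ a * 7 := by gcongr
    _ = 7 * a := by ring

/-- reals: bounding with `X+1` -/
lemma r_aux1 {δ X : ℝ} (hδ : 0 ≤ δ) (hX : 0 ≤ X) {c : ℝ} (hc : 0 ≤ c) :
    c * δ ≤ c * (δ * (X + 1)) := by
  have : δ ≤ δ * (X + 1) := by nlinarith
  exact mul_le_mul_of_nonneg_left this hc

lemma r_aux2 {δ X V : ℝ} (hδ : 0 ≤ δ) (hX : 0 ≤ X) (hV : 0 ≤ V) :
    δ * (X + V) ≤ (1 + V) * (δ * (X + 1)) := by
  have : X + V ≤ (1 + V) * (X + 1) := by nlinarith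
  have := mul_le_mul_of_nonneg_left this hδ
  linarith

lemma osc_Fl (hs : Steady G a cc ax ay cy om omx omy B) (bmu : Bd G.mu K)
    (b1 : Bd (om - oX G.Om) δ) (x : ℝ) :
    |Fl G a cc x - Fl G a cc 0| ≤ 7 * (K * δ) :=
  hs.flux.osc (fun x => mR_abs_le (bmu.mul b1) x) x

/-- the flux at `0` is small -/
lemma flux_zero (z : R1) (φ ψ : R) (hz0 : 0 < II (oX z)) (hK : 1 ≤ K)
    (hs : Steady G a cc ax ay cy om omx omy B) (bmu : Bd G.mu K)
    (hid1 : II (oX z * oX (Fl G a cc)) = II (ψ * (om - oX G.Om)) + II (φ * (oX G.Om' * cc)))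
    (hδ : 0 ≤ δ) (b1 : Bd (om - oX G.Om) δ)
    (b2 : Bd (omx - oX G.Om') δ) (b3 : Bd omy δ) :
    |Fl G a cc 0| ≤ (7 * nn ψ + nn φ * (1 + nn (oX G.v)) + 49 * K * nn (oX z)) / II (oX z)
      * (δ * (nn (a - oX G.v) + nn cc + 1)) := by
  have hosc := osc_Fl hs bmu b1
  have hsm := hs.small b2 b3
  have nA := nn_nonneg (a - oX G.v)
  have nc := nn_nonneg cc
  have hV0 := nn_nonneg (oX G.v)
  have hφ0 := nn_nonneg φ
  have hψ0 := nn_nonneg ψ
  have hzz := nn_nonneg (oX z)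
  have hX0 : 0 ≤ nn (a - oX G.v) + nn cc := add_nonneg nA nc
  have t1 : |II (ψ * (om - oX G.Om))| ≤ 7 * nn ψ * δ := by
    refine (II_le_nn _ _).trans ?_
    have := mul_le_mul_of_nonneg_left b1.nn1 hψ0
    linarith
  have t2 : |II (φ * (oX G.Om' * cc))| ≤ nn φ * (δ * (nn (a - oX G.v) + nn cc + nn (oX G.v))) :=
    (II_le_nn _ _).trans (mul_le_mul_of_nonneg_left hsm hφ0)
  have t3 : |II (oX z * (oX (Fl G a cc) - ContinuousMap.const _ (Fl G a cc 0)))|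
        ≤ 49 * K * nn (oX z) * δ := by
    refine (II_le_nn _ _).trans ?_
    have h1 : Bd (oX (Fl G a cc) - ContinuousMap.const _ (Fl G a cc 0)) (7 * (K * δ)) :=
      fun x y => hosc x
    have := mul_le_mul_of_nonneg_left h1.nn1 hzz
    linarith
  have t4 : II (oX z) * Fl G a cc 0 = II (oX z * oX (Fl G a cc))
      - II (oX z * (oX (Fl G a cc) - ContinuousMap.const _ (Fl G a cc 0))) := by
    rw [← map_sub]
    have : oX z * oX (Fl G a cc) - oX z * (oX (Fl G a cc) - ContinuousMap.const _ (Fl G a cc 0))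
        = (Fl G a cc 0) • oX z := by ext y; simp; ring
    rw [this, map_smul, smul_eq_mul, mul_comm]
  rw [hid1] at t4
  have t5 : II (oX z) * |Fl G a cc 0| = |II (oX z) * Fl G a cc 0| := by
    rw [abs_mul, abs_of_pos hz0]
  have t6 : |II (oX z) * Fl G a cc 0| ≤ 7 * nn ψ * δ
      + nn φ * (δ * (nn (a - oX G.v) + nn cc + nn (oX G.v))) + 49 * K * nn (oX z) * δ := by
    rw [t4]
    refine (abs_sub _ _).trans (add_le_add ((abs_add_le _ _).trans (add_le_add t1 t2)) t3)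
  rw [div_mul_eq_mul_div, le_div_iff₀ hz0, mul_comm, t5]
  refine t6.trans ?_
  have r1 := r_aux1 hδ hX0 (c := 7 * nn ψ) (by positivity)
  have r2 := r_aux1 hδ hX0 (c := 49 * K * nn (oX z)) (by positivity)
  have r3 := mul_le_mul_of_nonneg_left (r_aux2 hδ hX0 hV0) hφ0
  linarith

/-- the flux -/
lemma II_E_le {C1 : ℝ} (hK : 1 ≤ K) (hC1 : 0 ≤ C1)
    (hs : Steady G a cc ax ay cy om omx omy B) (bmu : Bd G.mu K)
    (hδ : 0 ≤ δ) (b1 : Bd (om - oX G.Om) δ)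
    (h0 : |Fl G a cc 0| ≤ C1 * (δ * (nn (a - oX G.v) + nn cc + 1))) :
    |II (a - oX G.v + G.bt * cc)| ≤ 49 * (C1 + 7 * K) * (δ * (nn (a - oX G.v) + nn cc + 1)) := by
  have hosc := osc_Fl hs bmu b1
  have nA := nn_nonneg (a - oX G.v)
  have nc := nn_nonneg cc
  have hX0 : 0 ≤ nn (a - oX G.v) + nn cc := add_nonneg nA nc
  have e : II (a - oX G.v + G.bt * cc) = II (oX (Fl G a cc) * 1 * 1) := by
    rw [mul_one, mul_one, II_oX, II_eq_mR]
    rfl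
  have b4 : Bd (oX (Fl G a cc)) (|Fl G a cc 0| + 7 * (K * δ)) := fun x y => by
    have h1 := hosc x
    have : oX (Fl G a cc) (x, y) = Fl G a cc 0 + (Fl G a cc x - Fl G a cc 0) := by simp
    rw [this]
    exact (abs_add_le _ _).trans (add_le_add le_rfl h1)
  rw [e]
  refine (b4.II 1 1).trans ?_
  have n1 := nn_one_le
  have n10 := nn_nonneg (1 : R)
  have h3 := abs_nonneg (Fl G a cc 0)
  have h5 : (|Fl G a cc 0| + 7 * (K * δ)) * nn (1 : R) * nn (1 : R)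
      ≤ (|Fl G a cc 0| + 7 * (K * δ)) * 7 * 7 := by gcongr
  have r1 := r_aux1 hδ hX0 (c := K) (by linarith)
  linarith

lemma beta2_le (hO : 0 < II (oX (G.Om' * G.Om')))
    (hs : Steady G a cc ax ay cy om omx omy B) {β₂ : ℝ}
    (hβ : mR cc = ContinuousMap.const _ β₂)
    (hδ : 0 ≤ δ) (b2 : Bd (omx - oX G.Om') δ) (b3 : Bd omy δ) :
    |β₂| ≤ nn (oX G.Om') * (1 + nn (oX G.v)) / II (oX (G.Om' * G.Om'))
      * (δ * (nn (a - oX G.v) + nn cc + 1)) := by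
  have hsm := hs.small b2 b3
  have nA := nn_nonneg (a - oX G.v)
  have nc := nn_nonneg cc
  have hV0 := nn_nonneg (oX G.v)
  have hOm0 := nn_nonneg (oX G.Om')
  have hX0 : 0 ≤ nn (a - oX G.v) + nn cc := add_nonneg nA nc
  have h1 : II (oX (G.Om' * G.Om') * cc) = β₂ * II (oX (G.Om' * G.Om')) := by
    rw [II_oX_mul, hβ]
    have : oX (G.Om' * G.Om' * ContinuousMap.const ℝ β₂) = β₂ • oX (G.Om' * G.Om') := by
      ext y; simp; ring
    rw [this, map_smul, smul_eq_mul]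
  have h2 : II (oX (G.Om' * G.Om') * cc) = II (oX G.Om' * (oX G.Om' * cc)) := by
    congr 1; rw [oX_mul]; ring
  have h3 := II_le_nn (oX G.Om') (oX G.Om' * cc)
  rw [← h2, h1, abs_mul, abs_of_pos hO] at h3
  rw [div_mul_eq_mul_div, le_div_iff₀ hO]
  refine h3.trans ?_
  have r3 := mul_le_mul_of_nonneg_left (hsm.trans (r_aux2 hδ hX0 hV0)) hOm0
  linarith

lemma const_le {F : R} {r : ℝ} (h : II (F - ContinuousMap.const _ r) = 0) : |r| ≤ nn F := by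
  have hpi3 : 3 < π := Real.pi_gt_three
  have hpisq : (36 : ℝ) ≤ (2 * π) ^ 2 := by nlinarith
  rw [map_sub, II_const] at h
  have h2 := II_le_nn F 1
  rw [mul_one] at h2
  have h3 : (2 * π) ^ 2 * |r| ≤ nn F * nn (1 : R) := by
    have e : (2 * π) ^ 2 * |r| = |(2 * π) ^ 2 * r| := by
      rw [abs_mul, abs_of_pos (show (0:ℝ) < (2 * π) ^ 2 by positivity)]
    have e2 : (2 * π) ^ 2 * r = II F := by linarith
    rw [e, e2]; exact h2
  have h4 : nn F * nn (1 : R) ≤ nn F * 7 := mul_le_mul_of_nonneg_left nn_one_le (nn_nonneg _)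
  have h5 := abs_nonneg r
  have h6 := nn_nonneg F
  have h7 : 36 * |r| ≤ (2 * π) ^ 2 * |r| := mul_le_mul_of_nonneg_right hpisq h5
  linarith

lemma third_le (hK : 1 ≤ K) (hn : 0 < n) (hn1 : n ≤ 1) (bbt : Bd G.bt K) (A c : R) :
    |II (G.bt * (A + G.bt * c) + (n ^ 2) • c)| ≤ 14 * K ^ 2 * (nn A + nn c) := by
  rw [map_add II, map_smul, smul_eq_mul]
  refine (abs_add_le _ _).trans ?_
  have hnE : nn (A + G.bt * c) ≤ nn A + K * nn c :=
    (nn_add_le _ _).trans (add_le_add le_rfl (bbt.nn c))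
  have n1 := nn_one_le
  have n10 := nn_nonneg (1 : R)
  have nA := nn_nonneg A
  have nc := nn_nonneg c
  have h6 := bbt.II (A + G.bt * c) 1
  rw [mul_one] at h6
  have h7 := II_le_nn c 1
  rw [mul_one] at h7
  have hn2 : n ^ 2 ≤ 1 := by nlinarith
  have h8 : |n ^ 2 * II c| ≤ 1 * |II c| := by
    rw [abs_mul, abs_of_nonneg (sq_nonneg n)]
    exact mul_le_mul_of_nonneg_right hn2 (abs_nonneg _)
  have h9 : K * nn (A + G.bt * c) * nn (1 : R) ≤ K * (nn A + K * nn c) * 7 := by gcongr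
  have h10 : nn c * nn (1 : R) ≤ nn c * 7 := mul_le_mul_of_nonneg_left n1 nc
  have hKK : K ≤ K ^ 2 := by nlinarith
  have h11 : K * nn A ≤ K ^ 2 * nn A := mul_le_mul_of_nonneg_right hKK nA
  have hK2 : 1 ≤ K ^ 2 := by nlinarith
  have h12 : 1 * nn c ≤ K ^ 2 * nn c := mul_le_mul_of_nonneg_right hK2 nc
  have h13 : 0 ≤ K ^ 2 * nn A := by positivity
  linarith

lemma psi_le (hK : 1 ≤ K) (bmu : Bd G.mu K) {Ψ A c : R} {β₁ β₂ : ℝ}
    (hΨ : PD Ψ (A - ContinuousMap.const _ β₁) (c - ContinuousMap.const _ β₂)) (hΨ0 : II Ψ = 0)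
    (hβ1 : |β₁| ≤ nn A) (hβ2 : |β₂| ≤ nn c) (b1 : Bd (om - oX G.Om) δ) :
    |II (Ψ * (G.mu * (om - oX G.Om)))| ≤ 728 * K * δ * (nn A + nn c) := by
  refine (II_le_nn _ _).trans ?_
  have h7 := poincare2 hΨ hΨ0
  have h8 := nn_sub_le A (ContinuousMap.const _ β₁)
  have h9 := nn_sub_le c (ContinuousMap.const _ β₂)
  rw [nn_const] at h8 h9
  have h10 := (bmu.mul b1).nn1
  have hpi4 : 2 * π ≤ 7 := by linarith [Real.pi_lt_d2]
  have nA := nn_nonneg A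
  have nc := nn_nonneg c
  have h11a : 2 * π * |β₁| ≤ 7 * nn A := mul_le_mul hpi4 hβ1 (abs_nonneg _) (by norm_num)
  have h12a : 2 * π * |β₂| ≤ 7 * nn c := mul_le_mul hpi4 hβ2 (abs_nonneg _) (by norm_num)
  have h13 : nn Ψ ≤ 104 * (nn A + nn c) := by
    have h14 : nn (A - ContinuousMap.const _ β₁) + nn (c - ContinuousMap.const _ β₂)
        ≤ 8 * (nn A + nn c) := by linarith
    have h15 : 4 * π ≤ 13 := by linarith [Real.pi_lt_d2]
    have h16 : 4 * π * (nn (A - ContinuousMap.const _ β₁) + nn (c - ContinuousMap.const _ β₂))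
        ≤ 13 * (8 * (nn A + nn c)) :=
      mul_le_mul h15 h14 (add_nonneg (nn_nonneg _) (nn_nonneg _)) (by norm_num)
    linarith
  calc nn Ψ * nn (G.mu * (om - oX G.Om)) ≤ (104 * (nn A + nn c)) * (7 * (K * δ)) :=
        mul_le_mul h13 h10 (nn_nonneg _) (by positivity)
    _ = _ := by ring

lemma X_le (hK : 1 ≤ K) (hn : 0 < n) (hn1 : n ≤ 1) (bbt : Bd G.bt K) (A c : R) :
    (nn A + nn c) ^ 2 ≤ 8 * K ^ 2 / n ^ 2 * (nn (A + G.bt * c) ^ 2 + n ^ 2 * nn c ^ 2) := by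
  have nA := nn_nonneg A
  have nc := nn_nonneg c
  have nE := nn_nonneg (A + G.bt * c)
  have hXle : nn A + nn c ≤ nn (A + G.bt * c) + 2 * K * nn c := by
    have e : A = (A + G.bt * c) - G.bt * c := by ring
    have h7 := nn_sub_le (A + G.bt * c) (G.bt * c)
    rw [← e] at h7
    have h8 := bbt.nn c
    have h9 : 1 * nn c ≤ K * nn c := mul_le_mul_of_nonneg_right hK nc
    linarith
  generalize nn (A + G.bt * c) = e at *
  generalize nn A = x at *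
  generalize nn c = y at *
  have h7 : (x + y) ^ 2 ≤ (e + 2 * K * y) ^ 2 := by gcongr
  have h8 : (e + 2 * K * y) ^ 2 ≤ 2 * e ^ 2 + 8 * K ^ 2 * y ^ 2 := by
    nlinarith [sq_nonneg (e - 2 * K * y)]
  have h9 : 8 * K ^ 2 / n ^ 2 * (e ^ 2 + n ^ 2 * y ^ 2)
      = 8 * K ^ 2 / n ^ 2 * e ^ 2 + 8 * K ^ 2 * y ^ 2 := by
    field_simp
  have h10 : 2 ≤ 8 * K ^ 2 / n ^ 2 := by
    rw [le_div_iff₀ (by positivity)]
    have : n ^ 2 ≤ 1 := by nlinarith
    have : 1 ≤ K ^ 2 := by nlinarith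
    linarith
  have h11 := mul_le_mul_of_nonneg_right h10 (sq_nonneg e)
  linarith

lemma r_fin {X C δ : ℝ} (hX : 0 ≤ X) (hC : 0 < C) (hδ : 0 ≤ δ)
    (h : X ^ 2 ≤ C * (δ * (X + 1)) * X) (hCδ : C * δ ≤ 1 / 2) : X ≤ 2 * C * δ := by
  rcases eq_or_lt_of_le hX with h0 | h0
  · rw [← h0]; positivity
  · have h7 : X * X ≤ C * (δ * (X + 1)) * X := by nlinarith
    have h8 : X ≤ C * (δ * (X + 1)) := le_of_mul_le_mul_right h7 h0
    have h9 : (C * δ) * X ≤ 1 / 2 * X := mul_le_mul_of_nonneg_right hCδ hX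
    linarith

lemma r_sum {X δ K C2 C3 b1 b2 e1 e2 e3 : ℝ} (hX : 0 ≤ X) (hδ : 0 ≤ δ) (hK : 1 ≤ K)
    (hC3 : 0 ≤ C3)
    (h1 : |b1| ≤ X) (h2 : |e1| ≤ C2 * (δ * (X + 1))) (h3 : |b2| ≤ C3 * (δ * (X + 1)))
    (h4 : |e2| ≤ 14 * K ^ 2 * X) (h5 : |e3| ≤ 728 * K * δ * X) :
    b1 * e1 + b2 * e2 - e3 ≤ (C2 + 14 * K ^ 2 * C3 + 728 * K) * (δ * (X + 1)) * X := by
  have k1 : b1 * e1 ≤ X * (C2 * (δ * (X + 1))) := by
    refine (le_abs_self _).trans ?_
    rw [abs_mul]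
    exact mul_le_mul h1 h2 (abs_nonneg _) hX
  have k2 : b2 * e2 ≤ C3 * (δ * (X + 1)) * (14 * K ^ 2 * X) := by
    refine (le_abs_self _).trans ?_
    rw [abs_mul]
    exact mul_le_mul h3 h4 (abs_nonneg _) (by positivity)
  have k3 : - e3 ≤ 728 * K * (δ * (X + 1)) * X := by
    refine (neg_le_abs _).trans (h5.trans ?_)
    have := r_aux1 hδ hX (c := 728 * K * X) (by positivity)
    linarith
  linarith

theorem apriori (hK : 1 ≤ K) (bmu : Bd G.mu K) (bbt : Bd G.bt K) (hn : 0 < n) (hn1 : n ≤ 1)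
    (hx : Aux G N Nx Nxx mhx mhy wp χ0 χ1 χ2) :
    ∃ C : ℝ, 0 < C ∧ ∀ (a cc ax ay cy om omx omy B : R) (δ : ℝ),
      Steady G a cc ax ay cy om omx omy B → 0 ≤ δ → Bd (om - oX G.Om) δ →
      Bd (omx - oX G.Om') δ → Bd omy δ → C * δ ≤ 1 / 2 →
      nn (a - oX G.v) + nn cc ≤ 2 * C * δ := by
  obtain ⟨φ, ψ, hid⟩ := Steady.fluxid hx
  have hz0 := hx.pos1
  have hO := hx.pos2
  generalize G.w * (G.Om' * χ0) * mR (G.mh * G.mh) = z at hid hz0
  obtain ⟨C1, hC1, hC1'⟩ : ∃ C1, C1 = (7 * nn ψ + nn φ * (1 + nn (oX G.v))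
    + 49 * K * nn (oX z)) / II (oX z) ∧ 0 ≤ C1 := ⟨_, rfl, by
      have := nn_nonneg φ; have := nn_nonneg ψ; have := nn_nonneg (oX z)
      have := nn_nonneg (oX G.v); positivity⟩
  obtain ⟨C3, hC3, hC3'⟩ : ∃ C3, C3 = nn (oX G.Om') * (1 + nn (oX G.v))
    / II (oX (G.Om' * G.Om')) ∧ 0 ≤ C3 := ⟨_, rfl, by
      have := nn_nonneg (oX G.Om'); have := nn_nonneg (oX G.v); positivity⟩
  have hC4' : 0 < 49 * (C1 + 7 * K) + 14 * K ^ 2 * C3 + 728 * K := by positivity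
  refine ⟨8 * K ^ 2 / n ^ 2 * (49 * (C1 + 7 * K) + 14 * K ^ 2 * C3 + 728 * K), by positivity, ?_⟩
  intro a cc ax ay cy om omx omy B δ hs hδ b1 b2 b3 hCδ
  have hid1 := hid a cc ax ay cy om omx omy B hs
  obtain ⟨Ψ, β₁, β₂, hΨ, hΨ0, hβ⟩ := hs.pot
  have hen := hs.energy hΨ
  have f0 := flux_zero z φ ψ hz0 hK hs bmu hid1 hδ b1 b2 b3
  rw [← hC1] at f0
  have f1 := II_E_le hK hC1' hs bmu hδ b1 f0
  have f2 := beta2_le hO hs hβ hδ b2 b3
  rw [← hC3] at f2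
  have f3 := const_le hΨ.intx
  have f4 := const_le hΨ.inty
  have f5 := third_le (G := G) hK hn hn1 bbt (a - oX G.v) cc
  have f6 := psi_le hK bmu hΨ hΨ0 f3 f4 b1
  have f7 := X_le (G := G) hK hn hn1 bbt (a - oX G.v) cc
  have nA := nn_nonneg (a - oX G.v)
  have nc := nn_nonneg cc
  have hX0 : 0 ≤ nn (a - oX G.v) + nn cc := add_nonneg nA nc
  have f8 : |β₁| ≤ nn (a - oX G.v) + nn cc := f3.trans (by linarith)
  have f9 := r_sum hX0 hδ hK hC3' f8 f1 f2 f5 f6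
  rw [nn_sq, nn_sq, hen] at f7
  have h7 : 0 ≤ 8 * K ^ 2 / n ^ 2 := by positivity
  have h8 := mul_le_mul_of_nonneg_left f9 h7
  refine r_fin hX0 (by positivity) hδ ?_ hCδ
  refine f7.trans (h8.trans (le_of_eq ?_))
  ring

end

end Run7.h117
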