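import Mathlib
import Pool.Agent.Run7.h117.Energy2
import Pool.Agent.Run7.h117.Num

/-!
Energy estimates: integration by parts against `v g'` and coercivity.
-/

open Real MeasureTheory intervalIntegral

namespace Run7.h117

section

variable {n : ℝ} {G : Geo n} {p K ε : ℝ} {wp vi : R1} {q mux muy mhx mhy : R}
variable {c β δ : ℝ} {g g' : R1} {f fx fy fxx fxy fyy ζ B : R}

/-- integration by parts against `v g'` -/
lemma ibpg (G : Geo n) {g g' : R1} (hg : P1 g g') {a ax ay : R} (ha : PD a ax ay) :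
    II (a * (oX G.v * oX g')) = - II (oX g * (ax * oX G.v + a * (oX G.w * oX G.v))) := by
  have h1 := ((hg.toPD.mul ha).mul (Geo.PDv (G := G))).intx
  have e : a * (oX G.v * oX g') = ((oX g' * a + oX g * ax) * oX G.v
      + oX g * a * (oX G.w * oX G.v)) - oX g * (ax * oX G.v + a * (oX G.w * oX G.v)) := by ring
  rw [e, map_sub, h1, zero_sub]

lemma ibpg_le (hb : Bds G p K ε wp vi q mux muy mhx mhy) {g g' : R1} (hg : P1 g g')
    {a ax ay : R} (ha : PD a ax ay) {A : ℝ} (h0 : nn a + nn ax ≤ A) :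
    |II (a * (oX G.v * oX g'))| ≤ K ^ 2 * A * nn (oX g) := by
  have hK := hb.hK
  have hK0 := hb.K0
  rw [ibpg G hg ha, abs_neg]
  refine (II_le_nn _ _).trans ?_
  have h1 := nn_add_le (ax * oX G.v) (a * (oX G.w * oX G.v))
  have h2 := (Bd.oX hb.bv).nn ax
  have h3 := ((Bd.oX hb.bw).mul (Bd.oX hb.bv)).nn a
  rw [mul_comm] at h2 h3
  have h4 : nn (ax * oX G.v + a * (oX G.w * oX G.v)) ≤ K ^ 2 * A := by
    have a1 := nn_nonneg a
    have a2 := nn_nonneg ax
    have a3 : K * nn ax ≤ K ^ 2 * nn ax := by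
      have : K ≤ K ^ 2 := num_m hK
      gcongr
    have a4 : K ^ 2 * (nn a + nn ax) ≤ K ^ 2 * A := by gcongr
    have a5 : K * K = K ^ 2 := by ring
    rw [a5] at h3
    linarith
  have := mul_le_mul_of_nonneg_left h4 (nn_nonneg (oX g))
  linarith

lemma coerc' (hb : Bds G p K ε wp vi q mux muy mhx mhy) {f fx fy : R} (hf : PD f fx fy)
    (hm : mR ((1 + G.mh) * f) = 0) :
    SS3 f fx fy ^ 2 ≤ K ^ 9 * (II ((fx + G.bt * fy) * (fx + G.bt * fy)
      + (n ^ 2) • (fy * fy)) + II (q * f * f) + 6 * (K * ε) * SS3 f fx fy ^ 2) := by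
  have hK := hb.hK
  have hK0 := hb.K0
  have hn := hb.hn
  have h1 := coerc (K := K) hb.hn hb.hn1 hb.hK hb.hp0 hb.hp1 hb.hw hb.bw
    (hb.bmh.mono hb.hKε) hf hm
  set S := SS3 f fx fy with hS
  have s1 : nn f ≤ S := le_SS3_1 f fx fy
  have s2 : nn fx ≤ S := le_SS3_2 f fx fy
  have s3 : nn fy ≤ S := le_SS3_3 f fx fy
  have hS0 : 0 ≤ S := SS3_nonneg f fx fy
  set E := E0 n p (wp + G.w * G.w) f fx fy with hE
  have h2 : 30 * K ^ 2 / n ≤ 30 * K ^ 3 := by
    rw [div_le_iff₀ hn]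
    have := mul_le_mul_of_nonneg_left hb.hnK (sq_nonneg K)
    linarith
  have hEn : 0 ≤ E := by
    by_contra hneg
    push Not at hneg
    have h3 : (30 * K ^ 2 / n) ^ 2 * E < 0 := mul_neg_of_pos_of_neg (by positivity) hneg
    have := sq_nonneg S
    linarith
  have h4 : S ^ 2 ≤ K ^ 9 * E := by
    have h5 : (30 * K ^ 2 / n) ^ 2 ≤ K ^ 9 := by
      calc (30 * K ^ 2 / n) ^ 2 ≤ (30 * K ^ 3) ^ 2 := by gcongr
        _ = 900 * K ^ 6 := by ring
        _ ≤ K ^ 3 * K ^ 6 := by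
            have : (10 : ℝ) ^ 3 ≤ K ^ 3 := by gcongr
            have h6 : (0:ℝ) ≤ K ^ 6 := by positivity
            exact mul_le_mul_of_nonneg_right (by linarith) h6
        _ = K ^ 9 := by ring
    have := mul_le_mul_of_nonneg_right h5 hEn
    linarith
  refine h4.trans ?_
  have hK9 : 0 ≤ K ^ 9 := by positivity
  refine mul_le_mul_of_nonneg_left ?_ hK9
  -- comparison of energies
  have ke := hb.Kε0
  have e : (fx + G.bt * fy) * (fx + G.bt * fy) + (n ^ 2) • (fy * fy)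
      = (fx + p • fy) * (fx + p • fy) + (n ^ 2) • (fy * fy)
        + (G.bt - ContinuousMap.const _ p) * fy * ((fx + G.bt * fy) + (fx + p • fy)) := by
    ext z; simp; ring
  have e2 : q * f * f = oX (wp + G.w * G.w) * f * f + (q - oX (wp + G.w * G.w)) * f * f := by ring
  have hE' : E = II ((fx + p • fy) * (fx + p • fy)) + n ^ 2 * II (fy * fy)
      + II (oX (wp + G.w * G.w) * f * f) := rfl
  rw [e, e2]
  simp only [map_add II, map_smul, smul_eq_mul]
  have b1 := hb.bbt.II fy ((fx + G.bt * fy) + (fx + p • fy))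
  have b2 := hb.bq.II f f
  have b3 : nn ((fx + G.bt * fy) + (fx + p • fy)) ≤ 5 * S := by
    have c1 := nn_add_le (fx + G.bt * fy) (fx + p • fy)
    have c2 := hb.nn_Ef (fx := fx) (fy := fy)
    have c3 := nn_add_le fx (p • fy)
    rw [nn_smul, abs_of_nonneg hb.hp0] at c3
    have c4 : p * nn fy ≤ nn fy := mul_le_of_le_one_left (nn_nonneg fy) hb.hp1
    linarith
  have b4 : K * ε * nn fy * nn ((fx + G.bt * fy) + (fx + p • fy)) ≤ K * ε * S * (5 * S) := by
    gcongr
    exact nn_nonneg _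
  have b5 : K * ε * nn f * nn f ≤ K * ε * S * S := by
    gcongr
    exact nn_nonneg _
  have b6 := neg_le_of_abs_le b1
  have b7 := neg_le_of_abs_le b2
  linarith

end

end Run7.h117
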