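import Mathlib
import Pool.Agent.Run7.h117.Energy2
import Pool.Agent.Run7.h117.Num

/-!
Energy estimates, third part: weak equation with bounds.
-/

open Real MeasureTheory intervalIntegral

namespace Run7.h117

section

variable {n : ℝ} {G : Geo n} {p K ε : ℝ} {wp vi : R1} {q mux muy mhx mhy : R}
variable {c β δ : ℝ} {g g' : R1} {f fx fy fxx fxy fyy ζ B : R}

lemma mR_one : mR (1 : R) = 1 := by
  have := mR_oX 1
  rwa [oX_one] at this

/-- bound for `β` -/
lemma Sol.beta (hb : Bds G p K ε wp vi q mux muy mhx mhy)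
    (hs : Sol G c β g g' f fx fy fxx fxy fyy ζ B) (hc : 1 / 2 ≤ |c|)
    (hζ : Bd ζ δ) (hδ : K ^ 5 * δ ≤ 1) : |β| ≤ K ^ 4 * δ * nn fy := by
  have hK := hb.hK
  have hK0 := hb.K0
  have hδ0 : 0 ≤ δ := hζ.nonneg
  have h1 : II (oX G.Om * ((c • oX G.Om + ζ) * (fy + β • (1 : R)))) = 0 := by
    rw [II_oX_mul, mR_fy hs.hB, mul_zero, oX_zero, map_zero]
  have h2 : II (oX (G.Om * G.Om) * fy) = 0 := by
    rw [II_oX_mul, mR_fy hs.hf, mul_zero, oX_zero, map_zero]
  have e : oX G.Om * ((c • oX G.Om + ζ) * (fy + β • (1 : R)))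
      = c • (oX (G.Om * G.Om) * fy) + (c * β) • (oX G.Om * oX G.Om)
        + (oX G.Om * ζ) * fy * 1 + β • (oX G.Om * ζ * 1 * 1) := by
    ext z; simp; ring
  rw [e] at h1
  simp only [map_add, map_smul, smul_eq_mul, h2, mul_zero, zero_add] at h1
  have b := (Bd.oX hb.bOm).mul hζ
  have a1 := b.II fy 1
  have a2 := b.II 1 1
  have n1 := nn_one_le
  have n10 := nn_nonneg (1 : R)
  have nf := nn_nonneg fy
  have a1' : |II (oX G.Om * ζ * fy * 1)| ≤ 7 * (K * δ) * nn fy := by
    refine a1.trans ?_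
    calc K * δ * nn fy * nn (1 : R) ≤ K * δ * nn fy * 7 := by gcongr
      _ = _ := by ring
  have a2' : |II (oX G.Om * ζ * 1 * 1)| ≤ 49 * (K * δ) := by
    refine a2.trans ?_
    calc K * δ * nn (1 : R) * nn (1 : R) ≤ K * δ * 7 * 7 := by gcongr
      _ = _ := by ring
  have hO := hb.OmPos
  set O := II (oX G.Om * oX G.Om) with hOdef
  have hO0 : 0 ≤ O := II_nonneg fun x y => by simp [mul_self_nonneg]
  have a3 : |c| * |β| * O ≤ 7 * (K * δ) * nn fy + |β| * (49 * (K * δ)) := by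
    have e3 : |c| * |β| * O = |c * β * O| := by rw [abs_mul, abs_mul, abs_of_nonneg hO0]
    have e4 : c * β * O = - (II (oX G.Om * ζ * fy * 1)) - β * II (oX G.Om * ζ * 1 * 1) := by
      linarith
    rw [e3, e4]
    refine (abs_sub _ _).trans ?_
    rw [abs_neg, abs_mul]
    have := mul_le_mul_of_nonneg_left a2' (abs_nonneg β)
    linarith
  have hβ0 := abs_nonneg β
  -- multiply by K
  have a4 : 1 / 2 * |β| ≤ 7 * K ^ 2 * δ * nn fy + |β| * (49 * K ^ 2 * δ) := by
    have h5 : 1 / 2 * |β| * 1 ≤ |c| * |β| * (K * O) := by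
      apply mul_le_mul _ hO (by norm_num) (by positivity)
      gcongr
    have h6 : |c| * |β| * (K * O) ≤ K * (7 * (K * δ) * nn fy + |β| * (49 * (K * δ))) := by
      calc |c| * |β| * (K * O) = K * (|c| * |β| * O) := by ring
        _ ≤ _ := mul_le_mul_of_nonneg_left a3 hK0.le
    exact num_b h5 h6
  have a5 : 49 * K ^ 2 * δ ≤ 1 / 4 := num_c hK hδ0 hδ
  have a7 : 28 * K ^ 2 * (δ * nn fy) ≤ K ^ 4 * (δ * nn fy) :=
    mul_le_mul_of_nonneg_right (num_a hK).2.2.2.2.2.2.1 (mul_nonneg hδ0 nf)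
  exact num_d hβ0 a4 a5 a7

/-- the weak equation with bounds -/
lemma Sol.weakT (hb : Bds G p K ε wp vi q mux muy mhx mhy)
    (hs : Sol G c β g g' f fx fy fxx fxy fyy ζ B) (hc : 1 / 2 ≤ |c|)
    (hζ : Bd ζ δ) (hδ : K ^ 5 * δ ≤ 1) {T Tx Ty : R} (hT : PD T Tx Ty)
    (hmT : mR ((1 + G.mh) * T) = 0) :
    |II (q * T * f) + II (G.mh * T * (oX G.v * oX g'))
        + II ((fx + G.bt * fy) * (Tx + G.bt * Ty) + (n ^ 2) • (fy * Ty))|
      ≤ K ^ 5 * (|β| + δ * (nn (oX g) + SS3 f fx fy)) * (nn T + nn Tx) := by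
  have hK := hb.hK
  have hK0 := hb.K0
  have hδ0 : 0 ≤ δ := hζ.nonneg
  have hvi := hb.hvi
  -- the test function
  have hviPD : PD (oX vi) (-(oX (G.w * vi))) 0 := by
    refine ⟨fun x y => ?_, fun x y => by simpa using hasDerivAt_const y (vi x), fun x y => ?_,
      fun x y => by simp⟩
    · have hv := G.hv.h x
      have hvx : ∀ s, vi s * G.v s = 1 := fun s => by
        have := congrArg (fun r : R1 => r s) hvi; simpa using this
      have hne : ∀ s, G.v s ≠ 0 := fun s h => by have := hvx s; rw [h, mul_zero] at this; norm_num at this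
      have e1 : (fun s => oX vi (s, y)) = fun s => (G.v s)⁻¹ := by
        funext s
        simp only [oX_apply]
        exact eq_inv_of_mul_eq_one_left (hvx s)
      rw [e1]
      have h2 := hv.inv (hne x)
      have e2 : (-(oX (G.w * vi))) (x, y) = -(G.w * G.v) x / G.v x ^ 2 := by
        have e3 : vi x = (G.v x)⁻¹ := eq_inv_of_mul_eq_one_left (hvx x)
        simp only [ContinuousMap.neg_apply, oX_apply, ContinuousMap.mul_apply, e3]
        have := hne x
        field_simp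
      rw [e2]; exact h2
    · have hvx : ∀ s, vi s * G.v s = 1 := fun s => by
        have := congrArg (fun r : R1 => r s) hvi; simpa using this
      simp only [oX_apply]
      have h1 := hvx (x + 2 * π)
      rw [G.hv.p] at h1
      have h2 := hvx x
      have hne : G.v x ≠ 0 := fun h => by rw [h, mul_zero] at h2; norm_num at h2
      exact mul_right_cancel₀ hne (h1.trans h2.symm)
  set F := oX vi * G.mu * T with hF
  have hFPD : PD F ((-(oX (G.w * vi)) * G.mu + oX vi * mux) * T + oX vi * G.mu * Tx)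
      ((0 * G.mu + oX vi * muy) * T + oX vi * G.mu * Ty) := (hviPD.mul hb.hmuPD).mul hT
  set Fx := (-(oX (G.w * vi)) * G.mu + oX vi * mux) * T + oX vi * G.mu * Tx with hFx
  have hmF : mR F = 0 := by
    have e : F = oX (vi * G.M) * ((1 + G.mh) * T) := by
      rw [hF, G.hmuM, oX_mul]; ring
    rw [e, mR_oX_mul, hmT, mul_zero]
  have hΘ := hFPD.prim hmF
  have hvioX : oX vi * oX G.v = 1 := by rw [← oX_mul, hvi, oX_one]
  have hphys : II ((c • oX G.Om + ζ) * (aR Fx * (fy + β • (1 : R))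
      - F * (c • oX G.v + oX G.v * oX g + fx))) = 0 := by
    have := curl_zero hFPD hs.hB hmF
    rw [← this]
    congr 1
    ring
  have hmuT : G.mu * T = oX G.v * F := by
    rw [hF]
    linear_combination (exp := 1) (-(G.mu * T)) * hvioX
  have hw := Geo.weak hs.hf hs.hx hs.hy hs.hζ hΘ hmuT hphys
  -- rewrite
  have e1 : II (oX G.Om' * F * f) = II (q * T * f) := by
    congr 1
    have hq := hb.hq
    rw [hF]
    linear_combination (exp := 1) (-(oX vi * T * f)) * hq + q * T * f * hvioX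
  rw [e1, Geo.ibpD hs.hx hs.hy hT] at hw
  set A1 := II (q * T * f)
  set A2 := II (G.mh * T * (oX G.v * oX g'))
  set A3 := II ((fx + G.bt * fy) * (Tx + G.bt * Ty) + (n ^ 2) • (fy * Ty))
  set A4 := II (oX G.Om' * aR F) + II (T * G.DY) with hA4
  set Z := II (ζ * (aR Fx * (fy + β • (1 : R)) - F * (oX G.v * oX g + fx))) with hZ
  -- bounds
  have n1 := nn_one_le
  have n10 := nn_nonneg (1 : R)
  have nT := nn_nonneg T
  have nTx := nn_nonneg Tx
  have hpi : 2 * π ≤ 7 := by linarith [Real.pi_lt_d2]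
  have bF : Bd (oX vi * G.mu) (K * K) := (Bd.oX hb.bvi).mul hb.bmu
  have nF : nn F ≤ K ^ 2 * nn T := by
    have := bF.nn T; rw [hF]; linarith [this, sq K]
  have bw1 : Bd (-(oX (G.w * vi)) * G.mu + oX vi * mux) (K * K * K + K * K) := by
    refine (((Bd.mul (Bd.oX hb.bw) (Bd.oX hb.bvi)).neg).mul hb.bmu).add
      ((Bd.oX hb.bvi).mul hb.bmux)
  set N := nn T + nn Tx with hN
  have hN0 : 0 ≤ N := by positivity
  have nFx : nn Fx ≤ 2 * K ^ 3 * N := by
    have h1 := bw1.nn T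
    have h2 := bF.nn Tx
    have h3 := nn_add_le ((-(oX (G.w * vi)) * G.mu + oX vi * mux) * T) (oX vi * G.mu * Tx)
    exact num_e hK nT nTx h1 h2 h3
  have nΘ : nn (aR F) ≤ 7 * K ^ 2 * N := by
    have h1 := nn_aR_le F
    have h2 : 2 * π * nn F ≤ 7 * (K ^ 2 * nn T) := by
      apply mul_le_mul hpi nF (nn_nonneg _) (by norm_num)
    have h3 : 7 * (K ^ 2 * nn T) ≤ 7 * K ^ 2 * N := by
      have : nn T ≤ N := by rw [hN]; linarith
      have : 7 * K ^ 2 * nn T ≤ 7 * K ^ 2 * N := by gcongr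
      linarith
    linarith
  have nΘx : nn (aR Fx) ≤ 14 * K ^ 3 * N := by
    have h1 := nn_aR_le Fx
    have h2 : 2 * π * nn Fx ≤ 7 * (2 * K ^ 3 * N) := by
      apply mul_le_mul hpi nFx (nn_nonneg _) (by norm_num)
    linarith
  have bDY : Bd G.DY (3 * K) := by
    have h1 := hb.bbtx.add ((hb.bbt'.mul hb.bwm).smul 2)
    refine Bd.mono h1 ?_
    rw [abs_of_pos (by norm_num : (0 : ℝ) < 2)]
    exact num_j hK hb.hKε
  have hA4b : |A4| ≤ 70 * K ^ 3 * N := by
    have h1 : |II (oX G.Om' * aR F)| ≤ K * (7 * K ^ 2 * N) * 7 := by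
      have := (Bd.oX hb.bOm').II (aR F) 1
      rw [mul_one] at this
      refine this.trans ?_
      have : K * nn (aR F) * nn (1 : R) ≤ K * (7 * K ^ 2 * N) * 7 := by gcongr
      exact this
    have h2 : |II (T * G.DY)| ≤ 3 * K * N * 7 := by
      have h3 := bDY.II T 1
      rw [mul_one, mul_comm] at h3
      refine h3.trans ?_
      have : nn T ≤ N := by rw [hN]; linarith
      have : 3 * K * nn T * nn (1 : R) ≤ 3 * K * N * 7 := by gcongr
      exact this
    exact num_f hK hN0 h1 h2 (abs_add_le _ _)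
  set S := SS3 f fx fy with hS
  have s2 : nn fx ≤ S := le_SS3_2 f fx fy
  have s3 : nn fy ≤ S := le_SS3_3 f fx fy
  have s23 : nn fx + nn fy ≤ S := by rw [hS, SS3]; have := nn_nonneg f; linarith
  have hS0 : 0 ≤ S := SS3_nonneg f fx fy
  have hγ0 := nn_nonneg (oX g)
  have hβ0 := abs_nonneg β
  have hZb : |Z| ≤ 14 * K ^ 3 * N * (δ * (nn (oX g) + S + 7 * |β|)) := by
    have h1 := II_le_nn ζ (aR Fx * (fy + β • (1 : R)) - F * (oX G.v * oX g + fx))
    have e3 : ζ * (aR Fx * (fy + β • (1 : R)) - F * (oX G.v * oX g + fx))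
        = ζ * aR Fx * (fy + β • (1 : R)) - ζ * F * (oX G.v * oX g + fx) := by ring
    rw [hZ, e3, map_sub]
    have h2 := hζ.II (aR Fx) (fy + β • (1 : R))
    have h3 := hζ.II F (oX G.v * oX g + fx)
    have h4 : nn (fy + β • (1 : R)) ≤ nn fy + 7 * |β| := by
      refine (nn_add_le _ _).trans ?_
      rw [nn_smul]
      have h40 := mul_le_mul_of_nonneg_left n1 (abs_nonneg β)
      rw [mul_comm 7 |β|]
      exact add_le_add le_rfl h40
    have h5 : nn (oX G.v * oX g + fx) ≤ K * nn (oX g) + nn fx := by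
      refine (nn_add_le _ _).trans ?_
      have := (Bd.oX hb.bv).nn (oX g)
      linarith
    have h6 : δ * nn (aR Fx) * nn (fy + β • (1 : R)) ≤ δ * (14 * K ^ 3 * N) * (nn fy + 7 * |β|) := by
      gcongr
      exact nn_nonneg _
    have h7 : δ * nn F * nn (oX G.v * oX g + fx) ≤ δ * (K ^ 2 * N) * (K * nn (oX g) + nn fx) := by
      have : nn F ≤ K ^ 2 * N := nF.trans (by
        have : nn T ≤ N := by rw [hN]; linarith
        gcongr)
      gcongr
      exact nn_nonneg _
    have h8 : δ * (K ^ 2 * N) * (K * nn (oX g) + nn fx) ≤ δ * (14 * K ^ 3 * N) * (nn (oX g) + nn fx) := by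
      have h9 : K ^ 2 * (K * nn (oX g) + nn fx) ≤ 14 * K ^ 3 * (nn (oX g) + nn fx) :=
        num_g hK hγ0 (nn_nonneg _)
      have := mul_le_mul_of_nonneg_left h9 (mul_nonneg hδ0 hN0)
      calc δ * (K ^ 2 * N) * (K * nn (oX g) + nn fx)
          = δ * N * (K ^ 2 * (K * nn (oX g) + nn fx)) := by ring
        _ ≤ _ := this
        _ = _ := by ring
    refine (abs_sub _ _).trans ?_
    have h12 : δ * (14 * K ^ 3 * N) * (nn fy + 7 * |β|) + δ * (14 * K ^ 3 * N) * (nn (oX g) + nn fx)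
        ≤ 14 * K ^ 3 * N * (δ * (nn (oX g) + S + 7 * |β|)) := by
      have : δ * (14 * K ^ 3 * N) * (nn fy + 7 * |β|) + δ * (14 * K ^ 3 * N) * (nn (oX g) + nn fx)
        = δ * (14 * K ^ 3 * N) * (nn (oX g) + (nn fx + nn fy) + 7 * |β|) := by ring
      rw [this]
      have h13 : δ * (14 * K ^ 3 * N) * (nn (oX g) + (nn fx + nn fy) + 7 * |β|)
          ≤ δ * (14 * K ^ 3 * N) * (nn (oX g) + S + 7 * |β|) := by gcongr
      linarith
    linarith
  -- conclusion
  have hA : c * (A1 + A2 + A3) = c * (β * A4) - Z := by linarith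
  have hcA : |c| * |A1 + A2 + A3| ≤ |c| * (|β| * |A4|) + |Z| := by
    rw [← abs_mul, hA]
    refine (abs_sub _ _).trans ?_
    rw [abs_mul, abs_mul]
  have h1 : |A1 + A2 + A3| ≤ |β| * |A4| + 2 * |Z| := num_h hc (abs_nonneg Z) hcA
  refine h1.trans ?_
  have h2 : |β| * |A4| ≤ |β| * (70 * K ^ 3 * N) := by gcongr
  refine (add_le_add h2 (mul_le_mul_of_nonneg_left hZb (by norm_num))).trans ?_
  exact num_i hK hN0 hβ0 hδ0 hδ hγ0 hS0

end

end Run7.h117
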