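import Mathlib
import Pool.Agent.Run7.h117.Energy3
import Pool.Agent.Run7.h117.Energy2b

/-!
Energy estimates, fourth part: the energy inequality.
-/

open Real MeasureTheory intervalIntegral

namespace Run7.h117

section

variable {n : ℝ} {G : Geo n} {p K ε : ℝ} {wp vi : R1} {q mux muy mhx mhy : R}
variable {c β δ : ℝ} {g g' : R1} {f fx fy fxx fxy fyy ζ B : R}

/-- energy inequality -/
lemma Sol.energy (hb : Bds G p K ε wp vi q mux muy mhx mhy)
    (hs : Sol G c β g g' f fx fy fxx fxy fyy ζ B) (hc : 1 / 2 ≤ |c|)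
    (hζ : Bd ζ δ) (hδ : δ ≤ ε ^ 2) (hε : K ^ 20 * ε ≤ 1) :
    SS3 f fx fy ≤ K ^ 13 * ε * nn (oX g) := by
  have hK := hb.hK
  have hK0 := hb.K0
  have hε0 := hb.hε
  have hδ0 : 0 ≤ δ := hζ.nonneg
  have hK1 : (1 : ℝ) ≤ K := by linarith
  -- powers
  have hp10 : 48 * K ^ 10 * ε ≤ 1 := by
    have h1 : 48 * K ^ 10 ≤ K ^ 20 := by
      have : (48 : ℝ) ≤ K ^ 10 := by
        calc (48 : ℝ) ≤ 10 ^ 10 := by norm_num
          _ ≤ K ^ 10 := by gcongr
      have h2 : (0:ℝ) ≤ K ^ 10 := by positivity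
      calc 48 * K ^ 10 ≤ K ^ 10 * K ^ 10 := by gcongr
        _ = K ^ 20 := by ring
    calc 48 * K ^ 10 * ε ≤ K ^ 20 * ε := by gcongr
      _ ≤ 1 := hε
  have hε1 : ε ≤ 1 / 1000 := by
    have : (1000 : ℝ) ≤ K ^ 20 := by
      calc (1000 : ℝ) ≤ 10 ^ 20 := by norm_num
        _ ≤ K ^ 20 := by gcongr
    have := mul_le_mul_of_nonneg_right this hε0.le
    linarith
  have hp18 : K ^ 18 * δ ≤ ε := by
    calc K ^ 18 * δ ≤ K ^ 18 * ε ^ 2 := by gcongr
      _ = (K ^ 18 * ε) * ε := by ring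
      _ ≤ (K ^ 20 * ε) * ε := by gcongr <;> linarith
      _ ≤ 1 * ε := by gcongr
      _ = ε := one_mul _
  have hδ5 : K ^ 5 * δ ≤ 1 := by
    have : K ^ 5 * δ ≤ K ^ 18 * δ := by gcongr <;> linarith
    linarith
  have hβ := hs.beta hb hc hζ hδ5
  have hw := hs.weakT hb hc hζ hδ5 hs.hf hs.hm
  have hco := coerc' hb hs.hf hs.hm
  have hA2 : |II (G.mh * f * (oX G.v * oX g'))| ≤ K ^ 2 * (2 * (K * ε) * SS3 f fx fy) * nn (oX g) := by
    refine ibpg_le hb hs.hg (hb.hmh.mul hs.hf) ?_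
    have h1 := hb.bmh.nn f
    have h2 := hb.bmhx.nn f
    have h3 := hb.bmh.nn fx
    have h4 := nn_add_le (mhx * f) (G.mh * fx)
    have h5 : K * ε * (nn f + nn f + nn fx) ≤ K * ε * (2 * SS3 f fx fy) := by
      have ke := hb.Kε0
      have : nn f + nn f + nn fx ≤ 2 * SS3 f fx fy := by
        unfold SS3
        have := nn_nonneg f; have := nn_nonneg fx; have := nn_nonneg fy; linarith
      gcongr
    linarith
  have s12 : nn f + nn fx ≤ SS3 f fx fy := by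
    unfold SS3; have := nn_nonneg fy; linarith
  have s3 : nn fy ≤ SS3 f fx fy := le_SS3_3 f fx fy
  have hS0 : 0 ≤ SS3 f fx fy := SS3_nonneg f fx fy
  have hγ0 := nn_nonneg (oX g)
  have hβ0 := abs_nonneg β
  generalize SS3 f fx fy = S at *
  generalize nn (oX g) = γ at *
  generalize nn f + nn fx = N at *
  generalize II (q * f * f) = A1 at *
  generalize II (G.mh * f * (oX G.v * oX g')) = A2 at *
  generalize II ((fx + G.bt * fy) * (fx + G.bt * fy) + (n ^ 2) • (fy * fy)) = A3 at *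
  generalize nn fy = y at *
  clear hs hb hζ
  have hβS : |β| ≤ K ^ 4 * δ * S := hβ.trans (by gcongr)
  have h1 : A1 + A3 ≤ K ^ 5 * (|β| + δ * (γ + S)) * S + K ^ 2 * (2 * (K * ε) * S) * γ := by
    have h2 := (abs_le.mp hw).2
    have h3 := (abs_le.mp hA2).1
    have h4 : K ^ 5 * (|β| + δ * (γ + S)) * N ≤ K ^ 5 * (|β| + δ * (γ + S)) * S := by gcongr
    linarith
  have h2 : S ^ 2 ≤ K ^ 9 * (K ^ 5 * (K ^ 4 * δ * S + δ * (γ + S)) * S
      + K ^ 2 * (2 * (K * ε) * S) * γ + 6 * (K * ε) * S ^ 2) := by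
    refine hco.trans ?_
    have h3 : K ^ 5 * (|β| + δ * (γ + S)) * S ≤ K ^ 5 * (K ^ 4 * δ * S + δ * (γ + S)) * S := by
      gcongr
    have hK9 : 0 ≤ K ^ 9 := by positivity
    refine mul_le_mul_of_nonneg_left ?_ hK9
    linarith
  have h3 : K ^ 9 * (K ^ 5 * (K ^ 4 * δ * S + δ * (γ + S)) * S
      + K ^ 2 * (2 * (K * ε) * S) * γ + 6 * (K * ε) * S ^ 2)
      = (K ^ 18 * δ + K ^ 14 * δ + 6 * K ^ 10 * ε) * S ^ 2
        + (K ^ 14 * δ + 2 * K ^ 12 * ε) * (γ * S) := by ring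
  rw [h3] at h2
  have h4 : K ^ 14 * δ ≤ K ^ 18 * δ := by gcongr <;> linarith
  have h5 : K ^ 18 * δ + K ^ 14 * δ + 6 * K ^ 10 * ε ≤ 1 / 2 := by
    linarith
  have h6 : K ^ 14 * δ + 2 * K ^ 12 * ε ≤ 1 / 2 * (K ^ 13 * ε) := by
    have h7 : K ^ 14 * δ ≤ ε := h4.trans hp18
    have h8 : (1:ℝ) ≤ K ^ 12 := one_le_pow₀ hK1
    have h9 : 6 * K ^ 12 ≤ K ^ 13 := by
      calc 6 * K ^ 12 ≤ K * K ^ 12 := by gcongr; linarith
        _ = K ^ 13 := by ring
    have q1 := mul_le_mul_of_nonneg_right h8 hε0.le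
    have q2 := mul_le_mul_of_nonneg_right h9 hε0.le
    linarith
  have h7 : S ^ 2 ≤ K ^ 13 * ε * γ * S := by
    have hγS : 0 ≤ γ * S := by positivity
    have q1 := mul_le_mul_of_nonneg_right h5 (sq_nonneg S)
    have q2 := mul_le_mul_of_nonneg_right h6 hγS
    linarith
  rcases eq_or_lt_of_le hS0 with h | h
  · rw [← h]; positivity
  · have : S * S ≤ K ^ 13 * ε * γ * S := by rw [← sq]; exact h7
    exact le_of_mul_le_mul_right this h

end

end Run7.h117
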