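import Mathlib
import Pool.Agent.Run7.h117.Energy3
import Pool.Agent.Run7.h117.Energy2b
import Pool.Agent.Run7.h117.Lead

/-!
Energy estimates: comparison through the auxiliary function.
-/

open Real MeasureTheory intervalIntegral

namespace Run7.h117

section

variable {n : ℝ} {G : Geo n} {p K ε η c₁ : ℝ} {wp vi : R1} {q mux muy mhx mhy : R}
variable {m1 H1 RM RMx RMy RH RHx RHy : R}
variable {c β δ : ℝ} {g g' : R1} {f fx fy fxx fxy fyy ζ B : R}

/-- comparison through the auxiliary function `T` -/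
lemma Sol.aux (hb : Bds G p K ε wp vi q mux muy mhx mhy)
    (hl : Lead G p K ε η c₁ wp m1 H1 RM RMx RMy RH RHx RHy)
    (hs : Sol G c β g g' f fx fy fxx fxy fyy ζ B) (hc : 1 / 2 ≤ |c|)
    (hζ : Bd ζ δ) (hδ : K ^ 5 * δ ≤ 1) {T Tx Ty Txx Txy Tyy : R} (hT : PD T Tx Ty)
    (hTx : PD Tx Txx Txy) (hTy : PD Ty Txy Tyy) (hmT : mR T = 0)
    (hTeq : Txx + (2 * p) • Txy + (p ^ 2 + n ^ 2) • Tyy - oX (wp + G.w * G.w) * T
      = oX G.v * oX g' * H1) :
    |II (oX G.v * oX g' * H1 * f) - II (G.mh * T * (oX G.v * oX g'))|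
      ≤ 2 * K ^ 5 * (|β| + δ * (nn (oX g) + SS3 f fx fy)) * SS3 T Tx Ty
        + 3 * K ^ 3 * ε * SS3 f fx fy * SS3 T Tx Ty := by
  have hK := hb.hK
  have hK0 := hb.K0
  have ke := hb.Kε0
  have hKε := hb.hKε
  have hε0 := hb.hε
  set τ := mR (G.mh * T) with hτ
  set τ' := mR (mhx * T + G.mh * Tx) with hτ'
  have hτP : P1 τ τ' := (hb.hmh.mul hT).mean
  have hThPD : PD (T - oX τ) (Tx - oX τ') (Ty - 0) := hT.sub hτP.toPD
  rw [sub_zero] at hThPD
  have hmTh : mR ((1 + G.mh) * (T - oX τ)) = 0 := by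
    have e : (1 + G.mh) * (T - oX τ) = T + G.mh * T - oX τ - oX τ * G.mh := by ring
    rw [e, mR_sub, mR_sub, mR_add, hmT, mR_oX, mR_oX_mul, G.hmh0, ← hτ]
    ring
  have hW := hs.weakT hb hc hζ hδ hThPD hmTh
  -- means of `mh`
  have hA2 : II (G.mh * (T - oX τ) * (oX G.v * oX g')) = II (G.mh * T * (oX G.v * oX g')) := by
    have e : G.mh * (T - oX τ) * (oX G.v * oX g')
        = G.mh * T * (oX G.v * oX g') - oX (τ * (G.v * g')) * G.mh := by
      simp only [oX_mul]; ring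
    rw [e, map_sub, II_oX_mul, G.hmh0, mul_zero, oX_zero, map_zero, sub_zero]
  rw [hA2] at hW
  -- the equation of T
  have hTf : II (oX G.v * oX g' * H1 * f) = - II ((Tx + p • Ty) * (fx + p • fy))
      - n ^ 2 * II (fy * Ty) - II (oX (wp + G.w * G.w) * T * f) := by
    have h1 := ((hTx.add (hTy.smul p)).mul hs.hf).intx
    have h2 := ((((hTx.add (hTy.smul p)).smul p).add (hTy.smul (n ^ 2))).mul hs.hf).inty
    have e : oX G.v * oX g' * H1 * f = ((Txx + p • Txy) * f + (Tx + p • Ty) * fx)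
        + ((p • (Txy + p • Tyy) + (n ^ 2) • Tyy) * f + (p • (Tx + p • Ty) + (n ^ 2) • Ty) * fy)
        - (Tx + p • Ty) * (fx + p • fy) - (n ^ 2) • (fy * Ty) - oX (wp + G.w * G.w) * T * f := by
      rw [← hTeq]
      ext z
      simp only [ContinuousMap.mul_apply, ContinuousMap.add_apply,
        ContinuousMap.sub_apply, ContinuousMap.smul_apply, smul_eq_mul, oX_apply]
      ring
    rw [e]
    simp only [map_add II, map_sub II, map_smul, smul_eq_mul] at h1 h2 ⊢
    linarith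
  -- the two remainders
  have s_f2 := hb.nn_Ef (fx := fx) (fy := fy)
  have nτ : nn (oX τ) ≤ K * ε * nn T := (nn_mR_le _).trans (hb.bmh.nn T)
  have nτ' : nn (oX τ') ≤ K * ε * (nn T + nn Tx) := by
    refine (nn_mR_le _).trans ?_
    have h1 := nn_add_le (mhx * T) (G.mh * Tx)
    have h2 := hb.bmhx.nn T
    have h3 := hb.bmh.nn Tx
    linarith
  have r1 : |II ((fx + G.bt * fy) * (Tx - oX τ' + G.bt * Ty) + (n ^ 2) • (fy * Ty))
      - II ((Tx + p • Ty) * (fx + p • fy)) - n ^ 2 * II (fy * Ty)|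
      ≤ 3 * (K * ε) * SS3 f fx fy * SS3 T Tx Ty := by
    have e : II ((fx + G.bt * fy) * (Tx - oX τ' + G.bt * Ty) + (n ^ 2) • (fy * Ty))
      - II ((Tx + p • Ty) * (fx + p • fy)) - n ^ 2 * II (fy * Ty)
      = II ((fx + G.bt * fy) * ((G.bt - ContinuousMap.const _ p) * Ty - oX τ'))
        + II ((G.bt - ContinuousMap.const _ p) * fy * (Tx + p • Ty)) := by
      rw [← smul_eq_mul (n ^ 2), ← map_smul, ← map_sub, ← map_sub, ← map_add]
      congr 1
      ext z; simp; ring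
    rw [e]
    refine (abs_add_le _ _).trans ?_
    have h1 := II_le_nn (fx + G.bt * fy) ((G.bt - ContinuousMap.const _ p) * Ty - oX τ')
    have h2 := hb.bbt.II fy (Tx + p • Ty)
    have h3 := nn_sub_le ((G.bt - ContinuousMap.const _ p) * Ty) (oX τ')
    have h4 := hb.bbt.nn Ty
    have h5 := nn_add_le Tx (p • Ty)
    rw [nn_smul, abs_of_nonneg hb.hp0] at h5
    have nf := nn_nonneg f
    have nfx := nn_nonneg fx
    have nfy := nn_nonneg fy
    have nT := nn_nonneg T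
    have nTx := nn_nonneg Tx
    have nTy := nn_nonneg Ty
    have h6 : p * nn Ty ≤ nn Ty := mul_le_of_le_one_left nTy hb.hp1
    have h7 : nn ((G.bt - ContinuousMap.const _ p) * Ty - oX τ') ≤ K * ε * SS3 T Tx Ty := by
      unfold SS3; linarith
    have h8 : nn (fx + G.bt * fy) ≤ 2 * SS3 f fx fy := by unfold SS3; linarith
    have h9 : nn (fx + G.bt * fy) * nn ((G.bt - ContinuousMap.const _ p) * Ty - oX τ')
        ≤ 2 * SS3 f fx fy * (K * ε * SS3 T Tx Ty) :=
      mul_le_mul h8 h7 (nn_nonneg _) (mul_nonneg (by norm_num) (SS3_nonneg _ _ _))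
    have h10 : nn (Tx + p • Ty) ≤ SS3 T Tx Ty := by unfold SS3; linarith
    have h11 : K * ε * nn fy * nn (Tx + p • Ty) ≤ K * ε * SS3 f fx fy * SS3 T Tx Ty := by
      have := le_SS3_3 f fx fy
      gcongr
      · exact nn_nonneg _
      · exact mul_nonneg ke (SS3_nonneg _ _ _)
    linarith
  have r2 : |II (q * (T - oX τ) * f) - II (oX (wp + G.w * G.w) * T * f)|
      ≤ (2 * (K * ε) + 2 * K ^ 3 * ε) * SS3 f fx fy * SS3 T Tx Ty := by
    have e : II (q * (T - oX τ) * f) - II (oX (wp + G.w * G.w) * T * f)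
      = II ((q - oX (wp + G.w * G.w)) * (T - oX τ) * f)
        - II (oX (wp + G.w * G.w) * oX τ * f) := by
      rw [← map_sub, ← map_sub]
      congr 1
      ring
    rw [e]
    refine (abs_sub _ _).trans ?_
    have h1 := hb.bq.II (T - oX τ) f
    have bV : Bd (oX (wp + G.w * G.w)) (2 * K ^ 2) := by
      have := (Bd.oX hb.bwp).add ((Bd.oX hb.bw).mul (Bd.oX hb.bw))
      have h := this.mono (b := 2 * K ^ 2) (num_k hK)
      exact h
    have h2 := bV.II (oX τ) f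
    have h3 := nn_sub_le T (oX τ)
    have nf := nn_nonneg f
    have nT := nn_nonneg T
    have f1 := le_SS3_1 f fx fy
    have T1 := le_SS3_1 T Tx Ty
    have fS := SS3_nonneg f fx fy
    have TS := SS3_nonneg T Tx Ty
    have h4 : nn (T - oX τ) ≤ 2 * SS3 T Tx Ty := by
      have : K * ε * nn T ≤ 1 / 2 * nn T := by gcongr
      linarith
    have h5 : K * ε * nn (T - oX τ) * nn f ≤ K * ε * (2 * SS3 T Tx Ty) * SS3 f fx fy := by
      gcongr
    have h6 : nn (oX τ) ≤ K * ε * SS3 T Tx Ty := nτ.trans (by gcongr)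
    have h7 : 2 * K ^ 2 * nn (oX τ) * nn f ≤ 2 * K ^ 2 * (K * ε * SS3 T Tx Ty) * SS3 f fx fy := by
      gcongr
    have e2 : K * ε * (2 * SS3 T Tx Ty) * SS3 f fx fy
        + 2 * K ^ 2 * (K * ε * SS3 T Tx Ty) * SS3 f fx fy
        = (2 * (K * ε) + 2 * K ^ 3 * ε) * SS3 f fx fy * SS3 T Tx Ty := by ring
    linarith
  have hN : nn (T - oX τ) + nn (Tx - oX τ') ≤ 2 * SS3 T Tx Ty := by
    have h1 := nn_sub_le T (oX τ)
    have h2 := nn_sub_le Tx (oX τ')
    have nT := nn_nonneg T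
    have nTx := nn_nonneg Tx
    have nTy := nn_nonneg Ty
    have h3 : K * ε * nn T ≤ 1 / 2 * nn T := by gcongr
    have h4 : K * ε * (nn T + nn Tx) ≤ 1 / 2 * (nn T + nn Tx) := by gcongr
    unfold SS3
    linarith
  have hδ0 : 0 ≤ δ := hζ.nonneg
  have hS0 := SS3_nonneg f fx fy
  have hST0 := SS3_nonneg T Tx Ty
  have hγ0 := nn_nonneg (oX g)
  have hβ0 := abs_nonneg β
  have hW' : |II (q * (T - oX τ) * f) + II (G.mh * T * (oX G.v * oX g'))
      + II ((fx + G.bt * fy) * (Tx - oX τ' + G.bt * Ty) + (n ^ 2) • (fy * Ty))|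
      ≤ 2 * K ^ 5 * (|β| + δ * (nn (oX g) + SS3 f fx fy)) * SS3 T Tx Ty := by
    refine hW.trans ?_
    have : K ^ 5 * (|β| + δ * (nn (oX g) + SS3 f fx fy)) * (nn (T - oX τ) + nn (Tx - oX τ'))
      ≤ K ^ 5 * (|β| + δ * (nn (oX g) + SS3 f fx fy)) * (2 * SS3 T Tx Ty) := by gcongr
    linarith
  rw [hTf]
  generalize SS3 f fx fy = S at *
  generalize SS3 T Tx Ty = ST at *
  generalize nn (oX g) = γ at *
  generalize II (q * (T - oX τ) * f) = A1 at *
  generalize II (G.mh * T * (oX G.v * oX g')) = A2 at *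
  generalize II ((fx + G.bt * fy) * (Tx - oX τ' + G.bt * Ty) + (n ^ 2) • (fy * Ty)) = A3 at *
  generalize II ((Tx + p • Ty) * (fx + p • fy)) = A4 at *
  generalize II (fy * Ty) = A5 at *
  generalize II (oX (wp + G.w * G.w) * T * f) = A6 at *
  clear hs hb hl hτP hThPD hTeq hmTh hA2 hW hTf
  have hfin : 3 * (K * ε) * S * ST + (2 * (K * ε) + 2 * K ^ 3 * ε) * S * ST
      ≤ 3 * K ^ 3 * ε * S * ST := num_l hK hε0.le hS0 hST0
  rw [abs_le] at r1 r2 hW' ⊢
  constructor <;> linarith [r1.1, r1.2, r2.1, r2.2, hW'.1, hW'.2]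

end

end Run7.h117
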