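import Mathlib
import Pool.Agent.Run7.h117.Energy2b

/-!
Energy estimates: the remaining term in the star identity.
-/

open Real MeasureTheory intervalIntegral

namespace Run7.h117

section

variable {n : ℝ} {G : Geo n} {p K ε : ℝ} {wp vi : R1} {q mux muy mhx mhy : R}
variable {c β δ : ℝ} {g g' : R1} {f fx fy fxx fxy fyy ζ B : R}

/-- the remaining term in the star identity -/
lemma Sol.Q1 (hb : Bds G p K ε wp vi q mux muy mhx mhy)
    (hs : Sol G c β g g' f fx fy fxx fxy fyy ζ B) :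
    |II (G.mu * ζ * G.X2) + II (G.DY * (G.k * (oX G.v * oX g + fx) + G.X2 * fy))|
      ≤ K ^ 4 * (nn (oX g) + SS3 f fx fy + |β|) := by
  have hK := hb.hK
  have hK0 := hb.K0
  have ke := hb.Kε0
  have hKε := hb.hKε
  have n1 := nn_one_le
  have n10 := nn_nonneg (1 : R)
  have s12 : nn fx + nn fy ≤ SS3 f fx fy := by
    unfold SS3; have := nn_nonneg f; linarith
  have nfx := nn_nonneg fx
  have nfy := nn_nonneg fy
  have hγ0 := nn_nonneg (oX g)
  have bDY : Bd G.DY (3 * K) := by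
    have h1 := hb.bbtx.add ((hb.bbt'.mul hb.bwm).smul 2)
    refine Bd.mono h1 ?_
    rw [abs_of_pos (by norm_num : (0 : ℝ) < 2)]
    exact num_j hK hKε
  have e0 : G.mu * ζ * G.X2 = G.mu * oX G.Om * G.X2 * oX g * 1 + G.X2 * (oX G.v * oX g')
      + G.X2 * G.Df fx fy fxx fxy fyy + β • (G.DY * G.X2 * 1 * 1) := by
    rw [hs.hζ]; ext z; simp; ring
  rw [e0, map_add II (_ + _) (β • _), map_add II (_ + _) (G.X2 * G.Df _ _ _ _ _), map_add II, map_smul, smul_eq_mul,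
    Geo.ibpD hs.hx hs.hy G.hXPD]
  -- term 1
  have t1 : |II (G.mu * oX G.Om * G.X2 * oX g * 1)| ≤ 14 * K ^ 2 * nn (oX g) := by
    have b := (((hb.bmu.mul (Bd.oX hb.bOm)).mul hb.bX').II (oX g) 1)
    refine b.trans ?_
    calc K * K * 2 * nn (oX g) * nn (1 : R) ≤ K * K * 2 * nn (oX g) * 7 := by gcongr
      _ = _ := by ring
  have t2 : |II (G.X2 * (oX G.v * oX g'))| ≤ K ^ 2 * 18 * nn (oX g) := by
    refine ibpg_le hb hs.hg G.hXPD ?_
    have h1 := hb.bX'.nn 1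
    have h2 := hb.bXx.nn 1
    rw [mul_one] at h1 h2
    have h3 := mul_le_mul hKε n1 n10 (by norm_num)
    linarith
  have t3 : |-II ((fx + G.bt * fy) * (G.X2x + G.bt * G.X2y) + (n ^ 2) • (fy * G.X2y))|
      ≤ 25 * (nn fx + nn fy) := by
    rw [abs_neg, map_add II, map_smul, smul_eq_mul]
    refine (abs_add_le _ _).trans ?_
    have h1 := II_le_nn (fx + G.bt * fy) (G.X2x + G.bt * G.X2y)
    have h2 := II_le_nn fy G.X2y
    have h3 := hb.nn_Ef (fx := fx) (fy := fy)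
    have h4 := (hb.bXx.add (hb.bbt'.mul hb.bXy)).nn 1
    have h5 := hb.bXy.nn 1
    rw [mul_one] at h4 h5
    have h6 : nn (G.X2x + G.bt * G.X2y) ≤ 3 / 2 * 7 := by
      refine h4.trans ?_
      have : K * ε + 2 * (K * ε) ≤ 3 / 2 := by linarith
      calc _ ≤ 3 / 2 * nn (1 : R) := by gcongr
        _ ≤ 3 / 2 * 7 := by gcongr
    have h7 : nn G.X2y ≤ 1 / 2 * 7 := by
      refine h5.trans ?_
      calc _ ≤ 1 / 2 * nn (1 : R) := by gcongr
        _ ≤ 1 / 2 * 7 := by gcongr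
    have h8 : nn (fx + G.bt * fy) * nn (G.X2x + G.bt * G.X2y) ≤ (nn fx + 2 * nn fy) * (3 / 2 * 7) := by
      apply mul_le_mul h3 h6 (nn_nonneg _) (by positivity)
    have h9 : nn fy * nn G.X2y ≤ nn fy * (1 / 2 * 7) := by gcongr
    have hn2 : n ^ 2 ≤ 1 := pow_le_one₀ hb.hn.le hb.hn1
    have h10 : |n ^ 2 * II (fy * G.X2y)| ≤ 1 * |II (fy * G.X2y)| := by
      rw [abs_mul, abs_of_nonneg (sq_nonneg n)]; gcongr
    linarith
  have t4 : |β * II (G.DY * G.X2 * 1 * 1)| ≤ 294 * K * |β| := by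
    rw [abs_mul]
    have b := (bDY.mul hb.bX').II 1 1
    have : |II (G.DY * G.X2 * 1 * 1)| ≤ 294 * K := by
      refine b.trans ?_
      calc 3 * K * 2 * nn (1 : R) * nn (1 : R) ≤ 3 * K * 2 * 7 * 7 := by gcongr
        _ = _ := by ring
    calc |β| * _ ≤ |β| * (294 * K) := by gcongr
      _ = _ := by ring
  have t5 : |II (G.DY * (G.k * (oX G.v * oX g + fx) + G.X2 * fy))|
      ≤ 42 * K ^ 2 * nn (oX g) + 42 * K * (nn fx + nn fy) := by
    have e5 : G.DY * (G.k * (oX G.v * oX g + fx) + G.X2 * fy)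
        = G.DY * (G.k * (oX G.v * oX g + fx) + G.X2 * fy) * 1 := by ring
    rw [e5]
    have b := bDY.II (G.k * (oX G.v * oX g + fx) + G.X2 * fy) 1
    refine b.trans ?_
    have h1 := nn_add_le (G.k * (oX G.v * oX g + fx)) (G.X2 * fy)
    have h2 := hb.bk'.nn (oX G.v * oX g + fx)
    have h3 := nn_add_le (oX G.v * oX g) fx
    have h4 := (Bd.oX hb.bv).nn (oX g)
    have h5 := hb.bX'.nn fy
    have h6 : nn (G.k * (oX G.v * oX g + fx) + G.X2 * fy) ≤ 2 * (K * nn (oX g) + nn fx + nn fy) := by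
      linarith
    calc 3 * K * nn (G.k * (oX G.v * oX g + fx) + G.X2 * fy) * nn (1 : R)
        ≤ 3 * K * (2 * (K * nn (oX g) + nn fx + nn fy)) * 7 := by gcongr
      _ = _ := by ring
  have hβ0 := abs_nonneg β
  generalize II (G.mu * oX G.Om * G.X2 * oX g * 1) = a1 at *
  generalize II (G.X2 * (oX G.v * oX g')) = a2 at *
  generalize -II ((fx + G.bt * fy) * (G.X2x + G.bt * G.X2y) + (n ^ 2) • (fy * G.X2y)) = a3 at *
  generalize β * II (G.DY * G.X2 * 1 * 1) = a4 at *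
  generalize II (G.DY * (G.k * (oX G.v * oX g + fx) + G.X2 * fy)) = a5 at *
  generalize SS3 f fx fy = S at *
  generalize nn (oX g) = γ at *
  generalize nn fx = y1 at *
  generalize nn fy = y2 at *
  clear hs hb bDY e0
  have hK4 : 100 * K ^ 2 ≤ K ^ 4 := by
    clear * - hK
    have : (10 : ℝ) ^ 2 ≤ K ^ 2 := by gcongr
    nlinarith [sq_nonneg K]
  have hK4' : 1000 * K ≤ K ^ 4 := by
    clear * - hK hK0
    calc 1000 * K = 10 ^ 3 * K := by norm_num
      _ ≤ K ^ 3 * K := by gcongr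
      _ = K ^ 4 := by ring
  have c1 : 100 * K ^ 2 * γ ≤ K ^ 4 * γ := by gcongr
  have c2 : 1000 * K * (y1 + y2) ≤ K ^ 4 * (y1 + y2) := by gcongr
  have c3 : K ^ 4 * (y1 + y2) ≤ K ^ 4 * S := by gcongr
  have c4 : 1000 * K * |β| ≤ K ^ 4 * |β| := by gcongr
  have c5 : 25 * (y1 + y2) ≤ 25 * K * (y1 + y2) := by
    have : 0 ≤ (K - 1) * (y1 + y2) := mul_nonneg (by linarith) (by linarith)
    linarith
  have c6 : 0 ≤ K * (y1 + y2) := by positivity
  have c7 : 0 ≤ K * |β| := by positivity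
  have c8 : 0 ≤ K ^ 2 * γ := by positivity
  rw [abs_le] at t1 t2 t3 t4 t5 ⊢
  constructor <;> linarith [t1.1, t1.2, t2.1, t2.2, t3.1, t3.2, t4.1, t4.2, t5.1, t5.2]

end

end Run7.h117
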