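import Mathlib
import Pool.Agent.Run7.h117.Energy4
import Pool.Agent.Run7.h117.Energy5a
import Pool.Agent.Run7.h117.Energy5b

/-!
Energy estimates, fifth part: the main inequality.
-/

open Real MeasureTheory intervalIntegral

namespace Run7.h117

section

variable {n : ℝ} {G : Geo n} {p K ε η c₁ : ℝ} {wp vi : R1} {q mux muy mhx mhy : R}
variable {m1 H1 RM RMx RMy RH RHx RHy : R}
variable {c β δ : ℝ} {g g' : R1} {f fx fy fxx fxy fyy ζ B : R}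

/-- the main inequality: `g = 0`. -/
theorem Sol.main (hb : Bds G p K ε wp vi q mux muy mhx mhy)
    (hl : Lead G p K ε η c₁ wp m1 H1 RM RMx RMy RH RHx RHy)
    (hs : Sol G c β g g' f fx fy fxx fxy fyy ζ B) (hc : 1 / 2 ≤ |c|)
    (hζ : Bd ζ δ) (hδ : δ ≤ ε ^ 2) (hg0 : I1 g = 0)
    (hQ0 : II (oX G.Om * G.Q) + II (G.DY * (G.k * oX G.v)) = 0) :
    nn (oX g) = 0 ∧ SS3 f fx fy = 0 ∧ β = 0 := by
  have hK := hb.hK
  have hK0 := hb.K0
  have hK1 : (1 : ℝ) ≤ K := by linarith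
  have hε0 := hb.hε
  have hδ0 : 0 ≤ δ := hζ.nonneg
  have hη0 : 0 < η := lt_of_lt_of_le hε0 hl.hεη
  have hεη := hl.hεη
  have hηK : K ^ 32 * η ≤ 1 := hl.hη.trans hl.hc₁'
  have hεK : K ^ 32 * ε ≤ 1 := by
    calc K ^ 32 * ε ≤ K ^ 32 * η := by gcongr
      _ ≤ 1 := hηK
  have hε20 : K ^ 20 * ε ≤ 1 := by
    calc K ^ 20 * ε ≤ K ^ 32 * ε := by gcongr <;> linarith
      _ ≤ 1 := hεK
  have hε1 : ε ≤ 1 := by
    have : (1 : ℝ) ≤ K ^ 32 := one_le_pow₀ hK1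
    exact (le_mul_of_one_le_left hε0.le this).trans hεK
  have hδ5 : K ^ 5 * δ ≤ 1 := by
    calc K ^ 5 * δ ≤ K ^ 5 * ε ^ 2 := by gcongr
      _ = (K ^ 5 * ε) * ε := by ring
      _ ≤ (K ^ 32 * ε) * 1 := by gcongr <;> linarith
      _ ≤ 1 := by linarith
  have hS := hs.energy hb hc hζ hδ hε20
  have hβ1 := hs.beta hb hc hζ hδ5
  obtain ⟨T, Tx, Ty, Txx, Txy, Tyy, hT, hTx, hTy, hmT, hTeq, hTn, hTc⟩ := hl.L1 g g' hs.hg hg0
  have haux := hs.aux hb hl hc hζ hδ5 hT hTx hTy hmT hTeq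
  have hQ1 := hs.Q1 hb
  have hpoh := hb.poh (f := f) hs.hx hs.hy
  -- physical identity
  have hphys : II ((c • oX G.Om + ζ) * (G.P * (c • oX G.v + oX G.v * oX g + fx)
      + G.Q * (fy + β • (1 : R)))) = 0 := by
    have h1 := (G.hPD.mul hs.hB).intx
    have h2 := (G.hQ.mul hs.hB).inty
    have e : (c • oX G.Om + ζ) * (G.P * (c • oX G.v + oX G.v * oX g + fx)
      + G.Q * (fy + β • (1 : R)))
      = (G.Px * B + G.P * ((c • oX G.Om + ζ) * (c • oX G.v + oX G.v * oX g + fx)))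
        + (-G.Px * B + G.Q * ((c • oX G.Om + ζ) * (fy + β • (1 : R)))) := by ring
    rw [e, map_add, h1, h2, add_zero]
  have hstar := Geo.star hs.hg hs.hf hs.hx hs.hy hQ0 hs.hζ hphys
  -- remainders
  have hRH : |II (RH * f * (oX G.v * oX g'))| ≤ K ^ 2 * (2 * (η * ε) * SS3 f fx fy) * nn (oX g) := by
    refine ibpg_le hb hs.hg (hl.hRHPD.mul hs.hf) ?_
    have h1 := hl.bRH.nn f
    have h2 := hl.bRHx.nn f
    have h3 := hl.bRH.nn fx
    have h4 := nn_add_le (RHx * f) (RH * fx)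
    have h5 : η * ε * (nn f + nn f + nn fx) ≤ η * ε * (2 * SS3 f fx fy) := by
      have : nn f + nn f + nn fx ≤ 2 * SS3 f fx fy := by
        unfold SS3
        have := nn_nonneg f; have := nn_nonneg fx; have := nn_nonneg fy; linarith
      gcongr
    linarith
  have hRM : |II (RM * T * (oX G.v * oX g'))| ≤ K ^ 2 * (2 * (η * ε) * SS3 T Tx Ty) * nn (oX g) := by
    refine ibpg_le hb hs.hg (hl.hRMPD.mul hT) ?_
    have h1 := hl.bRM.nn T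
    have h2 := hl.bRMx.nn T
    have h3 := hl.bRM.nn Tx
    have h4 := nn_add_le (RMx * T) (RM * Tx)
    have h5 : η * ε * (nn T + nn T + nn Tx) ≤ η * ε * (2 * SS3 T Tx Ty) := by
      have : nn T + nn T + nn Tx ≤ 2 * SS3 T Tx Ty := by
        unfold SS3
        have := nn_nonneg T; have := nn_nonneg Tx; have := nn_nonneg Ty; linarith
      gcongr
    linarith
  have e1 : II (oX G.v * oX g' * G.H * f) = ε * II (oX G.v * oX g' * H1 * f)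
      + II (RH * f * (oX G.v * oX g')) := by
    rw [← smul_eq_mul ε, ← map_smul, ← map_add]
    congr 1
    rw [hl.hRH]
    ext z; simp; ring
  have e2 : II (G.mh * T * (oX G.v * oX g')) = ε * II (m1 * T * (oX G.v * oX g'))
      + II (RM * T * (oX G.v * oX g')) := by
    rw [← smul_eq_mul ε, ← map_smul, ← map_add]
    congr 1
    rw [hl.hRM]
    ext z; simp; ring
  rw [e1] at hstar
  rw [e2] at haux
  have hβS : |β| ≤ K ^ 4 * δ * SS3 f fx fy := by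
    refine hβ1.trans ?_
    have := le_SS3_3 f fx fy
    gcongr
  have hS0 := SS3_nonneg f fx fy
  have hST0 := SS3_nonneg T Tx Ty
  have hγ0 := nn_nonneg (oX g)
  have hβ0 := abs_nonneg β
  have hc1 := hl.hc₁
  have hη := hl.hη
  suffices hγ : nn (oX g) = 0 by
    have h1 : SS3 f fx fy = 0 := le_antisymm (by rw [hγ, mul_zero] at hS; exact hS) hS0
    refine ⟨hγ, h1, ?_⟩
    rw [h1, mul_zero] at hβS
    exact abs_eq_zero.mp (le_antisymm hβS hβ0)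
  generalize SS3 f fx fy = S at *
  generalize SS3 T Tx Ty = ST at *
  generalize nn (oX g) = γ at *
  generalize II (RH * f * (oX G.v * oX g')) = A1 at *
  generalize II (RM * T * (oX G.v * oX g')) = A2 at *
  generalize II (oX G.v * oX g' * H1 * f) = A3 at *
  generalize II (m1 * T * (oX G.v * oX g')) = A4 at *
  generalize II (G.Df fx fy fxx fxy fyy * (G.k * fx + G.X2 * fy)) = A5 at *
  generalize II (G.mu * ζ * G.X2) + II (G.DY * (G.k * (oX G.v * oX g + fx) + G.X2 * fy)) = A6 at *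
  clear hs hb hl hT hTx hTy hmT hTeq hphys hQ0 e1 e2 hg0 hζ hβ1
  have hpow : ∀ m : ℕ, m ≤ 32 → K ^ m * ε ≤ 1 := fun m hm => by
    calc K ^ m * ε ≤ K ^ 32 * ε := by gcongr
      _ ≤ 1 := hεK
  have p13 := hpow 13 (by norm_num)
  have p17 := hpow 17 (by norm_num)
  have p23 := hpow 23 (by norm_num)
  have hSγ : S ≤ γ := hS.trans (mul_le_of_le_one_left hγ0 p13)
  have hβγ : |β| ≤ K ^ 17 * ε ^ 3 * γ := by
    calc |β| ≤ K ^ 4 * δ * S := hβS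
      _ ≤ K ^ 4 * ε ^ 2 * (K ^ 13 * ε * γ) := by gcongr
      _ = _ := by ring
  have hβγ1 : |β| ≤ γ := by
    refine hβγ.trans ?_
    have h1 : ε ^ 2 ≤ 1 := pow_le_one₀ hε0.le hε1
    calc K ^ 17 * ε ^ 3 * γ = (K ^ 17 * ε) * ε ^ 2 * γ := by ring
      _ ≤ 1 * 1 * γ := by gcongr
      _ = γ := by ring
  have b1 : |A1| ≤ 2 * K ^ 15 * (η * ε ^ 2 * γ ^ 2) := by
    refine hRH.trans ?_
    calc K ^ 2 * (2 * (η * ε) * S) * γ ≤ K ^ 2 * (2 * (η * ε) * (K ^ 13 * ε * γ)) * γ := by gcongr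
      _ = _ := by ring
  have b5 : |A5| ≤ K ^ 29 * (η * ε ^ 2 * γ ^ 2) := by
    refine hpoh.trans ?_
    calc K ^ 3 * ε * S ^ 2 ≤ K ^ 3 * ε * (K ^ 13 * ε * γ) ^ 2 := by gcongr
      _ = K ^ 29 * (ε * ε ^ 2 * γ ^ 2) := by ring
      _ ≤ K ^ 29 * (η * ε ^ 2 * γ ^ 2) := by gcongr
  have b6 : |β * A6| ≤ 3 * K ^ 21 * (η * ε ^ 2 * γ ^ 2) := by
    rw [abs_mul]
    have h1 : |A6| ≤ K ^ 4 * (3 * γ) := hQ1.trans (by gcongr; linarith)
    calc |β| * |A6| ≤ (K ^ 17 * ε ^ 3 * γ) * (K ^ 4 * (3 * γ)) := by gcongr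
      _ = 3 * K ^ 21 * (ε * ε ^ 2 * γ ^ 2) := by ring
      _ ≤ 3 * K ^ 21 * (η * ε ^ 2 * γ ^ 2) := by gcongr
  have b2 : |A2| * ε ≤ 2 * K ^ 3 * (η * ε ^ 2 * γ ^ 2) := by
    calc |A2| * ε ≤ (K ^ 2 * (2 * (η * ε) * ST) * γ) * ε := by gcongr
      _ ≤ (K ^ 2 * (2 * (η * ε) * (K * γ)) * γ) * ε := by gcongr
      _ = _ := by ring
  have b3 : |A3 - (ε * A4 + A2)| * ε ≤ K ^ 19 * (η * ε ^ 2 * γ ^ 2) := by
    have h1 : 2 * K ^ 5 * (|β| + δ * (γ + S)) * ST + 3 * K ^ 3 * ε * S * ST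
        ≤ 2 * K ^ 5 * (K ^ 17 * ε ^ 3 * γ + ε ^ 2 * (γ + γ)) * (K * γ)
          + 3 * K ^ 3 * ε * (K ^ 13 * ε * γ) * (K * γ) := by gcongr
    have h2 : 2 * K ^ 5 * (K ^ 17 * ε ^ 3 * γ + ε ^ 2 * (γ + γ)) * (K * γ)
          + 3 * K ^ 3 * ε * (K ^ 13 * ε * γ) * (K * γ)
        = (2 * (K ^ 23 * ε) + 4 * K ^ 6 + 3 * K ^ 17) * (ε ^ 2 * γ ^ 2) := by ring
    have h3 : 2 * (K ^ 23 * ε) + 4 * K ^ 6 + 3 * K ^ 17 ≤ K ^ 19 := by
      have h4 : K ^ 6 ≤ K ^ 17 := pow_le_pow_right₀ hK1 (by norm_num)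
      have h5 : (1 : ℝ) ≤ K ^ 17 := one_le_pow₀ hK1
      have h6 : 100 * K ^ 17 ≤ K ^ 19 := by
        have : (10 : ℝ) ^ 2 ≤ K ^ 2 := by gcongr
        calc 100 * K ^ 17 ≤ K ^ 2 * K ^ 17 := by gcongr; linarith
          _ = K ^ 19 := by ring
      linarith
    calc |A3 - (ε * A4 + A2)| * ε ≤ (K ^ 19 * (ε ^ 2 * γ ^ 2)) * ε := by
          refine mul_le_mul_of_nonneg_right ?_ hε0.le
          refine (haux.trans h1).trans ?_
          rw [h2]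
          gcongr
      _ = K ^ 19 * (ε * ε ^ 2 * γ ^ 2) := by ring
      _ ≤ _ := by gcongr
  have hA4 : ε ^ 2 * (c₁ * γ ^ 2) ≤ ε ^ 2 * A4 := by gcongr
  have hsum : ε ^ 2 * A4 ≤ |A1| + |A5| + |β * A6| + |A2| * ε + |A3 - (ε * A4 + A2)| * ε := by
    have e1 : ε ^ 2 * A4 = - A1 - A5 - β * A6 - A2 * ε - (A3 - (ε * A4 + A2)) * ε := by
      linear_combination (exp := 1) hstar
    have u1 := neg_abs_le A1
    have u2 := neg_abs_le A5
    have u3 := neg_abs_le (β * A6)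
    have u4 := mul_le_mul_of_nonneg_right (neg_abs_le A2) hε0.le
    have u5 := mul_le_mul_of_nonneg_right (neg_abs_le (A3 - (ε * A4 + A2))) hε0.le
    rw [e1]
    linarith
  have htot : ε ^ 2 * (c₁ * γ ^ 2) ≤ K ^ 30 * (η * ε ^ 2 * γ ^ 2) := by
    have hX : 0 ≤ η * ε ^ 2 * γ ^ 2 := by positivity
    have h3 : 2 * K ^ 15 + K ^ 29 + 3 * K ^ 21 + 2 * K ^ 3 + K ^ 19 ≤ K ^ 30 := by
      have g1 : K ^ 15 ≤ K ^ 29 := pow_le_pow_right₀ hK1 (by norm_num)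
      have g2 : K ^ 21 ≤ K ^ 29 := pow_le_pow_right₀ hK1 (by norm_num)
      have g3 : K ^ 3 ≤ K ^ 29 := pow_le_pow_right₀ hK1 (by norm_num)
      have g4 : K ^ 19 ≤ K ^ 29 := pow_le_pow_right₀ hK1 (by norm_num)
      have g5 : 10 * K ^ 29 ≤ K ^ 30 := by
        calc 10 * K ^ 29 ≤ K * K ^ 29 := by gcongr
          _ = K ^ 30 := by ring
      have g6 : 0 ≤ K ^ 29 := by positivity
      linarith
    have h4 := mul_le_mul_of_nonneg_right h3 hX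
    linarith
  have h30 : K ^ 30 * η ≤ c₁ / 2 := by
    have h1 : 100 * (K ^ 30 * η) ≤ K ^ 32 * η := by
      have : (10 : ℝ) ^ 2 ≤ K ^ 2 := by gcongr
      calc 100 * (K ^ 30 * η) = (10 : ℝ) ^ 2 * (K ^ 30 * η) := by norm_num
        _ ≤ K ^ 2 * (K ^ 30 * η) := by gcongr
        _ = K ^ 32 * η := by ring
    linarith
  have hfin : ε ^ 2 * γ ^ 2 * (c₁ / 2) ≤ 0 := by
    have h1 : K ^ 30 * (η * ε ^ 2 * γ ^ 2) = (K ^ 30 * η) * (ε ^ 2 * γ ^ 2) := by ring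
    have h2 : (K ^ 30 * η) * (ε ^ 2 * γ ^ 2) ≤ c₁ / 2 * (ε ^ 2 * γ ^ 2) := by gcongr
    linarith
  by_contra hne
  have hγp : 0 < γ := lt_of_le_of_ne hγ0 (Ne.symm hne)
  have : 0 < ε ^ 2 * γ ^ 2 * (c₁ / 2) := by positivity
  linarith

end

end Run7.h117
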