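import Mathlib
import Pool.Agent.Run7.h117.Energy5
import Pool.Agent.Run7.h117.Apriori4

/-!
Rigidity: every steady flow whose vorticity is close to the base vorticity is a multiple of it.
-/

open Real MeasureTheory intervalIntegral

namespace Run7.h117

lemma nn_zero {f fx fy : R} (hf : PD f fx fy) (h : nn f = 0) : f = 0 := by
  have h1 : II (f * f) = 0 := by
    rw [← nn_sq, h]; norm_num
  have h2 := II_eq_zero (f := f * f) (fun x y => by
    simp only [ContinuousMap.mul_apply]; exact mul_self_nonneg _) h1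
  ext ⟨x, y⟩
  obtain ⟨x', hx', hxx⟩ := Function.Periodic.exists_mem_Ico₀ (f := fun x => f (x, y))
    (c := 2 * π) (fun x => hf.px x y) (by positivity) x
  obtain ⟨y', hy', hyy⟩ := Function.Periodic.exists_mem_Ico₀ (f := fun y => f (x', y))
    (c := 2 * π) (fun y => hf.py x' y) (by positivity) y
  have h3 := h2 x' ⟨hx'.1, hx'.2.le⟩ y' ⟨hy'.1, hy'.2.le⟩
  simp only [ContinuousMap.mul_apply, mul_self_eq_zero] at h3
  have hxx' : f (x, y) = f (x', y) := hxx
  have hyy' : f (x', y) = f (x', y') := hyy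
  rw [hxx', hyy', h3]
  rfl

lemma PD.zero_of {f fx fy : R} (hf : PD f fx fy) (h : f = 0) : fx = 0 ∧ fy = 0 := by
  have h0 : PD (0 : R) 0 0 := PD.const 0
  subst h
  exact hf.unique h0

section

variable {n : ℝ} {G : Geo n} {p K ε η c₁ : ℝ} {wp vi : R1} {q mux muy mhx mhy : R}
variable {m1 H1 RM RMx RMy RH RHx RHy : R}
variable {N Nx Nxx mhxx mhxy : R} {χ0 χ1 χ2 : R1}
variable {a cc ax ay cy om omx omy B : R} {δ : ℝ}

lemma vi_P1 (hb : Bds G p K ε wp vi q mux muy mhx mhy) : P1 vi (-(G.w * vi)) := by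
  have hvi := hb.hvi
  have hvx : ∀ s, vi s * G.v s = 1 := fun s => by
    have := congrArg (fun r : R1 => r s) hvi; simpa using this
  have hne : ∀ s, G.v s ≠ 0 := fun s h => by
    have := hvx s; rw [h, mul_zero] at this; norm_num at this
  refine ⟨fun x => ?_, fun x => ?_⟩
  · have hv := G.hv.h x
    have e1 : (vi : ℝ → ℝ) = fun s => (G.v s)⁻¹ := by
      funext s
      exact eq_inv_of_mul_eq_one_left (hvx s)
    have h2 := hv.inv (hne x)
    have e2 : (-(G.w * vi)) x = -(G.w * G.v) x / G.v x ^ 2 := by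
      have e3 : vi x = (G.v x)⁻¹ := eq_inv_of_mul_eq_one_left (hvx x)
      simp only [ContinuousMap.neg_apply, ContinuousMap.mul_apply, e3]
      have := hne x
      field_simp
    rw [e2, e1]; exact h2
  · have h1 := hvx (x + 2 * π)
    rw [G.hv.p] at h1
    exact mul_right_cancel₀ (hne x) (h1.trans (hvx x).symm)

lemma P1.unique {f f' f'' : R1} (h1 : P1 f f') (h2 : P1 f f'') : f' = f'' := by
  ext x; exact (h1.h x).unique (h2.h x)

lemma P1.congr {f f' g g' : R1} (h : P1 f f') (h1 : f = g) (h2 : f' = g') : P1 g g' := by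
  subst h1; subst h2; exact h

lemma P1.const (r : ℝ) : P1 (ContinuousMap.const _ r) 0 :=
  ⟨fun x => hasDerivAt_const x r, fun x => rfl⟩

/-- decomposition of a steady flow -/
lemma decompose (hb : Bds G p K ε wp vi q mux muy mhx mhy) (hmhx : PD mhx mhxx mhxy)
    (hs : Steady G a cc ax ay cy om omx omy B) :
    ∃ (m β₂ : ℝ) (g g' : R1) (f fx fy fxx fxy fyy : R),
      Sol G (1 + m) β₂ g g' f fx fy fxx fxy fyy (om - (1 + m) • oX G.Om) B ∧ I1 g = 0 ∧
      |m| ≤ 71 * K * (nn (a - oX G.v) + nn cc) := by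
  obtain ⟨Ψ, β₁, β₂, hΨ, hΨ0, hβ⟩ := hs.pot
  have hvi1 := vi_P1 hb
  have hviv : oX vi * oX G.v = 1 := by rw [← oX_mul, hb.hvi, oX_one]
  set Ψx := a - oX G.v - ContinuousMap.const _ β₁ with hΨx
  have hΨxPD : PD Ψx (ax - oX G.w * oX G.v - 0) (ay - 0) := hs.hA.sub (PD.const β₁)
  rw [sub_zero, sub_zero] at hΨxPD
  have hΨyPD : PD (cc - ContinuousMap.const _ β₂) (ay - 0) (cy - 0) := hs.hc.sub (PD.const β₂)
  rw [sub_zero, sub_zero] at hΨyPD
  have h1mh : PD (1 + G.mh) (0 + mhx) (0 + mhy) := PD.one.add hb.hmh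
  rw [zero_add, zero_add] at h1mh
  have hr1 := (h1mh.mul hΨ).mean
  set r := mR ((1 + G.mh) * Ψ) with hr
  set r' := mR (mhx * Ψ + (1 + G.mh) * Ψx) with hr'
  have hr2 := ((hmhx.mul hΨ).add (h1mh.mul hΨxPD)).mean
  set r'' := mR (mhxx * Ψ + mhx * Ψx + (mhx * Ψx + (1 + G.mh) * (ax - oX G.w * oX G.v)))
    with hr''
  have hs1 : P1 ((ContinuousMap.const _ β₁ + r') * vi)
      ((0 + r'') * vi + (ContinuousMap.const _ β₁ + r') * (-(G.w * vi))) :=
    ((P1.const β₁).add hr2).mul hvi1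
  set s := (ContinuousMap.const _ β₁ + r') * vi with hsdef
  set s' := (0 + r'') * vi + (ContinuousMap.const _ β₁ + r') * (-(G.w * vi)) with hs'
  set m := (2 * π)⁻¹ * I1 s with hm
  have hg : P1 (s - ContinuousMap.const _ m) (s' - 0) := hs1.sub (P1.const m)
  rw [sub_zero] at hg
  have hf : PD (Ψ - oX r) (Ψx - oX r') (cc - ContinuousMap.const _ β₂ - 0) := hΨ.sub hr1.toPD
  rw [sub_zero] at hf
  have hfx : PD (Ψx - oX r') (ax - oX G.w * oX G.v - oX r'') (ay - 0) := hΨxPD.sub hr2.toPD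
  rw [sub_zero] at hfx
  have evs : oX G.v * oX s = ContinuousMap.const _ β₁ + oX r' := by
    rw [hsdef, oX_mul]
    have : oX (ContinuousMap.const ℝ β₁ + r') = ContinuousMap.const _ β₁ + oX r' := rfl
    rw [this]
    linear_combination (exp := 1) (ContinuousMap.const _ β₁ + oX r') * hviv
  have evs' : oX G.v * oX s' = oX r'' - oX G.w * (ContinuousMap.const _ β₁ + oX r') := by
    rw [hs', oX_add, oX_mul, oX_mul, oX_neg, oX_mul, oX_add, oX_zero]
    have : oX (ContinuousMap.const ℝ β₁ + r') = ContinuousMap.const _ β₁ + oX r' := rfl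
    rw [this]
    linear_combination (exp := 1) (oX r'' - oX G.w * (ContinuousMap.const _ β₁ + oX r')) * hviv
  have eg : oX (s - ContinuousMap.const ℝ m) = oX s - ContinuousMap.const _ m := rfl
  have hsm : ∀ (r : ℝ) (a : R), r • a = ContinuousMap.const _ r * a := by
    intro r a; ext z; simp
  have hc1 : (ContinuousMap.const (ℝ × ℝ) (1 + m)) = 1 + ContinuousMap.const _ m := by
    ext z; simp
  have ea : (1 + m) • oX G.v + oX G.v * oX (s - ContinuousMap.const ℝ m) + (Ψx - oX r') = a := by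
    rw [eg, hsm, hc1, hΨx]
    linear_combination (exp := 1) evs
  have ec : cc - ContinuousMap.const _ β₂ + β₂ • (1 : R) = cc := by
    rw [hsm, mul_one, sub_add_cancel]
  refine ⟨m, β₂, s - ContinuousMap.const _ m, s', Ψ - oX r, Ψx - oX r',
    cc - ContinuousMap.const _ β₂, ax - oX G.w * oX G.v - oX r'', ay, cy,
    ⟨hg, hf, hfx, hΨyPD, ?_, ?_, ?_⟩, ?_, ?_⟩
  · have h1 := hs.hmu
    have h2 := G.hmu
    rw [eg]
    simp only [Geo.Df, Geo.DY, hsm, hc1] at h1 ⊢
    have h2s : (ContinuousMap.const (ℝ × ℝ) (2 : ℝ)) = 1 + 1 := by ext z; simp; norm_num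
    rw [h2s]
    have ea' := ea
    rw [eg, hsm, hc1] at ea'
    linear_combination (exp := 1) h1
      - (oX s + 1) * h2 + (-1) * evs' + (-(oX G.w * G.mh)) * ea' - oX G.w * evs
  · rw [ea, ec]
    have e : (1 + m) • oX G.Om + (om - (1 + m) • oX G.Om) = om := by abel
    rw [e]
    exact hs.hB
  · have e : (1 + G.mh) * (Ψ - oX r) = (1 + G.mh) * Ψ - (oX r + oX r * G.mh) := by ring
    rw [e, mR_sub, mR_add, mR_oX, mR_oX_mul, G.hmh0, mul_zero, add_zero, ← hr, sub_self]
  · rw [I1_sub_const, hm]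
    field_simp
    ring
  · -- bound for m
    have b1 := const_le hΨ.intx
    have b2 := const_le hΨ.inty
    have nA := nn_nonneg (a - oX G.v)
    have nc := nn_nonneg cc
    have hpi3 : 3 < π := Real.pi_gt_three
    have hpi4 : 2 * π ≤ 7 := by linarith [Real.pi_lt_d2]
    have hK := hb.hK
    have c1 : |m| ≤ nn (oX s) := by
      have h1 := II_le_nn (oX s) 1
      rw [mul_one, II_oX, nn_one] at h1
      have h2 : 2 * π * |I1 s| ≤ nn (oX s) * (2 * π) := by
        rwa [abs_mul, abs_of_pos (show (0:ℝ) < 2 * π by positivity)] at h1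
      have h3 : |I1 s| ≤ nn (oX s) := by
        have h4 : (0:ℝ) < 2 * π := by positivity
        rw [mul_comm] at h2
        exact le_of_mul_le_mul_right h2 h4
      rw [hm, abs_mul, abs_of_pos (show (0:ℝ) < (2 * π)⁻¹ by positivity)]
      have h5 : (2 * π)⁻¹ ≤ 1 := by
        apply inv_le_one_of_one_le₀; linarith
      calc (2 * π)⁻¹ * |I1 s| ≤ 1 * |I1 s| := mul_le_mul_of_nonneg_right h5 (abs_nonneg _)
        _ ≤ nn (oX s) := by linarith
    have c2 : nn (oX s) ≤ K * (7 * nn (a - oX G.v) + nn (oX r')) := by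
      have h1 := (Bd.oX hb.bvi).nn (ContinuousMap.const _ β₁ + oX r')
      have e : oX vi * (ContinuousMap.const _ β₁ + oX r') = oX s := by
        rw [hsdef, oX_mul, mul_comm]
        rfl
      rw [e] at h1
      have h2 := nn_add_le (ContinuousMap.const _ β₁) (oX r')
      rw [nn_const] at h2
      have h3 : 2 * π * |β₁| ≤ 7 * nn (a - oX G.v) :=
        mul_le_mul hpi4 b1 (abs_nonneg _) (by norm_num)
      have h4 := mul_le_mul_of_nonneg_left (h2.trans (add_le_add h3 le_rfl)) hb.K0.le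
      linarith
    have p1 := poincare2 hΨ hΨ0
    have p2 := nn_sub_le (a - oX G.v) (ContinuousMap.const _ β₁)
    have p3 := nn_sub_le cc (ContinuousMap.const _ β₂)
    rw [nn_const] at p2 p3
    have p2a : 2 * π * |β₁| ≤ 7 * nn (a - oX G.v) :=
      mul_le_mul hpi4 b1 (abs_nonneg _) (by norm_num)
    have p3a : 2 * π * |β₂| ≤ 7 * nn cc := mul_le_mul hpi4 b2 (abs_nonneg _) (by norm_num)
    have p4 : nn Ψx ≤ 8 * nn (a - oX G.v) := by rw [hΨx]; linarith
    have p5 : nn Ψ ≤ 104 * (nn (a - oX G.v) + nn cc) := by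
      have h14 : nn Ψx + nn (cc - ContinuousMap.const _ β₂)
          ≤ 8 * (nn (a - oX G.v) + nn cc) := by linarith
      have h15 : 4 * π ≤ 13 := by linarith [Real.pi_lt_d2]
      have h16 : 4 * π * (nn Ψx + nn (cc - ContinuousMap.const _ β₂))
          ≤ 13 * (8 * (nn (a - oX G.v) + nn cc)) :=
        mul_le_mul h15 h14 (add_nonneg (nn_nonneg _) (nn_nonneg _)) (by norm_num)
      linarith
    have c3 : nn (oX r') ≤ 1 / 2 * nn Ψ + 3 / 2 * nn Ψx := by
      refine (nn_mR_le _).trans ((nn_add_le _ _).trans (add_le_add ?_ ?_))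
      · exact (hb.bmhx.mono hb.hKε).nn Ψ
      · refine Bd.nn ?_ Ψx
        refine (Bd.one.add (hb.bmh.mono hb.hKε)).mono ?_
        norm_num
    have c4 : nn (oX r') ≤ 64 * (nn (a - oX G.v) + nn cc) := by linarith
    have c5 : 7 * nn (a - oX G.v) + nn (oX r') ≤ 71 * (nn (a - oX G.v) + nn cc) := by linarith
    have c6 := mul_le_mul_of_nonneg_left c5 hb.K0.le
    linarith

/-- rigidity -/
theorem rigid (hb : Bds G p K ε wp vi q mux muy mhx mhy) (hmhx : PD mhx mhxx mhxy)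
    (hl : Lead G p K ε η c₁ wp m1 H1 RM RMx RMy RH RHx RHy)
    (hx : Aux G N Nx Nxx mhx mhy wp χ0 χ1 χ2)
    (hQ0 : II (oX G.Om * G.Q) + II (G.DY * (G.k * oX G.v)) = 0) :
    ∃ δ₀ : ℝ, 0 < δ₀ ∧ ∀ a cc ax ay cy om omx omy B : R,
      Steady G a cc ax ay cy om omx omy B → Bd (om - oX G.Om) δ₀ →
      Bd (omx - oX G.Om') δ₀ → Bd omy δ₀ → ∃ c : ℝ, c ≠ 0 ∧ om = c • oX G.Om := by
  have hK := hb.hK
  have hK0 := hb.K0
  have hε := hb.hε
  obtain ⟨C, hC, hap⟩ := apriori (K := K) (by linarith) hb.bmu (hb.bbt'.mono (by linarith))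
    hb.hn hb.hn1 hx
  obtain ⟨L, hL⟩ : ∃ L : ℝ, L = 1 + 142 * K ^ 2 * C := ⟨_, rfl⟩
  have hL1 : 1 ≤ L := by rw [hL]; have : 0 ≤ 142 * K ^ 2 * C := by positivity
                         linarith
  have hL2 : 142 * K * C ≤ L := by
    rw [hL]
    have h1 : 142 * K * C ≤ 142 * K ^ 2 * C := by
      have : K ≤ K ^ 2 := by nlinarith
      have : 142 * C * K ≤ 142 * C * K ^ 2 := mul_le_mul_of_nonneg_left this (by positivity)
      linarith
    linarith
  have hL3 : C ≤ L := by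
    have h1 : C ≤ 142 * K * C := by
      have : 1 ≤ 142 * K := by linarith
      nlinarith
    linarith
  -- δ₀ = min (1/2) (ε^2) / L
  obtain ⟨d, hd⟩ : ∃ d : ℝ, d = min (1 / 2) (ε ^ 2) := ⟨_, rfl⟩
  have hd0 : 0 < d := by rw [hd]; exact lt_min (by norm_num) (by positivity)
  have hd1 : d ≤ 1 / 2 := by rw [hd]; exact min_le_left _ _
  have hd2 : d ≤ ε ^ 2 := by rw [hd]; exact min_le_right _ _
  have hLp : 0 < L := by linarith
  refine ⟨d / L, by positivity, ?_⟩
  intro a cc ax ay cy om omx omy B hs b1 b2 b3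
  obtain ⟨δ, hδ⟩ : ∃ δ : ℝ, δ = d / L := ⟨_, rfl⟩
  rw [← hδ] at b1 b2 b3
  have hδ0 : 0 < δ := by rw [hδ]; positivity
  have hLδ : L * δ = d := by rw [hδ]; field_simp
  have hCδ : C * δ ≤ 1 / 2 := by
    have : C * δ ≤ L * δ := mul_le_mul_of_nonneg_right hL3 hδ0.le
    linarith
  have hX := hap a cc ax ay cy om omx omy B δ hs hδ0.le b1 b2 b3 hCδ
  obtain ⟨m, β₂, g, g', f, fx, fy, fxx, fxy, fyy, hsol, hg0, hm⟩ := decompose hb hmhx hs
  have hm2 : |m| ≤ 142 * K * C * δ := by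
    have : 71 * K * (nn (a - oX G.v) + nn cc) ≤ 71 * K * (2 * C * δ) :=
      mul_le_mul_of_nonneg_left hX (by positivity)
    linarith
  have hm3 : |m| ≤ 1 / 2 := by
    have : 142 * K * C * δ ≤ L * δ := mul_le_mul_of_nonneg_right hL2 hδ0.le
    linarith
  have hc : 1 / 2 ≤ |1 + m| := by
    have h1 := (abs_le.mp hm3).1
    rw [abs_of_nonneg (by linarith)]
    linarith
  have hζ : Bd (om - (1 + m) • oX G.Om) d := by
    have e : om - (1 + m) • oX G.Om = (om - oX G.Om) - m • oX G.Om := by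
      rw [add_smul, one_smul]; abel
    rw [e]
    refine (b1.sub ((Bd.oX hb.bOm).smul m)).mono ?_
    have h1 : |m| * K ≤ 142 * K * C * δ * K := mul_le_mul_of_nonneg_right hm2 hK0.le
    have h2 : L * δ = δ + 142 * K ^ 2 * C * δ := by rw [hL]; ring
    linarith
  obtain ⟨h1, h2, h3⟩ := hsol.main hb hl hc hζ hd2 hg0 hQ0
  have hf0 : f = 0 := by
    refine nn_zero hsol.hf (le_antisymm ?_ (nn_nonneg f))
    have := le_SS3_1 f fx fy
    linarith
  have hfx0 := hsol.hf.zero_of hf0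
  have hfxx0 := hsol.hx.zero_of hfx0.1
  have hfyy0 := hsol.hy.zero_of hfx0.2
  have hgo0 : oX g = 0 := nn_zero hsol.hg.toPD h1
  have hg'0 : oX g' = 0 := (hsol.hg.toPD.zero_of hgo0).1
  have hz := hsol.hζ
  rw [hgo0, hg'0, h3, hfx0.1, hfx0.2, hfxx0.1, hfxx0.2, hfyy0.2] at hz
  have hz0 : G.mu * (om - (1 + m) • oX G.Om) = 0 := by
    rw [hz]
    simp [Geo.Df]
  have hζ0 : om - (1 + m) • oX G.Om = 0 := by
    ext ⟨x, y⟩
    have h4 := congrArg (fun r : R => r (x, y)) hz0
    simp only [ContinuousMap.mul_apply, ContinuousMap.zero_apply] at h4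
    rcases mul_eq_zero.mp h4 with h5 | h5
    · exfalso
      rw [G.hmuM] at h5
      simp only [ContinuousMap.mul_apply, ContinuousMap.add_apply, ContinuousMap.one_apply,
        oX_apply] at h5
      have h6 := G.hM x
      have h7 := (abs_le.mp ((hb.bmh x y).trans hb.hKε)).1
      have h8 : 0 < G.M x * (1 + G.mh (x, y)) := mul_pos h6 (by linarith)
      linarith
    · rw [h5]; rfl
  refine ⟨1 + m, ?_, sub_eq_zero.mp hζ0⟩
  intro h4
  rw [h4] at hc
  norm_num at hc

end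

end Run7.h117
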