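import Mathlib
import Pool.Agent.Run7.h117.Rigid
import Pool.Agent.Run7.h117.Bounds4
import Pool.Agent.Run7.h117.AuxB
import Pool.Agent.Run7.h117.L1R

/-!
Assembly.
-/

open Real MeasureTheory intervalIntegral

namespace Run7.h117

/-- the constants -/
lemma num_z {C D K η c₁ : ℝ} (hC : 10 ≤ C) (hDC : C ≤ D) (hKD : 100 * D ≤ K) (hc₁' : c₁ ≤ 1)
    (hη0 : 0 < η) (hηK : 20000 * C * D * K ^ 32 * η = c₁) :
    20000 * C * D * η ≤ 1 ∧ 10000 * C ^ 2 * η ≤ 1 ∧ 1000 * D * η ≤ 1 ∧ K * η ≤ 1 / 2 ∧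
      η ≤ 20000 * C * D * η := by
  have hK1 : 1 ≤ K := by linarith
  have hC0 : 0 < C := by linarith
  have hD0 : 0 < D := by linarith
  have hK32 : 1 ≤ K ^ 32 := one_le_pow₀ hK1
  have hK32' : K ≤ K ^ 32 := by
    calc K = K ^ 1 := (pow_one K).symm
      _ ≤ K ^ 32 := pow_le_pow_right₀ hK1 (by norm_num)
  have h20 : 20000 * C * D * η ≤ 1 := by
    have : 20000 * C * D * η * 1 ≤ 20000 * C * D * η * K ^ 32 :=
      mul_le_mul_of_nonneg_left hK32 (by positivity)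
    linarith
  have hCD : 100 ≤ C * D := by
    calc (100 : ℝ) = 10 * 10 := by norm_num
      _ ≤ C * D := mul_le_mul hC (hC.trans hDC) (by norm_num) hC0.le
  refine ⟨h20, ?_, ?_, ?_, ?_⟩
  · have h1 : C * C ≤ C * D := mul_le_mul_of_nonneg_left hDC hC0.le
    have h2 := mul_le_mul_of_nonneg_right h1 hη0.le
    have h3 : 0 ≤ C * D * η := by positivity
    linarith
  · have h1 : 1 * D ≤ C * D := mul_le_mul_of_nonneg_right (by linarith) hD0.le
    have h2 := mul_le_mul_of_nonneg_right h1 hη0.le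
    have h3 : 0 ≤ C * D * η := by positivity
    linarith
  · have h1 : 1 * K ^ 32 ≤ (C * D) * K ^ 32 :=
      mul_le_mul_of_nonneg_right (by linarith) (by positivity)
    have h2 := mul_le_mul_of_nonneg_right (hK32'.trans ((one_mul (K ^ 32)).symm.le.trans h1)) hη0.le
    linarith
  · have h2 := mul_le_mul_of_nonneg_right hCD hη0.le
    linarith

/-- the main theorem, from the pieces at fixed parameters -/
theorem main_fixed {b p n t₀ c₀ C₀ : ℝ} (hb : 0 < b) (hb1 : b ≤ 1 / 10) (hp : 0 < p)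
    (hp1 : p ≤ 1 / 4) (hn : 0 < n) (hn1 : n ≤ 1) (ht₀ : |t₀| ≤ 1) {κ₀ : ℝ → ℝ → ℝ}
    (hκ : Sp κ₀) (hc₀ : 0 < c₀) (hC₀ : 0 < C₀) (hL : L1C b p n t₀ c₀ C₀ κ₀)
    (hB : ∀ η > 0, ∃ ε t : ℝ, 0 < ε ∧ ε < η ∧ |t - t₀| < η ∧
          ∃ (κ : ℝ → ℝ → ℝ) (lam M : ℝ → ℝ), BaseData b p n ε t κ lam M ∧
            Close η κ κ₀ ∧ ∀ x, |lam x - 1| ≤ η * ε) :
    ∃ (G : Metric) (ω : ℝ → ℝ → ℝ), G.IsSteadyVorticity ω ∧ CD (⊤ : ℕ∞) ω ∧ Per ω ∧
      (∃ x y, ω x y ≠ ω 0 0) ∧ ∃ δ > 0, ∀ ω' : ℝ → ℝ → ℝ, G.IsSteadyVorticity ω' → CD 1 ω' →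
        (∀ x y, |ω' x y - ω x y| ≤ δ ∧ |dx ω' x y - dx ω x y| ≤ δ ∧
          |dy ω' x y - dy ω x y| ≤ δ) →
        ∃ c : ℝ, c ≠ 0 ∧ ∀ x y, ω' x y = c * ω x y := by
  obtain ⟨C, hfix⟩ := exists_fix hb hb1 hp (by linarith) hn hn1 t₀ hκ
  have hC10 := hfix.hC
  have hO := Pert.O0_pos hb
  obtain ⟨D, hDdef⟩ : ∃ D, D = C + 8000 * C / Pert.O0 b := ⟨_, rfl⟩
  have hq : 0 < 8000 * C / Pert.O0 b := by positivity
  have hDC : C ≤ D := by rw [hDdef]; linarith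
  have hDO : 8000 * C ≤ D * Pert.O0 b := by
    rw [hDdef, add_mul, div_mul_cancel₀ _ hO.ne']
    have : 0 ≤ C * Pert.O0 b := by positivity
    linarith
  obtain ⟨K, hKdef⟩ : ∃ K, K = 100 * D + 1 / n + (3 * C₀ + 1) := ⟨_, rfl⟩
  have hn' : 0 < 1 / n := by positivity
  have hKD : 100 * D ≤ K := by rw [hKdef]; linarith
  have hKn : 1 ≤ K * n := by
    have : 1 / n ≤ K := by rw [hKdef]; linarith
    have := mul_le_mul_of_nonneg_right this hn.le
    rwa [one_div, inv_mul_cancel₀ hn.ne'] at this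
  have hKC : 3 * C₀ + 1 ≤ K := by rw [hKdef]; linarith
  obtain ⟨c₁, hc₁def⟩ : ∃ c₁, c₁ = min 1 (c₀ / (2 * π)) := ⟨_, rfl⟩
  have hc₁ : 0 < c₁ := by rw [hc₁def]; exact lt_min (by norm_num) (by positivity)
  have hc₁' : c₁ ≤ 1 := by rw [hc₁def]; exact min_le_left _ _
  have hK1 : 1 ≤ K := by linarith
  have hC0 : 0 < C := by linarith
  have hD0 : 0 < D := by linarith
  have hK0 : 0 < K := by linarith
  obtain ⟨η, hη⟩ : ∃ η, η = c₁ / (20000 * C * D * K ^ 32) := ⟨_, rfl⟩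
  have hη0 : 0 < η := by rw [hη]; positivity
  have hηK : 20000 * C * D * K ^ 32 * η = c₁ := by rw [hη]; field_simp
  obtain ⟨h20, hCη, hDη, hKη, hηCD⟩ := num_z hC10 hDC hKD hc₁' hη0 hηK
  have hη1 : η ≤ 1 := by
    have : 1 * η ≤ K * η := mul_le_mul_of_nonneg_right hK1 hη0.le
    linarith
  obtain ⟨ε, t, hε, hεη, ht, κ, lam, M, hbd, hcl, hlam⟩ := hB η hη0
  have h : Pert b p n t₀ C κ₀ η ε t κ lam M :=
    ⟨hfix, hbd, hε, hεη.le, ht.le, hcl, hlam, hCη⟩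
  have hDc : Pert.DC b C η D := ⟨hDO, hDC, hDη⟩
  have hKε : K * ε ≤ 1 / 2 := by
    have : K * ε ≤ K * η := mul_le_mul_of_nonneg_left hεη.le hK0.le
    linarith
  have hbds := h.bds hDc hKD hKn hKε
  obtain ⟨RHx, RHy, r1, r2, r3⟩ := h.smRH hDc
  have hzM := h.RM_z
  have hlead : Lead (h.bp.geo h.s) p K ε (20000 * C * D * η) c₁ (toR1 (ww' b))
      (toR (m1 b p t₀)) (Pert.H1R b p t₀ κ₀)
      (toR (fun x y => ε * (m1 b p t x y - m1 b p t₀ x y)))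
      (toR (dx (fun x y => ε * (m1 b p t x y - m1 b p t₀ x y))))
      (toR (dy (fun x y => ε * (m1 b p t x y - m1 b p t₀ x y))))
      ((h.bp.geo h.s).H - ε • Pert.H1R b p t₀ κ₀) RHx RHy := by
    have hCD1 : 1 ≤ 20000 * D := by linarith
    have hCη' : C * (η * ε) ≤ 20000 * C * D * η * ε := by
      have h1 : C * 1 ≤ C * (20000 * D) := mul_le_mul_of_nonneg_left hCD1 hC0.le
      have := mul_le_mul_of_nonneg_right h1 (mul_nonneg hη0.le hε.le)
      linarith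
    refine
      { hc₁ := hc₁
        hc₁' := hc₁'
        hη := by rw [← hηK]; linarith
        hεη := ?_
        hRM := h.RM_eq
        hRMPD := h.RM_PD
        bRM := fun x y => by rw [hzM.sp.ap]; exact (hzM.b0 x y).trans hCη'
        bRMx := fun x y => by rw [hzM.sp.dx.ap]; exact (hzM.bx x y).trans hCη'
        hRH := by abel
        hRHPD := r1
        bRH := r2.mono (by linarith)
        bRHx := r3.mono (by linarith)
        L1 := ?_ }
    · exact hεη.le.trans hηCD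
    · intro g g' hg hg0
      obtain ⟨T, Tx, Ty, Txx, Txy, Tyy, q1, q2, q3, q4, q5, q6, q7⟩ :=
        L1_R hκ hc₀ hC₀ hL hg hg0
      refine ⟨T, Tx, Ty, Txx, Txy, Tyy, q1, q2, q3, q4, q5, ?_, ?_⟩
      · exact q6.trans (mul_le_mul_of_nonneg_right hKC (nn_nonneg _))
      · rw [hc₁def]; exact q7
  have ht2 : |t| ≤ 2 := by
    have h1 : t = t₀ + (t - t₀) := by ring
    rw [h1]
    exact (abs_add_le _ _).trans (by linarith)
  obtain ⟨N, Nx, Nxx, χ0, χ1, χ2, haux⟩ := h.bp.aux hb hε hp hp1 ht2 h.s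
  obtain ⟨δ₀, hδ₀, hrig⟩ := rigid hbds h.bp.smh.dx.toPD hlead haux h.hQ0
  have hcomp := h.bp.compat h.s
  obtain ⟨u, q, hu, hcurl⟩ := h.bp.base_steady hcomp.md
  have hsOm := h.bp.sOm
  refine ⟨hcomp.md.met, fun x _ => fOm b M x, ⟨u, q, hu, hcurl⟩, hsOm.toSp.cd, hsOm.toSp.per,
    ⟨π / 2, 0, ?_⟩, δ₀, hδ₀, ?_⟩
  · show fOm b M (π / 2) ≠ fOm b M 0
    have h00 : fOm b M 0 = 0 := by unfold fOm ww; simp
    rw [h00]
    unfold fOm ww
    rw [Real.sin_pi_div_two]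
    have h3 := (vv_pos b (π / 2)).ne'
    have h4 := (h.M_pos (π / 2)).ne'
    have hb' : b / 2 ≠ 0 := by linarith
    exact div_ne_zero (mul_ne_zero (mul_ne_zero (neg_ne_zero.mpr hb') one_ne_zero) h3) h4
  · rintro ω' ⟨u', q', hu', hcurl'⟩ hω1 hclose
    obtain ⟨a, cc, ax, ay, cy, B, hst⟩ := hcomp.steady hu' hcurl' hω1
    have cdx : Continuous (fun z : ℝ × ℝ => dx ω' z.1 z.2) :=
      (hω1.dx (by simp : (0 : WithTop ℕ∞) + 1 ≤ 1)).cont
    have cdy : Continuous (fun z : ℝ × ℝ => dy ω' z.1 z.2) :=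
      (hω1.dy (by simp : (0 : WithTop ℕ∞) + 1 ≤ 1)).cont
    obtain ⟨c, hc, heq⟩ := hrig a cc ax ay cy (toR ω') (toR (dx ω')) (toR (dy ω')) B hst
      (fun x y => by
        show |toR ω' (x, y) - toR1 (fOm b M) x| ≤ δ₀
        rw [toR_apply hω1.cont, hsOm.ap]; exact (hclose x y).1)
      (fun x y => by
        show |toR (dx ω') (x, y) - toR1 (deriv (fOm b M)) x| ≤ δ₀
        rw [toR_apply cdx, hsOm.deriv.ap]; exact (hclose x y).2.1)
      (fun x y => by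
        rw [toR_apply cdy]
        have h1 := (hclose x y).2.2
        have h2 : dy (fun x (_ : ℝ) => fOm b M x) x y = 0 := deriv_const y (fOm b M x)
        rwa [h2, sub_zero] at h1)
    refine ⟨c, hc, fun x y => ?_⟩
    have h1 := congrArg (fun r : R => r (x, y)) heq
    have h2 : toR ω' (x, y) = c * toR1 (fOm b M) x := h1
    rw [toR_apply hω1.cont, hsOm.ap] at h2
    exact h2

end Run7.h117
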