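import Mathlib
import Pool.Agent.Run7.h117.Main
import Pool.Agent.Run7.h99.WB.PieceB
import Pool.Agent.Run7.h998.EL.L1b
import Pool.Agent.Run7.h998.EL.L2b

/-!
The final assembly: choice of the parameters.
-/

open Real MeasureTheory intervalIntegral

namespace Run7.h117

theorem final :
    ∃ (G : Metric) (ω : ℝ → ℝ → ℝ), G.IsSteadyVorticity ω ∧ CD (⊤ : ℕ∞) ω ∧ Per ω ∧
      (∃ x y, ω x y ≠ ω 0 0) ∧ ∃ δ > 0, ∀ ω' : ℝ → ℝ → ℝ, G.IsSteadyVorticity ω' → CD 1 ω' →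
        (∀ x y, |ω' x y - ω x y| ≤ δ ∧ |dx ω' x y - dx ω x y| ≤ δ ∧
          |dy ω' x y - dy ω x y| ≤ δ) →
        ∃ c : ℝ, c ≠ 0 ∧ ∀ x y, ω' x y = c * ω x y := by
  obtain ⟨b, hbdef⟩ : ∃ b : ℝ, b = 1 / 100 := ⟨_, rfl⟩
  have hb : 0 < b := by rw [hbdef]; norm_num
  have hb1 : b ≤ 1 / 100 := hbdef.le
  have hb10 : b ≤ 1 / 10 := by rw [hbdef]; norm_num
  obtain ⟨p₁, hp₁, H1⟩ := Run7.h998.EL.pieceL1 b hb hb1
  obtain ⟨p₂, hp₂, H2⟩ := Run7.h998.EL.pieceL2 b hb hb1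
  obtain ⟨p, hpdef⟩ : ∃ p, p = min p₁ (min p₂ (1 / 4)) / 2 := ⟨_, rfl⟩
  have hm : 0 < min p₁ (min p₂ (1 / 4)) := lt_min hp₁ (lt_min hp₂ (by norm_num))
  have hp : 0 < p := by rw [hpdef]; linarith
  have hpm : p < min p₁ (min p₂ (1 / 4)) := by rw [hpdef]; linarith
  have hpp1 : p < p₁ := hpm.trans_le (min_le_left _ _)
  have hpp2 : p < p₂ := hpm.trans_le ((min_le_right _ _).trans (min_le_left _ _))
  have hpp4 : p < 1 / 4 := hpm.trans_le ((min_le_right _ _).trans (min_le_right _ _))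
  obtain ⟨n₁, hn₁, H1'⟩ := H1 p hp hpp1
  obtain ⟨n₂, hn₂, H2'⟩ := H2 p hp hpp2
  obtain ⟨n, hndef⟩ : ∃ n, n = min n₁ (min n₂ 1) / 2 := ⟨_, rfl⟩
  have hm' : 0 < min n₁ (min n₂ 1) := lt_min hn₁ (lt_min hn₂ (by norm_num))
  have hn : 0 < n := by rw [hndef]; linarith
  have hnm : n < min n₁ (min n₂ 1) := by rw [hndef]; linarith
  have hnn1 : n < n₁ := hnm.trans_le (min_le_left _ _)
  have hnn2 : n < n₂ := hnm.trans_le ((min_le_right _ _).trans (min_le_left _ _))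
  have hnn3 : n < 1 := hnm.trans_le ((min_le_right _ _).trans (min_le_right _ _))
  obtain ⟨κa, κb, hlin, hB⟩ := Run7.h99.WB.pieceB b p n hb hb10 hp hn
  obtain ⟨hneg, hpos, hder⟩ := H2' n hn hnn2 κa κb hlin
  -- intermediate value theorem
  have hcont : ContinuousOn (fun t : ℝ => CC b p t (fun x y => κa x y + t * κb x y))
      (Set.Icc 0 (3 * b / 4)) := fun t ht =>
    (differentiableAt_of_deriv_ne_zero (hder t ht.1 ht.2)).continuousAt.continuousWithinAt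
  have h0 : CC b p 0 (fun x y => κa x y + 0 * κb x y) < 0 := by
    have e : (fun x y => κa x y + 0 * κb x y) = κa := by funext x y; ring
    rw [e]; exact hneg
  obtain ⟨t₀, ht₀, hF⟩ := intermediate_value_Icc (by positivity : (0:ℝ) ≤ 3 * b / 4) hcont
    (show (0:ℝ) ∈ Set.Icc _ _ from ⟨h0.le, hpos.le⟩)
  obtain ⟨c, C, hc, hC, hL⟩ := H1' n hn hnn1 t₀ ht₀.1 ht₀.2 _ (hlin t₀)
  have hs : Sp (fun x y => κa x y + t₀ * κb x y) := ⟨(hlin t₀).smooth, (hlin t₀).per⟩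
  have ht1 : |t₀| ≤ 1 := by
    rw [abs_of_nonneg ht₀.1]
    have := ht₀.2
    linarith
  exact main_fixed hb hb10 hp hpp4.le hn hnn3.le ht1 hs hc hC hL
    (hB t₀ hF (hder t₀ ht₀.1 ht₀.2))

end Run7.h117
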